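import Pool.Agent.P3F.AffDefs
import Pool.Agent.LPG.TopA
import Pool.Agent.LPG.TopB
import Pool.Agent.LPG.Main2

/-!
# Homogeneous coordinates (MP_a5fcbe_co, module Aff)

`full_hom`: `LPG.poly_hom`; `finrank (Eu 3 × ℝ) = 4`; the span is `⊤`: as in the proof of `LPG.dim_hom` (every `hom x` is in
`lin V` by `LPG.mem_lin`, and `(y, c) = hom y - hom 0 + c • hom 0`).

`of_full_hom`: the converse: if `Full (V.map (homE 3))` then `IsPoly3 V`.  Convex position: the functional `f` of
`hom v` has `f (hom v) = 0`, `f (hom w) > 0`; `x ↦ f (hom x)` is affine (`f (hom x) = f (x, 0) + f (0, 1)`), so it is `> 0` on the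
convex hull of `V \ {v}` (the set `{x | 0 < f (hom x)}` is convex: `convexHull_min`).  Affine span: by `LPG.mem_lin` every
`x` is in `affineSpan V`, as `lin V = ⊤`.

`facet_hom`: `f v ≤ c` on `V` corresponds to the functional `(x, t) ↦ c t - f x`; conversely a functional `g` gives
`f x = - g (x, 0)`, `c = g (0, 1)`.  Ranks: for nonempty `F`, `finrank (span (hom '' F)) = finrank (vectorSpan F) + 1`
(`rank_hom`): the map `(x, t) ↦ t` on `span (hom '' F)` is onto `ℝ`, with kernel `vectorSpan F × 0` (`(x, 0) = ∑ c v • hom v` with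
`∑ c v = 0`; `mem_vectorSpan_iff...`, or fix `v₀ ∈ F`: `span (hom '' F) = span {hom v₀} ⊔ (vectorSpan F).map inl`, a
disjoint sum, since `hom v = hom v₀ + (v - v₀, 0)`; `vectorSpan_eq_span_vsub_set_right`).  The empty set has rank `0` on both sides, and
`0 ≠ 2`, `0 ≠ 3`.

`fac_map`: every facet of `V.map (homE 3)` is `F.map (homE 3)` for a facet `F` of `V` (`F ⊆ V.map`, `Finset.subset_map_iff`).

`pk_eq`: `pk V k = ((Fac (V.map (homE 3))).filter fun F => F.card = k).card` (bijection `F ↦ F.map (homE 3)`).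
-/

set_option autoImplicit false

namespace Pool.Agent.P3F

open Pool.Agent.LPG

theorem coe_mapE (F : Finset (Eu 3)) :
    ((F.map (homE 3) : Finset (Eu 3 × ℝ)) : Set (Eu 3 × ℝ)) = hom '' (F : Set (Eu 3)) := by
  rw [Finset.coe_map]
  rfl

theorem lin_top {V : Finset (Eu 3)} (h : affineSpan ℝ (V : Set (Eu 3)) = ⊤) :
    lin (V : Set (Eu 3)) = ⊤ := by
  have h2 : ∀ x : Eu 3, hom x ∈ lin (V : Set (Eu 3)) := by
    intro x
    refine (mem_lin _ x).2 ?_
    rw [h]
    exact AffineSubspace.mem_top ℝ (Eu 3) x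
  rw [eq_top_iff]
  rintro ⟨y, c⟩ _
  have e : ((y, c) : Eu 3 × ℝ) = hom y - hom 0 + c • hom 0 := by
    unfold hom
    ext <;> simp
  rw [e]
  exact Submodule.add_mem _ (Submodule.sub_mem _ (h2 y) (h2 0)) (Submodule.smul_mem _ _ (h2 0))

theorem fun_hom (f : Eu 3 × ℝ →ₗ[ℝ] ℝ) (x : Eu 3) : f (hom x) = f (x, 0) + f (0, 1) := by
  rw [← map_add]
  simp [hom]

theorem full_hom {V : Finset (Eu 3)} (h : IsPoly3 V) : Full (V.map (homE 3)) := by
  refine ⟨poly_hom h.1, ?_, ?_⟩
  · rw [Module.finrank_prod, finrank_euclideanSpace_fin, Module.finrank_self]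
  · rw [coe_mapE]
    exact lin_top h.2

theorem of_full_hom {V : Finset (Eu 3)} (h : Full (V.map (homE 3))) : IsPoly3 V := by
  constructor
  · intro v hv hc
    obtain ⟨f, -, h1, h2⟩ := h.poly.1 (hom v) (Finset.mem_map.2 ⟨v, hv, rfl⟩)
    have hsub : ((V : Set (Eu 3)) \ {v}) ⊆ {x | 0 < f (hom x)} := by
      rintro w ⟨hw, hwv⟩
      exact h2 (hom w) (Finset.mem_map.2 ⟨w, hw, rfl⟩) (fun e => hwv (hom_inj e))
    have hconv : Convex ℝ {x : Eu 3 | 0 < f (hom x)} := by
      intro x hx y hy a b ha hb hab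
      have hx' : 0 < f (hom x) := hx
      have hy' : 0 < f (hom y) := hy
      show 0 < f (hom (a • x + b • y))
      have e : (hom (a • x + b • y) : Eu 3 × ℝ) = a • hom x + b • hom y := by
        unfold hom
        rw [Prod.smul_mk, Prod.smul_mk, Prod.mk_add_mk, smul_eq_mul, smul_eq_mul, mul_one, mul_one,
          hab]
      rw [e, map_add, map_smul, map_smul, smul_eq_mul, smul_eq_mul]
      rcases ha.eq_or_lt with h0 | h0
      · subst h0
        rw [zero_add] at hab
        rw [hab]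
        linarith
      · have : 0 < a * f (hom x) := mul_pos h0 hx'
        have : 0 ≤ b * f (hom y) := mul_nonneg hb hy'.le
        linarith
    have h3 : (0 : ℝ) < f (hom v) := convexHull_min hsub hconv hc
    rw [h1] at h3
    exact lt_irrefl _ h3
  · rw [eq_top_iff]
    intro x _
    have h1 := h.span
    rw [coe_mapE] at h1
    have h2 : hom x ∈ lin (V : Set (Eu 3)) := by
      show hom x ∈ Submodule.span ℝ (hom '' (V : Set (Eu 3)))
      rw [h1]
      exact Submodule.mem_top
    exact (mem_lin _ x).1 h2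

theorem span_hom {F : Finset (Eu 3)} {v : Eu 3} (hv : v ∈ F) :
    Submodule.span ℝ (hom '' (F : Set (Eu 3))) =
      Submodule.span ℝ {hom v} ⊔
        (vectorSpan ℝ (F : Set (Eu 3))).map (LinearMap.inl ℝ (Eu 3) ℝ) := by
  apply le_antisymm
  · rw [Submodule.span_le]
    rintro _ ⟨w, hw, rfl⟩
    have e : (hom w : Eu 3 × ℝ) = hom v + LinearMap.inl ℝ (Eu 3) ℝ (w - v) := by
      unfold hom
      ext <;> simp
    rw [e]
    refine Submodule.add_mem_sup (Submodule.mem_span_singleton_self _)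
      (Submodule.mem_map_of_mem ?_)
    have h1 := vsub_mem_vectorSpan ℝ hw (Finset.mem_coe.2 hv)
    simpa using h1
  · refine sup_le ?_ ?_
    · rw [Submodule.span_singleton_le_iff_mem]
      exact Submodule.subset_span ⟨v, hv, rfl⟩
    · rw [Submodule.map_le_iff_le_comap, vectorSpan_eq_span_vsub_set_right ℝ (Finset.mem_coe.2 hv),
        Submodule.span_le]
      rintro _ ⟨w, hw, rfl⟩
      rw [SetLike.mem_coe, Submodule.mem_comap]
      have e : LinearMap.inl ℝ (Eu 3) ℝ (w -ᵥ v) = hom w - hom v := by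
        unfold hom
        ext <;> simp
      rw [e]
      exact Submodule.sub_mem _ (Submodule.subset_span ⟨w, hw, rfl⟩)
        (Submodule.subset_span ⟨v, hv, rfl⟩)

theorem rank_hom {F : Finset (Eu 3)} (hF : F.Nonempty) :
    Module.finrank ℝ (Submodule.span ℝ ((F.map (homE 3) : Finset (Eu 3 × ℝ)) : Set (Eu 3 × ℝ))) =
      Module.finrank ℝ (vectorSpan ℝ (F : Set (Eu 3))) + 1 := by
  obtain ⟨v, hv⟩ := hF
  rw [coe_mapE, span_hom hv]
  have h1 := Submodule.finrank_sup_add_finrank_inf_eq (Submodule.span ℝ {(hom v : Eu 3 × ℝ)})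
    ((vectorSpan ℝ (F : Set (Eu 3))).map (LinearMap.inl ℝ (Eu 3) ℝ))
  have h2 : Submodule.span ℝ {(hom v : Eu 3 × ℝ)} ⊓
      (vectorSpan ℝ (F : Set (Eu 3))).map (LinearMap.inl ℝ (Eu 3) ℝ) = ⊥ := by
    rw [eq_bot_iff]
    rintro p ⟨hp1, hp2⟩
    obtain ⟨c, rfl⟩ := Submodule.mem_span_singleton.1 hp1
    obtain ⟨y, -, hy⟩ := hp2
    have h3 := congrArg Prod.snd hy
    have h4 : c = 0 := by
      have : (0 : ℝ) = c * 1 := h3
      linarith
    rw [h4, zero_smul]
    exact Submodule.zero_mem _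
  have h3 : (hom v : Eu 3 × ℝ) ≠ 0 := by
    intro e
    have h4 := congrArg Prod.snd e
    exact one_ne_zero h4
  have h5 : Module.finrank ℝ ((vectorSpan ℝ (F : Set (Eu 3))).map (LinearMap.inl ℝ (Eu 3) ℝ)) =
      Module.finrank ℝ (vectorSpan ℝ (F : Set (Eu 3))) :=
    (LinearEquiv.finrank_eq (Submodule.equivMapOfInjective (LinearMap.inl ℝ (Eu 3) ℝ)
      LinearMap.inl_injective (vectorSpan ℝ (F : Set (Eu 3))))).symm
  rw [h2, finrank_bot, finrank_span_singleton h3, h5] at h1
  omega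

theorem facet_hom (V F : Finset (Eu 3)) :
    IsFacet V F ↔ F.map (homE 3) ∈ Fac (V.map (homE 3)) := by
  rw [mem_fac]
  constructor
  · rintro ⟨⟨f, c, h1, h2⟩, h3⟩
    refine ⟨⟨c • LinearMap.snd ℝ (Eu 3) ℝ - f.comp (LinearMap.fst ℝ (Eu 3) ℝ), ?_, ?_⟩, ?_⟩
    · intro w hw
      obtain ⟨v, hv, rfl⟩ := Finset.mem_map.1 hw
      have h4 := h1 v hv
      have e : (c • LinearMap.snd ℝ (Eu 3) ℝ - f.comp (LinearMap.fst ℝ (Eu 3) ℝ))
          ((homE 3) v) = c - f v := by
        simp [homE, hom]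
      rw [e]
      linarith
    · intro w
      constructor
      · intro hw
        obtain ⟨v, hv, rfl⟩ := Finset.mem_map.1 hw
        obtain ⟨h4, h5⟩ := (h2 v).1 hv
        refine ⟨Finset.mem_map_of_mem _ h4, ?_⟩
        have e : (c • LinearMap.snd ℝ (Eu 3) ℝ - f.comp (LinearMap.fst ℝ (Eu 3) ℝ))
            ((homE 3) v) = c - f v := by
          simp [homE, hom]
        rw [e, h5, sub_self]
      · rintro ⟨hw, h0⟩
        obtain ⟨v, hv, rfl⟩ := Finset.mem_map.1 hw
        have e : (c • LinearMap.snd ℝ (Eu 3) ℝ - f.comp (LinearMap.fst ℝ (Eu 3) ℝ))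
            ((homE 3) v) = c - f v := by
          simp [homE, hom]
        rw [e] at h0
        exact Finset.mem_map_of_mem _ ((h2 v).2 ⟨hv, by linarith⟩)
    · rw [rank_hom, h3]
      rw [Finset.nonempty_iff_ne_empty]
      rintro rfl
      rw [Finset.coe_empty, vectorSpan_empty, finrank_bot] at h3
      omega
  · rintro ⟨⟨g, h1, h2⟩, h3⟩
    refine ⟨⟨-(g.comp (LinearMap.inl ℝ (Eu 3) ℝ)), g (0, 1), ?_, ?_⟩, ?_⟩
    · intro v hv
      have h4 := h1 (hom v) (Finset.mem_map.2 ⟨v, hv, rfl⟩)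
      have h5 := fun_hom g v
      simp only [LinearMap.neg_apply, LinearMap.comp_apply, LinearMap.inl_apply]
      linarith
    · intro v
      have h4 := h2 (hom v)
      have h5 := fun_hom g v
      have h6 : ∀ A : Finset (Eu 3), hom v ∈ A.map (homE 3) ↔ v ∈ A := by
        intro A
        exact Finset.mem_map' (homE 3)
      rw [h6, h6] at h4
      rw [h4]
      simp only [LinearMap.neg_apply, LinearMap.comp_apply, LinearMap.inl_apply]
      constructor
      · rintro ⟨a, b⟩
        exact ⟨a, by linarith⟩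
      · rintro ⟨a, b⟩
        exact ⟨a, by linarith⟩
    · have hF : F.Nonempty := by
        rw [Finset.nonempty_iff_ne_empty]
        rintro rfl
        rw [Finset.map_empty, Finset.coe_empty, Submodule.span_empty, finrank_bot] at h3
        omega
      rw [rank_hom hF] at h3
      omega

theorem fac_map {V : Finset (Eu 3)} {G : Finset (Eu 3 × ℝ)} (h : G ∈ Fac (V.map (homE 3))) :
    ∃ F : Finset (Eu 3), IsFacet V F ∧ F.map (homE 3) = G := by
  obtain ⟨F, -, rfl⟩ := Finset.subset_map_iff.1 (fac_sub h)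
  exact ⟨F, (facet_hom V F).2 h, rfl⟩

open Classical in
theorem pk_eq (V : Finset (Eu 3)) (k : ℕ) :
    pk V k = ((Fac (V.map (homE 3))).filter fun F => F.card = k).card := by
  unfold pk
  have h1 : (fun F : Finset (Eu 3) => F.map (homE 3)) ''
      {F : Finset (Eu 3) | IsFacet V F ∧ F.card = k} =
      (((Fac (V.map (homE 3))).filter fun F => F.card = k : Finset (Finset (Eu 3 × ℝ))) :
        Set (Finset (Eu 3 × ℝ))) := by
    ext G
    rw [Set.mem_image, Finset.mem_coe, Finset.mem_filter]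
    constructor
    · rintro ⟨F, ⟨h2, h3⟩, rfl⟩
      exact ⟨(facet_hom V F).1 h2, by rw [Finset.card_map]; exact h3⟩
    · rintro ⟨h2, h3⟩
      obtain ⟨F, h4, rfl⟩ := fac_map h2
      rw [Finset.card_map] at h3
      exact ⟨F, ⟨h4, h3⟩, rfl⟩
  rw [← Set.ncard_image_of_injective _ (Finset.map_injective (homE 3)), h1, Set.ncard_coe_finset]

end Pool.Agent.P3F
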