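import Pool.Agent.P3F.Defs
import Pool.Agent.LPG.TopDefs

/-!
# 3-polytopes and their facets (MP_a5fcbe_co): definitions of the statement
-/

set_option autoImplicit false

namespace Pool.Agent.P3F

open Pool.Agent.LPG

/-- `V` is the vertex set of a 3-polytope in Euclidean space: the points of `V` are in convex
position (`ConvexPos`: no one is in the convex hull of the others), and `V` is not contained in a
plane. -/
def IsPoly3 (V : Finset (Eu 3)) : Prop :=
  ConvexPos V ∧ affineSpan ℝ (V : Set (Eu 3)) = ⊤

/-- `F` is the set of the vertices of a facet of the polytope with vertex set `V`: the set of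
the points of `V` at which some linear functional attains its maximum on `V`, of dimension 2. -/
def IsFacet (V F : Finset (Eu 3)) : Prop :=
  (∃ (f : Eu 3 →ₗ[ℝ] ℝ) (c : ℝ), (∀ v ∈ V, f v ≤ c) ∧ ∀ v, v ∈ F ↔ v ∈ V ∧ f v = c) ∧
    Module.finrank ℝ (vectorSpan ℝ (F : Set (Eu 3))) = 2

/-- The number of the `k`-gonal facets. -/
noncomputable def pk (V : Finset (Eu 3)) (k : ℕ) : ℕ :=
  {F : Finset (Eu 3) | IsFacet V F ∧ F.card = k}.ncard

/-- The sequence `p` of natural numbers (with finitely many nonzero terms) is the facet census of a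
3-polytope. -/
def IsCensus (p : ℕ →₀ ℕ) : Prop := ∃ V : Finset (Eu 3), IsPoly3 V ∧ ∀ k, pk V k = p k

end Pool.Agent.P3F
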