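import Pool.Agent.P3F.Step

/-!
# The tetrahedron and the triangular prism (MP_a5fcbe_co, module Base)

`chart_tetra`: `N` = the four points `(0, 1)`, `(e_1, 1)`, `(e_2, 1)`, `(e_3, 1)` of `Eu 3 × ℝ`: a basis of a space of dimension 4.
Label `i ∈ {0, 1, 2, 3}`: `φ i = N.erase (v i)`, the functional is the `i`-th coordinate in this basis (nonnegative on `N`, zero
exactly at the other three).  All facets: the zeros in `N` of a functional `f ≥ 0`, `f ≠ 0`, spanning dimension 3: three of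
the four vectors.  At `v l` the three facets `φ i`, `i ≠ l`, with the neighbours `v i`.  `Poly N ⊥`: the functional of `v l` is the
sum of the coordinates `i ≠ l`; the positive functional is the last coordinate `w.2` (or the sum of all coordinates).

`chart_prism`: `trunc` of the tetrahedron at `{0, 1, 2}`: new label `t`, sizes `4, 4, 4` of `0, 1, 2`, sizes `3, 3` of `3` and `t`.
`trunc` only says that the triples `{0, 1, t}`, `{1, 2, t}`, `{0, 2, t}` and the old ones are there.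

`base0`: `A, B, C = 0, 1, 2`, `T = t`, `s = 2`, `R = 0`.
`base1`: `host` at the triangle `3` (triples `{0, 1, 3}`, `{1, 2, 3}`, `{0, 2, 3}`); `host` keeps the triples without `3`.
-/

set_option autoImplicit false

namespace Pool.Agent.P3F

open Pool.Agent.LPG

/-- coordinates with respect to the tetrahedron -/
private noncomputable def tE : (Eu 3 × ℝ) ≃ₗ[ℝ] (Fin 4 → ℝ) where
  toFun w := ![w.2 - w.1 0 - w.1 1 - w.1 2, w.1 0, w.1 1, w.1 2]
  map_add' x y := by
    ext i
    fin_cases i <;> simp <;> ring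
  map_smul' c x := by
    ext i
    fin_cases i <;> simp <;> ring
  invFun x := (!₂[x 1, x 2, x 3], x 0 + x 1 + x 2 + x 3)
  left_inv w := by
    refine Prod.ext ?_ ?_
    · ext i
      fin_cases i <;> simp
    · simp
      ring
  right_inv x := by
    ext i
    fin_cases i <;> simp <;> ring

private noncomputable def tB : Module.Basis (Fin 4) ℝ (Eu 3 × ℝ) := Module.Basis.ofEquivFun tE

private theorem tB_snd (i : Fin 4) : (tB i).2 = 1 := by
  unfold tB
  rw [Module.Basis.coe_ofEquivFun]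
  show (Pi.single i (1 : ℝ) : Fin 4 → ℝ) 0 + (Pi.single i (1 : ℝ) : Fin 4 → ℝ) 1 +
    (Pi.single i (1 : ℝ) : Fin 4 → ℝ) 2 + (Pi.single i (1 : ℝ) : Fin 4 → ℝ) 3 = 1
  fin_cases i <;> simp [Pi.single_apply]

open Classical in
private noncomputable def tN : Finset (Eu 3 × ℝ) := Finset.univ.image tB

open Classical in
private noncomputable def tF (i : ℕ) : Finset (Eu 3 × ℝ) :=
  (Finset.univ.filter (fun l : Fin 4 => (l : ℕ) ≠ i)).image tB

private theorem mem_tN {w : Eu 3 × ℝ} : w ∈ tN ↔ ∃ l : Fin 4, tB l = w := by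
  classical
  unfold tN
  simp

private theorem mem_tF {i : ℕ} {w : Eu 3 × ℝ} : w ∈ tF i ↔ ∃ l : Fin 4, (l : ℕ) ≠ i ∧ tB l = w := by
  classical
  unfold tF
  simp

private theorem tB_mem_tF {i : ℕ} {l : Fin 4} : tB l ∈ tF i ↔ (l : ℕ) ≠ i := by
  rw [mem_tF]
  constructor
  · rintro ⟨m, h1, h2⟩
    rwa [tB.injective h2] at h1
  · intro h
    exact ⟨l, h, rfl⟩

/-- the functional `∑ coord` -/
private noncomputable def tS : (Eu 3 × ℝ) →ₗ[ℝ] ℝ := ∑ i, tB.coord i

private theorem coord_tB (i l : Fin 4) : tB.coord i (tB l) = if i = l then 1 else 0 := by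
  rw [Module.Basis.coord_apply, Module.Basis.repr_self, Finsupp.single_apply]
  simp only [eq_comm]

private theorem tS_tB (l : Fin 4) : tS (tB l) = 1 := by
  unfold tS
  rw [LinearMap.sum_apply]
  simp only [coord_tB]
  simp

private theorem rank_image (T : Finset (Fin 4)) :
    Module.finrank ℝ (Submodule.span ℝ ((T.image tB : Finset (Eu 3 × ℝ)) : Set (Eu 3 × ℝ))) =
      T.card := by
  classical
  have h1 : LinearIndependent ℝ (fun l : T => tB l) :=
    tB.linearIndependent.comp _ Subtype.val_injective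
  have h2 := finrank_span_eq_card h1
  have h3 : Set.range (fun l : T => tB l) = ((T.image tB : Finset (Eu 3 × ℝ)) : Set (Eu 3 × ℝ)) := by
    ext w
    simp
  rw [h3] at h2
  rw [h2, Fintype.card_coe]

private theorem card_image_tB (T : Finset (Fin 4)) : (T.image tB).card = T.card := by
  classical
  exact Finset.card_image_of_injective _ tB.injective

private theorem full_tN : Full tN := by
  refine ⟨⟨?_, ?_⟩, ?_, ?_⟩
  · intro v hv
    obtain ⟨l, rfl⟩ := mem_tN.1 hv
    refine ⟨tS - tB.coord l, ?_, ?_, ?_⟩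
    · intro z hz
      rw [(Submodule.mem_bot ℝ).1 hz, map_zero]
    · rw [LinearMap.sub_apply, tS_tB, coord_tB, if_pos rfl, sub_self]
    · intro w hw hne
      obtain ⟨m, rfl⟩ := mem_tN.1 hw
      have : l ≠ m := fun h => hne (by rw [h])
      rw [LinearMap.sub_apply, tS_tB, coord_tB, if_neg this]
      norm_num
  · refine ⟨tS, ?_, ?_⟩
    · intro z hz
      rw [(Submodule.mem_bot ℝ).1 hz, map_zero]
    · intro w hw
      obtain ⟨m, rfl⟩ := mem_tN.1 hw
      rw [tS_tB]
      norm_num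
  · rw [Module.finrank_eq_card_basis tB, Fintype.card_fin]
  · have h : (tN : Set (Eu 3 × ℝ)) = Set.range tB := by
      ext w
      rw [Finset.mem_coe, mem_tN]
      rfl
    rw [h, tB.span_eq]

private theorem tF_card {i : ℕ} (hi : i < 4) : (tF i).card = 3 := by
  classical
  unfold tF
  rw [card_image_tB]
  interval_cases i <;> decide

private theorem tF_fac {i : ℕ} (hi : i < 4) : tF i ∈ Fac tN := by
  classical
  rw [mem_fac]
  refine ⟨⟨tB.coord ⟨i, hi⟩, ?_, ?_⟩, ?_⟩
  · intro w hw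
    obtain ⟨m, rfl⟩ := mem_tN.1 hw
    rw [coord_tB]
    split_ifs <;> norm_num
  · intro w
    rw [mem_tF, mem_tN]
    constructor
    · rintro ⟨l, h1, rfl⟩
      refine ⟨⟨l, rfl⟩, ?_⟩
      rw [coord_tB, if_neg]
      intro h
      exact h1 (by rw [← h])
    · rintro ⟨⟨l, rfl⟩, h⟩
      refine ⟨l, ?_, rfl⟩
      intro h2
      rw [coord_tB, if_pos (Fin.ext h2.symm)] at h
      norm_num at h
  · have := rank_image (Finset.univ.filter (fun l : Fin 4 => (l : ℕ) ≠ i))
    unfold tF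
    rw [this]
    interval_cases i <;> decide

private theorem fac_tF {F : Finset (Eu 3 × ℝ)} (hF : F ∈ Fac tN) : ∃ i : ℕ, i < 4 ∧ tF i = F := by
  classical
  obtain ⟨⟨f, hf1, hf2⟩, hr⟩ := mem_fac.1 hF
  set T : Finset (Fin 4) := Finset.univ.filter (fun l => f (tB l) = 0) with hT
  have h1 : F = T.image tB := by
    ext w
    rw [hf2, mem_tN, Finset.mem_image]
    constructor
    · rintro ⟨⟨l, rfl⟩, h⟩
      exact ⟨l, by rw [hT, Finset.mem_filter]; exact ⟨Finset.mem_univ _, h⟩, rfl⟩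
    · rintro ⟨l, hl, rfl⟩
      rw [hT, Finset.mem_filter] at hl
      exact ⟨⟨l, rfl⟩, hl.2⟩
  have h2 : T.card = 3 := by
    rw [h1, rank_image] at hr
    exact hr
  have h3 : Tᶜ.card = 1 := by
    rw [Finset.card_compl, Fintype.card_fin, h2]
  obtain ⟨i, hi⟩ := Finset.card_eq_one.1 h3
  refine ⟨i, i.2, ?_⟩
  rw [h1]
  unfold tF
  congr 1
  ext l
  rw [Finset.mem_filter]
  have h4 : l ∈ Tᶜ ↔ l = i := by rw [hi, Finset.mem_singleton]
  rw [Finset.mem_compl] at h4
  constructor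
  · rintro ⟨-, h⟩
    by_contra h5
    exact h (by rw [h4.1 h5])
  · intro h
    refine ⟨Finset.mem_univ _, fun h5 => ?_⟩
    exact (h4.2 (Fin.ext h5)) h

private theorem tF_cor {i j k l : Fin 4} (hij : i ≠ j) (hik : i ≠ k) (hjk : j ≠ k) (hil : i ≠ l)
    (hjl : j ≠ l) (hkl : k ≠ l) : CorAt tN tF {(i : ℕ), (j : ℕ), (k : ℕ)} := by
  have hv : ∀ {a b : Fin 4}, a ≠ b → (a : ℕ) ≠ (b : ℕ) := fun h h' => h (Fin.ext h')
  refine ⟨i, j, k, rfl, hv hij, hv hik, hv hjk, tB l, tB i, tB j, tB k, ?_⟩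
  refine ⟨tF_fac i.2, tF_fac j.2, tF_fac k.2, ?_, ?_, ?_, ?_, ?_, ?_, ?_, ?_, ?_, ?_, ?_, ?_⟩
  · exact tB_mem_tF.2 (hv hil.symm)
  · exact tB_mem_tF.2 (hv hjl.symm)
  · exact tB_mem_tF.2 (hv hkl.symm)
  · exact fun h => tB_mem_tF.1 h rfl
  · exact tB_mem_tF.2 (hv hij)
  · exact tB_mem_tF.2 (hv hik)
  · exact tB_mem_tF.2 (hv hij.symm)
  · exact fun h => tB_mem_tF.1 h rfl
  · exact tB_mem_tF.2 (hv hjk)
  · exact tB_mem_tF.2 (hv hik.symm)
  · exact tB_mem_tF.2 (hv hjk.symm)
  · exact fun h => tB_mem_tF.1 h rfl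

theorem chart_tetra : Chart {0, 1, 2, 3} (fun _ => 3) {{0, 1, 2}, {0, 1, 3}, {0, 2, 3}, {1, 2, 3}} := by
  have hI : ∀ i ∈ ({0, 1, 2, 3} : Finset ℕ), i < 4 := by decide
  refine ⟨tN, tF, full_tN, ?_, ?_, ?_, ?_, ?_, ?_⟩
  · intro w hw
    obtain ⟨l, rfl⟩ := mem_tN.1 hw
    exact tB_snd l
  · intro i hi
    exact tF_fac (hI i hi)
  · intro i hi j hj h
    by_contra hne
    have h1 : tB ⟨i, hI i hi⟩ ∈ tF j := tB_mem_tF.2 hne
    rw [← h] at h1
    exact tB_mem_tF.1 h1 rfl
  · intro F hF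
    obtain ⟨i, hi, h⟩ := fac_tF hF
    refine ⟨i, ?_, h⟩
    interval_cases i <;> decide
  · intro i hi
    exact tF_card (hI i hi)
  · intro c hc
    have c1 : CorAt tN tF {0, 1, 2} :=
      tF_cor (i := 0) (j := 1) (k := 2) (l := 3) (by decide) (by decide) (by decide) (by decide)
        (by decide) (by decide)
    have c2 : CorAt tN tF {0, 1, 3} :=
      tF_cor (i := 0) (j := 1) (k := 3) (l := 2) (by decide) (by decide) (by decide) (by decide)
        (by decide) (by decide)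
    have c3 : CorAt tN tF {0, 2, 3} :=
      tF_cor (i := 0) (j := 2) (k := 3) (l := 1) (by decide) (by decide) (by decide) (by decide)
        (by decide) (by decide)
    have c4 : CorAt tN tF {1, 2, 3} :=
      tF_cor (i := 1) (j := 2) (k := 3) (l := 0) (by decide) (by decide) (by decide) (by decide)
        (by decide) (by decide)
    simp only [Finset.mem_insert, Finset.mem_singleton] at hc
    rcases hc with rfl | rfl | rfl | rfl
    · exact ⟨by decide, c1⟩
    · exact ⟨by decide, c2⟩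
    · exact ⟨by decide, c3⟩
    · exact ⟨by decide, c4⟩

theorem chart_prism : ∃ (t : ℕ) (sz : ℕ → ℕ) (Q : Finset (Finset ℕ)), t ≠ 0 ∧ t ≠ 1 ∧ t ≠ 2 ∧
    t ≠ 3 ∧ Chart {0, 1, 2, 3, t} sz Q ∧ sz 0 = 4 ∧ sz 1 = 4 ∧ sz 2 = 4 ∧ sz 3 = 3 ∧ sz t = 3 ∧
    ({0, 1, t} : Finset ℕ) ∈ Q ∧ ({1, 2, t} : Finset ℕ) ∈ Q ∧ ({0, 2, t} : Finset ℕ) ∈ Q ∧
    ({0, 1, 3} : Finset ℕ) ∈ Q ∧ ({1, 2, 3} : Finset ℕ) ∈ Q ∧ ({0, 2, 3} : Finset ℕ) ∈ Q := by
  obtain ⟨t, sz', Q', htI, hch, h1, h2, h3, h4, h5, h6, h7, h8, h9⟩ :=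
    trunc chart_tetra (i := 0) (j := 1) (k := 2) (by decide) (by decide) (by decide) (by decide)
  simp only [Finset.mem_insert, Finset.mem_singleton, not_or] at htI
  obtain ⟨ht0, ht1, ht2, ht3⟩ := htI
  have hI : (insert t {0, 1, 2, 3} : Finset ℕ) = {0, 1, 2, 3, t} := by
    ext x
    simp only [Finset.mem_insert, Finset.mem_singleton]
    tauto
  rw [hI] at hch
  refine ⟨t, sz', Q', ht0, ht1, ht2, ht3, hch, h2, h3, h4, ?_, h1, h6, h7, h8, ?_, ?_, ?_⟩
  · exact h5 3 (by decide) (by decide) (by decide) (by decide)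
  · exact h9 _ (by decide) (by decide)
  · exact h9 _ (by decide) (by decide)
  · exact h9 _ (by decide) (by decide)

theorem base0 : St 0 4 4 4 := by
  obtain ⟨t, sz, Q, ht0, ht1, ht2, ht3, hch, s0, s1, s2, s3, st, q1, q2, q3, q4, q5, q6⟩ :=
    chart_prism
  refine ⟨{0, 1, 2, 3, t}, sz, Q, 0, 1, 2, t, 2, hch, by simp, by simp, by simp, by simp,
    by norm_num, by norm_num, by norm_num, ht0.symm, ht1.symm, ht2.symm, q1, q2, q3, s0, s1, s2, st,
    ?_, ?_⟩
  · have h1 : ({0, 1, 2, 3, t} : Finset ℕ) \ {0, 1, 2} = {3, t} := by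
      ext x
      simp only [Finset.mem_sdiff, Finset.mem_insert, Finset.mem_singleton]
      constructor
      · rintro ⟨h1, h2⟩
        tauto
      · rintro (rfl | rfl)
        · simp
        · simp [ht0, ht1, ht2]
    rw [h1, Finset.insert_val_of_notMem (by simpa using ht3.symm)]
    simp [s3, st, Multiset.replicate_succ]
  · simp

theorem base1 {m : ℕ} (hm : 4 ≤ m) : ∃ a b c, a ≤ 6 ∧ b ≤ 6 ∧ c ≤ 6 ∧ St {m} a b c := by
  obtain ⟨t, sz, Q, ht0, ht1, ht2, ht3, hch, s0, s1, s2, s3, st, q1, q2, q3, q4, q5, q6⟩ :=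
    chart_prism
  obtain ⟨J, sz', Q', a, b, c, hd, hch', hJ, hm', e0, e1, e2, ha, hb, hc, hcard, hoth, hQ, -⟩ :=
    host hch (X := 0) (Y := 1) (Z := 2) (t := 3) (m := m) (by norm_num) (by norm_num)
      (by norm_num) (by norm_num) (by norm_num) (by norm_num) s3 q4 q5 q6 hm
  have hIm : ∀ x ∈ ({0, 1, 2, 3, t} : Finset ℕ), x ∉ J := fun x hx =>
    Finset.disjoint_left.1 hd hx
  refine ⟨4 + a, 4 + b, 4 + c, by omega, by omega, by omega,
    {0, 1, 2, 3, t} ∪ J, sz', Q', 0, 1, 2, t, J.card + 1, hch', by simp, by simp, by simp,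
    by simp, by norm_num, by norm_num, by norm_num, ht0.symm, ht1.symm, ht2.symm, ?_, ?_, ?_,
    by rw [e0, s0], by rw [e1, s1], by rw [e2, s2], ?_, ?_, ?_⟩
  · exact hQ _ q1 (by simp [ht3.symm])
  · exact hQ _ q2 (by simp [ht3.symm])
  · exact hQ _ q3 (by simp [ht3.symm])
  · rw [hoth t (by simp) ht0 ht1 ht2 ht3, st]
  · have h1 : (({0, 1, 2, 3, t} : Finset ℕ) ∪ J) \ {0, 1, 2} = insert 3 (insert t J) := by
      ext x
      simp only [Finset.mem_sdiff, Finset.mem_union, Finset.mem_insert, Finset.mem_singleton]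
      constructor
      · rintro ⟨h1, h2⟩
        tauto
      · rintro (rfl | rfl | h)
        · simp
        · simp [ht0, ht1, ht2]
        · refine ⟨Or.inr h, ?_⟩
          rintro (rfl | rfl | rfl)
          · exact hIm 0 (by simp) h
          · exact hIm 1 (by simp) h
          · exact hIm 2 (by simp) h
    have h2 : t ∉ J := hIm t (by simp)
    have h3 : 3 ∉ insert t J := by
      rw [Finset.mem_insert, not_or]
      exact ⟨ht3.symm, hIm 3 (by simp)⟩
    rw [h1, Finset.insert_val_of_notMem h3, Finset.insert_val_of_notMem h2, Multiset.map_cons,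
      Multiset.map_cons, hm', hoth t (by simp) ht0 ht1 ht2 ht3, st, Multiset.replicate_succ]
    have h4 : J.val.map sz' = Multiset.replicate J.card 3 := by
      rw [Multiset.eq_replicate]
      refine ⟨by rw [Multiset.card_map]; rfl, ?_⟩
      intro x hx
      obtain ⟨l, hl, rfl⟩ := Multiset.mem_map.1 hx
      exact hJ l hl
    rw [h4]
    rfl
  · rw [Multiset.map_singleton, Multiset.sum_singleton]
    push_cast
    rw [hcard]
    ring

end Pool.Agent.P3F
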