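import Pool.Agent.P3F.CutC
import Pool.Agent.LPG.TopDefs

/-!
# Charts (MP_a5fcbe_co, module Chart)

A chart records the facets of a 3-polytope by labels in a finite set `I` of natural numbers, the numbers `sz i` of
their vertices and some of its vertices of degree three, as triples `{i, j, k}` of labels (elements of `Q`).

`chart_cut`: let `N`, `φ` be as in `Chart`, and let `Cor N (φ i) (φ j) (φ k) x y1 y2 y3` (from `CorAt` we get such a description for some order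
of the three labels; use `Cor.swap`, `Cor.rot` to get the order `i, j, k`: `cor_order`).  New set of vertices:
`cutN N x y1 y2 y3 e1 e2`.  New labels: `φ' t` = the new triangle, `φ' l = cg (φ i) (φ j) (φ k) x y1 y2 y3 e1 e2 (φ l)` for `l ≠ t`.
`cut_full`, `cut_one`, `cut_fac`, `cut_card`, `cut_ne`.  `Q'` is the set of the triples `{i, j, t}`, `{j, k, t}` if `e1`, `{i, k, t}` if `e2`, and of the
`c ∈ Q` with the stated properties.  Vertices of degree three for `c ∈ Q`, `c = {l, m, n}` at the vertex `z`: if `z = x` then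
`φ l, φ m, φ n` are three different facets which contain `x`, so `c = {i, j, k}` (`cor_fac`, `φ` injective).  If `z = y1` then `φ j`, `φ k` contain `z`, so
they are among the three facets `φ l, φ m, φ n` at `z` (`cor_fac`), so `{j, k} ⊆ c`; so `e1 = true` by the hypothesis.  The same for `y2` and
`{i, k}`.  So `cut_cor` applies.
-/

set_option autoImplicit false

namespace Pool.Agent.P3F

open Pool.Agent.LPG

/-- There is a vertex of degree three on the three facets with labels in `c`. -/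
def CorAt {W : Type*} [AddCommGroup W] [Module ℝ W] (N : Finset W) (φ : ℕ → Finset W)
    (c : Finset ℕ) : Prop :=
  ∃ i j k : ℕ, c = {i, j, k} ∧ i ≠ j ∧ i ≠ k ∧ j ≠ k ∧
    ∃ x y1 y2 y3 : W, Cor N (φ i) (φ j) (φ k) x y1 y2 y3

/-- There is a 3-polytope whose facets are labelled by `I`, with `sz i` vertices, such that the
triples in `Q` are triples of facets at a vertex of degree three. -/
def Chart (I : Finset ℕ) (sz : ℕ → ℕ) (Q : Finset (Finset ℕ)) : Prop :=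
  ∃ (N : Finset (Eu 3 × ℝ)) (φ : ℕ → Finset (Eu 3 × ℝ)), Full N ∧ (∀ w ∈ N, w.2 = 1) ∧
    (∀ i ∈ I, φ i ∈ Fac N) ∧ (∀ i ∈ I, ∀ j ∈ I, φ i = φ j → i = j) ∧
    (∀ F ∈ Fac N, ∃ i ∈ I, φ i = F) ∧ (∀ i ∈ I, (φ i).card = sz i) ∧
    ∀ c ∈ Q, c ⊆ I ∧ CorAt N φ c

theorem cor_order {W : Type*} [AddCommGroup W] [Module ℝ W] {N : Finset W} {φ : ℕ → Finset W}
    {i j k : ℕ} (hij : i ≠ j) (hik : i ≠ k) (hjk : j ≠ k) (h : CorAt N φ {i, j, k}) :
    ∃ x y1 y2 y3 : W, Cor N (φ i) (φ j) (φ k) x y1 y2 y3 := by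
  obtain ⟨a, b, c, he, hab, hac, hbc, x, y1, y2, y3, hc⟩ := h
  have ha : a = i ∨ a = j ∨ a = k := by
    have h1 : a ∈ ({i, j, k} : Finset ℕ) := by rw [he]; simp
    simpa using h1
  have hb : b = i ∨ b = j ∨ b = k := by
    have h1 : b ∈ ({i, j, k} : Finset ℕ) := by rw [he]; simp
    simpa using h1
  have hd : c = i ∨ c = j ∨ c = k := by
    have h1 : c ∈ ({i, j, k} : Finset ℕ) := by rw [he]; simp
    simpa using h1
  clear he
  rcases ha with ha | ha | ha <;> rcases hb with hb | hb | hb <;> rcases hd with hd | hd | hd <;>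
    first
    | (exfalso; omega)
    | (rw [ha, hb, hd] at hc
       first
       | exact ⟨_, _, _, _, hc⟩
       | exact ⟨_, _, _, _, hc.swap⟩
       | exact ⟨_, _, _, _, hc.rot⟩
       | exact ⟨_, _, _, _, hc.rot.rot⟩
       | exact ⟨_, _, _, _, hc.rot.swap⟩
       | exact ⟨_, _, _, _, hc.swap.rot⟩)

section

variable {W : Type*} [AddCommGroup W] [Module ℝ W] {N : Finset W}

open Classical in
/-- The set of three elements (with the classical decidability of equality). -/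
noncomputable def ChA.tri (a b c : W) : Finset W := {a, b, c}

theorem ChA.tri_card (h : Full N) {p : W →ₗ[ℝ] ℝ} (hp : ∀ w ∈ N, p w = 1) {F1 F2 F3 : Finset W}
    {x y1 y2 y3 : W} (hc : Cor N F1 F2 F3 x y1 y2 y3) (e1 e2 : Bool) :
    (ChA.tri (mid e1 x y1) (mid e2 x y2) (mid true x y3)).card = 3 :=
  (cut_card h hp hc e1 e2).1

theorem ChA.tri_fac (h : Full N) {p : W →ₗ[ℝ] ℝ} (hp : ∀ w ∈ N, p w = 1) {F1 F2 F3 : Finset W}
    {x y1 y2 y3 : W} (hc : Cor N F1 F2 F3 x y1 y2 y3) (e1 e2 : Bool)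
    (hcard : e1 = true ∨ e2 = true ∨ 4 ≤ F3.card) (F' : Finset W) :
    F' ∈ Fac (cutN N x y1 y2 y3 e1 e2) ↔
      F' = ChA.tri (mid e1 x y1) (mid e2 x y2) (mid true x y3) ∨
      F' = cf x F1 (mid e2 x y2) (mid true x y3) ∨ F' = cf x F2 (mid e1 x y1) (mid true x y3) ∨
      F' = cf x F3 (mid e1 x y1) (mid e2 x y2) ∨ (F' ∈ Fac N ∧ x ∉ F') :=
  cut_fac h hp hc e1 e2 hcard F'

theorem ChA.tri_new3 (h : Full N) {p : W →ₗ[ℝ] ℝ} (hp : ∀ w ∈ N, p w = 1) {F1 F2 F3 : Finset W}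
    {x y1 y2 y3 : W} (hc : Cor N F1 F2 F3 x y1 y2 y3) (e1 e2 : Bool)
    (hcard : e1 = true ∨ e2 = true ∨ 4 ≤ F3.card) : ∃ z w1 w2 w3 : W,
    Cor (cutN N x y1 y2 y3 e1 e2) (cf x F1 (mid e2 x y2) (mid true x y3))
      (cf x F2 (mid e1 x y1) (mid true x y3))
      (ChA.tri (mid e1 x y1) (mid e2 x y2) (mid true x y3)) z w1 w2 w3 :=
  ⟨_, _, _, _, cut_cor_new3 h hp hc e1 e2 hcard⟩

theorem ChA.tri_new1 (h : Full N) {p : W →ₗ[ℝ] ℝ} (hp : ∀ w ∈ N, p w = 1) {F1 F2 F3 : Finset W}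
    {x y1 y2 y3 : W} (hc : Cor N F1 F2 F3 x y1 y2 y3) (e2 : Bool) : ∃ z w1 w2 w3 : W,
    Cor (cutN N x y1 y2 y3 true e2) (cf x F2 (mid true x y1) (mid true x y3))
      (cf x F3 (mid true x y1) (mid e2 x y2))
      (ChA.tri (mid true x y1) (mid e2 x y2) (mid true x y3)) z w1 w2 w3 :=
  ⟨_, _, _, _, cut_cor_new1 h hp hc e2⟩

theorem ChA.tri_new2 (h : Full N) {p : W →ₗ[ℝ] ℝ} (hp : ∀ w ∈ N, p w = 1) {F1 F2 F3 : Finset W}
    {x y1 y2 y3 : W} (hc : Cor N F1 F2 F3 x y1 y2 y3) (e1 : Bool) : ∃ z w1 w2 w3 : W,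
    Cor (cutN N x y1 y2 y3 e1 true) (cf x F1 (mid true x y2) (mid true x y3))
      (cf x F3 (mid e1 x y1) (mid true x y2))
      (ChA.tri (mid e1 x y1) (mid true x y2) (mid true x y3)) z w1 w2 w3 :=
  ⟨_, _, _, _, cut_cor_new2 h hp hc e1⟩

theorem ChA.cg_cases (h : Full N) {p : W →ₗ[ℝ] ℝ} (hp : ∀ w ∈ N, p w = 1)
    {F1 F2 F3 : Finset W} {x y1 y2 y3 : W} (hc : Cor N F1 F2 F3 x y1 y2 y3) (e1 e2 : Bool)
    {G : Finset W} (hG : G ∈ Fac N) :
    (G = F1 ∧ cg F1 F2 F3 x y1 y2 y3 e1 e2 G = cf x F1 (mid e2 x y2) (mid true x y3)) ∨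
    (G = F2 ∧ cg F1 F2 F3 x y1 y2 y3 e1 e2 G = cf x F2 (mid e1 x y1) (mid true x y3)) ∨
    (G = F3 ∧ cg F1 F2 F3 x y1 y2 y3 e1 e2 G = cf x F3 (mid e1 x y1) (mid e2 x y2)) ∨
    (x ∉ G ∧ cg F1 F2 F3 x y1 y2 y3 e1 e2 G = G) := by
  by_cases hx : x ∈ G
  · rcases cor_fac h hp hc hG hx with rfl | rfl | rfl
    · exact Or.inl ⟨rfl, CCu.cg_1 e1 e2⟩
    · exact Or.inr (Or.inl ⟨rfl, CCu.cg_2 hc e1 e2⟩)
    · exact Or.inr (Or.inr (Or.inl ⟨rfl, CCu.cg_3 hc e1 e2⟩))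
  · exact Or.inr (Or.inr (Or.inr ⟨hx, CCu.cg_4 hc e1 e2 hx⟩))

theorem ChA.cg_ne_tri (h : Full N) {p : W →ₗ[ℝ] ℝ} (hp : ∀ w ∈ N, p w = 1)
    {F1 F2 F3 : Finset W} {x y1 y2 y3 : W} (hc : Cor N F1 F2 F3 x y1 y2 y3) (e1 e2 : Bool)
    (hcard : e1 = true ∨ e2 = true ∨ 4 ≤ F3.card) {G : Finset W} (hG : G ∈ Fac N) :
    ChA.tri (mid e1 x y1) (mid e2 x y2) (mid true x y3) ≠
      cg F1 F2 F3 x y1 y2 y3 e1 e2 G := by
  obtain ⟨k1, k2, k3, -, -, -, k7⟩ := cut_ne h hp hc e1 e2 hcard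
  rcases ChA.cg_cases h hp hc e1 e2 hG with ⟨-, e⟩ | ⟨-, e⟩ | ⟨-, e⟩ | ⟨hx, e⟩
  · rw [e]; exact k1
  · rw [e]; exact k2
  · rw [e]; exact k3
  · rw [e]; exact (k7 G hG hx).1.symm

theorem ChA.cg_inj (h : Full N) {p : W →ₗ[ℝ] ℝ} (hp : ∀ w ∈ N, p w = 1)
    {F1 F2 F3 : Finset W} {x y1 y2 y3 : W} (hc : Cor N F1 F2 F3 x y1 y2 y3) (e1 e2 : Bool)
    (hcard : e1 = true ∨ e2 = true ∨ 4 ≤ F3.card) {G G' : Finset W} (hG : G ∈ Fac N)
    (hG' : G' ∈ Fac N)
    (he : cg F1 F2 F3 x y1 y2 y3 e1 e2 G = cg F1 F2 F3 x y1 y2 y3 e1 e2 G') : G = G' := by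
  obtain ⟨-, -, -, k4, k5, k6, k7⟩ := cut_ne h hp hc e1 e2 hcard
  rcases ChA.cg_cases h hp hc e1 e2 hG with ⟨a, e⟩ | ⟨a, e⟩ | ⟨a, e⟩ | ⟨a, e⟩ <;>
    rcases ChA.cg_cases h hp hc e1 e2 hG' with ⟨a', e'⟩ | ⟨a', e'⟩ | ⟨a', e'⟩ | ⟨a', e'⟩ <;>
    rw [e, e'] at he
  · rw [a, a']
  · exact absurd he k4
  · exact absurd he k5
  · exact absurd he.symm (k7 _ hG' a').2.1
  · exact absurd he.symm k4
  · rw [a, a']
  · exact absurd he k6
  · exact absurd he.symm (k7 _ hG' a').2.2.1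
  · exact absurd he.symm k5
  · exact absurd he.symm k6
  · rw [a, a']
  · exact absurd he.symm (k7 _ hG' a').2.2.2
  · exact absurd he (k7 _ hG a).2.1
  · exact absurd he (k7 _ hG a).2.2.1
  · exact absurd he (k7 _ hG a).2.2.2
  · exact he

end

theorem chart_cut {I : Finset ℕ} {sz : ℕ → ℕ} {Q : Finset (Finset ℕ)} (h : Chart I sz Q)
    {i j k t : ℕ} (hij : i ≠ j) (hik : i ≠ k) (hjk : j ≠ k) (hc : ({i, j, k} : Finset ℕ) ∈ Q)
    (ht : t ∉ I) (e1 e2 : Bool) (hcard : e1 = true ∨ e2 = true ∨ 4 ≤ sz k) :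
    ∃ (sz' : ℕ → ℕ) (Q' : Finset (Finset ℕ)), Chart (insert t I) sz' Q' ∧ sz' t = 3 ∧
      sz' i = sz i + e2.toNat ∧ sz' j = sz j + e1.toNat ∧
      sz' k + 1 = sz k + e1.toNat + e2.toNat ∧
      (∀ l ∈ I, l ≠ i → l ≠ j → l ≠ k → sz' l = sz l) ∧ ({i, j, t} : Finset ℕ) ∈ Q' ∧
      (e1 = true → ({j, k, t} : Finset ℕ) ∈ Q') ∧ (e2 = true → ({i, k, t} : Finset ℕ) ∈ Q') ∧
      ∀ c ∈ Q, c ≠ {i, j, k} → (e1 = false → ¬ ({j, k} : Finset ℕ) ⊆ c) →
        (e2 = false → ¬ ({i, k} : Finset ℕ) ⊆ c) → c ∈ Q' := by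
  classical
  obtain ⟨N, φ, hN, h1, hφ, hinj, hsurj, hsz, hQ⟩ := h
  obtain ⟨hsub, hcor⟩ := hQ _ hc
  have hi : i ∈ I := hsub (by simp)
  have hj : j ∈ I := hsub (by simp)
  have hk : k ∈ I := hsub (by simp)
  obtain ⟨x, y1, y2, y3, hC⟩ := cor_order hij hik hjk hcor
  have hp : ∀ w ∈ N, (LinearMap.snd ℝ (Eu 3) ℝ) w = 1 := fun w hw => h1 w hw
  rw [← hsz k hk] at hcard
  have hit : i ≠ t := fun e => ht (e ▸ hi)
  have hjt : j ≠ t := fun e => ht (e ▸ hj)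
  have hkt : k ≠ t := fun e => ht (e ▸ hk)
  obtain ⟨T, hT⟩ : ∃ T : Finset (Eu 3 × ℝ),
      T = ChA.tri (mid e1 x y1) (mid e2 x y2) (mid true x y3) := ⟨_, rfl⟩
  obtain ⟨φ', hφ'⟩ : ∃ φ' : ℕ → Finset (Eu 3 × ℝ), φ' = fun l => if l = t then T else
      cg (φ i) (φ j) (φ k) x y1 y2 y3 e1 e2 (φ l) := ⟨_, rfl⟩
  have ft : φ' t = T := by rw [hφ']; simp
  have fl : ∀ l, l ≠ t → φ' l = cg (φ i) (φ j) (φ k) x y1 y2 y3 e1 e2 (φ l) := by
    intro l hl
    rw [hφ']; simp [hl]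
  have fi : φ' i = cf x (φ i) (mid e2 x y2) (mid true x y3) := by
    rw [fl i hit]; exact CCu.cg_1 e1 e2
  have fj : φ' j = cf x (φ j) (mid e1 x y1) (mid true x y3) := by
    rw [fl j hjt]; exact CCu.cg_2 hC e1 e2
  have fk : φ' k = cf x (φ k) (mid e1 x y1) (mid e2 x y2) := by
    rw [fl k hkt]; exact CCu.cg_3 hC e1 e2
  obtain ⟨-, c1, c2, c3⟩ := cut_card hN hp hC e1 e2
  have c0 := ChA.tri_card hN hp hC e1 e2
  rw [← hT] at c0
  rw [← fi] at c1
  rw [← fj] at c2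
  rw [← fk] at c3
  have hFac := ChA.tri_fac hN hp hC e1 e2 hcard
  rw [← hT] at hFac
  -- membership in `Q'`
  have memQ : ∀ a b c : ℕ, a ≠ b → a ≠ c → b ≠ c → a ∈ insert t I → b ∈ insert t I →
      c ∈ insert t I → (∃ z w1 w2 w3 : Eu 3 × ℝ,
        Cor (cutN N x y1 y2 y3 e1 e2) (φ' a) (φ' b) (φ' c) z w1 w2 w3) →
      ({a, b, c} : Finset ℕ) ∈ (insert t I).powerset.filter
        (fun c => CorAt (cutN N x y1 y2 y3 e1 e2) φ' c) := by
    intro a b c hab hac hbc ha hb hc' hex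
    rw [Finset.mem_filter, Finset.mem_powerset]
    refine ⟨?_, a, b, c, rfl, hab, hac, hbc, hex⟩
    intro u hu
    rw [Finset.mem_insert, Finset.mem_insert, Finset.mem_singleton] at hu
    rcases hu with rfl | rfl | rfl
    · exact ha
    · exact hb
    · exact hc'
  have ti : t ∈ insert t I := Finset.mem_insert_self _ _
  have ii : ∀ l ∈ I, l ∈ insert t I := fun l hl => Finset.mem_insert_of_mem hl
  refine ⟨fun l => (φ' l).card, (insert t I).powerset.filter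
    (fun c => CorAt (cutN N x y1 y2 y3 e1 e2) φ' c), ?_, ?_, ?_, ?_, ?_, ?_, ?_, ?_, ?_, ?_⟩
  · refine ⟨cutN N x y1 y2 y3 e1 e2, φ', cut_full hN hp hC e1 e2,
      cut_one hp (CCu.xN hC) (CCu.y1N hC) (CCu.y2N hC) (CCu.y3N hC) e1 e2, ?_, ?_, ?_,
      fun _ _ => rfl, ?_⟩
    · intro l hl
      rcases Finset.mem_insert.1 hl with rfl | hl
      · rw [ft, hFac]; exact Or.inl rfl
      · rw [fl l (fun e => ht (e ▸ hl))]
        exact CCu.cg_fac hN hp hC e1 e2 hcard (hφ l hl)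
    · intro l hl m hm he
      rcases Finset.mem_insert.1 hl with hl | hl <;> rcases Finset.mem_insert.1 hm with hm | hm
      · rw [hl, hm]
      · exfalso
        rw [hl, ft, fl m (fun e => ht (e ▸ hm)), hT] at he
        exact ChA.cg_ne_tri hN hp hC e1 e2 hcard (hφ m hm) he
      · exfalso
        rw [hm, ft, fl l (fun e => ht (e ▸ hl)), hT] at he
        exact ChA.cg_ne_tri hN hp hC e1 e2 hcard (hφ l hl) he.symm
      · rw [fl m (fun e => ht (e ▸ hm)), fl l (fun e => ht (e ▸ hl))] at he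
        exact hinj l hl m hm (ChA.cg_inj hN hp hC e1 e2 hcard (hφ l hl) (hφ m hm) he)
    · intro F hF
      rcases (hFac F).1 hF with e | e | e | e | ⟨hF', hx⟩
      · exact ⟨t, ti, by rw [ft, e]⟩
      · exact ⟨i, ii i hi, by rw [fi, e]⟩
      · exact ⟨j, ii j hj, by rw [fj, e]⟩
      · exact ⟨k, ii k hk, by rw [fk, e]⟩
      · obtain ⟨l, hl, e⟩ := hsurj F hF'
        refine ⟨l, ii l hl, ?_⟩
        rw [fl l (fun e => ht (e ▸ hl)), e]
        exact CCu.cg_4 hC e1 e2 hx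
    · intro c hcQ
      rw [Finset.mem_filter, Finset.mem_powerset] at hcQ
      exact hcQ
  · change (φ' t).card = 3
    rw [ft]; exact c0
  · change (φ' i).card = _
    rw [c1, hsz i hi]
  · change (φ' j).card = _
    rw [c2, hsz j hj]
  · change (φ' k).card + 1 = _
    rw [c3, hsz k hk]
  · intro l hl hli hlj hlk
    change (φ' l).card = _
    rw [fl l (fun e => ht (e ▸ hl))]
    rcases ChA.cg_cases hN hp hC e1 e2 (hφ l hl) with ⟨a, e⟩ | ⟨a, e⟩ | ⟨a, e⟩ | ⟨hx, e⟩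
    · exact absurd (hinj _ hl _ hi a) hli
    · exact absurd (hinj _ hl _ hj a) hlj
    · exact absurd (hinj _ hl _ hk a) hlk
    · rw [e, hsz l hl]
  · apply memQ i j t hij hit hjt (ii i hi) (ii j hj) ti
    rw [fi, fj, ft, hT]
    exact ChA.tri_new3 hN hp hC e1 e2 hcard
  · intro he
    apply memQ j k t hjk hjt hkt (ii j hj) (ii k hk) ti
    rw [fj, fk, ft, hT]
    subst he
    exact ChA.tri_new1 hN hp hC e2
  · intro he
    apply memQ i k t hik hit hkt (ii i hi) (ii k hk) ti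
    rw [fi, fk, ft, hT]
    subst he
    exact ChA.tri_new2 hN hp hC e1
  · intro c hcQ hne hd1 hd2
    obtain ⟨hcI, a, b, d, hce, hab, had, hbd, z, w1, w2, w3, hz⟩ := hQ c hcQ
    have ha : a ∈ I := hcI (by rw [hce]; simp)
    have hb : b ∈ I := hcI (by rw [hce]; simp)
    have hd : d ∈ I := hcI (by rw [hce]; simp)
    have hmem : ∀ l ∈ I, z ∈ φ l → l ∈ c := by
      intro l hl hzl
      rw [hce, Finset.mem_insert, Finset.mem_insert, Finset.mem_singleton]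
      rcases cor_fac hN hp hz (hφ l hl) hzl with e | e | e
      · exact Or.inl (hinj _ hl _ ha e)
      · exact Or.inr (Or.inl (hinj _ hl _ hb e))
      · exact Or.inr (Or.inr (hinj _ hl _ hd e))
    have hzx : z ≠ x := by
      rintro rfl
      apply hne
      symm
      apply Finset.eq_of_subset_of_card_le
      · intro u hu
        rw [Finset.mem_insert, Finset.mem_insert, Finset.mem_singleton] at hu
        rcases hu with rfl | rfl | rfl
        · exact hmem _ hi hC.x1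
        · exact hmem _ hj hC.x2
        · exact hmem _ hk hC.x3
      · rw [hce, Finset.card_eq_three.2 ⟨a, b, d, hab, had, hbd, rfl⟩,
          Finset.card_eq_three.2 ⟨i, j, k, hij, hik, hjk, rfl⟩]
    have hz1 : e1 = false → z ≠ y1 := by
      rintro he rfl
      apply hd1 he
      intro u hu
      rw [Finset.mem_insert, Finset.mem_singleton] at hu
      rcases hu with rfl | rfl
      · exact hmem _ hj hC.a2
      · exact hmem _ hk hC.a3
    have hz2 : e2 = false → z ≠ y2 := by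
      rintro he rfl
      apply hd2 he
      intro u hu
      rw [Finset.mem_insert, Finset.mem_singleton] at hu
      rcases hu with rfl | rfl
      · exact hmem _ hi hC.b1
      · exact hmem _ hk hC.b3
    obtain ⟨w1', w2', w3', hcut⟩ := cut_cor hN hp hC e1 e2 hcard hz hzx hz1 hz2
    rw [hce]
    apply memQ a b d hab had hbd (ii a ha) (ii b hb) (ii d hd)
    rw [fl a (fun e => ht (e ▸ ha)), fl b (fun e => ht (e ▸ hb)), fl d (fun e => ht (e ▸ hd))]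
    exact ⟨_, _, _, _, hcut⟩

end Pool.Agent.P3F
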