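import Mathlib

/-!
# Counting pairs (MP_a5fcbe_co, module Cnt)

All pairs are ordered pairs; `r` is a symmetric irreflexive relation.

`even_pairs`: the involution `(a, b) ↦ (b, a)` of the set of the related pairs has no fixed point
(`Finset.card_involution` / `Finset.even_card_of_involution`-like lemmas, or
`Finset.sum_involution` in `ZMod 2`; or induction on `R`: adding `a` adds `2 * (number of b ∈ R with r a b)`).

`cnt_conn`: `R` is not empty and connected by `r`: at least `2 (|R| - 1)` pairs.
Proof: induction on the number of elements of a set `T ⊆ R` which contains a chosen `x₀` and in which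
`2 |T| ≤ (pairs in T) + 2`: start with `T = {x₀}`; if `T ≠ R` take `y ∈ R \ T`; the walk from `x₀`
to `y` in `R` leaves `T`: there are `p ∈ T`, `q ∈ R \ T` with `r p q`; `insert q T` has at least two more
pairs (`(p, q)` and `(q, p)`).

`cnt_cover`: the same with several sets: more precisely let `T` be a union of some of the sets
`K i`, `i ∈ J`; claim `2 |T| ≤ (pairs in T) + 2 |J|` (induction on `J`).  Adding `K j`: if `K j` is empty or
disjoint from `T` use `cnt_conn`-like growth from one element (costs one more element without a
pair, `+ 2`), otherwise growth starting from `T`.  It is convenient to prove first the growth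
lemma `grow`: if `T, K` are finite sets, `K` is connected by `r` (inside `K`), and
`T ∩ K` is not empty, then `2 |T ∪ K| - 2 |T| ≤ (pairs in T ∪ K) - (pairs in T)`.
-/

set_option autoImplicit false

namespace Pool.Agent.P3F

open Classical in
/-- Number of ordered pairs of elements of `R` related by `r`. -/
noncomputable def prs {α : Type*} (r : α → α → Prop) (R : Finset α) : ℕ :=
  ((R ×ˢ R).filter fun p => r p.1 p.2).card

open Classical in
/-- Sum form of the number of pairs (auxiliary). -/
theorem prs_eq_sum_aux {α : Type*} (r : α → α → Prop) (R : Finset α) :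
    prs r R = ∑ x ∈ R, (R.filter fun y => r x y).card := by
  unfold prs
  rw [Finset.card_filter, Finset.sum_product]
  refine Finset.sum_congr rfl fun x _ => ?_
  rw [Finset.card_filter]

open Classical in
/-- Splitting the pairs of a disjoint union (auxiliary). -/
theorem prs_union_aux {α : Type*} (r : α → α → Prop) (hs : ∀ a b, r a b → r b a)
    (A B : Finset α) (h : Disjoint A B) :
    prs r (A ∪ B) = prs r A + prs r B + 2 * ((A ×ˢ B).filter fun p => r p.1 p.2).card := by
  have hcard : ∀ x, ((A ∪ B).filter fun y => r x y).card
      = (A.filter fun y => r x y).card + (B.filter fun y => r x y).card := by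
    intro x
    rw [Finset.filter_union, Finset.card_union_of_disjoint]
    exact Finset.disjoint_filter_filter h
  have hAB : ((A ×ˢ B).filter fun p => r p.1 p.2).card
      = ∑ x ∈ A, (B.filter fun y => r x y).card := by
    rw [Finset.card_filter, Finset.sum_product]
    refine Finset.sum_congr rfl fun x _ => ?_
    rw [Finset.card_filter]
  have hBA : ∑ x ∈ B, (A.filter fun y => r x y).card
      = ∑ x ∈ A, (B.filter fun y => r x y).card := by
    simp only [Finset.card_filter]
    rw [Finset.sum_comm]
    refine Finset.sum_congr rfl fun x _ => Finset.sum_congr rfl fun y _ => ?_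
    have : r y x ↔ r x y := ⟨hs _ _, hs _ _⟩
    simp [this]
  rw [prs_eq_sum_aux, Finset.sum_union h]
  simp only [hcard, Finset.sum_add_distrib]
  rw [hBA, hAB, prs_eq_sum_aux, prs_eq_sum_aux]
  ring

theorem prs_mono {α : Type*} (r : α → α → Prop) {A B : Finset α} (h : A ⊆ B) :
    prs r A ≤ prs r B := by
  classical
  unfold prs
  exact Finset.card_le_card (Finset.filter_subset_filter _ (Finset.product_subset_product h h))

open Classical in
theorem prs_insert {α : Type*} (r : α → α → Prop) (hs : ∀ a b, r a b → r b a)
    (hi : ∀ a, ¬ r a a) (a : α) (R : Finset α) (ha : a ∉ R) :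
    prs r (insert a R) = prs r R + 2 * (R.filter fun y => r a y).card := by
  have h1 : insert a R = {a} ∪ R := by
    rw [Finset.insert_eq]
  have h2 : prs r {a} = 0 := by
    rw [prs_eq_sum_aux]
    simp [Finset.filter_singleton, hi a]
  have h3 : ((({a} : Finset α) ×ˢ R).filter fun p => r p.1 p.2).card
      = (R.filter fun y => r a y).card := by
    rw [Finset.card_filter, Finset.sum_product, Finset.sum_singleton, Finset.card_filter]
  rw [h1, prs_union_aux r hs _ _ (by simpa using ha), h2, h3]
  ring

/-- A walk inside `K` which leaves `T`. -/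
theorem walk_exit {α : Type*} (r : α → α → Prop) (T K : Finset α) {x y : α}
    (hw : Relation.ReflTransGen (fun p q => r p q ∧ p ∈ K ∧ q ∈ K) x y)
    (hx : x ∈ T) (hy : y ∉ T) : ∃ p ∈ T, ∃ q ∈ K, q ∉ T ∧ r p q := by
  induction hw with
  | refl => exact absurd hx hy
  | @tail b c _ hbc ih =>
    by_cases hb : b ∈ T
    · exact ⟨b, hb, c, hbc.2.2, hy, hbc.1⟩
    · exact ih hb

open Classical in
/-- The growth lemma. -/
theorem grow {α : Type*} (r : α → α → Prop) (hs : ∀ a b, r a b → r b a)
    (hi : ∀ a, ¬ r a a) (K : Finset α)
    (hconn : ∀ x ∈ K, ∀ y ∈ K, Relation.ReflTransGen (fun p q => r p q ∧ p ∈ K ∧ q ∈ K) x y) :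
    ∀ (n : ℕ) (T : Finset α) (x₀ : α), x₀ ∈ T → x₀ ∈ K → (K \ T).card = n →
      2 * (T ∪ K).card + prs r T ≤ prs r (T ∪ K) + 2 * T.card := by
  intro n
  induction n with
  | zero =>
    intro T x₀ _ _ hn
    have hKT : K ⊆ T := by
      rw [Finset.card_eq_zero, Finset.sdiff_eq_empty_iff_subset] at hn
      exact hn
    rw [Finset.union_eq_left.mpr hKT]
    omega
  | succ n ih =>
    intro T x₀ hT hK hn
    have hne : (K \ T).Nonempty := by
      rw [← Finset.card_pos, hn]; omega
    obtain ⟨y, hy⟩ := hne
    rw [Finset.mem_sdiff] at hy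
    obtain ⟨p, hp, q, hqK, hqT, hpq⟩ := walk_exit r T K (hconn x₀ hK y hy.1) hT hy.2
    have hcard : (K \ insert q T).card = n := by
      have h1 : K \ insert q T = (K \ T).erase q := by
        ext z
        simp only [Finset.mem_sdiff, Finset.mem_insert, Finset.mem_erase, not_or]
        tauto
      rw [h1, Finset.card_erase_of_mem (Finset.mem_sdiff.mpr ⟨hqK, hqT⟩), hn]
      rfl
    have h := ih (insert q T) x₀ (Finset.mem_insert_of_mem hT) hK hcard
    have hU : insert q T ∪ K = T ∪ K := by
      ext z
      simp only [Finset.mem_union, Finset.mem_insert]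
      constructor
      · rintro ((rfl | hz) | hz)
        · exact Or.inr hqK
        · exact Or.inl hz
        · exact Or.inr hz
      · rintro (hz | hz)
        · exact Or.inl (Or.inr hz)
        · exact Or.inr hz
    have hpr := prs_insert r hs hi q T hqT
    have hpos : 1 ≤ (T.filter fun y => r q y).card := by
      rw [Nat.succ_le_iff, Finset.card_pos]
      exact ⟨p, Finset.mem_filter.mpr ⟨hp, hs _ _ hpq⟩⟩
    rw [hU, Finset.card_insert_of_notMem hqT] at h
    omega

theorem even_pairs {α : Type*} (r : α → α → Prop) (hs : ∀ a b, r a b → r b a)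
    (hi : ∀ a, ¬ r a a) (R : Finset α) : Even (prs r R) := by
  classical
  induction R using Finset.induction_on with
  | empty => simp [prs]
  | insert a R ha ih =>
    rw [prs_insert r hs hi a R ha]
    exact ih.add (even_two_mul _)

theorem cnt_conn {α : Type*} (r : α → α → Prop) (hs : ∀ a b, r a b → r b a)
    (hi : ∀ a, ¬ r a a) (R : Finset α)
    (hconn : ∀ x ∈ R, ∀ y ∈ R, Relation.ReflTransGen (fun p q => r p q ∧ p ∈ R ∧ q ∈ R) x y) :
    2 * R.card ≤ prs r R + 2 := by
  classical
  rcases R.eq_empty_or_nonempty with rfl | ⟨x₀, hx₀⟩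
  · simp
  · have h := grow r hs hi R hconn _ {x₀} x₀ (Finset.mem_singleton_self _) hx₀ rfl
    have hU : ({x₀} : Finset α) ∪ R = R :=
      Finset.union_eq_right.mpr (Finset.singleton_subset_iff.mpr hx₀)
    rw [hU, Finset.card_singleton] at h
    omega

/-- `R` is the union of `c` sets which are connected by `r`: at least `2 (|R| - c)` pairs. -/
theorem cnt_cover {α : Type*} (r : α → α → Prop) (hs : ∀ a b, r a b → r b a)
    (hi : ∀ a, ¬ r a a) (R : Finset α) {c : ℕ} (K : Fin c → Finset α)
    (hcov : ∀ x ∈ R, ∃ i, x ∈ K i) (hK : ∀ i, K i ⊆ R)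
    (hconn : ∀ i, ∀ x ∈ K i, ∀ y ∈ K i,
      Relation.ReflTransGen (fun p q => r p q ∧ p ∈ K i ∧ q ∈ K i) x y) :
    2 * R.card ≤ prs r R + 2 * c := by
  classical
  have key : ∀ J : Finset (Fin c),
      2 * (J.biUnion K).card ≤ prs r (J.biUnion K) + 2 * J.card := by
    intro J
    induction J using Finset.induction_on with
    | empty => simp
    | insert j J hj ih =>
      rw [Finset.biUnion_insert, Finset.card_insert_of_notMem hj]
      rcases (K j).eq_empty_or_nonempty with he | ⟨x₀, hx₀⟩
      · rw [he, Finset.empty_union]
        omega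
      · have h := grow r hs hi (K j) (hconn j) _ (insert x₀ (J.biUnion K)) x₀
          (Finset.mem_insert_self _ _) hx₀ rfl
        have hU : insert x₀ (J.biUnion K) ∪ K j = K j ∪ J.biUnion K := by
          ext z
          simp only [Finset.mem_union, Finset.mem_insert]
          constructor
          · rintro ((rfl | hz) | hz)
            · exact Or.inl hx₀
            · exact Or.inr hz
            · exact Or.inl hz
          · rintro (hz | hz)
            · exact Or.inr hz
            · exact Or.inl (Or.inr hz)
        have h1 : (insert x₀ (J.biUnion K)).card ≤ (J.biUnion K).card + 1 :=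
          Finset.card_insert_le _ _
        by_cases hm : x₀ ∈ J.biUnion K
        · rw [hU, Finset.insert_eq_of_mem hm] at h
          omega
        · have h2 := prs_mono r (Finset.subset_insert x₀ (J.biUnion K))
          rw [hU] at h
          omega
  have hR : (Finset.univ : Finset (Fin c)).biUnion K = R := by
    ext x
    simp only [Finset.mem_biUnion, Finset.mem_univ, true_and]
    exact ⟨fun ⟨i, hi⟩ => hK i hi, fun hx => hcov x hx⟩
  have h := key Finset.univ
  rw [hR, Finset.card_univ, Fintype.card_fin] at h
  exact h

open Classical in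
/-- Splitting the pairs of a disjoint union. -/
theorem prs_union {α : Type*} (r : α → α → Prop) (hs : ∀ a b, r a b → r b a)
    (A B : Finset α) (h : Disjoint A B) :
    prs r (A ∪ B) = prs r A + prs r B + 2 * ((A ×ˢ B).filter fun p => r p.1 p.2).card := by
  exact prs_union_aux r hs A B h

open Classical in
theorem prs_eq_sum {α : Type*} (r : α → α → Prop) (R : Finset α) :
    prs r R = ∑ x ∈ R, (R.filter fun y => r x y).card := by
  exact prs_eq_sum_aux r R

end Pool.Agent.P3F
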