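import Pool.Agent.P3F.Ind

set_option autoImplicit false

/-!
# The facets suffice (MP_a5fcbe_co, module Sep)

`exists_fac_neg`: let `f ≥ 0` on `N`, `f x < 0`.  Among the functionals `f` with these two properties
choose one with the largest number of zeros in `N` (a natural number `≤ N.card`).  Let `Z` be the
set of its zeros in `N`.  Claim: `span Z` has dimension `≥ 3`; then `fac_of_fun` applies (three independent
elements of `Z`: choose them as in `fac_li`).  Otherwise there are a vector space of dimension `≥ 2`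
of functionals which vanish on `Z`, so there is `g ≠ 0`, zero on `Z`, with `g x = 0` (combine two
independent ones; or: `span Z ⊔ span {x}` has dimension `≤ 3 < 4`, so it is a proper
subspace, and there is `g ≠ 0` which vanishes on it).  Since `N` spans, `g` is not zero on `N`; replace `g` by `- g`
if necessary: `g v < 0` for some `v ∈ N`.  Let `t` be the minimum of `f v / (- g v)` over the `v ∈ N` with
`g v < 0`, attained at `v₀`.  As `v₀ ∉ Z`, `t > 0`.  `f + t g` is `≥ 0` on `N`, zero on `Z` and at `v₀`, and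
`(f + t g) x = f x < 0`: more zeros, contradiction.

`mem_cone`: if all functionals of facets are `≥ 0` at `x` then `x` is a combination of the elements of `N` with
coefficients `≥ 0` (`LPG.farkasK` with `K = ⊥`; if some `f ≥ 0` on `N` has `f x < 0` use
`exists_fac_neg`).
-/

namespace Pool.Agent.P3F

open Pool.Agent.LPG

variable {W : Type*} [AddCommGroup W] [Module ℝ W] {N : Finset W}

private theorem exists_three {Z : Finset W} (h : 3 ≤ Module.finrank ℝ (Submodule.span ℝ (Z : Set W))) :
    ∃ u ∈ Z, ∃ v ∈ Z, ∃ w ∈ Z, LinearIndependent ℝ ![u, v, w] := by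
  classical
  obtain ⟨b, hbF, hspan, hli⟩ := exists_linearIndependent ℝ (Z : Set W)
  have hfin : b.Finite := Z.finite_toSet.subset hbF
  have : Fintype b := hfin.fintype
  rw [← hspan] at h
  have h2 : Module.finrank ℝ (Submodule.span ℝ b) = b.toFinset.card :=
    finrank_span_set_eq_card (s := b) hli
  rw [h2] at h
  obtain ⟨x, y, z, hx, hy, hz, hxy, hxz, hyz⟩ := Finset.two_lt_card_iff.1 (show 2 < b.toFinset.card from h)
  rw [Set.mem_toFinset] at hx hy hz
  refine ⟨x, hbF hx, y, hbF hy, z, hbF hz, ?_⟩
  have h3 := hli.comp (![⟨x, hx⟩, ⟨y, hy⟩, ⟨z, hz⟩] : Fin 3 → b) (by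
    intro i j hij
    fin_cases i <;> fin_cases j <;> first | rfl | (exfalso; simp at hij; tauto))
  have h4 : Subtype.val ∘ (![⟨x, hx⟩, ⟨y, hy⟩, ⟨z, hz⟩] : Fin 3 → b) = ![x, y, z] := by
    funext i
    fin_cases i <;> rfl
  rw [h4] at h3
  exact h3

private theorem eq_zero_of_zero (h : Full N) {g : W →ₗ[ℝ] ℝ} (hg : ∀ w ∈ N, g w = 0) : g = 0 := by
  have h1 : Submodule.span ℝ (N : Set W) ≤ LinearMap.ker g := by
    rw [Submodule.span_le]
    intro x hx
    exact hg x hx
  rw [h.span, top_le_iff] at h1
  exact LinearMap.ker_eq_top.1 h1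

private theorem key_neg (h : Full N) {x : W} (m : ℕ) : ∀ f : W →ₗ[ℝ] ℝ, (∀ w ∈ N, 0 ≤ f w) →
    f x < 0 → (open Classical in (N.filter fun w => f w ≠ 0).card) ≤ m →
    ∃ F ∈ Fac N, ∃ g : W →ₗ[ℝ] ℝ, FunOf N F g ∧ g x < 0 := by
  classical
  have hfd : FiniteDimensional ℝ W := Module.finite_of_finrank_pos (by rw [h.dim]; omega)
  induction m with
  | zero =>
    intro f hf hx hm
    exfalso
    have h1 : (N.filter fun w => f w ≠ 0) = ∅ := by
      rw [← Finset.card_eq_zero]
      refine Nat.le_zero.1 (le_trans (le_of_eq ?_) hm)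
      congr!
    rw [Finset.filter_eq_empty_iff] at h1
    have h2 := eq_zero_of_zero h (g := f) (fun w hw => not_not.1 (h1 hw))
    rw [h2, LinearMap.zero_apply] at hx
    exact lt_irrefl _ hx
  | succ m ih =>
    intro f hf hx hm
    have hm' : (N.filter fun w => f w ≠ 0).card ≤ m + 1 := by
      refine le_trans (le_of_eq ?_) hm
      congr!
    have hf0 : f ≠ 0 := by
      rintro rfl
      rw [LinearMap.zero_apply] at hx
      exact lt_irrefl _ hx
    set Z := N.filter fun w => f w = 0 with hZ
    rcases le_or_gt 3 (Module.finrank ℝ (Submodule.span ℝ (Z : Set W))) with h3 | h3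
    · obtain ⟨u, hu, v, hv, w, hw, hli⟩ := exists_three h3
      rw [hZ, Finset.mem_filter] at hu hv hw
      obtain ⟨F, hF, hFf⟩ := fac_of_fun h hf hf0 hli hu.1 hv.1 hw.1 hu.2 hv.2 hw.2
      exact ⟨F, hF, f, hFf, hx⟩
    · -- a functional `g` vanishing on `Z` and at `x`
      have hlt : Submodule.span ℝ (Z : Set W) ⊔ Submodule.span ℝ {x} < ⊤ := by
        rw [lt_top_iff_ne_top]
        intro htop
        have h4 := Submodule.finrank_add_le_finrank_add_finrank
          (Submodule.span ℝ (Z : Set W)) (Submodule.span ℝ {x})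
        rw [htop, finrank_top, h.dim] at h4
        have h5 : Module.finrank ℝ (Submodule.span ℝ ({x} : Set W)) ≤ 1 := by
          have := finrank_span_le_card (R := ℝ) ({x} : Set W)
          simpa using this
        omega
      obtain ⟨g0, hg0, hle⟩ := Submodule.exists_le_ker_of_lt_top _ hlt
      have hg0Z : ∀ z ∈ Z, g0 z = 0 := fun z hz =>
        hle (Submodule.mem_sup_left (Submodule.subset_span hz))
      have hg0x : g0 x = 0 := hle (Submodule.mem_sup_right (Submodule.mem_span_singleton_self x))
      obtain ⟨g, hgZ, hgx, v1, hv1, hv1'⟩ : ∃ g : W →ₗ[ℝ] ℝ, (∀ z ∈ Z, g z = 0) ∧ g x = 0 ∧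
          ∃ v ∈ N, g v < 0 := by
        by_cases hex : ∃ v ∈ N, g0 v < 0
        · exact ⟨g0, hg0Z, hg0x, hex⟩
        · push Not at hex
          refine ⟨-g0, fun z hz => ?_, ?_, ?_⟩
          · rw [LinearMap.neg_apply, hg0Z z hz, neg_zero]
          · rw [LinearMap.neg_apply, hg0x, neg_zero]
          · by_contra hno
            push Not at hno
            apply hg0
            apply eq_zero_of_zero h
            intro w hw
            have h6 := hno w hw
            rw [LinearMap.neg_apply] at h6
            linarith [hex w hw]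
      -- the minimum
      obtain ⟨v0, hv0, hmin⟩ := Finset.exists_min_image (N.filter fun v => g v < 0)
        (fun v => f v / (- g v)) ⟨v1, Finset.mem_filter.2 ⟨hv1, hv1'⟩⟩
      rw [Finset.mem_filter] at hv0
      set t : ℝ := f v0 / (- g v0) with ht
      have ht0 : 0 ≤ t := div_nonneg (hf v0 hv0.1) (by linarith [hv0.2])
      have hnew : ∀ w ∈ N, 0 ≤ (f + t • g) w := by
        intro w hw
        rw [LinearMap.add_apply, LinearMap.smul_apply, smul_eq_mul]
        rcases lt_or_ge (g w) 0 with h7 | h7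
        · have h8 := hmin w (Finset.mem_filter.2 ⟨hw, h7⟩)
          have h8' : t ≤ f w / (- g w) := h8
          rw [le_div_iff₀ (by linarith)] at h8'
          linarith
        · have := hf w hw
          have := mul_nonneg ht0 h7
          linarith
      have hnewx : (f + t • g) x < 0 := by
        rw [LinearMap.add_apply, LinearMap.smul_apply, smul_eq_mul, hgx, mul_zero, add_zero]
        exact hx
      apply ih (f + t • g) hnew hnewx
      have hsub : (N.filter fun w => (f + t • g) w ≠ 0) ⊂ (N.filter fun w => f w ≠ 0) := by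
        rw [Finset.ssubset_iff_of_subset]
        · refine ⟨v0, Finset.mem_filter.2 ⟨hv0.1, fun h9 => ?_⟩, fun h9 => ?_⟩
          · have := hgZ v0 (Finset.mem_filter.2 ⟨hv0.1, h9⟩)
            linarith [hv0.2]
          · apply (Finset.mem_filter.1 h9).2
            rw [LinearMap.add_apply, LinearMap.smul_apply, smul_eq_mul, ht]
            have : - g v0 ≠ 0 := by linarith [hv0.2]
            have h10 : g v0 ≠ 0 := fun h11 => this (by rw [h11, neg_zero])
            field_simp
            ring
        · intro w hw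
          rw [Finset.mem_filter] at hw ⊢
          refine ⟨hw.1, fun h9 => hw.2 ?_⟩
          rw [LinearMap.add_apply, LinearMap.smul_apply, smul_eq_mul, h9,
            hgZ w (Finset.mem_filter.2 ⟨hw.1, h9⟩), mul_zero, add_zero]
      have h12 := Finset.card_lt_card hsub
      have h13 : (N.filter fun w => (f + t • g) w ≠ 0).card ≤ m := by omega
      refine le_trans (le_of_eq ?_) h13
      congr!

theorem exists_fac_neg (h : Full N) {x : W} {f : W →ₗ[ℝ] ℝ} (hf : ∀ w ∈ N, 0 ≤ f w)
    (hx : f x < 0) : ∃ F ∈ Fac N, ∃ g : W →ₗ[ℝ] ℝ, FunOf N F g ∧ g x < 0 :=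
  key_neg h _ f hf hx le_rfl

theorem mem_cone (h : Full N) {x : W}
    (hx : ∀ F ∈ Fac N, ∀ g : W →ₗ[ℝ] ℝ, FunOf N F g → 0 ≤ g x) :
    ∃ c : W → ℝ, (∀ v ∈ N, 0 ≤ c v) ∧ x = ∑ v ∈ N, c v • v := by
  obtain ⟨c, hc, hm⟩ := farkasK ⊥ N x (by
    intro f _ hf
    by_contra hno
    push Not at hno
    obtain ⟨F, hF, g, hg, hgx⟩ := exists_fac_neg h hf hno
    exact absurd (hx F hF g hg) (not_le.2 hgx))
  exact ⟨c, hc, sub_eq_zero.1 ((Submodule.mem_bot ℝ).1 hm)⟩

end Pool.Agent.P3F
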