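import Pool.Agent.P3F.Euler
import Pool.Agent.P3F.Sep

/-!
# Removing vertices (MP_a5fcbe_co, module Comp)

`Full N`, `S ⊆ N`, `3 ≤ S.card`.  `Poly S ⊥` holds (subset).  If `S` spans `W` then `Full S`.

`inner_edges`: adjacent elements `u, v ∈ S` of `N` are adjacent in `S` (same functional).  If `S` spans:
`edges_le` for `S` (`prs (Adj S ⊥) S = ∑ dg S s` by `prs_eq_sum`).  If `S` does not span, `S ⊆ ker π` for some `π ≠ 0`;
every `s ∈ S` has at most two neighbours in `S` (three of them and `s` would be four independent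
vectors, `li4`, in `ker π`, `rank_le_of_ker`), so `prs (Adj S ⊥) S ≤ 2 * S.card ≤ 6 * S.card - 12`.

`neg_fun`: for `x ∈ N \ S` there is `f ≥ 0` on `S` (even `> 0`) with `f x < 0`: the functional `f₀` of `x`
(`f₀ x = 0`, positive on the rest of `N`) minus `δ p`, `p` the positive functional, `δ > 0` small (finitely
many conditions).

`cover`.  If `S` spans: `c = (Fac S).card` (`facs_le`), for `F ∈ Fac S` choose a functional `f F` and let
`K F = {v ∈ N | f F v < 0}`; it is contained in `N \ S`, it is connected by `conn` (for `- f F`), and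
by `neg_fun`, `exists_fac_neg` (for `S`) and `fun_pos_prop` every `x ∈ N \ S` is in some `K F`.
If `S ⊆ ker π`, `π ≠ 0`: `c = 2 ≤ 2 * S.card - 4`.  `K 0` (`K 1`) is the set of the `x ∈ N \ S` which are joined in
`N \ S` with some `y` with `π y > 0` (`π y < 0`).  `K 0` is connected: all `y ∈ N` with `π y > 0` are joined in
`{π > 0} ⊆ N \ S` by `conn`, and a walk in `N \ S` from `x ∈ K 0` stays in `K 0`.  Every `x ∈ N \ S` is in
`K 0` or `K 1`: clear if `π x ≠ 0`.  Let `π x = 0`.  As `N` spans there is `y ∈ N` with `π y ≠ 0`; replacing `π` by `- π`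
(exchange of `K 0`, `K 1`) let `π y > 0`.  With `f` of `neg_fun` for `x` let `ψ = π - ε f`, `ε > 0` so small that
`ψ y > 0`; `ψ < 0` on `S`, `ψ x > 0`.  By `conn` `x` and `y` are joined in `{ψ > 0} ⊆ N \ S`.
-/

set_option autoImplicit false

namespace Pool.Agent.P3F

open Pool.Agent.LPG

variable {W : Type*} [AddCommGroup W] [Module ℝ W] {N : Finset W}

private theorem Comp_poly {K : Submodule ℝ W} (h : Poly N K) {S : Finset W} (hS : S ⊆ N) :
    Poly S K := by
  refine ⟨fun v hv => ?_, ?_⟩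
  · obtain ⟨f, h1, h2, h3⟩ := h.1 v (hS hv)
    exact ⟨f, h1, h2, fun w hw hne => h3 w (hS hw) hne⟩
  · obtain ⟨f, h1, h2⟩ := h.2
    exact ⟨f, h1, fun w hw => h2 w (hS hw)⟩

private theorem Comp_full (h : Full N) {S : Finset W} (hS : S ⊆ N)
    (hsp : Submodule.span ℝ (S : Set W) = ⊤) : Full S :=
  ⟨Comp_poly h.poly hS, h.dim, hsp⟩

private theorem Comp_pi {S : Finset W} (hsp : Submodule.span ℝ (S : Set W) ≠ ⊤) :
    ∃ π : W →ₗ[ℝ] ℝ, π ≠ 0 ∧ ∀ s ∈ S, π s = 0 := by
  obtain ⟨f, hf, hf2⟩ := Submodule.exists_le_ker_of_lt_top _ (lt_top_iff_ne_top.2 hsp)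
  exact ⟨f, hf, fun s hs => LinearMap.mem_ker.1 (hf2 (Submodule.subset_span hs))⟩

/-- small multiples -/
private theorem Comp_small {ι : Type*} (S : Finset ι) (F G : ι → ℝ) (hF : ∀ s ∈ S, 0 < F s) :
    ∃ δ : ℝ, 0 < δ ∧ ∀ s ∈ S, δ * G s < F s := by
  classical
  induction S using Finset.induction_on with
  | empty => exact ⟨1, one_pos, fun s hs => absurd hs (Finset.notMem_empty s)⟩
  | insert a S ha ih =>
    obtain ⟨δ, hδ, hS⟩ := ih fun s hs => hF s (Finset.mem_insert_of_mem hs)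
    have hFa := hF a (Finset.mem_insert_self a S)
    have hG : 0 < |G a| + 1 := by positivity
    refine ⟨min δ (F a / (|G a| + 1)), lt_min hδ (div_pos hFa hG), fun s hs => ?_⟩
    have h0 : 0 < min δ (F a / (|G a| + 1)) := lt_min hδ (div_pos hFa hG)
    rcases Finset.mem_insert.1 hs with rfl | hs'
    · calc min δ (F s / (|G s| + 1)) * G s ≤ min δ (F s / (|G s| + 1)) * |G s| :=
            mul_le_mul_of_nonneg_left (le_abs_self _) h0.le
        _ ≤ F s / (|G s| + 1) * |G s| :=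
            mul_le_mul_of_nonneg_right (min_le_right _ _) (abs_nonneg _)
        _ < F s := by
            rw [div_mul_eq_mul_div, div_lt_iff₀ hG]
            nlinarith
    · have h1 := hS s hs'
      rcases le_or_gt 0 (G s) with h2 | h2
      · exact (mul_le_mul_of_nonneg_right (min_le_left _ _) h2).trans_lt h1
      · exact (mul_neg_of_pos_of_neg h0 h2).trans (hF s hs)

theorem inner_edges (h : Full N) {S : Finset W} (hS : S ⊆ N) (h3 : 3 ≤ S.card) :
    prs (Adj N ⊥) S + 12 ≤ 6 * S.card := by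
  classical
  rw [prs_eq_sum]
  by_cases hsp : Submodule.span ℝ (S : Set W) = ⊤
  · have h1 := edges_le (Comp_full h hS hsp)
    have h2 : ∀ s ∈ S, (S.filter fun y => Adj N ⊥ s y).card ≤ dg S s := by
      intro s hs
      unfold dg
      apply Finset.card_le_card
      intro y hy
      rw [Finset.mem_filter] at hy
      rw [mem_nb]
      obtain ⟨hy1, hy2, hy3, hy4, f, f1, f2, f3, f4⟩ := hy
      exact ⟨hs, hy1, hy4, f, f1, f2, f3, fun w hw hw1 hw2 => f4 w (hS hw) hw1 hw2⟩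
    have h4 := Finset.sum_le_sum h2
    have h5 : ∑ x ∈ S, (S.filter fun y => Adj N ⊥ x y).card + 12 ≤ 6 * S.card := by omega
    convert h5
  · obtain ⟨π, hπ, hπS⟩ := Comp_pi hsp
    have h2 : ∀ s ∈ S, (S.filter fun y => Adj N ⊥ s y).card ≤ 2 := by
      intro s hs
      by_contra hcon
      push Not at hcon
      obtain ⟨a, ha, b, hb, c, hc, hab, hac, hbc⟩ := Finset.two_lt_card.1 hcon
      rw [Finset.mem_filter] at ha hb hc
      have hli := li4 h.poly (hS hs) (mem_nb.2 ha.2) (mem_nb.2 hb.2) (mem_nb.2 hc.2) hab hac hbc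
      have hr := rank_le_of_ker h.dim hπ (U := Submodule.span ℝ (Set.range ![s, a, b, c])) (by
        intro u hu
        have hle : Submodule.span ℝ (Set.range ![s, a, b, c]) ≤ LinearMap.ker π := by
          rw [Submodule.span_le]
          rintro _ ⟨i, rfl⟩
          fin_cases i
          · exact hπS s hs
          · exact hπS a ha.1
          · exact hπS b hb.1
          · exact hπS c hc.1
        exact LinearMap.mem_ker.1 (hle hu))
      rw [finrank_span_eq_card hli, Fintype.card_fin] at hr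
      omega
    have h4 := Finset.sum_le_sum h2
    rw [Finset.sum_const, smul_eq_mul] at h4
    have h5 : ∑ x ∈ S, (S.filter fun y => Adj N ⊥ x y).card + 12 ≤ 6 * S.card := by omega
    convert h5

theorem neg_fun (h : Full N) {S : Finset W} (hS : S ⊆ N) {x : W} (hx : x ∈ N) (hxS : x ∉ S) :
    ∃ f : W →ₗ[ℝ] ℝ, (∀ s ∈ S, 0 < f s) ∧ f x < 0 := by
  obtain ⟨f, -, hfx, hf⟩ := h.poly.1 x hx
  obtain ⟨p, -, hp⟩ := h.poly.2
  obtain ⟨δ, hδ, hδS⟩ := Comp_small S (fun s => f s) (fun s => p s) (fun s hs =>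
    hf s (hS hs) (fun h0 => hxS (h0 ▸ hs)))
  refine ⟨f - δ • p, fun s hs => ?_, ?_⟩
  · rw [LinearMap.sub_apply, LinearMap.smul_apply, smul_eq_mul]
    linarith [hδS s hs]
  · rw [LinearMap.sub_apply, LinearMap.smul_apply, smul_eq_mul, hfx]
    linarith [mul_pos hδ (hp x hx)]

private def Comp_R (N S : Finset W) (p q : W) : Prop :=
  Adj N ⊥ p q ∧ p ∉ S ∧ q ∉ S

private theorem Comp_symm {S : Finset W} {x y : W}
    (hw : Relation.ReflTransGen (Comp_R N S) x y) : Relation.ReflTransGen (Comp_R N S) y x := by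
  induction hw with
  | refl => exact Relation.ReflTransGen.refl
  | tail _ hbc ih => exact Relation.ReflTransGen.head ⟨adj_symm hbc.1, hbc.2.2, hbc.2.1⟩ ih

/-- joined with the positive side -/
private def Comp_J (N S : Finset W) (π : W →ₗ[ℝ] ℝ) (x : W) : Prop :=
  x ∈ N ∧ x ∉ S ∧ ∃ y ∈ N, 0 < π y ∧ Relation.ReflTransGen (Comp_R N S) x y

private theorem Comp_conn (h : Full N) {S : Finset W} {ψ : W →ₗ[ℝ] ℝ} (hψ : ∀ s ∈ S, ψ s ≤ 0)
    {x y : W} (hx : x ∈ N) (hy : y ∈ N) (hx0 : 0 < ψ x) (hy0 : 0 < ψ y) :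
    Relation.ReflTransGen (Comp_R N S) x y := by
  have h1 := conn h.poly ψ (fun z hz => by rw [(Submodule.mem_bot ℝ).1 hz, map_zero]) hx hy hx0 hy0
  refine Relation.ReflTransGen.mono ?_ _ _ h1
  rintro p q ⟨hpq, hp, hq⟩
  exact ⟨hpq, fun hs => absurd (hψ p hs) (not_le.2 hp), fun hs => absurd (hψ q hs) (not_le.2 hq)⟩

private theorem Comp_J_conn (h : Full N) {S : Finset W} {π : W →ₗ[ℝ] ℝ} (hπ : ∀ s ∈ S, π s = 0)
    {x x' : W} (hx : Comp_J N S π x) (hx' : Comp_J N S π x') :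
    Relation.ReflTransGen (fun p q => Adj N ⊥ p q ∧ Comp_J N S π p ∧ Comp_J N S π q) x x' := by
  obtain ⟨hxN, hxS, y, hy, hy0, hxy⟩ := hx
  obtain ⟨hxN', hxS', y', hy', hy0', hxy'⟩ := hx'
  have h1 : Relation.ReflTransGen (Comp_R N S) x x' :=
    (hxy.trans (Comp_conn h (fun s hs => (hπ s hs).le) hy hy' hy0 hy0')).trans (Comp_symm hxy')
  have key : ∀ z, Relation.ReflTransGen (Comp_R N S) x z →
      Relation.ReflTransGen (fun p q => Adj N ⊥ p q ∧ Comp_J N S π p ∧ Comp_J N S π q) x z := by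
    intro z hz
    induction hz with
    | refl => exact Relation.ReflTransGen.refl
    | @tail b c hb hbc ih =>
      refine Relation.ReflTransGen.tail ih ⟨hbc.1, ?_, ?_⟩
      · exact ⟨hbc.1.1, hbc.2.1, y, hy, hy0, (Comp_symm hb).trans hxy⟩
      · exact ⟨hbc.1.2.1, hbc.2.2, y, hy, hy0,
          (Comp_symm (Relation.ReflTransGen.tail hb hbc)).trans hxy⟩
  exact key x' h1

private theorem Comp_J_zero (h : Full N) {S : Finset W} (hS : S ⊆ N) {π : W →ₗ[ℝ] ℝ}
    (hπ : ∀ s ∈ S, π s = 0) {x y : W} (hx : x ∈ N) (hxS : x ∉ S) (hx0 : π x = 0) (hy : y ∈ N)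
    (hy0 : 0 < π y) : Comp_J N S π x := by
  obtain ⟨f, hf, hfx⟩ := neg_fun h hS hx hxS
  obtain ⟨ε, hε, hεy⟩ := Comp_small {y} (fun s => π s) (fun s => f s) (by simpa using hy0)
  have hεy' := hεy y (Finset.mem_singleton_self y)
  refine ⟨hx, hxS, y, hy, hy0, Comp_conn h (ψ := π - ε • f) ?_ hx hy ?_ ?_⟩
  · intro s hs
    rw [LinearMap.sub_apply, LinearMap.smul_apply, smul_eq_mul, hπ s hs]
    linarith [mul_pos hε (hf s hs)]
  · rw [LinearMap.sub_apply, LinearMap.smul_apply, smul_eq_mul, hx0]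
    linarith [mul_neg_of_pos_of_neg hε hfx]
  · rw [LinearMap.sub_apply, LinearMap.smul_apply, smul_eq_mul]
    linarith

private theorem Comp_J_all (h : Full N) {S : Finset W} (hS : S ⊆ N) {π : W →ₗ[ℝ] ℝ}
    (hπ0 : π ≠ 0) (hπ : ∀ s ∈ S, π s = 0) {x : W} (hx : x ∈ N) (hxS : x ∉ S) :
    Comp_J N S π x ∨ Comp_J N S (-π) x := by
  have hπ' : ∀ s ∈ S, (-π) s = 0 := fun s hs => by rw [LinearMap.neg_apply, hπ s hs, neg_zero]
  rcases lt_trichotomy (π x) 0 with h1 | h1 | h1
  · refine Or.inr ⟨hx, hxS, x, hx, ?_, Relation.ReflTransGen.refl⟩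
    rw [LinearMap.neg_apply]
    linarith
  · obtain ⟨y, hy, hy0⟩ : ∃ y ∈ N, π y ≠ 0 := by
      by_contra hno
      push Not at hno
      apply hπ0
      have h2 : Submodule.span ℝ (N : Set W) ≤ LinearMap.ker π := by
        rw [Submodule.span_le]
        intro y hy
        exact hno y hy
      rw [h.span, top_le_iff] at h2
      exact LinearMap.ker_eq_top.1 h2
    rcases lt_or_gt_of_ne hy0 with h2 | h2
    · refine Or.inr (Comp_J_zero h hS hπ' hx hxS (by rw [LinearMap.neg_apply, h1, neg_zero]) hy ?_)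
      rw [LinearMap.neg_apply]
      linarith
    · exact Or.inl (Comp_J_zero h hS hπ hx hxS h1 hy h2)
  · exact Or.inl ⟨hx, hxS, x, hx, h1, Relation.ReflTransGen.refl⟩

open Classical in
theorem cover (h : Full N) {S : Finset W} (hS : S ⊆ N) (h3 : 3 ≤ S.card) :
    ∃ (c : ℕ) (K : Fin c → Finset W), c + 4 ≤ 2 * S.card ∧ (∀ i, K i ⊆ N \ S) ∧
      (∀ x ∈ N \ S, ∃ i, x ∈ K i) ∧ ∀ i, ∀ x ∈ K i, ∀ y ∈ K i,
        Relation.ReflTransGen (fun p q => Adj N ⊥ p q ∧ p ∈ K i ∧ q ∈ K i) x y := by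
  by_cases hsp : Submodule.span ℝ (S : Set W) = ⊤
  · have hF := Comp_full h hS hsp
    have hch : ∀ F : Fac S, ∃ f : W →ₗ[ℝ] ℝ, FunOf S F.1 f := fun F => (mem_fac.1 F.2).1
    choose f hf using hch
    refine ⟨(Fac S).card, fun i => N.filter fun v => f ((Fac S).equivFin.symm i) v < 0,
      facs_le hF, ?_, ?_, ?_⟩
    · intro i v hv
      rw [Finset.mem_filter] at hv
      rw [Finset.mem_sdiff]
      exact ⟨hv.1, fun hvS => absurd ((hf _).1 v hvS) (not_le.2 hv.2)⟩
    · intro x hx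
      rw [Finset.mem_sdiff] at hx
      obtain ⟨φ, hφ, hφx⟩ := neg_fun h hS hx.1 hx.2
      obtain ⟨F, hFF, g, hg, hgx⟩ := exists_fac_neg hF (fun w hw => (hφ w hw).le) hφx
      obtain ⟨c, hc, hcg⟩ := fun_pos_prop hF hFF (hf ⟨F, hFF⟩) hg
      refine ⟨(Fac S).equivFin ⟨F, hFF⟩, ?_⟩
      rw [Finset.mem_filter, Equiv.symm_apply_apply]
      refine ⟨hx.1, ?_⟩
      rw [hcg, LinearMap.smul_apply, smul_eq_mul] at hgx
      by_contra hcon
      push Not at hcon
      exact absurd (mul_nonneg hc.le hcon) (not_le.2 hgx)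
    · intro i x hx y hy
      rw [Finset.mem_filter] at hx hy
      have h1 := conn h.poly (-f ((Fac S).equivFin.symm i))
        (fun z hz => by rw [(Submodule.mem_bot ℝ).1 hz, map_zero]) hx.1 hy.1
        (by rw [LinearMap.neg_apply]; linarith [hx.2]) (by rw [LinearMap.neg_apply]; linarith [hy.2])
      refine Relation.ReflTransGen.mono ?_ _ _ h1
      rintro p q ⟨hpq, hp, hq⟩
      rw [LinearMap.neg_apply] at hp hq
      exact ⟨hpq, Finset.mem_filter.2 ⟨hpq.1, by linarith⟩,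
        Finset.mem_filter.2 ⟨hpq.2.1, by linarith⟩⟩
  · obtain ⟨π, hπ0, hπ⟩ := Comp_pi hsp
    have hπ' : ∀ s ∈ S, (-π) s = 0 := fun s hs => by rw [LinearMap.neg_apply, hπ s hs, neg_zero]
    have hsgn : ∀ i : Fin 2, ∀ s ∈ S, (![π, -π] i) s = 0 := by
      intro i
      fin_cases i
      · exact hπ
      · exact hπ'
    have hmem : ∀ (i : Fin 2) (x : W),
        x ∈ (N.filter fun x => Comp_J N S (![π, -π] i) x) ↔ Comp_J N S (![π, -π] i) x := by
      intro i x
      rw [Finset.mem_filter]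
      exact ⟨fun hx => hx.2, fun hx => ⟨hx.1, hx⟩⟩
    refine ⟨2, fun i => N.filter fun x => Comp_J N S (![π, -π] i) x, by omega, ?_, ?_, ?_⟩
    · intro i x hx
      have hx' := (hmem i x).1 hx
      rw [Finset.mem_sdiff]
      exact ⟨hx'.1, hx'.2.1⟩
    · intro x hx
      rw [Finset.mem_sdiff] at hx
      rcases Comp_J_all h hS hπ0 hπ hx.1 hx.2 with h1 | h1
      · exact ⟨0, (hmem 0 x).2 h1⟩
      · exact ⟨1, (hmem 1 x).2 h1⟩
    · intro i x hx y hy
      have hx' := (hmem i x).1 hx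
      have hy' := (hmem i y).1 hy
      refine Relation.ReflTransGen.mono ?_ _ _ (Comp_J_conn h (hsgn i) hx' hy')
      rintro p q ⟨hpq, hp, hq⟩
      exact ⟨hpq, (hmem i p).2 hp, (hmem i q).2 hq⟩

end Pool.Agent.P3F
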