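import Pool.Agent.P3F.Ind

/-!
# Vertices of degree three (MP_a5fcbe_co, module CorA)

`Cor N F1 F2 F3 x y1 y2 y3`: the facets `F1, F2, F3` contain the vertex `x`, and `y1` is a vertex of `F2 ∩ F3`
which is not in `F1`, and so on.  `N` is normalised: `p w = 1` for all `w ∈ N`.  Let `f1, f2, f3` be functionals of the
three facets: `f1 y1 > 0`, `f1 x = f1 y2 = f1 y3 = 0`, and so on.

`cor_li`: apply `f1, f2, f3` to a relation; `x ≠ 0` (`not_mem`).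
`cor_coord`: `x, y1, y2, y3` is a basis (`W` has dimension 4), so `v = ξ x + a1 y1 + a2 y2 + a3 y3`; `f1 v = a1 f1 y1`, so
`a1 ≥ 0`, and `a1 = 0` iff `v ∈ F1`.  `p` gives `ξ + a1 + a2 + a3 = 1`.  Let `v ≠ x`, `v ≠ y1, y2, y3`, and let `g` be the
functional of `v` (`g v = 0`, positive on the rest of `N`): `0 = ξ g x + a1 g y1 + a2 g y2 + a3 g y3`.  If `ξ ≥ 0` then
all terms are `0`, so `ξ = a1 = a2 = a3 = 0`, `v = 0`, a contradiction.  For `v = y1` (and `y2`, `y3`) the coefficients are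
unique by `cor_li`: `ξ = 0`.
`cor_fac`: let `f` be a functional of `F`, `x ∈ F`.  `f ≠ 0` (`fun_ne_zero`), so `f yi > 0` for some `i`, say `i = 1`.  For
`v ∈ F`: `0 = f v = a1 f y1 + a2 f y2 + a3 f y3` with terms `≥ 0`, so `a1 = 0`, `v ∈ F1`.  So `F ⊆ F1`, and `F = F1` by `fac_li`,
`fac_eq`.
`cor_edge1`: `v ∈ F2 ∩ F3`: `v = ξ x + a1 y1`; if `v ≠ x, y1` this contradicts `li3` (three different elements of `N`).
-/

set_option autoImplicit false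

namespace Pool.Agent.P3F

open Pool.Agent.LPG

variable {W : Type*} [AddCommGroup W] [Module ℝ W] {N : Finset W}

/-- `x` is a vertex of degree three, on the facets `F1, F2, F3`; its neighbours are `y1` (on `F2` and
`F3`), `y2` (on `F1` and `F3`) and `y3` (on `F1` and `F2`). -/
structure Cor (N F1 F2 F3 : Finset W) (x y1 y2 y3 : W) : Prop where
  m1 : F1 ∈ Fac N
  m2 : F2 ∈ Fac N
  m3 : F3 ∈ Fac N
  x1 : x ∈ F1
  x2 : x ∈ F2
  x3 : x ∈ F3
  a1 : y1 ∉ F1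
  a2 : y1 ∈ F2
  a3 : y1 ∈ F3
  b1 : y2 ∈ F1
  b2 : y2 ∉ F2
  b3 : y2 ∈ F3
  c1 : y3 ∈ F1
  c2 : y3 ∈ F2
  c3 : y3 ∉ F3

theorem Cor.swap {F1 F2 F3 : Finset W} {x y1 y2 y3 : W} (h : Cor N F1 F2 F3 x y1 y2 y3) :
    Cor N F2 F1 F3 x y2 y1 y3 :=
  ⟨h.m2, h.m1, h.m3, h.x2, h.x1, h.x3, h.b2, h.b1, h.b3, h.a2, h.a1, h.a3, h.c2, h.c1, h.c3⟩

theorem Cor.rot {F1 F2 F3 : Finset W} {x y1 y2 y3 : W} (h : Cor N F1 F2 F3 x y1 y2 y3) :
    Cor N F2 F3 F1 x y2 y3 y1 :=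
  ⟨h.m2, h.m3, h.m1, h.x2, h.x3, h.x1, h.b2, h.b3, h.b1, h.c2, h.c3, h.c1, h.a2, h.a3, h.a1⟩

private theorem cor_mem {F1 F2 F3 : Finset W} {x y1 y2 y3 : W} (hc : Cor N F1 F2 F3 x y1 y2 y3) :
    x ∈ N ∧ y1 ∈ N ∧ y2 ∈ N ∧ y3 ∈ N :=
  ⟨fac_sub hc.m1 hc.x1, fac_sub hc.m2 hc.a2, fac_sub hc.m1 hc.b1, fac_sub hc.m1 hc.c1⟩

private theorem fun_pos {F : Finset W} {f : W →ₗ[ℝ] ℝ} (hf : FunOf N F f) {w : W} (hw : w ∈ N)
    (hn : w ∉ F) : 0 < f w := by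
  refine lt_of_le_of_ne (hf.1 w hw) fun h0 => hn ((hf.2 w).2 ⟨hw, h0.symm⟩)

private theorem fun_zero {F : Finset W} {f : W →ₗ[ℝ] ℝ} (hf : FunOf N F f) {w : W}
    (hw : w ∈ F) : f w = 0 := ((hf.2 w).1 hw).2

theorem cor_li (h : Full N) {F1 F2 F3 : Finset W} {x y1 y2 y3 : W}
    (hc : Cor N F1 F2 F3 x y1 y2 y3) : LinearIndependent ℝ ![x, y1, y2, y3] := by
  obtain ⟨hxN, h1N, h2N, h3N⟩ := cor_mem hc
  obtain ⟨f1, hf1⟩ := (mem_fac.1 hc.m1).1
  obtain ⟨f2, hf2⟩ := (mem_fac.1 hc.m2).1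
  obtain ⟨f3, hf3⟩ := (mem_fac.1 hc.m3).1
  have p1 := fun_pos hf1 h1N hc.a1
  have p2 := fun_pos hf2 h2N hc.b2
  have p3 := fun_pos hf3 h3N hc.c3
  rw [Fintype.linearIndependent_iff]
  intro g hg
  rw [Fin.sum_univ_four] at hg
  have hg1 : g 0 • x + g 1 • y1 + g 2 • y2 + g 3 • y3 = 0 := hg
  have e1 : g 1 = 0 := by
    have h1 := congrArg f1 hg1
    rw [map_add, map_add, map_add, map_smul, map_smul, map_smul, map_smul, map_zero,
      fun_zero hf1 hc.x1, fun_zero hf1 hc.b1, fun_zero hf1 hc.c1] at h1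
    simp only [smul_eq_mul, mul_zero, add_zero, zero_add] at h1
    rcases mul_eq_zero.1 h1 with h2 | h2
    · exact h2
    · exact absurd h2 p1.ne'
  have e2 : g 2 = 0 := by
    have h1 := congrArg f2 hg1
    rw [map_add, map_add, map_add, map_smul, map_smul, map_smul, map_smul, map_zero,
      fun_zero hf2 hc.x2, fun_zero hf2 hc.a2, fun_zero hf2 hc.c2] at h1
    simp only [smul_eq_mul, mul_zero, add_zero, zero_add] at h1
    rcases mul_eq_zero.1 h1 with h2 | h2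
    · exact h2
    · exact absurd h2 p2.ne'
  have e3 : g 3 = 0 := by
    have h1 := congrArg f3 hg1
    rw [map_add, map_add, map_add, map_smul, map_smul, map_smul, map_smul, map_zero,
      fun_zero hf3 hc.x3, fun_zero hf3 hc.a3, fun_zero hf3 hc.b3] at h1
    simp only [smul_eq_mul, mul_zero, add_zero, zero_add] at h1
    rcases mul_eq_zero.1 h1 with h2 | h2
    · exact h2
    · exact absurd h2 p3.ne'
  have e0 : g 0 = 0 := by
    rw [e1, e2, e3, zero_smul, zero_smul, zero_smul, add_zero, add_zero, add_zero] at hg1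
    rcases smul_eq_zero.1 hg1 with h4 | h4
    · exact h4
    · exact absurd ((Submodule.mem_bot ℝ).2 h4) (not_mem h.poly hxN)
  intro i
  fin_cases i
  · exact e0
  · exact e1
  · exact e2
  · exact e3

theorem cor_coord (h : Full N) {p : W →ₗ[ℝ] ℝ} (hp : ∀ w ∈ N, p w = 1) {F1 F2 F3 : Finset W}
    {x y1 y2 y3 : W} (hc : Cor N F1 F2 F3 x y1 y2 y3) {v : W} (hv : v ∈ N) :
    ∃ ξ a1 a2 a3 : ℝ, v = ξ • x + a1 • y1 + a2 • y2 + a3 • y3 ∧ ξ + a1 + a2 + a3 = 1 ∧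
      0 ≤ a1 ∧ 0 ≤ a2 ∧ 0 ≤ a3 ∧ (a1 = 0 ↔ v ∈ F1) ∧ (a2 = 0 ↔ v ∈ F2) ∧ (a3 = 0 ↔ v ∈ F3) ∧
      (v ≠ x → ξ ≤ 0) ∧ (v ≠ x → ξ = 0 → v = y1 ∨ v = y2 ∨ v = y3) := by
  obtain ⟨hxN, h1N, h2N, h3N⟩ := cor_mem hc
  obtain ⟨f1, hf1⟩ := (mem_fac.1 hc.m1).1
  obtain ⟨f2, hf2⟩ := (mem_fac.1 hc.m2).1
  obtain ⟨f3, hf3⟩ := (mem_fac.1 hc.m3).1
  have p1 := fun_pos hf1 h1N hc.a1
  have p2 := fun_pos hf2 h2N hc.b2
  have p3 := fun_pos hf3 h3N hc.c3
  have hli := cor_li h hc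
  have hfd : FiniteDimensional ℝ W := Module.finite_of_finrank_pos (by rw [h.dim]; omega)
  obtain ⟨ξ, a1, a2, a3, hrep⟩ : ∃ ξ a1 a2 a3 : ℝ, v = ξ • x + a1 • y1 + a2 • y2 + a3 • y3 := by
    have hb := basisOfLinearIndependentOfCardEqFinrank hli (by rw [Fintype.card_fin, h.dim])
    have htop := hli.span_eq_top_of_card_eq_finrank' (by rw [Fintype.card_fin, h.dim])
    have hvt : v ∈ Submodule.span ℝ (Set.range ![x, y1, y2, y3]) := by
      rw [htop]; exact Submodule.mem_top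
    obtain ⟨c, hcv⟩ := (Submodule.mem_span_range_iff_exists_fun ℝ).1 hvt
    rw [Fin.sum_univ_four] at hcv
    exact ⟨c 0, c 1, c 2, c 3, hcv.symm⟩
  have ap : ∀ φ : W →ₗ[ℝ] ℝ, φ v = ξ * φ x + a1 * φ y1 + a2 * φ y2 + a3 * φ y3 := by
    intro φ
    rw [hrep]
    simp only [map_add, map_smul, smul_eq_mul]
  have q1 : f1 v = a1 * f1 y1 := by
    rw [ap f1, fun_zero hf1 hc.x1, fun_zero hf1 hc.b1, fun_zero hf1 hc.c1]; ring
  have q2 : f2 v = a2 * f2 y2 := by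
    rw [ap f2, fun_zero hf2 hc.x2, fun_zero hf2 hc.a2, fun_zero hf2 hc.c2]; ring
  have q3 : f3 v = a3 * f3 y3 := by
    rw [ap f3, fun_zero hf3 hc.x3, fun_zero hf3 hc.a3, fun_zero hf3 hc.b3]; ring
  have n1 : 0 ≤ a1 := by
    have h1 := hf1.1 v hv
    rw [q1] at h1
    exact nonneg_of_mul_nonneg_left h1 p1
  have n2 : 0 ≤ a2 := by
    have h1 := hf2.1 v hv
    rw [q2] at h1
    exact nonneg_of_mul_nonneg_left h1 p2
  have n3 : 0 ≤ a3 := by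
    have h1 := hf3.1 v hv
    rw [q3] at h1
    exact nonneg_of_mul_nonneg_left h1 p3
  have i1 : a1 = 0 ↔ v ∈ F1 := by
    rw [hf1.2 v, q1]
    constructor
    · intro h0
      exact ⟨hv, by rw [h0, zero_mul]⟩
    · rintro ⟨-, h0⟩
      exact (mul_eq_zero.1 h0).resolve_right p1.ne'
  have i2 : a2 = 0 ↔ v ∈ F2 := by
    rw [hf2.2 v, q2]
    constructor
    · intro h0
      exact ⟨hv, by rw [h0, zero_mul]⟩
    · rintro ⟨-, h0⟩
      exact (mul_eq_zero.1 h0).resolve_right p2.ne'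
  have i3 : a3 = 0 ↔ v ∈ F3 := by
    rw [hf3.2 v, q3]
    constructor
    · intro h0
      exact ⟨hv, by rw [h0, zero_mul]⟩
    · rintro ⟨-, h0⟩
      exact (mul_eq_zero.1 h0).resolve_right p3.ne'
  have hv0 : v ≠ 0 := by
    intro h0
    have h1 := hp v hv
    rw [h0, map_zero] at h1
    exact zero_ne_one h1
  have key : v ≠ x → 0 ≤ ξ → v = y1 ∨ v = y2 ∨ v = y3 := by
    intro hvx hξ
    by_contra hno
    push Not at hno
    obtain ⟨hn1, hn2, hn3⟩ := hno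
    obtain ⟨g, -, hgv, hgp⟩ := h.poly.1 v hv
    have gx := hgp x hxN (Ne.symm hvx)
    have g1 := hgp y1 h1N (Ne.symm hn1)
    have g2 := hgp y2 h2N (Ne.symm hn2)
    have g3 := hgp y3 h3N (Ne.symm hn3)
    have hs := ap g
    rw [hgv] at hs
    have t0 := mul_nonneg hξ gx.le
    have t1 := mul_nonneg n1 g1.le
    have t2 := mul_nonneg n2 g2.le
    have t3 := mul_nonneg n3 g3.le
    have z0 : ξ = 0 := (mul_eq_zero.1 (by linarith : ξ * g x = 0)).resolve_right gx.ne'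
    have z1 : a1 = 0 := (mul_eq_zero.1 (by linarith : a1 * g y1 = 0)).resolve_right g1.ne'
    have z2 : a2 = 0 := (mul_eq_zero.1 (by linarith : a2 * g y2 = 0)).resolve_right g2.ne'
    have z3 : a3 = 0 := (mul_eq_zero.1 (by linarith : a3 * g y3 = 0)).resolve_right g3.ne'
    apply hv0
    rw [hrep, z0, z1, z2, z3]
    simp
  have uniq : ∀ b0 b1 b2 b3 : ℝ, v = b0 • x + b1 • y1 + b2 • y2 + b3 • y3 → ξ = b0 := by
    intro b0 b1 b2 b3 hb
    have h1 : (ξ - b0) • x + (a1 - b1) • y1 + (a2 - b2) • y2 + (a3 - b3) • y3 = 0 := by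
      have h2 : (ξ • x + a1 • y1 + a2 • y2 + a3 • y3) -
          (b0 • x + b1 • y1 + b2 • y2 + b3 • y3) = 0 := by rw [← hrep, ← hb, sub_self]
      rw [← h2]
      simp only [sub_smul]
      abel
    have h3 := Fintype.linearIndependent_iff.1 hli ![ξ - b0, a1 - b1, a2 - b2, a3 - b3] (by
      rw [Fin.sum_univ_four]
      exact h1) 0
    exact sub_eq_zero.1 h3
  refine ⟨ξ, a1, a2, a3, hrep, ?_, n1, n2, n3, i1, i2, i3, ?_, ?_⟩
  · have h1 := ap p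
    rw [hp v hv, hp x hxN, hp y1 h1N, hp y2 h2N, hp y3 h3N] at h1
    linarith
  · intro hvx
    by_contra hno
    push Not at hno
    rcases key hvx hno.le with h1 | h1 | h1
    · have h2 := uniq 0 1 0 0 (by rw [h1]; simp)
      linarith
    · have h2 := uniq 0 0 1 0 (by rw [h1]; simp)
      linarith
    · have h2 := uniq 0 0 0 1 (by rw [h1]; simp)
      linarith
  · intro hvx h0
    exact key hvx h0.ge

theorem cor_fac (h : Full N) {p : W →ₗ[ℝ] ℝ} (hp : ∀ w ∈ N, p w = 1) {F1 F2 F3 : Finset W}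
    {x y1 y2 y3 : W} (hc : Cor N F1 F2 F3 x y1 y2 y3) {F : Finset W} (hF : F ∈ Fac N)
    (hx : x ∈ F) : F = F1 ∨ F = F2 ∨ F = F3 := by
  obtain ⟨hxN, h1N, h2N, h3N⟩ := cor_mem hc
  obtain ⟨f, hf⟩ := (mem_fac.1 hF).1
  have hf0 := fun_ne_zero h hF hf
  have hli := cor_li h hc
  have hfd : FiniteDimensional ℝ W := Module.finite_of_finrank_pos (by rw [h.dim]; omega)
  have htop := hli.span_eq_top_of_card_eq_finrank' (by rw [Fintype.card_fin, h.dim])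
  have hfx := fun_zero hf hx
  have m1 := hf.1 y1 h1N
  have m2 := hf.1 y2 h2N
  have m3 := hf.1 y3 h3N
  have hcase : 0 < f y1 ∨ 0 < f y2 ∨ 0 < f y3 := by
    by_contra hno
    push Not at hno
    obtain ⟨hn1, hn2, hn3⟩ := hno
    apply hf0
    rw [← LinearMap.ker_eq_top, ← top_le_iff, ← htop, Submodule.span_le]
    rintro _ ⟨i, rfl⟩
    fin_cases i
    · exact hfx
    · exact le_antisymm hn1 m1
    · exact le_antisymm hn2 m2
    · exact le_antisymm hn3 m3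
  have fin : ∀ F' ∈ Fac N, F ⊆ F' → F = F' := by
    intro F' hF' hsub
    obtain ⟨u, hu, v, hv, w, hw, hl⟩ := fac_li hF
    exact fac_eq h hF hF' hl hu hv hw (hsub hu) (hsub hv) (hsub hw)
  have ap : ∀ v ∈ F, ∃ a1 a2 a3 : ℝ, 0 ≤ a1 ∧ 0 ≤ a2 ∧ 0 ≤ a3 ∧
      (a1 = 0 ↔ v ∈ F1) ∧ (a2 = 0 ↔ v ∈ F2) ∧ (a3 = 0 ↔ v ∈ F3) ∧
      a1 * f y1 + a2 * f y2 + a3 * f y3 = 0 := by
    intro v hv
    obtain ⟨ξ, a1, a2, a3, hrep, -, n1, n2, n3, i1, i2, i3, -, -⟩ :=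
      cor_coord h hp hc (fac_sub hF hv)
    refine ⟨a1, a2, a3, n1, n2, n3, i1, i2, i3, ?_⟩
    have h1 := fun_zero hf hv
    rw [hrep] at h1
    simp only [map_add, map_smul, smul_eq_mul, hfx, mul_zero, zero_add] at h1
    exact h1
  rcases hcase with hpos | hpos | hpos
  · left
    apply fin F1 hc.m1
    intro v hv
    obtain ⟨a1, a2, a3, n1, n2, n3, i1, -, -, hs⟩ := ap v hv
    rw [← i1]
    have t1 := mul_nonneg n1 m1
    have t2 := mul_nonneg n2 m2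
    have t3 := mul_nonneg n3 m3
    exact (mul_eq_zero.1 (by linarith : a1 * f y1 = 0)).resolve_right hpos.ne'
  · right; left
    apply fin F2 hc.m2
    intro v hv
    obtain ⟨a1, a2, a3, n1, n2, n3, -, i2, -, hs⟩ := ap v hv
    rw [← i2]
    have t1 := mul_nonneg n1 m1
    have t2 := mul_nonneg n2 m2
    have t3 := mul_nonneg n3 m3
    exact (mul_eq_zero.1 (by linarith : a2 * f y2 = 0)).resolve_right hpos.ne'
  · right; right
    apply fin F3 hc.m3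
    intro v hv
    obtain ⟨a1, a2, a3, n1, n2, n3, -, -, i3, hs⟩ := ap v hv
    rw [← i3]
    have t1 := mul_nonneg n1 m1
    have t2 := mul_nonneg n2 m2
    have t3 := mul_nonneg n3 m3
    exact (mul_eq_zero.1 (by linarith : a3 * f y3 = 0)).resolve_right hpos.ne'

theorem cor_edge (h : Full N) {p : W →ₗ[ℝ] ℝ} (hp : ∀ w ∈ N, p w = 1) {F1 F2 F3 : Finset W}
    {x y1 y2 y3 : W} (hc : Cor N F1 F2 F3 x y1 y2 y3) {v : W} (h2 : v ∈ F2) (h3 : v ∈ F3) :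
    v = x ∨ v = y1 := by
  obtain ⟨hxN, h1N, h2N, h3N⟩ := cor_mem hc
  have hvN := fac_sub hc.m2 h2
  obtain ⟨ξ, a1, a2, a3, hrep, -, n1, n2, n3, i1, i2, i3, -, -⟩ := cor_coord h hp hc hvN
  by_contra hno
  push Not at hno
  obtain ⟨hvx, hvy⟩ := hno
  have hxy : x ≠ y1 := fun hxy => hc.a1 (hxy ▸ hc.x1)
  have e2 := i2.2 h2
  have e3 := i3.2 h3
  rw [e2, e3, zero_smul, zero_smul, add_zero, add_zero] at hrep
  have h4 := li3 h.poly hvN hxN h1N hvx hvy hxy (α := 1) (β := -ξ) (γ := -a1) (by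
    rw [Submodule.mem_bot, one_smul, neg_smul, neg_smul, hrep]
    abel)
  exact one_ne_zero h4.1

end Pool.Agent.P3F
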