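import Pool.Agent.P3F.CutF

/-!
# Vertices of degree three after a cut (MP_a5fcbe_co, module CutC)

`cg` is the new version of a facet `G` of `N`.  Note: for `v ∈ N`, `v ≠ x`: `v ∈ cg G ↔ v ∈ G` (if `v = mid false x yi = yi` is one of the
added points then it is in the facet already; midpoints are not in `N`).

`cut_cor`: a vertex `z ≠ x` of degree three of `N` stays one.  All memberships of `z` and of those neighbours `wi` which are different from `x` are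
unchanged.  Let `w1 = x` (the other cases are the same, by `Cor.swap`, `Cor.rot`, or treat the three neighbours with one lemma:
`∃ w' ∈ cg G2 ∩ cg G3, w' ∉ cg G1` for the facets `G1, G2, G3` at `z`).  Then `x ∈ G2 ∩ G3`, `x ∉ G1`, so `G2, G3` are two of `F1, F2, F3`
(`cor_fac`), different (`w2 ∈ G3`, `w2 ∉ G2`), so `G2, G3 = Fa, Fb` and `z ∈ Fa ∩ Fb`, so by `cor_edge` `z = yc`, `c` the third index; so `ec = true`
by the hypothesis (`e3 = true`).  Take `w' = mid true x yc`: it is in `cg Fa`, `cg Fb`.  It is not in `cg G1`: `G1` does not contain `x`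
(`cg G1 = G1 ⊆ N`, if `G1` is not one of `F1, F2, F3`, and `w' ∉ N` by `mid_notMem`); `G1 = Fc` is impossible as `x ∉ G1`.

`cut_cor_new3`, `cut_cor_new1`, `cut_cor_new2`: the new vertices; memberships from `fi mi > 0`, `fi mj = 0` for `j ≠ i`, `yi ∉` new triangle.
-/

set_option autoImplicit false

namespace Pool.Agent.P3F

open Pool.Agent.LPG

variable {W : Type*} [AddCommGroup W] [Module ℝ W] {N : Finset W}

open Classical in
/-- The new version of the facet `G`. -/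
noncomputable def cg (F1 F2 F3 : Finset W) (x y1 y2 y3 : W) (e1 e2 : Bool) (G : Finset W) :
    Finset W :=
  if G = F1 then cf x F1 (mid e2 x y2) (mid true x y3)
  else if G = F2 then cf x F2 (mid e1 x y1) (mid true x y3)
  else if G = F3 then cf x F3 (mid e1 x y1) (mid e2 x y2)
  else G

theorem CCu.mid_false_eq (x y : W) : mid false x y = y := by
  simp [mid]

theorem CCu.mid_cases (h : Full N) {x y : W} (hx : x ∈ N) (hy : y ∈ N) (hxy : x ≠ y) (e : Bool) :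
    mid e x y = y ∨ mid e x y ∉ N := by
  cases e with
  | false => exact Or.inl (CCu.mid_false_eq x y)
  | true => exact Or.inr (mid_notMem h hx hy hxy)

/-- A midpoint is not in a set of vertices which does not contain the end. -/
theorem CCu.mid_notMem_of (h : Full N) {x y : W} (hx : x ∈ N) (hy : y ∈ N) (hxy : x ≠ y) (e : Bool)
    {F : Finset W} (hF : F ⊆ N) (hyF : y ∉ F) : mid e x y ∉ F := by
  rcases CCu.mid_cases h hx hy hxy e with h1 | h1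
  · rw [h1]; exact hyF
  · exact fun h2 => h1 (hF h2)

/-- A vertex which is a midpoint is the end. -/
theorem CCu.eq_of_mid (h : Full N) {x y v : W} (hx : x ∈ N) (hy : y ∈ N) (hxy : x ≠ y) {e : Bool}
    (hv : v ∈ N) (hm : v = mid e x y) : v = y := by
  rcases CCu.mid_cases h hx hy hxy e with h1 | h1
  · rw [hm, h1]
  · exact absurd (hm ▸ hv) h1

theorem CCu.mem_cf {x v : W} {F : Finset W} {m m' : W} :
    v ∈ cf x F m m' ↔ (v ≠ x ∧ v ∈ F) ∨ v = m ∨ v = m' := by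
  classical
  unfold cf
  rw [Finset.mem_union, Finset.mem_erase, Finset.mem_insert, Finset.mem_singleton]

section

variable {F1 F2 F3 : Finset W} {x y1 y2 y3 : W}

theorem CCu.xN (hc : Cor N F1 F2 F3 x y1 y2 y3) : x ∈ N := fac_sub hc.m1 hc.x1
theorem CCu.y1N (hc : Cor N F1 F2 F3 x y1 y2 y3) : y1 ∈ N := fac_sub hc.m2 hc.a2
theorem CCu.y2N (hc : Cor N F1 F2 F3 x y1 y2 y3) : y2 ∈ N := fac_sub hc.m1 hc.b1
theorem CCu.y3N (hc : Cor N F1 F2 F3 x y1 y2 y3) : y3 ∈ N := fac_sub hc.m1 hc.c1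
theorem CCu.nx1 (hc : Cor N F1 F2 F3 x y1 y2 y3) : x ≠ y1 := fun h => hc.a1 (h ▸ hc.x1)
theorem CCu.nx2 (hc : Cor N F1 F2 F3 x y1 y2 y3) : x ≠ y2 := fun h => hc.b2 (h ▸ hc.x2)
theorem CCu.nx3 (hc : Cor N F1 F2 F3 x y1 y2 y3) : x ≠ y3 := fun h => hc.c3 (h ▸ hc.x3)
theorem CCu.n12 (hc : Cor N F1 F2 F3 x y1 y2 y3) : y1 ≠ y2 := fun h => hc.a1 (h ▸ hc.b1)
theorem CCu.n13 (hc : Cor N F1 F2 F3 x y1 y2 y3) : y1 ≠ y3 := fun h => hc.a1 (h ▸ hc.c1)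
theorem CCu.n23 (hc : Cor N F1 F2 F3 x y1 y2 y3) : y2 ≠ y3 := fun h => hc.b2 (h ▸ hc.c2)
theorem CCu.f12 (hc : Cor N F1 F2 F3 x y1 y2 y3) : F1 ≠ F2 := fun h => hc.a1 (h ▸ hc.a2)
theorem CCu.f13 (hc : Cor N F1 F2 F3 x y1 y2 y3) : F1 ≠ F3 := fun h => hc.a1 (h ▸ hc.a3)
theorem CCu.f23 (hc : Cor N F1 F2 F3 x y1 y2 y3) : F2 ≠ F3 := fun h => hc.b2 (h ▸ hc.b3)

theorem CCu.cg_1 (e1 e2 : Bool) : cg F1 F2 F3 x y1 y2 y3 e1 e2 F1 =
    cf x F1 (mid e2 x y2) (mid true x y3) := by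
  classical
  simp [cg]

theorem CCu.cg_2 (hc : Cor N F1 F2 F3 x y1 y2 y3) (e1 e2 : Bool) :
    cg F1 F2 F3 x y1 y2 y3 e1 e2 F2 = cf x F2 (mid e1 x y1) (mid true x y3) := by
  classical
  simp [cg, (CCu.f12 hc).symm]

theorem CCu.cg_3 (hc : Cor N F1 F2 F3 x y1 y2 y3) (e1 e2 : Bool) :
    cg F1 F2 F3 x y1 y2 y3 e1 e2 F3 = cf x F3 (mid e1 x y1) (mid e2 x y2) := by
  classical
  simp [cg, (CCu.f13 hc).symm, (CCu.f23 hc).symm]

theorem CCu.cg_4 (hc : Cor N F1 F2 F3 x y1 y2 y3) (e1 e2 : Bool) {G : Finset W} (hx : x ∉ G) :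
    cg F1 F2 F3 x y1 y2 y3 e1 e2 G = G := by
  classical
  have h1 : G ≠ F1 := fun h => hx (h ▸ hc.x1)
  have h2 : G ≠ F2 := fun h => hx (h ▸ hc.x2)
  have h3 : G ≠ F3 := fun h => hx (h ▸ hc.x3)
  simp [cg, h1, h2, h3]

theorem CCu.mem_cg (h : Full N) {p : W →ₗ[ℝ] ℝ} (hp : ∀ w ∈ N, p w = 1)
    (hc : Cor N F1 F2 F3 x y1 y2 y3) (e1 e2 : Bool) {G : Finset W} (hG : G ∈ Fac N) {v : W}
    (hv : v ∈ N) (hvx : v ≠ x) : v ∈ cg F1 F2 F3 x y1 y2 y3 e1 e2 G ↔ v ∈ G := by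
  have k1 : ∀ e, v = mid e x y1 → v = y1 := fun e he => CCu.eq_of_mid h (CCu.xN hc) (CCu.y1N hc) (CCu.nx1 hc) hv he
  have k2 : ∀ e, v = mid e x y2 → v = y2 := fun e he => CCu.eq_of_mid h (CCu.xN hc) (CCu.y2N hc) (CCu.nx2 hc) hv he
  have k3 : v ≠ mid true x y3 := fun he => mid_notMem h (CCu.xN hc) (CCu.y3N hc) (CCu.nx3 hc) (he ▸ hv)
  by_cases hx : x ∈ G
  · rcases cor_fac h hp hc hG hx with rfl | rfl | rfl
    · rw [CCu.cg_1, CCu.mem_cf]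
      constructor
      · rintro (h1 | h1 | h1)
        · exact h1.2
        · rw [k2 _ h1]; exact hc.b1
        · exact absurd h1 k3
      · exact fun h1 => Or.inl ⟨hvx, h1⟩
    · rw [CCu.cg_2 hc, CCu.mem_cf]
      constructor
      · rintro (h1 | h1 | h1)
        · exact h1.2
        · rw [k1 _ h1]; exact hc.a2
        · exact absurd h1 k3
      · exact fun h1 => Or.inl ⟨hvx, h1⟩
    · rw [CCu.cg_3 hc, CCu.mem_cf]
      constructor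
      · rintro (h1 | h1 | h1)
        · exact h1.2
        · rw [k1 _ h1]; exact hc.a3
        · rw [k2 _ h1]; exact hc.b3
      · exact fun h1 => Or.inl ⟨hvx, h1⟩
  · rw [CCu.cg_4 hc e1 e2 hx]

open Classical in
theorem CCu.cg_fac (h : Full N) {p : W →ₗ[ℝ] ℝ} (hp : ∀ w ∈ N, p w = 1)
    (hc : Cor N F1 F2 F3 x y1 y2 y3) (e1 e2 : Bool)
    (hcard : e1 = true ∨ e2 = true ∨ 4 ≤ F3.card) {G : Finset W} (hG : G ∈ Fac N) :
    cg F1 F2 F3 x y1 y2 y3 e1 e2 G ∈ Fac (cutN N x y1 y2 y3 e1 e2) := by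
  rw [cut_fac h hp hc e1 e2 hcard]
  by_cases hx : x ∈ G
  · rcases cor_fac h hp hc hG hx with rfl | rfl | rfl
    · rw [CCu.cg_1]; exact Or.inr (Or.inl rfl)
    · rw [CCu.cg_2 hc]; exact Or.inr (Or.inr (Or.inl rfl))
    · rw [CCu.cg_3 hc]; exact Or.inr (Or.inr (Or.inr (Or.inl rfl)))
  · rw [CCu.cg_4 hc e1 e2 hx]
    exact Or.inr (Or.inr (Or.inr (Or.inr ⟨hG, hx⟩)))

/-- The new neighbour on two facets. -/
theorem CCu.cut_nb (h : Full N) {p : W →ₗ[ℝ] ℝ} (hp : ∀ w ∈ N, p w = 1)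
    (hc : Cor N F1 F2 F3 x y1 y2 y3) (e1 e2 : Bool) {G1 G2 G3 : Finset W} {z w : W}
    (hG1 : G1 ∈ Fac N) (hG2 : G2 ∈ Fac N) (hG3 : G3 ∈ Fac N) (hne : G2 ≠ G3) (hz2 : z ∈ G2)
    (hz3 : z ∈ G3) (hzx : z ≠ x) (h1 : e1 = false → z ≠ y1) (h2 : e2 = false → z ≠ y2)
    (hw1 : w ∉ G1) (hw2 : w ∈ G2) (hw3 : w ∈ G3) : ∃ w' : W,
    w' ∉ cg F1 F2 F3 x y1 y2 y3 e1 e2 G1 ∧ w' ∈ cg F1 F2 F3 x y1 y2 y3 e1 e2 G2 ∧
      w' ∈ cg F1 F2 F3 x y1 y2 y3 e1 e2 G3 := by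
  by_cases hwx : w = x
  · subst hwx
    have hsub : G1 ⊆ N := fac_sub hG1
    rw [CCu.cg_4 hc e1 e2 hw1]
    -- the three pairs
    have key12 : z ∈ F1 → z ∈ F2 → mid true w y3 ∉ G1 ∧
        mid true w y3 ∈ cg F1 F2 F3 w y1 y2 y3 e1 e2 F1 ∧
        mid true w y3 ∈ cg F1 F2 F3 w y1 y2 y3 e1 e2 F2 := by
      intro _ _
      refine ⟨fun hm => mid_notMem h (CCu.xN hc) (CCu.y3N hc) (CCu.nx3 hc) (hsub hm), ?_, ?_⟩
      · rw [CCu.cg_1, CCu.mem_cf]; exact Or.inr (Or.inr rfl)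
      · rw [CCu.cg_2 hc, CCu.mem_cf]; exact Or.inr (Or.inr rfl)
    have key13 : z ∈ F1 → z ∈ F3 → mid true w y2 ∉ G1 ∧
        mid true w y2 ∈ cg F1 F2 F3 w y1 y2 y3 e1 e2 F1 ∧
        mid true w y2 ∈ cg F1 F2 F3 w y1 y2 y3 e1 e2 F3 := by
      intro hz1' hz3'
      have hzy : z = y2 := by
        rcases cor_edge h hp hc.rot hz3' hz1' with h3 | h3
        · exact absurd h3 hzx
        · exact h3
      have he : e2 = true := by
        cases e2 with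
        | false => exact absurd hzy (h2 rfl)
        | true => rfl
      subst he
      refine ⟨fun hm => mid_notMem h (CCu.xN hc) (CCu.y2N hc) (CCu.nx2 hc) (hsub hm), ?_, ?_⟩
      · rw [CCu.cg_1, CCu.mem_cf]; exact Or.inr (Or.inl rfl)
      · rw [CCu.cg_3 hc, CCu.mem_cf]; exact Or.inr (Or.inr rfl)
    have key23 : z ∈ F2 → z ∈ F3 → mid true w y1 ∉ G1 ∧
        mid true w y1 ∈ cg F1 F2 F3 w y1 y2 y3 e1 e2 F2 ∧
        mid true w y1 ∈ cg F1 F2 F3 w y1 y2 y3 e1 e2 F3 := by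
      intro hz2' hz3'
      have hzy : z = y1 := by
        rcases cor_edge h hp hc hz2' hz3' with h3 | h3
        · exact absurd h3 hzx
        · exact h3
      have he : e1 = true := by
        cases e1 with
        | false => exact absurd hzy (h1 rfl)
        | true => rfl
      subst he
      refine ⟨fun hm => mid_notMem h (CCu.xN hc) (CCu.y1N hc) (CCu.nx1 hc) (hsub hm), ?_, ?_⟩
      · rw [CCu.cg_2 hc, CCu.mem_cf]; exact Or.inr (Or.inl rfl)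
      · rw [CCu.cg_3 hc, CCu.mem_cf]; exact Or.inr (Or.inl rfl)
    rcases cor_fac h hp hc hG2 hw2 with e | e | e <;>
      rcases cor_fac h hp hc hG3 hw3 with e' | e' | e'
    · exact absurd (e.trans e'.symm) hne
    · rw [e] at hz2 ⊢; rw [e'] at hz3 ⊢
      exact ⟨_, key12 hz2 hz3⟩
    · rw [e] at hz2 ⊢; rw [e'] at hz3 ⊢
      exact ⟨_, key13 hz2 hz3⟩
    · rw [e] at hz2 ⊢; rw [e'] at hz3 ⊢
      obtain ⟨k1, k2, k3⟩ := key12 hz3 hz2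
      exact ⟨_, k1, k3, k2⟩
    · exact absurd (e.trans e'.symm) hne
    · rw [e] at hz2 ⊢; rw [e'] at hz3 ⊢
      exact ⟨_, key23 hz2 hz3⟩
    · rw [e] at hz2 ⊢; rw [e'] at hz3 ⊢
      obtain ⟨k1, k2, k3⟩ := key13 hz3 hz2
      exact ⟨_, k1, k3, k2⟩
    · rw [e] at hz2 ⊢; rw [e'] at hz3 ⊢
      obtain ⟨k1, k2, k3⟩ := key23 hz3 hz2
      exact ⟨_, k1, k3, k2⟩
    · exact absurd (e.trans e'.symm) hne
  · have hwN : w ∈ N := fac_sub hG2 hw2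
    exact ⟨w, fun hm => hw1 ((CCu.mem_cg h hp hc e1 e2 hG1 hwN hwx).1 hm),
      (CCu.mem_cg h hp hc e1 e2 hG2 hwN hwx).2 hw2, (CCu.mem_cg h hp hc e1 e2 hG3 hwN hwx).2 hw3⟩

end

theorem cut_cor (h : Full N) {p : W →ₗ[ℝ] ℝ} (hp : ∀ w ∈ N, p w = 1) {F1 F2 F3 : Finset W}
    {x y1 y2 y3 : W} (hc : Cor N F1 F2 F3 x y1 y2 y3) (e1 e2 : Bool)
    (hcard : e1 = true ∨ e2 = true ∨ 4 ≤ F3.card) {G1 G2 G3 : Finset W} {z w1 w2 w3 : W}
    (hz : Cor N G1 G2 G3 z w1 w2 w3) (hzx : z ≠ x) (h1 : e1 = false → z ≠ y1)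
    (h2 : e2 = false → z ≠ y2) : ∃ w1' w2' w3' : W,
    Cor (cutN N x y1 y2 y3 e1 e2) (cg F1 F2 F3 x y1 y2 y3 e1 e2 G1)
      (cg F1 F2 F3 x y1 y2 y3 e1 e2 G2) (cg F1 F2 F3 x y1 y2 y3 e1 e2 G3) z w1' w2' w3' := by
  obtain ⟨w1', p1, p2, p3⟩ := CCu.cut_nb h hp hc e1 e2 hz.m1 hz.m2 hz.m3 (CCu.f23 hz) hz.x2 hz.x3 hzx h1 h2
    hz.a1 hz.a2 hz.a3
  obtain ⟨w2', q1, q2, q3⟩ := CCu.cut_nb h hp hc e1 e2 hz.m2 hz.m1 hz.m3 (CCu.f13 hz) hz.x1 hz.x3 hzx h1 h2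
    hz.b2 hz.b1 hz.b3
  obtain ⟨w3', r1, r2, r3⟩ := CCu.cut_nb h hp hc e1 e2 hz.m3 hz.m1 hz.m2 (CCu.f12 hz) hz.x1 hz.x2 hzx h1 h2
    hz.c3 hz.c1 hz.c2
  have hzN : z ∈ N := (CCu.xN hz)
  exact ⟨w1', w2', w3', CCu.cg_fac h hp hc e1 e2 hcard hz.m1, CCu.cg_fac h hp hc e1 e2 hcard hz.m2,
    CCu.cg_fac h hp hc e1 e2 hcard hz.m3, (CCu.mem_cg h hp hc e1 e2 hz.m1 hzN hzx).2 hz.x1,
    (CCu.mem_cg h hp hc e1 e2 hz.m2 hzN hzx).2 hz.x2, (CCu.mem_cg h hp hc e1 e2 hz.m3 hzN hzx).2 hz.x3,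
    p1, p2, p3, q2, q1, q3, r2, r3, r1⟩

open Classical in
theorem CCu.tri_ne {a b c : W} (h : ({a, b, c} : Finset W).card = 3) : a ≠ b ∧ a ≠ c ∧ b ≠ c := by
  refine ⟨?_, ?_, ?_⟩
  · rintro rfl
    have h1 : ({a, a, c} : Finset W) = {a, c} := by simp
    rw [h1] at h
    have := Finset.card_le_two (a := a) (b := c)
    omega
  · rintro rfl
    have h1 : ({a, b, a} : Finset W) = {a, b} := by
      ext w; simp; tauto
    rw [h1] at h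
    have := Finset.card_le_two (a := a) (b := b)
    omega
  · rintro rfl
    have h1 : ({a, b, b} : Finset W) = {a, b} := by simp
    rw [h1] at h
    have := Finset.card_le_two (a := a) (b := b)
    omega

open Classical in
theorem cut_cor_new3 (h : Full N) {p : W →ₗ[ℝ] ℝ} (hp : ∀ w ∈ N, p w = 1) {F1 F2 F3 : Finset W}
    {x y1 y2 y3 : W} (hc : Cor N F1 F2 F3 x y1 y2 y3) (e1 e2 : Bool)
    (hcard : e1 = true ∨ e2 = true ∨ 4 ≤ F3.card) :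
    Cor (cutN N x y1 y2 y3 e1 e2) (cf x F1 (mid e2 x y2) (mid true x y3))
      (cf x F2 (mid e1 x y1) (mid true x y3)) {mid e1 x y1, mid e2 x y2, mid true x y3}
      (mid true x y3) (mid e1 x y1) (mid e2 x y2) y3 := by
  obtain ⟨n12, n13, n23⟩ := CCu.tri_ne (cut_card h hp hc e1 e2).1
  have s1 := fac_sub hc.m1
  have s2 := fac_sub hc.m2
  refine ⟨(cut_fac h hp hc e1 e2 hcard _).2 (Or.inr (Or.inl rfl)),
    (cut_fac h hp hc e1 e2 hcard _).2 (Or.inr (Or.inr (Or.inl rfl))),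
    (cut_fac h hp hc e1 e2 hcard _).2 (Or.inl rfl), ?_, ?_, ?_, ?_, ?_, ?_, ?_, ?_, ?_, ?_, ?_, ?_⟩
  · rw [CCu.mem_cf]; exact Or.inr (Or.inr rfl)
  · rw [CCu.mem_cf]; exact Or.inr (Or.inr rfl)
  · simp
  · rw [CCu.mem_cf]
    rintro (h1 | h1 | h1)
    · exact CCu.mid_notMem_of h (CCu.xN hc) (CCu.y1N hc) (CCu.nx1 hc) e1 s1 hc.a1 h1.2
    · exact n12 h1
    · exact n13 h1
  · rw [CCu.mem_cf]; exact Or.inr (Or.inl rfl)
  · simp
  · rw [CCu.mem_cf]; exact Or.inr (Or.inl rfl)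
  · rw [CCu.mem_cf]
    rintro (h1 | h1 | h1)
    · exact CCu.mid_notMem_of h (CCu.xN hc) (CCu.y2N hc) (CCu.nx2 hc) e2 s2 hc.b2 h1.2
    · exact n12 h1.symm
    · exact n23 h1
  · simp
  · rw [CCu.mem_cf]; exact Or.inl ⟨(CCu.nx3 hc).symm, hc.c1⟩
  · rw [CCu.mem_cf]; exact Or.inl ⟨(CCu.nx3 hc).symm, hc.c2⟩
  · rw [Finset.mem_insert, Finset.mem_insert, Finset.mem_singleton]
    rintro (h1 | h1 | h1)
    · exact (CCu.n13 hc) (CCu.eq_of_mid h (CCu.xN hc) (CCu.y1N hc) (CCu.nx1 hc) (CCu.y3N hc) h1).symm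
    · exact (CCu.n23 hc) (CCu.eq_of_mid h (CCu.xN hc) (CCu.y2N hc) (CCu.nx2 hc) (CCu.y3N hc) h1).symm
    · exact mid_notMem h (CCu.xN hc) (CCu.y3N hc) (CCu.nx3 hc) (h1 ▸ (CCu.y3N hc))

open Classical in
theorem cut_cor_new1 (h : Full N) {p : W →ₗ[ℝ] ℝ} (hp : ∀ w ∈ N, p w = 1) {F1 F2 F3 : Finset W}
    {x y1 y2 y3 : W} (hc : Cor N F1 F2 F3 x y1 y2 y3) (e2 : Bool) :
    Cor (cutN N x y1 y2 y3 true e2) (cf x F2 (mid true x y1) (mid true x y3))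
      (cf x F3 (mid true x y1) (mid e2 x y2)) {mid true x y1, mid e2 x y2, mid true x y3}
      (mid true x y1) (mid e2 x y2) (mid true x y3) y1 := by
  obtain ⟨n12, n13, n23⟩ := CCu.tri_ne (cut_card h hp hc true e2).1
  have s2 := fac_sub hc.m2
  have s3 := fac_sub hc.m3
  have hcard : true = true ∨ e2 = true ∨ 4 ≤ F3.card := Or.inl rfl
  refine ⟨(cut_fac h hp hc true e2 hcard _).2 (Or.inr (Or.inr (Or.inl rfl))),
    (cut_fac h hp hc true e2 hcard _).2 (Or.inr (Or.inr (Or.inr (Or.inl rfl)))),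
    (cut_fac h hp hc true e2 hcard _).2 (Or.inl rfl), ?_, ?_, ?_, ?_, ?_, ?_, ?_, ?_, ?_, ?_, ?_,
    ?_⟩
  · rw [CCu.mem_cf]; exact Or.inr (Or.inl rfl)
  · rw [CCu.mem_cf]; exact Or.inr (Or.inl rfl)
  · simp
  · rw [CCu.mem_cf]
    rintro (h1 | h1 | h1)
    · exact CCu.mid_notMem_of h (CCu.xN hc) (CCu.y2N hc) (CCu.nx2 hc) e2 s2 hc.b2 h1.2
    · exact n12 h1.symm
    · exact n23 h1
  · rw [CCu.mem_cf]; exact Or.inr (Or.inr rfl)
  · simp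
  · rw [CCu.mem_cf]; exact Or.inr (Or.inr rfl)
  · rw [CCu.mem_cf]
    rintro (h1 | h1 | h1)
    · exact CCu.mid_notMem_of h (CCu.xN hc) (CCu.y3N hc) (CCu.nx3 hc) true s3 hc.c3 h1.2
    · exact n13 h1.symm
    · exact n23 h1.symm
  · simp
  · rw [CCu.mem_cf]; exact Or.inl ⟨(CCu.nx1 hc).symm, hc.a2⟩
  · rw [CCu.mem_cf]; exact Or.inl ⟨(CCu.nx1 hc).symm, hc.a3⟩
  · rw [Finset.mem_insert, Finset.mem_insert, Finset.mem_singleton]
    rintro (h1 | h1 | h1)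
    · exact mid_notMem h (CCu.xN hc) (CCu.y1N hc) (CCu.nx1 hc) (h1 ▸ (CCu.y1N hc))
    · exact (CCu.n12 hc) (CCu.eq_of_mid h (CCu.xN hc) (CCu.y2N hc) (CCu.nx2 hc) (CCu.y1N hc) h1)
    · exact (CCu.n13 hc) (CCu.eq_of_mid h (CCu.xN hc) (CCu.y3N hc) (CCu.nx3 hc) (CCu.y1N hc) h1)

open Classical in
theorem cut_cor_new2 (h : Full N) {p : W →ₗ[ℝ] ℝ} (hp : ∀ w ∈ N, p w = 1) {F1 F2 F3 : Finset W}
    {x y1 y2 y3 : W} (hc : Cor N F1 F2 F3 x y1 y2 y3) (e1 : Bool) :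
    Cor (cutN N x y1 y2 y3 e1 true) (cf x F1 (mid true x y2) (mid true x y3))
      (cf x F3 (mid e1 x y1) (mid true x y2)) {mid e1 x y1, mid true x y2, mid true x y3}
      (mid true x y2) (mid e1 x y1) (mid true x y3) y2 := by
  obtain ⟨n12, n13, n23⟩ := CCu.tri_ne (cut_card h hp hc e1 true).1
  have s1 := fac_sub hc.m1
  have s3 := fac_sub hc.m3
  have hcard : e1 = true ∨ true = true ∨ 4 ≤ F3.card := Or.inr (Or.inl rfl)
  refine ⟨(cut_fac h hp hc e1 true hcard _).2 (Or.inr (Or.inl rfl)),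
    (cut_fac h hp hc e1 true hcard _).2 (Or.inr (Or.inr (Or.inr (Or.inl rfl)))),
    (cut_fac h hp hc e1 true hcard _).2 (Or.inl rfl), ?_, ?_, ?_, ?_, ?_, ?_, ?_, ?_, ?_, ?_, ?_,
    ?_⟩
  · rw [CCu.mem_cf]; exact Or.inr (Or.inl rfl)
  · rw [CCu.mem_cf]; exact Or.inr (Or.inr rfl)
  · simp
  · rw [CCu.mem_cf]
    rintro (h1 | h1 | h1)
    · exact CCu.mid_notMem_of h (CCu.xN hc) (CCu.y1N hc) (CCu.nx1 hc) e1 s1 hc.a1 h1.2
    · exact n12 h1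
    · exact n13 h1
  · rw [CCu.mem_cf]; exact Or.inr (Or.inl rfl)
  · simp
  · rw [CCu.mem_cf]; exact Or.inr (Or.inr rfl)
  · rw [CCu.mem_cf]
    rintro (h1 | h1 | h1)
    · exact CCu.mid_notMem_of h (CCu.xN hc) (CCu.y3N hc) (CCu.nx3 hc) true s3 hc.c3 h1.2
    · exact n13 h1.symm
    · exact n23 h1.symm
  · simp
  · rw [CCu.mem_cf]; exact Or.inl ⟨(CCu.nx2 hc).symm, hc.b1⟩
  · rw [CCu.mem_cf]; exact Or.inl ⟨(CCu.nx2 hc).symm, hc.b3⟩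
  · rw [Finset.mem_insert, Finset.mem_insert, Finset.mem_singleton]
    rintro (h1 | h1 | h1)
    · exact (CCu.n12 hc) (CCu.eq_of_mid h (CCu.xN hc) (CCu.y1N hc) (CCu.nx1 hc) (CCu.y2N hc) h1).symm
    · exact mid_notMem h (CCu.xN hc) (CCu.y2N hc) (CCu.nx2 hc) (h1 ▸ (CCu.y2N hc))
    · exact (CCu.n23 hc) (CCu.eq_of_mid h (CCu.xN hc) (CCu.y3N hc) (CCu.nx3 hc) (CCu.y2N hc) h1)

end Pool.Agent.P3F
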