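import Pool.Agent.P3F.CutN

/-!
# The facets after a cut (MP_a5fcbe_co, module CutF)

Notation of `CutN`: `m1, m2, m3`; `N' = cutN N x y1 y2 y3 e1 e2`.  `cf x F m m'` is `F` without `x`, together with `m, m'`.

The facets of `N'` are: the new triangle `{m1, m2, m3}`, `cf x F1 m2 m3`, `cf x F2 m1 m3`, `cf x F3 m1 m2`, and the facets of `N` which do not
contain `x`.  (If `e1 = e2 = false` the third one has one vertex less than `F3`, so we assume `4 ≤ F3.card` then.)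

`cut_fac_mem`: (i) the new triangle: functional `g` of `cut_fun`; `m1, m2, m3` are independent (`cor_li`: apply `f1, f2, f3`, which are
positive at `m1`, `m2`, `m3` respectively and zero at the two others).  (ii) `F1' = cf x F1 m2 m3`: the functional `f1` is `≥ 0` on `N'`
(`f1 x = 0`, so `f1 (mid e x y) ≥ 0`) and its zeros in `N'` are the elements of `F1'` (`f1 m1 > 0`, `f1 m2 = f1 m3 = 0`).
Three independent elements: `m2, m3, y3` (`m3 = (x + y3) / 2`, and `x, y2, y3` are independent).  The same for `F2'` with `m1, m3, y3`.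
For `F3'`: if `e1 = true`: `m1, y1, m2`; if `e2 = true`: `m2, y2, m1`; if `e1 = e2 = false`: `y1, y2` and a third element
`v ∈ F3`, `v ≠ x` (`4 ≤ F3.card`), `li3'`.  Use `fac_of_fun` for `N'` (`cut_full`); the facet it gives has the same zeros.
(iii) `F ∈ Fac N`, `x ∉ F`, functional `f`, `f x > 0`: `f` is positive at all midpoints `mi` with `ei = true`; `F ⊆ N'`.

`cut_fac_only`: let `F'` be a facet of `N'` with functional `f`.  If `0 ≤ f x`: then `f ≥ 0` on `N`; it has three independent zeros in `N`: if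
`f x > 0` then `f > 0` at all midpoints, so `F' ⊆ N` and the zeros are in `F'` (`fac_li`).  If `f x = 0`: the span of the zeros of `f` in `N`
contains `F'`: if `mid true x yi ∈ F'` then `f yi = 0`.  So there is a facet `F` of `N` with functional `f` (for instance `finrank (span F)` is
`≥ 3` by `Submodule.finrank_mono` and `≤ 3` by `rank_le_of_ker`); if `x ∉ F`, `F' = F`; if `x ∈ F`, `F` is `F1`, `F2` or `F3`
(`cor_fac`), and `F'` is the corresponding set.  If `f x < 0`: let `v ∈ N`, `v ≠ x`, `f v = 0`, `v = ξ x + ∑ ai yi` (`cor_coord`), `ξ ≤ 0`,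
`κi = 1` if `ei = true` and `0` otherwise, so `yi = (1 + κi) mi - κi x`, `v = (ξ - ∑ ai κi) x + ∑ ai (1 + κi) mi` and
`0 = f v = (ξ - ∑ ai κi) f x + ∑ ai (1 + κi) f mi`, all terms are `≥ 0`, so `ξ = 0` and `ai κi = 0` for all `i`; by `cor_coord` `v = yi` for
some `i`, `ai = 1`, `κi = 0`, `v = mi`.  So `F' ⊆ {m1, m2, m3}`, and `F' = {m1, m2, m3}` as `3 ≤ F'.card` (`three_le_card`).

`cut_card`: `mid true x yi ∉ N` (`mid_notMem`), `mid false x yi = yi ∈ Fj` for `j ≠ i`; the `mi` are different (`fi mi > 0 = fi mj`).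

`cut_ne`: these facets are different: `mi` is in the new triangle and not in the `i`-th facet (`fi mi > 0`); `y1` is in the second and third facet
and not in the first one; `y2`, `y3` similarly; a facet `F ∈ Fac N` with `x ∉ F` does not contain `m3 ∉ N`, and it is not the third
one: `F` would contain `y1, y2` and a further vertex of `F3` (or a midpoint not in `N`), so `F = F3 ∋ x` by `li3'`, `fac_eq`.
-/

set_option autoImplicit false

namespace Pool.Agent.P3F

open Pool.Agent.LPG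

variable {W : Type*} [AddCommGroup W] [Module ℝ W] {N : Finset W}

open Classical in
/-- The facet `F` after cutting off its vertex `x`, with the new vertices `m`, `m'`. -/
noncomputable def cf (x : W) (F : Finset W) (m m' : W) : Finset W := F.erase x ∪ {m, m'}

private theorem mid_val (f : W →ₗ[ℝ] ℝ) (x y : W) : f (mid true x y) = (f x + f y) / 2 := by
  unfold mid
  rw [if_pos rfl, map_smul, map_add, smul_eq_mul]
  ring

private theorem mid_val' (f : W →ₗ[ℝ] ℝ) (x y : W) : f (mid false x y) = f y := by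
  unfold mid
  simp

private theorem mid_false (x y : W) : mid false x y = y := by
  unfold mid
  simp

private theorem mid_pos {f : W →ₗ[ℝ] ℝ} {x y : W} (hx : f x = 0) (hy : 0 < f y) (e : Bool) :
    0 < f (mid e x y) := by
  cases e
  · rw [mid_val']; exact hy
  · rw [mid_val, hx]; linarith

private theorem mid_zero {f : W →ₗ[ℝ] ℝ} {x y : W} (hx : f x = 0) (hy : f y = 0) (e : Bool) :
    f (mid e x y) = 0 := by
  cases e
  · rw [mid_val']; exact hy
  · rw [mid_val, hx, hy]; norm_num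

private theorem mid_nonneg {f : W →ₗ[ℝ] ℝ} {x y : W} (hx : 0 ≤ f x) (hy : 0 ≤ f y) (e : Bool) :
    0 ≤ f (mid e x y) := by
  cases e
  · rw [mid_val']; exact hy
  · rw [mid_val]; linarith

private theorem mem_cutN {x y1 y2 y3 : W} {e1 e2 : Bool} {w : W} :
    w ∈ cutN N x y1 y2 y3 e1 e2 ↔
      (w ∈ N ∧ w ≠ x) ∨ w = mid e1 x y1 ∨ w = mid e2 x y2 ∨ w = mid true x y3 := by
  classical
  unfold cutN
  rw [Finset.mem_union, Finset.mem_erase, Finset.mem_insert, Finset.mem_insert,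
    Finset.mem_singleton]
  tauto

private theorem mem_cf {x : W} {F : Finset W} {m m' w : W} :
    w ∈ cf x F m m' ↔ (w ∈ F ∧ w ≠ x) ∨ w = m ∨ w = m' := by
  classical
  unfold cf
  rw [Finset.mem_union, Finset.mem_erase, Finset.mem_insert, Finset.mem_singleton]
  tauto

private theorem cutN_swap (N : Finset W) (x y1 y2 y3 : W) (e1 e2 : Bool) :
    cutN N x y1 y2 y3 e1 e2 = cutN N x y2 y1 y3 e2 e1 := by
  ext w
  rw [mem_cutN, mem_cutN]
  tauto

private theorem cf_comm (x : W) (F : Finset W) (m m' : W) : cf x F m m' = cf x F m' m := by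
  ext w
  rw [mem_cf, mem_cf]
  tauto

/-- The values of a functional of a facet. -/
private theorem fun_zero {F : Finset W} {f : W →ₗ[ℝ] ℝ} (hf : FunOf N F f) {w : W} (hw : w ∈ F) :
    f w = 0 := ((hf.2 w).1 hw).2

private theorem fun_pos {F : Finset W} {f : W →ₗ[ℝ] ℝ} (hf : FunOf N F f) {w : W} (hw : w ∈ N)
    (hwF : w ∉ F) : 0 < f w :=
  lt_of_le_of_ne (hf.1 w hw) fun h => hwF ((hf.2 w).2 ⟨hw, h.symm⟩)

/-- The data of a corner which are used below. -/
private theorem cor_data {F1 F2 F3 : Finset W} {x y1 y2 y3 : W} (hc : Cor N F1 F2 F3 x y1 y2 y3)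
    (e1 e2 : Bool) :
    x ∈ N ∧ y1 ∈ N ∧ y2 ∈ N ∧ y3 ∈ N ∧ y1 ≠ x ∧ y2 ≠ x ∧ y3 ≠ x ∧ y1 ≠ y2 ∧ y1 ≠ y3 ∧ y2 ≠ y3 ∧
      ∃ f1 f2 f3 : W →ₗ[ℝ] ℝ, FunOf N F1 f1 ∧ FunOf N F2 f2 ∧ FunOf N F3 f3 ∧
        f1 x = 0 ∧ f2 x = 0 ∧ f3 x = 0 ∧
        0 < f1 y1 ∧ f1 y2 = 0 ∧ f1 y3 = 0 ∧ f2 y1 = 0 ∧ 0 < f2 y2 ∧ f2 y3 = 0 ∧
        f3 y1 = 0 ∧ f3 y2 = 0 ∧ 0 < f3 y3 ∧
        0 < f1 (mid e1 x y1) ∧ f1 (mid e2 x y2) = 0 ∧ f1 (mid true x y3) = 0 ∧
        f2 (mid e1 x y1) = 0 ∧ 0 < f2 (mid e2 x y2) ∧ f2 (mid true x y3) = 0 ∧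
        f3 (mid e1 x y1) = 0 ∧ f3 (mid e2 x y2) = 0 ∧ 0 < f3 (mid true x y3) := by
  have hx : x ∈ N := fac_sub hc.m1 hc.x1
  have h1 : y1 ∈ N := fac_sub hc.m2 hc.a2
  have h2 : y2 ∈ N := fac_sub hc.m1 hc.b1
  have h3 : y3 ∈ N := fac_sub hc.m1 hc.c1
  obtain ⟨⟨f1, g1⟩, -⟩ := mem_fac.1 hc.m1
  obtain ⟨⟨f2, g2⟩, -⟩ := mem_fac.1 hc.m2
  obtain ⟨⟨f3, g3⟩, -⟩ := mem_fac.1 hc.m3
  have x1 := fun_zero g1 hc.x1
  have x2 := fun_zero g2 hc.x2
  have x3 := fun_zero g3 hc.x3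
  have a1 := fun_pos g1 h1 hc.a1
  have a2 := fun_zero g2 hc.a2
  have a3 := fun_zero g3 hc.a3
  have b1 := fun_zero g1 hc.b1
  have b2 := fun_pos g2 h2 hc.b2
  have b3 := fun_zero g3 hc.b3
  have c1 := fun_zero g1 hc.c1
  have c2 := fun_zero g2 hc.c2
  have c3 := fun_pos g3 h3 hc.c3
  refine ⟨hx, h1, h2, h3, fun h => hc.a1 (h ▸ hc.x1), fun h => hc.b2 (h ▸ hc.x2),
    fun h => hc.c3 (h ▸ hc.x3), fun h => hc.a1 (h ▸ hc.b1), fun h => hc.a1 (h ▸ hc.c1),
    fun h => hc.b2 (h ▸ hc.c2), f1, f2, f3, g1, g2, g3, x1, x2, x3, a1, b1, c1, a2, b2, c2, a3, b3,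
    c3, mid_pos x1 a1 _, mid_zero x1 b1 _, mid_zero x1 c1 _, mid_zero x2 a2 _, mid_pos x2 b2 _,
    mid_zero x2 c2 _, mid_zero x3 a3 _, mid_zero x3 b3 _, mid_pos x3 c3 _⟩

private theorem li_three {u v w : W} {q1 q2 q3 : W →ₗ[ℝ] ℝ} (a1 : 0 < q1 u) (a2 : q1 v = 0)
    (a3 : q1 w = 0) (b1 : q2 u = 0) (b2 : 0 < q2 v) (b3 : q2 w = 0) (c1 : q3 u = 0)
    (c2 : q3 v = 0) (c3 : 0 < q3 w) : LinearIndependent ℝ ![u, v, w] := by
  rw [Fintype.linearIndependent_iff]
  intro g hg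
  rw [Fin.sum_univ_three] at hg
  have hg : g 0 • u + g 1 • v + g 2 • w = 0 := hg
  have e1 := congrArg q1 hg
  have e2 := congrArg q2 hg
  have e3 := congrArg q3 hg
  simp only [map_add, map_smul, map_zero, smul_eq_mul, a2, a3, b1, b3, c1, c2, mul_zero, add_zero,
    zero_add] at e1 e2 e3
  have g0 : g 0 = 0 := (mul_eq_zero.1 e1).resolve_right a1.ne'
  have g1 : g 1 = 0 := (mul_eq_zero.1 e2).resolve_right b2.ne'
  have g2 : g 2 = 0 := (mul_eq_zero.1 e3).resolve_right c3.ne'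
  intro i
  fin_cases i
  · exact g0
  · exact g1
  · exact g2

private theorem li_mid (h : Full N) {u x y z : W} {q : W →ₗ[ℝ] ℝ} (hx : x ∈ N) (hy : y ∈ N) (hz : z ∈ N)
    (hxy : x ≠ y) (hxz : x ≠ z) (hyz : y ≠ z) (qu : 0 < q u) (qx : q x = 0) (qy : q y = 0) :
    LinearIndependent ℝ ![u, mid true x y, y] := by
  rw [Fintype.linearIndependent_iff]
  intro g hg
  rw [Fin.sum_univ_three] at hg
  have hg : g 0 • u + g 1 • mid true x y + g 2 • y = 0 := hg
  have e1 := congrArg q hg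
  simp only [map_add, map_smul, map_zero, smul_eq_mul, mid_zero qx qy, qy, mul_zero,
    add_zero] at e1
  have g0 : g 0 = 0 := (mul_eq_zero.1 e1).resolve_right qu.ne'
  rw [g0, zero_smul, zero_add] at hg
  have e2 : (g 1 / 2) • x + (g 1 / 2 + g 2) • y + (0 : ℝ) • z ∈ (⊥ : Submodule ℝ W) := by
    rw [Submodule.mem_bot, ← hg]
    unfold mid
    rw [if_pos rfl]
    module
  obtain ⟨h1, h2, -⟩ := li3 h.poly hx hy hz hxy hxz hyz e2
  have g1 : g 1 = 0 := by linarith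
  have g2 : g 2 = 0 := by linarith
  intro i
  fin_cases i
  · exact g0
  · exact g1
  · exact g2

private theorem fac_of {F : Finset W} {f : W →ₗ[ℝ] ℝ} (h : Full N) (hf : FunOf N F f) (hf0 : f ≠ 0)
    {u v w : W} (hli : LinearIndependent ℝ ![u, v, w]) (hu : u ∈ F) (hv : v ∈ F) (hw : w ∈ F) :
    F ∈ Fac N := by
  obtain ⟨G, hG, hG2⟩ := fac_of_fun h hf.1 hf0 hli ((hf.2 u).1 hu).1 ((hf.2 v).1 hv).1
    ((hf.2 w).1 hw).1 ((hf.2 u).1 hu).2 ((hf.2 v).1 hv).2 ((hf.2 w).1 hw).2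
  have : F = G := by
    ext t
    rw [hf.2, hG2.2]
  rw [this]
  exact hG

/-- Zeros in the new set of the functional of a facet which contains `x`. -/
private theorem cut_zero {F : Finset W} {f : W →ₗ[ℝ] ℝ} (hf : FunOf N F f) {x y1 y2 y3 : W}
    {e1 e2 : Bool} (hx : f x = 0) (h1 : y1 ∈ N) (h2 : y2 ∈ N) (h3 : y3 ∈ N) :
    (∀ w ∈ cutN N x y1 y2 y3 e1 e2, 0 ≤ f w) ∧ ∀ w, w ∈ cutN N x y1 y2 y3 e1 e2 ∧ f w = 0 ↔
      (w ∈ F ∧ w ≠ x) ∨ (w = mid e1 x y1 ∧ f (mid e1 x y1) = 0) ∨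
        (w = mid e2 x y2 ∧ f (mid e2 x y2) = 0) ∨
        (w = mid true x y3 ∧ f (mid true x y3) = 0) := by
  constructor
  · intro w hw
    rcases mem_cutN.1 hw with ⟨hw, -⟩ | rfl | rfl | rfl
    · exact hf.1 w hw
    · exact mid_nonneg hx.ge (hf.1 _ h1) _
    · exact mid_nonneg hx.ge (hf.1 _ h2) _
    · exact mid_nonneg hx.ge (hf.1 _ h3) _
  · intro w
    rw [mem_cutN, hf.2 w]
    constructor
    · rintro ⟨⟨hw, hwx⟩ | rfl | rfl | rfl, h0⟩
      · exact Or.inl ⟨⟨hw, h0⟩, hwx⟩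
      · exact Or.inr (Or.inl ⟨rfl, h0⟩)
      · exact Or.inr (Or.inr (Or.inl ⟨rfl, h0⟩))
      · exact Or.inr (Or.inr (Or.inr ⟨rfl, h0⟩))
    · rintro (⟨⟨hw, h0⟩, hwx⟩ | ⟨rfl, h0⟩ | ⟨rfl, h0⟩ | ⟨rfl, h0⟩)
      · exact ⟨Or.inl ⟨hw, hwx⟩, h0⟩
      · exact ⟨Or.inr (Or.inl rfl), h0⟩
      · exact ⟨Or.inr (Or.inr (Or.inl rfl)), h0⟩
      · exact ⟨Or.inr (Or.inr (Or.inr rfl)), h0⟩

private theorem cut_fun1 {F1 F2 F3 : Finset W} {x y1 y2 y3 : W} (hc : Cor N F1 F2 F3 x y1 y2 y3)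
    (e1 e2 : Bool) {f : W →ₗ[ℝ] ℝ} (hf : FunOf N F1 f) :
    FunOf (cutN N x y1 y2 y3 e1 e2) (cf x F1 (mid e2 x y2) (mid true x y3)) f := by
  obtain ⟨hx, h1, h2, h3, -⟩ := cor_data hc e1 e2
  have x0 := fun_zero hf hc.x1
  obtain ⟨hA, hB⟩ := cut_zero (e1 := e1) (e2 := e2) hf x0 h1 h2 h3
  refine ⟨hA, fun w => ?_⟩
  rw [hB, mem_cf]
  have p1 := mid_pos x0 (fun_pos hf h1 hc.a1) e1
  have p2 := mid_zero x0 (fun_zero hf hc.b1) e2
  have p3 := mid_zero x0 (fun_zero hf hc.c1) true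
  have p1' := p1.ne'
  tauto

private theorem cut_fun3 {F1 F2 F3 : Finset W} {x y1 y2 y3 : W} (hc : Cor N F1 F2 F3 x y1 y2 y3)
    (e1 e2 : Bool) {f : W →ₗ[ℝ] ℝ} (hf : FunOf N F3 f) :
    FunOf (cutN N x y1 y2 y3 e1 e2) (cf x F3 (mid e1 x y1) (mid e2 x y2)) f := by
  obtain ⟨hx, h1, h2, h3, -⟩ := cor_data hc e1 e2
  have x0 := fun_zero hf hc.x3
  obtain ⟨hA, hB⟩ := cut_zero (e1 := e1) (e2 := e2) hf x0 h1 h2 h3
  refine ⟨hA, fun w => ?_⟩
  rw [hB, mem_cf]
  have p1 := mid_zero x0 (fun_zero hf hc.a3) e1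
  have p2 := mid_zero x0 (fun_zero hf hc.b3) e2
  have p3 := mid_pos x0 (fun_pos hf h3 hc.c3) true
  have p3' := p3.ne'
  tauto

private theorem cut_fun2 {F1 F2 F3 : Finset W} {x y1 y2 y3 : W} (hc : Cor N F1 F2 F3 x y1 y2 y3)
    (e1 e2 : Bool) {f : W →ₗ[ℝ] ℝ} (hf : FunOf N F2 f) :
    FunOf (cutN N x y1 y2 y3 e1 e2) (cf x F2 (mid e1 x y1) (mid true x y3)) f := by
  rw [cutN_swap]
  exact cut_fun1 hc.swap e2 e1 hf

/-- A fourth element. -/
private theorem exists_fourth {F : Finset W} (hF : 4 ≤ F.card) (x y1 y2 : W) :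
    ∃ v ∈ F, v ≠ x ∧ v ≠ y1 ∧ v ≠ y2 := by
  classical
  by_contra hcon
  push Not at hcon
  have hsub : F ⊆ {x, y1, y2} := by
    intro v hv
    rw [Finset.mem_insert, Finset.mem_insert, Finset.mem_singleton]
    by_cases h1 : v = x
    · exact Or.inl h1
    · by_cases h2 : v = y1
      · exact Or.inr (Or.inl h2)
      · exact Or.inr (Or.inr (hcon v hv h1 h2))
  have h3 := Finset.card_le_card hsub
  have h4 : ({x, y1, y2} : Finset W).card ≤ 3 := Finset.card_le_three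
  omega

private theorem cut_mem1 (h : Full N) {p : W →ₗ[ℝ] ℝ} (hp : ∀ w ∈ N, p w = 1) {F1 F2 F3 : Finset W}
    {x y1 y2 y3 : W} (hc : Cor N F1 F2 F3 x y1 y2 y3) (e1 e2 : Bool) :
    cf x F1 (mid e2 x y2) (mid true x y3) ∈ Fac (cutN N x y1 y2 y3 e1 e2) := by
  obtain ⟨hx, h1, h2, h3, d1, d2, d3, d12, d13, d23, f1, f2, f3, g1, g2, g3, x1, x2, x3, a1, b1,
    c1, a2, b2, c2, a3, b3, c3, m11, m12, m13, m21, m22, m23, m31, m32, m33⟩ := cor_data hc e1 e2
  refine fac_of (cut_full h hp hc e1 e2) (cut_fun1 hc e1 e2 g1) (fun_ne_zero h hc.m1 g1)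
    (li_mid (u := mid e2 x y2) h hx h3 h2 d3.symm d2.symm d23.symm m22 x2 c2) ?_ ?_ ?_
  · exact mem_cf.2 (Or.inr (Or.inl rfl))
  · exact mem_cf.2 (Or.inr (Or.inr rfl))
  · exact mem_cf.2 (Or.inl ⟨hc.c1, d3⟩)

private theorem cut_mem3a (h : Full N) {p : W →ₗ[ℝ] ℝ} (hp : ∀ w ∈ N, p w = 1) {F1 F2 F3 : Finset W}
    {x y1 y2 y3 : W} (hc : Cor N F1 F2 F3 x y1 y2 y3) (e2 : Bool) :
    cf x F3 (mid true x y1) (mid e2 x y2) ∈ Fac (cutN N x y1 y2 y3 true e2) := by
  obtain ⟨hx, h1, h2, h3, d1, d2, d3, d12, d13, d23, f1, f2, f3, g1, g2, g3, x1, x2, x3, a1, b1,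
    c1, a2, b2, c2, a3, b3, c3, m11, m12, m13, m21, m22, m23, m31, m32, m33⟩ :=
    cor_data hc true e2
  refine fac_of (cut_full h hp hc true e2) (cut_fun3 hc true e2 g3) (fun_ne_zero h hc.m3 g3)
    (li_mid (u := mid e2 x y2) h hx h1 h2 d1.symm d2.symm d12 m22 x2 a2) ?_ ?_ ?_
  · exact mem_cf.2 (Or.inr (Or.inr rfl))
  · exact mem_cf.2 (Or.inr (Or.inl rfl))
  · exact mem_cf.2 (Or.inl ⟨hc.a3, d1⟩)

private theorem cut_mem3 (h : Full N) {p : W →ₗ[ℝ] ℝ} (hp : ∀ w ∈ N, p w = 1) {F1 F2 F3 : Finset W}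
    {x y1 y2 y3 : W} (hc : Cor N F1 F2 F3 x y1 y2 y3) (e1 e2 : Bool)
    (hcard : e1 = true ∨ e2 = true ∨ 4 ≤ F3.card) :
    cf x F3 (mid e1 x y1) (mid e2 x y2) ∈ Fac (cutN N x y1 y2 y3 e1 e2) := by
  cases e1 with
  | true => exact cut_mem3a h hp hc e2
  | false =>
    cases e2 with
    | true =>
      rw [cutN_swap, cf_comm]
      exact cut_mem3a h hp hc.swap false
    | false =>
      have h4 : 4 ≤ F3.card := by
        rcases hcard with h | h | h
        · exact absurd h (by decide)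
        · exact absurd h (by decide)
        · exact h
      obtain ⟨hx, h1, h2, h3, d1, d2, d3, d12, d13, d23, f1, f2, f3, g1, g2, g3, -⟩ :=
        cor_data hc false false
      obtain ⟨v, hv, v0, v1, v2⟩ := exists_fourth h4 x y1 y2
      refine fac_of (cut_full h hp hc false false) (cut_fun3 hc false false g3)
        (fun_ne_zero h hc.m3 g3)
        (li3' h.poly h1 h2 (fac_sub hc.m3 hv) d12 v1.symm v2.symm) ?_ ?_ ?_
      · exact mem_cf.2 (Or.inl ⟨hc.a3, d1⟩)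
      · exact mem_cf.2 (Or.inl ⟨hc.b3, d2⟩)
      · exact mem_cf.2 (Or.inl ⟨hv, v0⟩)

/-- A midpoint is not a zero of a functional which is positive at `x`. -/
private theorem mid_zero_mem {f : W →ₗ[ℝ] ℝ} (hf : ∀ w ∈ N, 0 ≤ f w) {x y : W} (hx : 0 < f x)
    (hy : y ∈ N) {e : Bool} (h0 : f (mid e x y) = 0) : mid e x y ∈ N := by
  cases e
  · rw [mid_false]; exact hy
  · rw [mid_val] at h0
    have := hf y hy
    linarith

private theorem cut_mem4 (h : Full N) {p : W →ₗ[ℝ] ℝ} (hp : ∀ w ∈ N, p w = 1) {F1 F2 F3 : Finset W}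
    {x y1 y2 y3 : W} (hc : Cor N F1 F2 F3 x y1 y2 y3) (e1 e2 : Bool) {F : Finset W}
    (hF : F ∈ Fac N) (hxF : x ∉ F) : F ∈ Fac (cutN N x y1 y2 y3 e1 e2) := by
  obtain ⟨hx, h1, h2, h3, -⟩ := cor_data hc e1 e2
  obtain ⟨⟨f, hf⟩, -⟩ := mem_fac.1 hF
  have fx := fun_pos hf hx hxF
  obtain ⟨u, hu, v, hv, w, hw, hli⟩ := fac_li hF
  have hfun : FunOf (cutN N x y1 y2 y3 e1 e2) F f := by
    refine ⟨?_, fun t => ?_⟩
    · intro w hw
      rcases mem_cutN.1 hw with ⟨hw, -⟩ | rfl | rfl | rfl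
      · exact hf.1 w hw
      · exact mid_nonneg fx.le (hf.1 _ h1) _
      · exact mid_nonneg fx.le (hf.1 _ h2) _
      · exact mid_nonneg fx.le (hf.1 _ h3) _
    · constructor
      · intro ht
        have := (hf.2 t).1 ht
        exact ⟨mem_cutN.2 (Or.inl ⟨this.1, fun hh => hxF (hh ▸ ht)⟩), this.2⟩
      · rintro ⟨ht, t0⟩
        rw [hf.2]
        rcases mem_cutN.1 ht with ⟨ht, -⟩ | rfl | rfl | rfl
        · exact ⟨ht, t0⟩
        · exact ⟨mid_zero_mem hf.1 fx h1 t0, t0⟩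
        · exact ⟨mid_zero_mem hf.1 fx h2 t0, t0⟩
        · exact ⟨mid_zero_mem hf.1 fx h3 t0, t0⟩
  exact fac_of (cut_full h hp hc e1 e2) hfun (fun_ne_zero h hF hf) hli hu hv hw

open Classical in
private theorem cut_mem0 (h : Full N) {p : W →ₗ[ℝ] ℝ} (hp : ∀ w ∈ N, p w = 1) {F1 F2 F3 : Finset W}
    {x y1 y2 y3 : W} (hc : Cor N F1 F2 F3 x y1 y2 y3) (e1 e2 : Bool) :
    ({mid e1 x y1, mid e2 x y2, mid true x y3} : Finset W) ∈
      Fac (cutN N x y1 y2 y3 e1 e2) := by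
  obtain ⟨hx, h1, h2, h3, d1, d2, d3, d12, d13, d23, f1, f2, f3, g1, g2, g3, x1, x2, x3, a1, b1,
    c1, a2, b2, c2, a3, b3, c3, m11, m12, m13, m21, m22, m23, m31, m32, m33⟩ := cor_data hc e1 e2
  obtain ⟨g, gx, gn, g0⟩ := cut_fun h hp hc e1 e2
  have hfun : FunOf (cutN N x y1 y2 y3 e1 e2)
      ({mid e1 x y1, mid e2 x y2, mid true x y3} : Finset W) g := by
    refine ⟨gn, fun w => ?_⟩
    rw [Finset.mem_insert, Finset.mem_insert, Finset.mem_singleton]
    constructor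
    · intro hw
      have hw' : w ∈ cutN N x y1 y2 y3 e1 e2 := mem_cutN.2 (Or.inr hw)
      exact ⟨hw', (g0 w hw').2 hw⟩
    · rintro ⟨hw, hw0⟩
      exact (g0 w hw).1 hw0
  have gne : g ≠ 0 := by
    rintro rfl
    simp at gx
  refine fac_of (cut_full h hp hc e1 e2) hfun gne
    (li_three m11 m12 m13 m21 m22 m23 m31 m32 m33) ?_ ?_ ?_ <;> simp

open Classical in
private theorem cut_only (h : Full N) {p : W →ₗ[ℝ] ℝ} (hp : ∀ w ∈ N, p w = 1) {F1 F2 F3 : Finset W}
    {x y1 y2 y3 : W} (hc : Cor N F1 F2 F3 x y1 y2 y3) (e1 e2 : Bool) {F' : Finset W}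
    (hF : F' ∈ Fac (cutN N x y1 y2 y3 e1 e2)) :
      F' = {mid e1 x y1, mid e2 x y2, mid true x y3} ∨
      F' = cf x F1 (mid e2 x y2) (mid true x y3) ∨ F' = cf x F2 (mid e1 x y1) (mid true x y3) ∨
      F' = cf x F3 (mid e1 x y1) (mid e2 x y2) ∨ (F' ∈ Fac N ∧ x ∉ F') := by
  obtain ⟨hx, h1, h2, h3, -⟩ := cor_data hc e1 e2
  have hfull := cut_full h hp hc e1 e2
  obtain ⟨⟨f, hf⟩, hr⟩ := mem_fac.1 hF
  have f0 := fun_ne_zero hfull hF hf
  by_cases hx0 : 0 ≤ f x
  · have hN : ∀ w ∈ N, 0 ≤ f w := by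
      intro w hw
      by_cases hwx : w = x
      · rw [hwx]; exact hx0
      · exact hf.1 w (mem_cutN.2 (Or.inl ⟨hw, hwx⟩))
    rcases hx0.lt_or_eq with hpos | hz
    · refine Or.inr (Or.inr (Or.inr (Or.inr ?_)))
      have hmem : ∀ t, t ∈ F' → t ∈ N := by
        intro t ht
        obtain ⟨ht, t0⟩ := (hf.2 t).1 ht
        rcases mem_cutN.1 ht with ⟨ht, -⟩ | rfl | rfl | rfl
        · exact ht
        · exact mid_zero_mem hN hpos h1 t0
        · exact mid_zero_mem hN hpos h2 t0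
        · exact mid_zero_mem hN hpos h3 t0
      have hxF : x ∉ F' := by
        intro hh
        have := ((hf.2 x).1 hh).2
        linarith
      have hfun : FunOf N F' f := by
        refine ⟨hN, fun t => ⟨fun ht => ⟨hmem t ht, ((hf.2 t).1 ht).2⟩, ?_⟩⟩
        rintro ⟨ht, t0⟩
        refine (hf.2 t).2 ⟨mem_cutN.2 (Or.inl ⟨ht, ?_⟩), t0⟩
        rintro rfl
        linarith
      obtain ⟨u, hu, v, hv, w, hw, hli⟩ := fac_li hF
      exact ⟨fac_of h hfun f0 hli hu hv hw, hxF⟩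
    · have hxz : f x = 0 := hz.symm
      have hfunZ : FunOf N (N.filter fun w => f w = 0) f := by
        refine ⟨hN, fun w => ?_⟩
        rw [Finset.mem_filter]
      have hspan : (F' : Set W) ⊆ Submodule.span ℝ ((N.filter fun w => f w = 0 : Finset W) : Set W) := by
        have hmid : ∀ (e : Bool) (y : W), y ∈ N → f (mid e x y) = 0 →
            mid e x y ∈ Submodule.span ℝ ((N.filter fun w => f w = 0 : Finset W) : Set W) := by
          intro e y hy h0
          have hy0 : f y = 0 := by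
            cases e
            · rw [mid_val'] at h0; exact h0
            · rw [mid_val, hxz] at h0; linarith
          have hys : y ∈ Submodule.span ℝ ((N.filter fun w => f w = 0 : Finset W) : Set W) :=
            Submodule.subset_span (by
              rw [Finset.mem_coe, Finset.mem_filter]; exact ⟨hy, hy0⟩)
          have hxs : x ∈ Submodule.span ℝ ((N.filter fun w => f w = 0 : Finset W) : Set W) :=
            Submodule.subset_span (by
              rw [Finset.mem_coe, Finset.mem_filter]; exact ⟨hx, hxz⟩)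
          cases e
          · rw [mid_false]; exact hys
          · unfold mid
            rw [if_pos rfl]
            exact Submodule.smul_mem _ _ (Submodule.add_mem _ hxs hys)
        intro t ht
        obtain ⟨ht, t0⟩ := (hf.2 t).1 (Finset.mem_coe.1 ht)
        rcases mem_cutN.1 ht with ⟨ht, -⟩ | rfl | rfl | rfl
        · exact Submodule.subset_span (by
              rw [Finset.mem_coe, Finset.mem_filter]; exact ⟨ht, t0⟩)
        · exact hmid _ _ h1 t0
        · exact hmid _ _ h2 t0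
        · exact hmid _ _ h3 t0
      have hrk : Module.finrank ℝ (Submodule.span ℝ ((N.filter fun w => f w = 0 : Finset W) : Set W)) = 3 := by
        haveI : Module.Finite ℝ W := Module.finite_of_finrank_pos (by rw [h.dim]; norm_num)
        apply le_antisymm
        · refine rank_le_of_ker h.dim f0 ?_
          intro u hu
          have : Submodule.span ℝ ((N.filter fun w => f w = 0 : Finset W) : Set W) ≤ LinearMap.ker f := by
            rw [Submodule.span_le]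
            intro t ht
            rw [Finset.mem_coe, Finset.mem_filter] at ht
            exact ht.2
          exact this hu
        · rw [← hr]
          exact Submodule.finrank_mono (Submodule.span_le.2 hspan)
      have hZ : (N.filter fun w => f w = 0) ∈ Fac N := mem_fac.2 ⟨⟨f, hfunZ⟩, hrk⟩
      have hxZ : x ∈ N.filter fun w => f w = 0 := Finset.mem_filter.2 ⟨hx, hxz⟩
      rcases cor_fac h hp hc hZ hxZ with hE | hE | hE
      · rw [hE] at hfunZ
        have hG := cut_fun1 hc e1 e2 hfunZ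
        refine Or.inr (Or.inl ?_)
        ext t
        rw [hf.2, hG.2]
      · rw [hE] at hfunZ
        have hG := cut_fun2 hc e1 e2 hfunZ
        refine Or.inr (Or.inr (Or.inl ?_))
        ext t
        rw [hf.2, hG.2]
      · rw [hE] at hfunZ
        have hG := cut_fun3 hc e1 e2 hfunZ
        refine Or.inr (Or.inr (Or.inr (Or.inl ?_)))
        ext t
        rw [hf.2, hG.2]
  · push Not at hx0
    refine Or.inl ?_
    have hsub : F' ⊆ ({mid e1 x y1, mid e2 x y2, mid true x y3} : Finset W) := by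
      intro w hw
      obtain ⟨hwN, w0⟩ := (hf.2 w).1 hw
      rw [Finset.mem_insert, Finset.mem_insert, Finset.mem_singleton]
      rcases mem_cutN.1 hwN with ⟨hwN, hwx⟩ | hh
      · obtain ⟨ξ, c1, c2, c3, hw1, -, k1, k2, k3, -, -, -, hξ, hξ0⟩ := cor_coord h hp hc hwN
        have hmid : ∀ (e : Bool) (y : W), 0 ≤ f (mid e x y) → 0 ≤ f y ∧ (e = true → 0 < f y) := by
          intro e y hm
          cases e
          · rw [mid_val'] at hm
            exact ⟨hm, fun hh => absurd hh (by decide)⟩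
          · rw [mid_val] at hm
            exact ⟨by linarith, fun _ => by linarith⟩
        obtain ⟨n1, q1⟩ := hmid e1 y1 (hf.1 _ (mem_cutN.2 (Or.inr (Or.inl rfl))))
        obtain ⟨n2, q2⟩ := hmid e2 y2 (hf.1 _ (mem_cutN.2 (Or.inr (Or.inr (Or.inl rfl)))))
        obtain ⟨n3, q3⟩ := hmid true y3 (hf.1 _ (mem_cutN.2 (Or.inr (Or.inr (Or.inr rfl)))))
        have hval : f w = ξ * f x + c1 * f y1 + c2 * f y2 + c3 * f y3 := by
          conv_lhs => rw [hw1]
          simp only [map_add, map_smul, smul_eq_mul]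
        have r1 := mul_nonneg k1 n1
        have r2 := mul_nonneg k2 n2
        have r3 := mul_nonneg k3 n3
        have r0 : 0 ≤ ξ * f x := mul_nonneg_of_nonpos_of_nonpos (hξ hwx) hx0.le
        have r4 : ξ * f x = 0 := by linarith
        have ξ0 : ξ = 0 := (mul_eq_zero.1 r4).resolve_right hx0.ne
        rcases hξ0 hwx ξ0 with rfl | rfl | rfl
        · cases e1
          · exact Or.inl (mid_false _ _).symm
          · exact absurd w0 (q1 rfl).ne'
        · cases e2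
          · exact Or.inr (Or.inl (mid_false _ _).symm)
          · exact absurd w0 (q2 rfl).ne'
        · exact absurd w0 (q3 rfl).ne'
      · exact hh
    refine Finset.eq_of_subset_of_card_le hsub ?_
    exact Finset.card_le_three.trans (three_le_card hF)

open Classical in
/-- The number of vertices of the new version of a facet. -/
private theorem cf_card {x : W} {F : Finset W} (hx : x ∈ F) {m m' : W} (hne : m ≠ m') {e e' : Bool}
    (h1 : e = false → m ∈ F ∧ m ≠ x) (h2 : e = true → m ∉ F)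
    (h1' : e' = false → m' ∈ F ∧ m' ≠ x) (h2' : e' = true → m' ∉ F) :
    (cf x F m m').card + 1 = F.card + e.toNat + e'.toNat := by
  have hins : cf x F m m' = insert m (insert m' (F.erase x)) := by
    ext w
    rw [mem_cf, Finset.mem_insert, Finset.mem_insert, Finset.mem_erase]
    tauto
  have hE := Finset.card_erase_add_one hx
  have hcase' : (insert m' (F.erase x)).card = (F.erase x).card + e'.toNat := by
    cases e'
    · rw [Finset.insert_eq_of_mem (Finset.mem_erase.2 ⟨(h1' rfl).2, (h1' rfl).1⟩)]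
      rfl
    · rw [Finset.card_insert_of_notMem fun hh => h2' rfl (Finset.mem_of_mem_erase hh)]
      rfl
  have hcase : (insert m (insert m' (F.erase x))).card =
      (insert m' (F.erase x)).card + e.toNat := by
    cases e
    · rw [Finset.insert_eq_of_mem (Finset.mem_insert_of_mem
        (Finset.mem_erase.2 ⟨(h1 rfl).2, (h1 rfl).1⟩))]
      rfl
    · rw [Finset.card_insert_of_notMem]
      · rfl
      · intro hh
        rcases Finset.mem_insert.1 hh with hh | hh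
        · exact hne hh
        · exact h2 rfl (Finset.mem_of_mem_erase hh)
  rw [hins, hcase, hcase']
  omega

open Classical in
theorem cut_fac (h : Full N) {p : W →ₗ[ℝ] ℝ} (hp : ∀ w ∈ N, p w = 1) {F1 F2 F3 : Finset W}
    {x y1 y2 y3 : W} (hc : Cor N F1 F2 F3 x y1 y2 y3) (e1 e2 : Bool)
    (hcard : e1 = true ∨ e2 = true ∨ 4 ≤ F3.card) (F' : Finset W) :
    F' ∈ Fac (cutN N x y1 y2 y3 e1 e2) ↔
      F' = {mid e1 x y1, mid e2 x y2, mid true x y3} ∨
      F' = cf x F1 (mid e2 x y2) (mid true x y3) ∨ F' = cf x F2 (mid e1 x y1) (mid true x y3) ∨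
      F' = cf x F3 (mid e1 x y1) (mid e2 x y2) ∨ (F' ∈ Fac N ∧ x ∉ F') := by
  constructor
  · exact cut_only h hp hc e1 e2
  · rintro (rfl | rfl | rfl | rfl | ⟨hF, hxF⟩)
    · exact cut_mem0 h hp hc e1 e2
    · exact cut_mem1 h hp hc e1 e2
    · rw [cutN_swap]
      exact cut_mem1 h hp hc.swap e2 e1
    · exact cut_mem3 h hp hc e1 e2 hcard
    · exact cut_mem4 h hp hc e1 e2 hF hxF

open Classical in
theorem cut_card (h : Full N) {p : W →ₗ[ℝ] ℝ} (hp : ∀ w ∈ N, p w = 1) {F1 F2 F3 : Finset W}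
    {x y1 y2 y3 : W} (hc : Cor N F1 F2 F3 x y1 y2 y3) (e1 e2 : Bool) :
    ({mid e1 x y1, mid e2 x y2, mid true x y3} : Finset W).card = 3 ∧
      (cf x F1 (mid e2 x y2) (mid true x y3)).card = F1.card + e2.toNat ∧
      (cf x F2 (mid e1 x y1) (mid true x y3)).card = F2.card + e1.toNat ∧
      (cf x F3 (mid e1 x y1) (mid e2 x y2)).card + 1 = F3.card + e1.toNat + e2.toNat := by
  obtain ⟨hx, h1, h2, h3, d1, d2, d3, d12, d13, d23, f1, f2, f3, g1, g2, g3, x1, x2, x3, a1, b1,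
    c1, a2, b2, c2, a3, b3, c3, m11, m12, m13, m21, m22, m23, m31, m32, m33⟩ := cor_data hc e1 e2
  have n12 : mid e1 x y1 ≠ mid e2 x y2 := fun hh => m11.ne' (hh ▸ m12)
  have n13 : mid e1 x y1 ≠ mid true x y3 := fun hh => m11.ne' (hh ▸ m13)
  have n23 : mid e2 x y2 ≠ mid true x y3 := fun hh => m22.ne' (hh ▸ m23)
  have hnot : ∀ {F : Finset W}, F ∈ Fac N → ∀ (e : Bool) {y : W}, y ∈ N → y ≠ x → e = true →
      mid e x y ∉ F := by
    intro F hF e y hy hyx he hh
    subst he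
    exact mid_notMem h hx hy hyx.symm (fac_sub hF hh)
  have hin : ∀ {F : Finset W} (e : Bool) {y : W}, y ∈ F → y ≠ x → e = false →
      mid e x y ∈ F ∧ mid e x y ≠ x := by
    intro F e y hy hyx he
    subst he
    rw [mid_false]
    exact ⟨hy, hyx⟩
  refine ⟨?_, ?_, ?_, ?_⟩
  · rw [Finset.card_insert_of_notMem, Finset.card_insert_of_notMem, Finset.card_singleton]
    · rw [Finset.mem_singleton]; exact n23
    · rw [Finset.mem_insert, Finset.mem_singleton]
      rintro (hh | hh)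
      · exact n12 hh
      · exact n13 hh
  · have := cf_card hc.x1 n23 (e := e2) (e' := true) (hin e2 hc.b1 d2) (hnot hc.m1 e2 h2 d2)
      (hin true hc.c1 d3) (hnot hc.m1 true h3 d3)
    rw [Bool.toNat_true] at this
    omega
  · have := cf_card hc.x2 n13 (e := e1) (e' := true) (hin e1 hc.a2 d1) (hnot hc.m2 e1 h1 d1)
      (hin true hc.c2 d3) (hnot hc.m2 true h3 d3)
    rw [Bool.toNat_true] at this
    omega
  · exact cf_card hc.x3 n12 (hin e1 hc.a3 d1) (hnot hc.m3 e1 h1 d1) (hin e2 hc.b3 d2)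
      (hnot hc.m3 e2 h2 d2)

open Classical in
theorem cut_ne (h : Full N) {p : W →ₗ[ℝ] ℝ} (hp : ∀ w ∈ N, p w = 1) {F1 F2 F3 : Finset W}
    {x y1 y2 y3 : W} (hc : Cor N F1 F2 F3 x y1 y2 y3) (e1 e2 : Bool)
    (hcard : e1 = true ∨ e2 = true ∨ 4 ≤ F3.card) :
    ({mid e1 x y1, mid e2 x y2, mid true x y3} : Finset W) ≠ cf x F1 (mid e2 x y2) (mid true x y3) ∧
      ({mid e1 x y1, mid e2 x y2, mid true x y3} : Finset W) ≠
        cf x F2 (mid e1 x y1) (mid true x y3) ∧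
      ({mid e1 x y1, mid e2 x y2, mid true x y3} : Finset W) ≠ cf x F3 (mid e1 x y1) (mid e2 x y2) ∧
      cf x F1 (mid e2 x y2) (mid true x y3) ≠ cf x F2 (mid e1 x y1) (mid true x y3) ∧
      cf x F1 (mid e2 x y2) (mid true x y3) ≠ cf x F3 (mid e1 x y1) (mid e2 x y2) ∧
      cf x F2 (mid e1 x y1) (mid true x y3) ≠ cf x F3 (mid e1 x y1) (mid e2 x y2) ∧
      ∀ F ∈ Fac N, x ∉ F → F ≠ {mid e1 x y1, mid e2 x y2, mid true x y3} ∧
        F ≠ cf x F1 (mid e2 x y2) (mid true x y3) ∧ F ≠ cf x F2 (mid e1 x y1) (mid true x y3) ∧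
        F ≠ cf x F3 (mid e1 x y1) (mid e2 x y2) := by
  obtain ⟨hx, h1, h2, h3, d1, d2, d3, d12, d13, d23, f1, f2, f3, g1, g2, g3, x1, x2, x3, a1, b1,
    c1, a2, b2, c2, a3, b3, c3, m11, m12, m13, m21, m22, m23, m31, m32, m33⟩ := cor_data hc e1 e2
  have k1 := cut_fun1 hc e1 e2 g1
  have k2 := cut_fun2 hc e1 e2 g2
  have k3 := cut_fun3 hc e1 e2 g3
  have hm3 : mid true x y3 ∉ N := mid_notMem h hx h3 d3.symm
  refine ⟨?_, ?_, ?_, ?_, ?_, ?_, ?_⟩
  · intro hh
    have : mid e1 x y1 ∈ cf x F1 (mid e2 x y2) (mid true x y3) := by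
      rw [← hh]; simp
    exact m11.ne' (fun_zero k1 this)
  · intro hh
    have : mid e2 x y2 ∈ cf x F2 (mid e1 x y1) (mid true x y3) := by
      rw [← hh]; simp
    exact m22.ne' (fun_zero k2 this)
  · intro hh
    have : mid true x y3 ∈ cf x F3 (mid e1 x y1) (mid e2 x y2) := by
      rw [← hh]; simp
    exact m33.ne' (fun_zero k3 this)
  · intro hh
    have : y1 ∈ cf x F1 (mid e2 x y2) (mid true x y3) := by
      rw [hh]; exact mem_cf.2 (Or.inl ⟨hc.a2, d1⟩)
    exact a1.ne' (fun_zero k1 this)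
  · intro hh
    have : y1 ∈ cf x F1 (mid e2 x y2) (mid true x y3) := by
      rw [hh]; exact mem_cf.2 (Or.inl ⟨hc.a3, d1⟩)
    exact a1.ne' (fun_zero k1 this)
  · intro hh
    have : y2 ∈ cf x F2 (mid e1 x y1) (mid true x y3) := by
      rw [hh]; exact mem_cf.2 (Or.inl ⟨hc.b3, d2⟩)
    exact b2.ne' (fun_zero k2 this)
  · intro F hF hxF
    refine ⟨?_, ?_, ?_, ?_⟩
    · rintro rfl
      exact hm3 (fac_sub hF (by simp))
    · rintro rfl
      exact hm3 (fac_sub hF (mem_cf.2 (Or.inr (Or.inr rfl))))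
    · rintro rfl
      exact hm3 (fac_sub hF (mem_cf.2 (Or.inr (Or.inr rfl))))
    · rintro rfl
      cases e1 with
      | true =>
        exact mid_notMem h hx h1 d1.symm (fac_sub hF (mem_cf.2 (Or.inr (Or.inl rfl))))
      | false =>
        cases e2 with
        | true =>
          exact mid_notMem h hx h2 d2.symm (fac_sub hF (mem_cf.2 (Or.inr (Or.inr rfl))))
        | false =>
          have h4 : 4 ≤ F3.card := by
            rcases hcard with h | h | h
            · exact absurd h (by decide)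
            · exact absurd h (by decide)
            · exact h
          obtain ⟨v, hv, v0, v1, v2⟩ := exists_fourth h4 x y1 y2
          have hE := fac_eq h hF hc.m3
            (li3' h.poly h1 h2 (fac_sub hc.m3 hv) d12 v1.symm v2.symm)
            (mem_cf.2 (Or.inl ⟨hc.a3, d1⟩)) (mem_cf.2 (Or.inl ⟨hc.b3, d2⟩))
            (mem_cf.2 (Or.inl ⟨hv, v0⟩)) hc.a3 hc.b3 hv
          exact hxF (by rw [hE]; exact hc.x3)

end Pool.Agent.P3F
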