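import Pool.Agent.P3F.CorA

/-!
# Cutting off a vertex of degree three (MP_a5fcbe_co, module CutN)

`mid e x y` is the midpoint of `x` and `y` if `e = true`, and `y` if `e = false`.  `cutN`: the vertex `x` is cut off by the
plane through `m1 = mid e1 x y1`, `m2 = mid e2 x y2`, `m3 = mid true x y3`.

`cut_fun`: let `κi = 1` if `ei = true`, `0` otherwise (`κ3 = 1`), and let `g` be the functional with `g x = -1`,
`g yi = κi` (`cor_li`: a basis).  `g mi = 0`.  For `v ∈ N`, `v ≠ x`, `v = ξ x + ∑ ai yi` (`cor_coord`):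
`g v = - ξ + ∑ ai κi ≥ 0`, and if it is `0` then `ξ = 0`, `v = yi` for some `i`, and `κi = g yi = 0`, so `v = yi = mi`.

`mid_notMem`: `(x + y) / 2`, `x ≠ y` in `N`, is not in `N`: `li3` (three different elements) or the functional of the
third point.

`cut_full`: `Poly (cutN ...) ⊥`: (a) `v ∈ N`, `v ≠ x`: let `f` be its functional; `f > 0` on the rest of `N`; at a
midpoint `(x + yi) / 2` it is `(f x + f yi) / 2 > 0` (also if `yi = v`, as `f x > 0`).  (b) the midpoint `mi` (`ei = true`), say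
`i = 1`: the functional `f2 + f3 + g` (`f2, f3` of the facets `F2, F3`, `g` of `cut_fun`): it vanishes at `m1`; it is `≥ 0` on `cutN`, and if
it is zero at `w ∈ cutN`: `g w = 0`, so `w = mj` for some `j`, and `f2 m2 > 0`, `f3 m3 > 0` (`f2 y2 > 0`, ...), so `w = m1`.
The positive functional is `p`.  Span: `x = 2 m3 - y3`, `y3 ∈ cutN`, so the span of `cutN` contains `N`.
`cut_one`: `p (mid e x y) = 1`.
-/

set_option autoImplicit false

namespace Pool.Agent.P3F

open Pool.Agent.LPG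

variable {W : Type*} [AddCommGroup W] [Module ℝ W] {N : Finset W}

/-- The midpoint of `x` and `y` if `e = true`, and `y` otherwise. -/
noncomputable def mid (e : Bool) (x y : W) : W := if e = true then (2 : ℝ)⁻¹ • (x + y) else y

open Classical in
/-- The set of the vertices after cutting off the vertex `x`. -/
noncomputable def cutN (N : Finset W) (x y1 y2 y3 : W) (e1 e2 : Bool) : Finset W :=
  N.erase x ∪ {mid e1 x y1, mid e2 x y2, mid true x y3}

private theorem ex_fun (hd : Module.finrank ℝ W = 4) {x y1 y2 y3 : W}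
    (hli : LinearIndependent ℝ ![x, y1, y2, y3]) (a b c d : ℝ) :
    ∃ g : W →ₗ[ℝ] ℝ, g x = a ∧ g y1 = b ∧ g y2 = c ∧ g y3 = d := by
  have hcard : Fintype.card (Fin 4) = Module.finrank ℝ W := by
    rw [hd]
    rfl
  let B := basisOfLinearIndependentOfCardEqFinrank hli hcard
  have hB : ∀ i, B i = ![x, y1, y2, y3] i := fun i => by
    simp [B]
  have h1 : ∀ i, B.constr ℝ ![a, b, c, d] (![x, y1, y2, y3] i) = ![a, b, c, d] i := by
    intro i
    rw [← hB i, Module.Basis.constr_basis]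
  exact ⟨B.constr ℝ ![a, b, c, d], h1 0, h1 1, h1 2, h1 3⟩

private theorem mid_val (f : W →ₗ[ℝ] ℝ) (x y : W) : f (mid true x y) = (f x + f y) / 2 := by
  simp only [mid, if_true, map_smul, map_add, smul_eq_mul]
  ring

private theorem mid_false (x y : W) : mid false x y = y := by
  simp [mid]

private theorem mem_cutN {x y1 y2 y3 : W} {e1 e2 : Bool} {w : W} :
    w ∈ cutN N x y1 y2 y3 e1 e2 ↔
      (w ≠ x ∧ w ∈ N) ∨ w = mid e1 x y1 ∨ w = mid e2 x y2 ∨ w = mid true x y3 := by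
  classical
  unfold cutN
  rw [Finset.mem_union, Finset.mem_erase, Finset.mem_insert, Finset.mem_insert,
    Finset.mem_singleton]

private theorem mid_nonneg {f : W →ₗ[ℝ] ℝ} {x y : W} (hx : 0 ≤ f x) (hy : 0 ≤ f y) (e : Bool) :
    0 ≤ f (mid e x y) := by
  cases e
  · rw [mid_false]
    exact hy
  · rw [mid_val]
    linarith

private theorem mid_pos {f : W →ₗ[ℝ] ℝ} {x y : W} (hx : 0 ≤ f x) (hy : 0 < f y) (e : Bool) :
    0 < f (mid e x y) := by
  cases e
  · rw [mid_false]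
    exact hy
  · rw [mid_val]
    linarith

private theorem cutN_nonneg {x y1 y2 y3 : W} {e1 e2 : Bool} (hx : x ∈ N) (h1 : y1 ∈ N)
    (h2 : y2 ∈ N) (h3 : y3 ∈ N) {f : W →ₗ[ℝ] ℝ} (hf : ∀ w ∈ N, 0 ≤ f w) :
    ∀ w ∈ cutN N x y1 y2 y3 e1 e2, 0 ≤ f w := by
  intro w hw
  rcases mem_cutN.1 hw with hw | rfl | rfl | rfl
  · exact hf w hw.2
  · exact mid_nonneg (hf x hx) (hf _ h1) _
  · exact mid_nonneg (hf x hx) (hf _ h2) _
  · exact mid_nonneg (hf x hx) (hf _ h3) _

theorem cut_fun (h : Full N) {p : W →ₗ[ℝ] ℝ} (hp : ∀ w ∈ N, p w = 1) {F1 F2 F3 : Finset W}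
    {x y1 y2 y3 : W} (hc : Cor N F1 F2 F3 x y1 y2 y3) (e1 e2 : Bool) :
    ∃ g : W →ₗ[ℝ] ℝ, g x < 0 ∧ (∀ w ∈ cutN N x y1 y2 y3 e1 e2, 0 ≤ g w) ∧
      ∀ w ∈ cutN N x y1 y2 y3 e1 e2,
        (g w = 0 ↔ w = mid e1 x y1 ∨ w = mid e2 x y2 ∨ w = mid true x y3) := by
  obtain ⟨g, gx, g1, g2, g3⟩ := ex_fun h.dim (cor_li h hc) (-1) (if e1 = true then 1 else 0)
    (if e2 = true then 1 else 0) 1
  have key : ∀ (e : Bool) (y : W), g y = (if e = true then 1 else 0) → g (mid e x y) = 0 := by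
    intro e y hy
    cases e
    · rw [mid_false, hy]
      simp
    · rw [mid_val, hy, gx]
      simp
  have k1 := key e1 y1 g1
  have k2 := key e2 y2 g2
  have k3 := key true y3 (by rw [g3]; simp)
  have nn1 : (0 : ℝ) ≤ (if e1 = true then 1 else 0) := by
    split_ifs <;> norm_num
  have nn2 : (0 : ℝ) ≤ (if e2 = true then 1 else 0) := by
    split_ifs <;> norm_num
  have main : ∀ w, w ≠ x → w ∈ N → 0 ≤ g w ∧
      (g w = 0 → w = mid e1 x y1 ∨ w = mid e2 x y2 ∨ w = mid true x y3) := by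
    intro w hwx hwN
    obtain ⟨ξ, a1, a2, a3, hw, hsum, ha1, ha2, ha3, -, -, -, hξ, hξ0⟩ := cor_coord h hp hc hwN
    have hgw : g w = -ξ + a1 * (if e1 = true then 1 else 0) + a2 * (if e2 = true then 1 else 0)
        + a3 := by
      conv_lhs => rw [hw]
      rw [map_add, map_add, map_add, map_smul, map_smul, map_smul, map_smul, gx, g1, g2, g3,
        smul_eq_mul, smul_eq_mul, smul_eq_mul, smul_eq_mul]
      ring
    have hξ' := hξ hwx
    have t1 := mul_nonneg ha1 nn1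
    have t2 := mul_nonneg ha2 nn2
    refine ⟨by rw [hgw]; linarith, fun hz => ?_⟩
    have hξz : ξ = 0 := by
      rw [hgw] at hz
      linarith
    rcases hξ0 hwx hξz with rfl | rfl | rfl
    · left
      rw [g1] at hz
      cases e1
      · rw [mid_false]
      · simp at hz
    · right
      left
      rw [g2] at hz
      cases e2
      · rw [mid_false]
      · simp at hz
    · rw [g3] at hz
      norm_num at hz
  refine ⟨g, by rw [gx]; norm_num, fun w hw => ?_, fun w hw => ⟨fun hz => ?_, fun hz => ?_⟩⟩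
  · rcases mem_cutN.1 hw with hw | rfl | rfl | rfl
    · exact (main w hw.1 hw.2).1
    · exact k1.ge
    · exact k2.ge
    · exact k3.ge
  · rcases mem_cutN.1 hw with hw | hw
    · exact (main w hw.1 hw.2).2 hz
    · exact hw
  · rcases hz with rfl | rfl | rfl
    · exact k1
    · exact k2
    · exact k3

theorem mid_notMem (h : Full N) {x y : W} (hx : x ∈ N) (hy : y ∈ N) (hxy : x ≠ y) :
    mid true x y ∉ N := by
  intro hm
  obtain ⟨f, -, fm, hf⟩ := h.poly.1 _ hm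
  rw [mid_val] at fm
  have hnn : ∀ w ∈ N, 0 ≤ f w := by
    intro w hw
    by_cases hwm : w = mid true x y
    · rw [hwm, mid_val, fm]
    · exact (hf w hw hwm).le
  have hxm : x ≠ mid true x y := by
    intro he
    apply hxy
    have h2 : (2 : ℝ) • x = x + y := by
      conv_lhs => rw [he]
      simp only [mid, if_true]
      rw [smul_smul]
      norm_num
    rw [two_smul] at h2
    exact add_left_cancel h2
  have h1 := hf x hx hxm
  have h2 := hnn y hy
  linarith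

theorem cut_one {p : W →ₗ[ℝ] ℝ} (hp : ∀ w ∈ N, p w = 1) {x y1 y2 y3 : W} (hx : x ∈ N)
    (h1 : y1 ∈ N) (h2 : y2 ∈ N) (h3 : y3 ∈ N) (e1 e2 : Bool) :
    ∀ w ∈ cutN N x y1 y2 y3 e1 e2, p w = 1 := by
  have key : ∀ (e : Bool) (y : W), y ∈ N → p (mid e x y) = 1 := by
    intro e y hy
    cases e
    · rw [mid_false]
      exact hp y hy
    · rw [mid_val, hp x hx, hp y hy]
      norm_num
  intro w hw
  rcases mem_cutN.1 hw with hw | rfl | rfl | rfl
  · exact hp w hw.2
  · exact key _ _ h1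
  · exact key _ _ h2
  · exact key _ _ h3

private theorem cor_val {F1 F2 F3 : Finset W} {x y1 y2 y3 : W} (hc : Cor N F1 F2 F3 x y1 y2 y3) :
    ∃ f : W →ₗ[ℝ] ℝ, (∀ w ∈ N, 0 ≤ f w) ∧ f x = 0 ∧ 0 < f y1 ∧ f y2 = 0 ∧ f y3 = 0 := by
  obtain ⟨⟨f, hf⟩, -⟩ := mem_fac.1 hc.m1
  have hy1 : y1 ∈ N := fac_sub hc.m2 hc.a2
  refine ⟨f, hf.1, ((hf.2 x).1 hc.x1).2, ?_, ((hf.2 y2).1 hc.b1).2, ((hf.2 y3).1 hc.c1).2⟩
  rcases (hf.1 y1 hy1).lt_or_eq with h1 | h1
  · exact h1
  · exact absurd ((hf.2 y1).2 ⟨hy1, h1.symm⟩) hc.a1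

theorem cut_full (h : Full N) {p : W →ₗ[ℝ] ℝ} (hp : ∀ w ∈ N, p w = 1) {F1 F2 F3 : Finset W}
    {x y1 y2 y3 : W} (hc : Cor N F1 F2 F3 x y1 y2 y3) (e1 e2 : Bool) :
    Full (cutN N x y1 y2 y3 e1 e2) := by
  classical
  have hx : x ∈ N := fac_sub hc.m1 hc.x1
  have hy1 : y1 ∈ N := fac_sub hc.m2 hc.a2
  have hy2 : y2 ∈ N := fac_sub hc.m1 hc.b1
  have hy3 : y3 ∈ N := fac_sub hc.m1 hc.c1
  have hy1x : y1 ≠ x := fun he => hc.a1 (he ▸ hc.x1)
  have hy2x : y2 ≠ x := fun he => hc.b2 (he ▸ hc.x2)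
  have hy3x : y3 ≠ x := fun he => hc.c3 (he ▸ hc.x3)
  obtain ⟨f1, f1n, f1x, f11, f12, f13⟩ := cor_val hc
  obtain ⟨f2, f2n, f2x, f22, f23, f21⟩ := cor_val hc.rot
  obtain ⟨f3, f3n, f3x, f33, f31, f32⟩ := cor_val hc.rot.rot
  obtain ⟨g, -, gn, gz⟩ := cut_fun h hp hc e1 e2
  have f1n' := cutN_nonneg (e1 := e1) (e2 := e2) hx hy1 hy2 hy3 f1n
  have f2n' := cutN_nonneg (e1 := e1) (e2 := e2) hx hy1 hy2 hy3 f2n
  have f3n' := cutN_nonneg (e1 := e1) (e2 := e2) hx hy1 hy2 hy3 f3n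
  have hm1 : mid e1 x y1 ∈ cutN N x y1 y2 y3 e1 e2 := mem_cutN.2 (Or.inr (Or.inl rfl))
  have hm2 : mid e2 x y2 ∈ cutN N x y1 y2 y3 e1 e2 := mem_cutN.2 (Or.inr (Or.inr (Or.inl rfl)))
  have hm3 : mid true x y3 ∈ cutN N x y1 y2 y3 e1 e2 := mem_cutN.2 (Or.inr (Or.inr (Or.inr rfl)))
  -- vertices of `N`
  have keyA : ∀ v, v ≠ x → v ∈ N → ∃ f : W →ₗ[ℝ] ℝ, (∀ z ∈ (⊥ : Submodule ℝ W), f z = 0) ∧
      f v = 0 ∧ ∀ w ∈ cutN N x y1 y2 y3 e1 e2, w ≠ v → 0 < f w := by
    intro v hvx hvN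
    obtain ⟨f, fb, fv, hf⟩ := h.poly.1 v hvN
    have fx : 0 < f x := hf x hx hvx.symm
    have fn : ∀ w ∈ N, 0 ≤ f w := by
      intro w hw
      by_cases hwv : w = v
      · rw [hwv, fv]
      · exact (hf w hw hwv).le
    have fm : ∀ (e : Bool) (y : W), y ∈ N → mid e x y ≠ v → 0 < f (mid e x y) := by
      intro e y hy hne
      cases e
      · rw [mid_false] at hne ⊢
        exact hf y hy hne
      · rw [mid_val]
        have := fn y hy
        linarith
    refine ⟨f, fb, fv, fun w hw hwv => ?_⟩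
    rcases mem_cutN.1 hw with hw | rfl | rfl | rfl
    · exact hf w hw.2 hwv
    · exact fm _ _ hy1 hwv
    · exact fm _ _ hy2 hwv
    · exact fm _ _ hy3 hwv
  -- midpoints
  have keyB : ∀ (a b : W →ₗ[ℝ] ℝ) (v m m' : W),
      (∀ w ∈ cutN N x y1 y2 y3 e1 e2, 0 ≤ a w) → (∀ w ∈ cutN N x y1 y2 y3 e1 e2, 0 ≤ b w) →
      v ∈ cutN N x y1 y2 y3 e1 e2 →
      (∀ w ∈ cutN N x y1 y2 y3 e1 e2, g w = 0 ↔ w = v ∨ w = m ∨ w = m') →
      a v = 0 → b v = 0 → 0 < a m → 0 < b m' →
      ∃ f : W →ₗ[ℝ] ℝ, (∀ z ∈ (⊥ : Submodule ℝ W), f z = 0) ∧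
      f v = 0 ∧ ∀ w ∈ cutN N x y1 y2 y3 e1 e2, w ≠ v → 0 < f w := by
    intro a b v m m' an bn hv hg av bv am bm
    refine ⟨a + b + g, fun z hz => ?_, ?_, fun w hw hwv => ?_⟩
    · rw [(Submodule.mem_bot ℝ).1 hz, map_zero]
    · rw [LinearMap.add_apply, LinearMap.add_apply, av, bv, (hg v hv).2 (Or.inl rfl)]
      norm_num
    · rw [LinearMap.add_apply, LinearMap.add_apply]
      have h1 := an w hw
      have h2 := bn w hw
      have h3 := gn w hw
      rcases h3.lt_or_eq with h4 | h4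
      · linarith
      · rcases (hg w hw).1 h4.symm with h5 | h5 | h5
        · exact absurd h5 hwv
        · rw [h5] at h1 h2 h3 ⊢
          linarith
        · rw [h5] at h1 h2 h3 ⊢
          linarith
  refine ⟨⟨fun v hv => ?_, ?_⟩, h.dim, ?_⟩
  · rcases mem_cutN.1 hv with hv' | rfl | rfl | rfl
    · exact keyA v hv'.1 hv'.2
    · cases e1
      · exact keyA _ (by rw [mid_false]; exact hy1x) (by rw [mid_false]; exact hy1)
      · refine keyB f2 f3 _ (mid e2 x y2) (mid true x y3) f2n' f3n' hm1 gz ?_ ?_ ?_ ?_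
        · rw [mid_val, f2x, f21]
          norm_num
        · rw [mid_val, f3x, f31]
          norm_num
        · exact mid_pos f2x.ge f22 _
        · exact mid_pos f3x.ge f33 _
    · cases e2
      · exact keyA _ (by rw [mid_false]; exact hy2x) (by rw [mid_false]; exact hy2)
      · refine keyB f1 f3 _ (mid e1 x y1) (mid true x y3) f1n' f3n' hm2 ?_ ?_ ?_ ?_ ?_
        · intro w hw
          rw [gz w hw]
          tauto
        · rw [mid_val, f1x, f12]
          norm_num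
        · rw [mid_val, f3x, f32]
          norm_num
        · exact mid_pos f1x.ge f11 _
        · exact mid_pos f3x.ge f33 _
    · refine keyB f1 f2 _ (mid e1 x y1) (mid e2 x y2) f1n' f2n' hm3 ?_ ?_ ?_ ?_ ?_
      · intro w hw
        rw [gz w hw]
        tauto
      · rw [mid_val, f1x, f13]
        norm_num
      · rw [mid_val, f2x, f23]
        norm_num
      · exact mid_pos f1x.ge f11 _
      · exact mid_pos f2x.ge f22 _
  · refine ⟨p, fun z hz => ?_, fun w hw => ?_⟩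
    · rw [(Submodule.mem_bot ℝ).1 hz, map_zero]
    · rw [cut_one hp hx hy1 hy2 hy3 e1 e2 w hw]
      norm_num
  · rw [eq_top_iff, ← h.span, Submodule.span_le]
    intro w hw
    have hw : w ∈ N := hw
    by_cases hwx : w = x
    · have hx2 : w = (2 : ℝ) • mid true x y3 - y3 := by
        rw [hwx]
        simp only [mid, if_true]
        rw [smul_smul]
        norm_num
      have hmem : (2 : ℝ) • mid true x y3 - y3 ∈
          Submodule.span ℝ (cutN N x y1 y2 y3 e1 e2 : Set W) := by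
        refine Submodule.sub_mem _ (Submodule.smul_mem _ _ (Submodule.subset_span ?_))
          (Submodule.subset_span ?_)
        · exact Finset.mem_coe.2 hm3
        · exact Finset.mem_coe.2 (mem_cutN.2 (Or.inl ⟨hy3x, hy3⟩))
      rw [hx2]
      exact hmem
    · exact Submodule.subset_span (Finset.mem_coe.2 (mem_cutN.2 (Or.inl ⟨hwx, hw⟩)))

end Pool.Agent.P3F
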