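import Pool.Agent.LPG.Conn
import Pool.Agent.LPG.Branch
import Pool.Agent.LPG.KL

/-!
# Facets of 3-polytopes in homogeneous coordinates: definitions (MP_a5fcbe_co)

`Full N`: the finite set `N` of vectors of a four-dimensional space `W` is the vertex set of a
3-polytope in homogeneous coordinates (`LPG.Poly N ⊥`, and `N` spans `W`).
`Fac N`: the facets, as sets of vertices.  `dg N s`: the degree of the vertex `s`.
-/

set_option autoImplicit false

namespace Pool.Agent.P3F

open Pool.Agent.LPG

variable {W : Type*} [AddCommGroup W] [Module ℝ W]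

/-- `N` is the vertex set of a 3-polytope, in homogeneous coordinates. -/
structure Full (N : Finset W) : Prop where
  poly : Poly N ⊥
  dim : Module.finrank ℝ W = 4
  span : Submodule.span ℝ (N : Set W) = ⊤

/-- `f` is a functional of the facet (or face) `F`. -/
def FunOf (N F : Finset W) (f : W →ₗ[ℝ] ℝ) : Prop :=
  (∀ w ∈ N, 0 ≤ f w) ∧ ∀ w, w ∈ F ↔ w ∈ N ∧ f w = 0

/-- `F` is the set of the vertices of a facet. -/
def IsFac (N F : Finset W) : Prop :=
  (∃ f : W →ₗ[ℝ] ℝ, FunOf N F f) ∧ Module.finrank ℝ (Submodule.span ℝ (F : Set W)) = 3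

open Classical in
/-- The facets. -/
noncomputable def Fac (N : Finset W) : Finset (Finset W) := N.powerset.filter fun F => IsFac N F

/-- The degree of a vertex in the graph of the polytope. -/
noncomputable def dg (N : Finset W) (s : W) : ℕ := (nb N ⊥ s).card

theorem mem_fac {N F : Finset W} : F ∈ Fac N ↔ IsFac N F := by
  classical
  unfold Fac
  rw [Finset.mem_filter, Finset.mem_powerset]
  refine ⟨fun h => h.2, fun h => ⟨fun w hw => ?_, h⟩⟩
  obtain ⟨⟨f, hf⟩, -⟩ := h
  exact ((hf.2 w).1 hw).1

theorem fac_sub {N F : Finset W} (h : F ∈ Fac N) : F ⊆ N := by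
  obtain ⟨⟨f, hf⟩, -⟩ := mem_fac.1 h
  exact fun w hw => ((hf.2 w).1 hw).1

end Pool.Agent.P3F
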