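import Pool.Agent.P3F.Comp

/-!
# The inequality for degrees (MP_a5fcbe_co, module DegIneq)

`even_deg`: `∑ dg = prs (Adj N ⊥) N` (`prs_eq_sum`; `nb N ⊥ s = N.filter (Adj N ⊥ s)`), `even_pairs`.

`deg_ineq`: let `R = N \ S`, `b = S.card`, `m` the number of adjacent pairs in `S × R`.  By `prs_union`-like
counting, `∑ s ∈ S, dg N s = prs (Adj N ⊥) S + m` and `∑ s ∈ R, dg N s = prs (Adj N ⊥) R + m`.
`inner_edges`: `prs S ≤ 6 b - 12`.  `cover` and `cnt_cover`: `2 |R| ≤ prs R + 2 c`, `c ≤ 2 b - 4`.  So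
`∑ S dg ≤ 6 b - 12 + ∑ R dg - 2 |R| + 2 (2 b - 4) = 10 b - 20 + ∑ R (dg - 2)`.
-/

set_option autoImplicit false

namespace Pool.Agent.P3F

open Pool.Agent.LPG

variable {W : Type*} [AddCommGroup W] [Module ℝ W] {N : Finset W}

theorem adj_irr (N : Finset W) (a : W) : ¬ Adj N ⊥ a a := fun h => h.2.2.1 rfl

theorem even_deg (N : Finset W) : Even (∑ s ∈ N, dg N s) := by
  have h1 : ∑ s ∈ N, dg N s = prs (Adj N ⊥) N := by
    rw [prs_eq_sum]
    rfl
  rw [h1]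
  exact even_pairs (Adj N ⊥) (fun a b h => adj_symm h) (adj_irr N) N

open Classical in
theorem sum_split (N : Finset W) {S : Finset W} (hS : S ⊆ N) :
    ∑ s ∈ S, dg N s = prs (Adj N ⊥) S +
      ∑ s ∈ S, ((N \ S).filter fun y => Adj N ⊥ s y).card := by
  rw [prs_eq_sum, ← Finset.sum_add_distrib]
  refine Finset.sum_congr rfl fun s _ => ?_
  have h1 : dg N s = (N.filter fun y => Adj N ⊥ s y).card := rfl
  rw [h1, ← Finset.card_union_of_disjoint]
  · congr 1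
    ext y
    simp only [Finset.mem_filter, Finset.mem_union, Finset.mem_sdiff]
    constructor
    · rintro ⟨hy, ha⟩
      by_cases hyS : y ∈ S
      · exact Or.inl ⟨hyS, ha⟩
      · exact Or.inr ⟨⟨hy, hyS⟩, ha⟩
    · rintro (⟨hy, ha⟩ | ⟨⟨hy, -⟩, ha⟩)
      · exact ⟨hS hy, ha⟩
      · exact ⟨hy, ha⟩
  · rw [Finset.disjoint_left]
    intro y hy hy2
    exact (Finset.mem_sdiff.1 (Finset.mem_filter.1 hy2).1).2 (Finset.mem_filter.1 hy).1

open Classical in
theorem sum_cross (N A B : Finset W) :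
    ∑ s ∈ A, (B.filter fun y => Adj N ⊥ s y).card =
      ∑ s ∈ B, (A.filter fun y => Adj N ⊥ s y).card := by
  simp only [Finset.card_filter]
  rw [Finset.sum_comm]
  refine Finset.sum_congr rfl fun s _ => Finset.sum_congr rfl fun t _ => ?_
  have : Adj N ⊥ t s ↔ Adj N ⊥ s t := ⟨fun h => adj_symm h, fun h => adj_symm h⟩
  simp only [this]

open Classical in
theorem deg_ineq (h : Full N) {S : Finset W} (hS : S ⊆ N) (h3 : 3 ≤ S.card) :
    ∑ s ∈ S, ((dg N s : ℤ) - 10) + ∑ s ∈ N \ S, (2 - (dg N s : ℤ)) ≤ -20 := by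
  have e1 := sum_split N hS
  have e2 := sum_split N (Finset.sdiff_subset (s := N) (t := S))
  have e3 : N \ (N \ S) = S := by
    rw [Finset.sdiff_sdiff_eq_self hS]
  rw [e3] at e2
  have e4 := sum_cross N S (N \ S)
  have e5 := inner_edges h hS h3
  obtain ⟨c, K, hc, hK, hcov, hconn⟩ := cover h hS h3
  have e6 := cnt_cover (Adj N ⊥) (fun a b h => adj_symm h) (adj_irr N) (N \ S) K hcov hK hconn
  rw [Finset.sum_sub_distrib, Finset.sum_sub_distrib]
  simp only [Finset.sum_const, nsmul_eq_mul]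
  have f1 : ((∑ s ∈ S, dg N s : ℕ) : ℤ) = ∑ s ∈ S, (dg N s : ℤ) := by push_cast; rfl
  have f2 : ((∑ s ∈ N \ S, dg N s : ℕ) : ℤ) = ∑ s ∈ N \ S, (dg N s : ℤ) := by push_cast; rfl
  rw [← f1, ← f2]
  omega

end Pool.Agent.P3F
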