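import Pool.Agent.P3F.FacV
import Pool.Agent.P3F.Sep

/-!
# The polar polytope (MP_a5fcbe_co, module Dual)

`Full N`.  For every facet `F` choose a functional `φ F` (`FunOf N F (φ F)`); `D = (Fac N).image φ`, a finite subset of
`Module.Dual ℝ W = (W →ₗ[ℝ] ℝ)`.  Every functional on `Module.Dual ℝ W` is the evaluation at a vector `x` of `W`
(`W` is finite dimensional: `Module.evalEquiv`).  Claims:

(0) `φ` is injective on `Fac N`: `F = {w ∈ N | φ F w = 0}`.
(1) `Poly D ⊥`: the element `φ F` is exposed by the evaluation at `∑ v ∈ F, v`: it is zero at `φ F`; for `F' ≠ F`,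
`∑ v ∈ F, φ F' v > 0`, otherwise `φ F'` vanishes on `F`, and `F' = F` by `fac_li` and `fac_eq`.  The evaluation at `∑ v ∈ N, v` is
positive on `D` (`fun_ne_zero`: `N` spans, so `φ F v ≠ 0` for some `v`).
(2) `finrank (Module.Dual ℝ W) = 4` (`Subspace.dual_finrank_eq`).
(3) `D` spans: otherwise there is a nonzero functional on the dual which vanishes on `D`, i.e. `x ≠ 0` in `W` with
`φ F x = 0` for all `F`.  By `mem_cone` (and `fun_pos_prop`) `x` and `- x` are combinations of `N` with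
coefficients `≥ 0`; adding, `0 = ∑ (c v + c' v) v`, and the positive functional `p` of `Poly N ⊥` gives
`c v + c' v = 0` for all `v ∈ N`, so `x = 0`.
So `Full D`.
(4) For `v ∈ N` let `G v = {φ F | F ∈ Fac N, v ∈ F}`.  `G v` is a facet of `D`: its functional is the evaluation at
`v`; its span is the annihilator of `v`, of dimension `3`: if a vector `x` of `W` has `φ F x = 0` for all `F ∋ v`, then
`x ∈ ℝ v`: for `M` large `φ F (x + M v) ≥ 0` and `φ F (- x + M v) ≥ 0` for all `F` (for `F ∌ v`, `φ F v > 0`), so both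
`± x + M v` are in the cone of `N` (`mem_cone`); apply the functional `f` of `v` (`f v = 0`, positive on the rest
of `N`): `f x ≥ 0` and `- f x ≥ 0`, so `f x = 0`, and in `x + M v = ∑ c w • w` all `c w` with `w ≠ v` vanish.
So the space of the vectors annihilated by `span (G v)` has dimension `1`, and `finrank (span (G v)) = 3`
(`Subspace.finrank_add_finrank_dualCoannihilator_eq` or similar).
(5) Every facet `G` of `D` is some `G v`: its functional is the evaluation at `x`, `φ F x ≥ 0` for all `F`, so `x` is in the cone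
of `N` (`mem_cone`), `x = ∑ c w • w`, and `x ≠ 0` (`fun_ne_zero`), so some `c w > 0`; if `φ F x = 0` then `φ F w = 0`: `G ⊆ G w`.
`G` contains three independent vectors (`fac_li`), so `G = G w` (`fac_eq`).
(6) `G` is injective on `N`: if `G v = G w`, then `w ∈ ℝ v` by (4), so `v = w` (`LPG.two`).
(7) By `deg_fac` for `D`, `dg D (φ F)` is the number of the facets of `D` which contain `φ F`, that is the number of the
`v ∈ N` with `φ F ∈ G v`, i.e. `v ∈ F`: it is `F.card`.
-/

set_option autoImplicit false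

namespace Pool.Agent.P3F

open Pool.Agent.LPG

variable {W : Type*} [AddCommGroup W] [Module ℝ W] {N : Finset W}

private theorem du_pos (h : Full N) {F : Finset W} (hF : F ∈ Fac N) {f : W →ₗ[ℝ] ℝ}
    (hf : FunOf N F f) : 0 < f (∑ v ∈ N, v) := by
  rw [map_sum]
  have h0 : 0 ≤ ∑ v ∈ N, f v := Finset.sum_nonneg fun v hv => hf.1 v hv
  refine lt_of_le_of_ne h0 (fun he => ?_)
  have h1 := (Finset.sum_eq_zero_iff_of_nonneg fun v hv => hf.1 v hv).1 he.symm
  apply fun_ne_zero h hF hf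
  have h2 : Submodule.span ℝ (N : Set W) ≤ LinearMap.ker f := by
    rw [Submodule.span_le]
    intro x hx
    exact h1 x hx
  rw [h.span, top_le_iff] at h2
  exact LinearMap.ker_eq_top.1 h2

private theorem du_sub (h : Full N) {F F' : Finset W} (hF : F ∈ Fac N) (hF' : F' ∈ Fac N)
    (hs : F ⊆ F') : F = F' := by
  obtain ⟨u, hu, v, hv, w, hw, hli⟩ := fac_li hF
  exact fac_eq h hF hF' hli hu hv hw (hs hu) (hs hv) (hs hw)

private theorem du_pos' (h : Full N) {F F' : Finset W} (hF : F ∈ Fac N) (hF' : F' ∈ Fac N)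
    {f : W →ₗ[ℝ] ℝ} (hf : FunOf N F' f) (hne : F' ≠ F) : 0 < f (∑ v ∈ F, v) := by
  rw [map_sum]
  have hn : ∀ v ∈ F, 0 ≤ f v := fun v hv => hf.1 v (fac_sub hF hv)
  refine lt_of_le_of_ne (Finset.sum_nonneg hn) (fun he => ?_)
  have h1 := (Finset.sum_eq_zero_iff_of_nonneg hn).1 he.symm
  apply hne
  exact (du_sub h hF hF' fun v hv => (hf.2 v).2 ⟨fac_sub hF hv, h1 v hv⟩).symm

private theorem du_zero {F : Finset W} {f : W →ₗ[ℝ] ℝ} (hf : FunOf N F f) :
    f (∑ v ∈ F, v) = 0 := by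
  rw [map_sum]
  exact Finset.sum_eq_zero fun v hv => ((hf.2 v).1 hv).2

/-- The cone criterion for a fixed choice of the functionals. -/
private theorem du_cone (h : Full N) {φ : Finset W → Module.Dual ℝ W}
    (hφ : ∀ F ∈ Fac N, FunOf N F (φ F)) {x : W} (hx : ∀ F ∈ Fac N, 0 ≤ φ F x) :
    ∃ c : W → ℝ, (∀ v ∈ N, 0 ≤ c v) ∧ x = ∑ v ∈ N, c v • v := by
  apply mem_cone h
  intro F hF g hg
  obtain ⟨c, hc, hgc⟩ := fun_pos_prop h hF (hφ F hF) hg
  rw [hgc, LinearMap.smul_apply, smul_eq_mul]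
  exact mul_nonneg hc.le (hx F hF)

private theorem du_span (h : Full N) {φ : Finset W → Module.Dual ℝ W}
    (hφ : ∀ F ∈ Fac N, FunOf N F (φ F)) {x : W} (hx : ∀ F ∈ Fac N, φ F x = 0) : x = 0 := by
  obtain ⟨c, hc, hcx⟩ := du_cone h hφ (x := x) (fun F hF => (hx F hF).ge)
  obtain ⟨c', hc', hcx'⟩ := du_cone h hφ (x := -x)
    (fun F hF => by rw [map_neg, hx F hF, neg_zero])
  obtain ⟨-, p, -, hp⟩ := h.poly
  have h1 : ∑ v ∈ N, (c v + c' v) * p v = 0 := by
    have h2 : p (∑ v ∈ N, c v • v + ∑ v ∈ N, c' v • v) = 0 := by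
      rw [← hcx, ← hcx', add_neg_cancel, map_zero]
    rw [map_add, map_sum, map_sum, ← Finset.sum_add_distrib] at h2
    rw [← h2]
    refine Finset.sum_congr rfl fun v _ => ?_
    rw [map_smul, map_smul, smul_eq_mul, smul_eq_mul]
    ring
  have h2 := (Finset.sum_eq_zero_iff_of_nonneg fun v hv =>
    mul_nonneg (add_nonneg (hc v hv) (hc' v hv)) (hp v hv).le).1 h1
  rw [hcx]
  refine Finset.sum_eq_zero fun v hv => ?_
  have h3 := h2 v hv
  rcases mul_eq_zero.1 h3 with h4 | h4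
  · have h5 := hc v hv
    have h6 := hc' v hv
    have h7 : c v = 0 := by linarith
    rw [h7, zero_smul]
  · exact absurd h4 (hp v hv).ne'

/-- The vectors annihilated by the functionals of the facets at `v`. -/
private theorem du_line (h : Full N) {φ : Finset W → Module.Dual ℝ W}
    (hφ : ∀ F ∈ Fac N, FunOf N F (φ F)) {v : W} (hv : v ∈ N) {x : W}
    (hx : ∀ F ∈ Fac N, v ∈ F → φ F x = 0) : ∃ c : ℝ, x = c • v := by
  classical
  set M : ℝ := ∑ F ∈ Fac N, |φ F x| / |φ F v| with hM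
  have key : ∀ y : W, (∀ F ∈ Fac N, |φ F y| = |φ F x|) → ∀ F ∈ Fac N, 0 ≤ φ F (y + M • v) := by
    intro y hy F hF
    rw [map_add, map_smul, smul_eq_mul]
    have hφv : 0 ≤ φ F v := (hφ F hF).1 v hv
    rcases hφv.eq_or_lt with h0 | h0
    · have hvF : v ∈ F := ((hφ F hF).2 v).2 ⟨hv, h0.symm⟩
      have h1 := hy F hF
      rw [hx F hF hvF, abs_zero, abs_eq_zero] at h1
      rw [h1, ← h0, mul_zero, add_zero]
    · have h1 : |φ F x| / |φ F v| ≤ M := by
        rw [hM]
        exact Finset.single_le_sum (f := fun F => |φ F x| / |φ F v|)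
          (fun F _ => div_nonneg (abs_nonneg _) (abs_nonneg _)) hF
      rw [abs_of_pos h0, div_le_iff₀ h0] at h1
      have h2 := neg_abs_le (φ F y)
      rw [hy F hF] at h2
      linarith
  obtain ⟨f, -, hfv, hfp⟩ := h.poly.1 v hv
  have hfn : ∀ w ∈ N, 0 ≤ f w := by
    intro w hw
    by_cases hwv : w = v
    · rw [hwv, hfv]
    · exact (hfp w hw hwv).le
  obtain ⟨c, hc, hcx⟩ := du_cone h hφ (key x fun _ _ => rfl)
  obtain ⟨c', hc', hcx'⟩ := du_cone h hφ (key (-x) fun F _ => by rw [map_neg, abs_neg])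
  have e1 : f x = ∑ w ∈ N, c w * f w := by
    have h1 := congrArg f hcx
    rw [map_add, map_smul, hfv, smul_zero, add_zero, map_sum] at h1
    rw [h1]
    exact Finset.sum_congr rfl fun w _ => by rw [map_smul, smul_eq_mul]
  have e2 : -f x = ∑ w ∈ N, c' w * f w := by
    have h1 := congrArg f hcx'
    rw [map_add, map_smul, hfv, smul_zero, add_zero, map_neg, map_sum] at h1
    rw [h1]
    exact Finset.sum_congr rfl fun w _ => by rw [map_smul, smul_eq_mul]
  have n1 : 0 ≤ f x := by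
    rw [e1]
    exact Finset.sum_nonneg fun w hw => mul_nonneg (hc w hw) (hfn w hw)
  have n2 : 0 ≤ -f x := by
    rw [e2]
    exact Finset.sum_nonneg fun w hw => mul_nonneg (hc' w hw) (hfn w hw)
  have n3 : f x = 0 := by linarith
  rw [n3] at e1
  have h4 := (Finset.sum_eq_zero_iff_of_nonneg fun w hw =>
    mul_nonneg (hc w hw) (hfn w hw)).1 e1.symm
  have h5 : ∑ w ∈ N, c w • w = c v • v := by
    refine Finset.sum_eq_single_of_mem v hv fun w hw hwv => ?_
    rcases mul_eq_zero.1 (h4 w hw) with h6 | h6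
    · rw [h6, zero_smul]
    · exact absurd h6 (hfp w hw hwv).ne'
  refine ⟨c v - M, ?_⟩
  rw [h5] at hcx
  rw [sub_smul, ← hcx]
  abel

private theorem du_inj {φ : Finset W → Module.Dual ℝ W}
    (hφ : ∀ F ∈ Fac N, FunOf N F (φ F)) {F F' : Finset W} (hF : F ∈ Fac N) (hF' : F' ∈ Fac N)
    (he : φ F = φ F') : F = F' := by
  ext w
  rw [(hφ F hF).2 w, (hφ F' hF').2 w, he]

open Classical in
/-- The dual facet of the vertex `v`. -/
private noncomputable def duG (N : Finset W) (φ : Finset W → Module.Dual ℝ W) (v : W) :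
    Finset (Module.Dual ℝ W) := ((Fac N).filter fun F => v ∈ F).image φ

open Classical in
private theorem mem_duG {φ : Finset W → Module.Dual ℝ W} {v : W} {d : Module.Dual ℝ W} :
    d ∈ duG N φ v ↔ ∃ F ∈ Fac N, v ∈ F ∧ φ F = d := by
  unfold duG
  rw [Finset.mem_image]
  constructor
  · rintro ⟨F, hF, hd⟩
    rw [Finset.mem_filter] at hF
    exact ⟨F, hF.1, hF.2, hd⟩
  · rintro ⟨F, hF, hv, hd⟩
    exact ⟨F, Finset.mem_filter.2 ⟨hF, hv⟩, hd⟩

private theorem phi_mem_duG {φ : Finset W → Module.Dual ℝ W}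
    (hφ : ∀ F ∈ Fac N, FunOf N F (φ F)) {v : W} {F : Finset W} (hF : F ∈ Fac N) :
    φ F ∈ duG N φ v ↔ v ∈ F := by
  rw [mem_duG]
  constructor
  · rintro ⟨F', hF', hv, he⟩
    rw [← du_inj hφ hF' hF he]
    exact hv
  · intro hv
    exact ⟨F, hF, hv, rfl⟩

open Classical in
private theorem du_full (h : Full N) {φ : Finset W → Module.Dual ℝ W}
    (hφ : ∀ F ∈ Fac N, FunOf N F (φ F)) : Full ((Fac N).image φ) := by
  have : FiniteDimensional ℝ W := Module.finite_of_finrank_pos (by rw [h.dim]; omega)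
  refine ⟨⟨?_, ?_⟩, ?_, ?_⟩
  · intro d hd
    obtain ⟨F, hF, rfl⟩ := Finset.mem_image.1 hd
    refine ⟨Module.Dual.eval ℝ W (∑ v ∈ F, v), ?_, ?_, ?_⟩
    · intro z hz
      rw [(Submodule.mem_bot ℝ).1 hz, map_zero]
    · rw [Module.Dual.eval_apply]
      exact du_zero (hφ F hF)
    · intro w hw hne
      obtain ⟨F', hF', rfl⟩ := Finset.mem_image.1 hw
      rw [Module.Dual.eval_apply]
      exact du_pos' h hF hF' (hφ F' hF') fun he => hne (by rw [he])
  · refine ⟨Module.Dual.eval ℝ W (∑ v ∈ N, v), ?_, ?_⟩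
    · intro z hz
      rw [(Submodule.mem_bot ℝ).1 hz, map_zero]
    · intro w hw
      obtain ⟨F, hF, rfl⟩ := Finset.mem_image.1 hw
      rw [Module.Dual.eval_apply]
      exact du_pos h hF (hφ F hF)
  · rw [Subspace.dual_finrank_eq]
    exact h.dim
  · by_contra hne
    obtain ⟨f, hf0, hf⟩ := Submodule.exists_le_ker_of_lt_top _ (lt_top_iff_ne_top.2 hne)
    apply hf0
    have hx : (Module.evalEquiv ℝ W).symm f = 0 := by
      apply du_span h hφ
      intro F hF
      rw [Module.apply_evalEquiv_symm_apply]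
      exact LinearMap.mem_ker.1 (hf (Submodule.subset_span (Finset.mem_coe.2
        (Finset.mem_image_of_mem φ hF))))
    exact (LinearEquiv.map_eq_zero_iff _).1 hx

open Classical in
private theorem du_fac (h : Full N) {φ : Finset W → Module.Dual ℝ W}
    (hφ : ∀ F ∈ Fac N, FunOf N F (φ F)) {v : W} (hv : v ∈ N) :
    duG N φ v ∈ Fac ((Fac N).image φ) := by
  have : FiniteDimensional ℝ W := Module.finite_of_finrank_pos (by rw [h.dim]; omega)
  rw [mem_fac]
  refine ⟨⟨Module.Dual.eval ℝ W v, ?_, ?_⟩, ?_⟩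
  · intro w hw
    obtain ⟨F, hF, rfl⟩ := Finset.mem_image.1 hw
    rw [Module.Dual.eval_apply]
    exact (hφ F hF).1 v hv
  · intro w
    rw [Module.Dual.eval_apply]
    constructor
    · intro hw
      obtain ⟨F, hF, hvF, rfl⟩ := mem_duG.1 hw
      exact ⟨Finset.mem_image_of_mem φ hF, (((hφ F hF).2 v).1 hvF).2⟩
    · rintro ⟨hw, h0⟩
      obtain ⟨F, hF, rfl⟩ := Finset.mem_image.1 hw
      exact mem_duG.2 ⟨F, hF, ((hφ F hF).2 v).2 ⟨hv, h0⟩, rfl⟩
  · have h1 := Subspace.finrank_add_finrank_dualCoannihilator_eq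
      (Submodule.span ℝ (duG N φ v : Set (Module.Dual ℝ W)))
    have h2 : (Submodule.span ℝ (duG N φ v : Set (Module.Dual ℝ W))).dualCoannihilator =
        Submodule.span ℝ {v} := by
      ext x
      rw [Submodule.mem_dualCoannihilator, Submodule.mem_span_singleton]
      constructor
      · intro hx
        obtain ⟨c, hc⟩ := du_line h hφ hv (x := x) fun F hF hvF =>
          hx (φ F) (Submodule.subset_span (Finset.mem_coe.2 (mem_duG.2 ⟨F, hF, hvF, rfl⟩)))
        exact ⟨c, hc.symm⟩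
      · rintro ⟨c, rfl⟩ f hf
        have h3 : Submodule.span ℝ (duG N φ v : Set (Module.Dual ℝ W)) ≤
            LinearMap.ker (Module.Dual.eval ℝ W (c • v)) := by
          rw [Submodule.span_le]
          intro d hd
          obtain ⟨F, hF, hvF, rfl⟩ := mem_duG.1 (Finset.mem_coe.1 hd)
          rw [SetLike.mem_coe, LinearMap.mem_ker, Module.Dual.eval_apply, map_smul,
            (((hφ F hF).2 v).1 hvF).2, smul_zero]
        exact LinearMap.mem_ker.1 (h3 hf)
    have hv0 : v ≠ 0 := by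
      intro h0
      apply not_mem h.poly hv
      rw [h0]
      exact Submodule.zero_mem _
    rw [h2, finrank_span_singleton hv0, h.dim] at h1
    omega

open Classical in
private theorem du_surj (h : Full N) {φ : Finset W → Module.Dual ℝ W}
    (hφ : ∀ F ∈ Fac N, FunOf N F (φ F)) {G : Finset (Module.Dual ℝ W)}
    (hG : G ∈ Fac ((Fac N).image φ)) : ∃ v ∈ N, G = duG N φ v := by
  have : FiniteDimensional ℝ W := Module.finite_of_finrank_pos (by rw [h.dim]; omega)
  have hD := du_full h hφ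
  obtain ⟨⟨f, hf⟩, -⟩ := mem_fac.1 hG
  have hf0 := fun_ne_zero hD hG hf
  set x := (Module.evalEquiv ℝ W).symm f with hx
  have hfx : ∀ g : Module.Dual ℝ W, f g = g x := by
    intro g
    rw [hx, Module.apply_evalEquiv_symm_apply]
  have hx0 : x ≠ 0 := by
    intro h0
    apply hf0
    exact (LinearEquiv.map_eq_zero_iff _).1 h0
  obtain ⟨c, hc, hcx⟩ := du_cone h hφ (x := x) fun F hF => by
    rw [← hfx]
    exact hf.1 _ (Finset.mem_image_of_mem φ hF)
  obtain ⟨w, hw, hcw⟩ : ∃ w ∈ N, c w ≠ 0 := by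
    by_contra hno
    push Not at hno
    apply hx0
    rw [hcx]
    exact Finset.sum_eq_zero fun v hv => by rw [hno v hv, zero_smul]
  refine ⟨w, hw, du_sub hD hG (du_fac h hφ hw) ?_⟩
  intro d hd
  obtain ⟨hdD, hd0⟩ := (hf.2 d).1 hd
  obtain ⟨F, hF, rfl⟩ := Finset.mem_image.1 hdD
  rw [hfx, hcx, map_sum] at hd0
  have h1 : ∀ v ∈ N, 0 ≤ φ F (c v • v) := by
    intro v hv
    rw [map_smul, smul_eq_mul]
    exact mul_nonneg (hc v hv) ((hφ F hF).1 v hv)
  have h2 := (Finset.sum_eq_zero_iff_of_nonneg h1).1 hd0 w hw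
  rw [map_smul, smul_eq_mul] at h2
  have h3 : φ F w = 0 := (mul_eq_zero.1 h2).resolve_left hcw
  exact (phi_mem_duG hφ hF).2 (((hφ F hF).2 w).2 ⟨hw, h3⟩)

private theorem du_ginj (h : Full N) {φ : Finset W → Module.Dual ℝ W}
    (hφ : ∀ F ∈ Fac N, FunOf N F (φ F)) {v w : W} (hv : v ∈ N) (hw : w ∈ N)
    (he : duG N φ v = duG N φ w) : v = w := by
  by_contra hne
  obtain ⟨c, hc⟩ := du_line h hφ hv (x := w) fun F hF hvF => by
    have h1 : φ F ∈ duG N φ w := by
      rw [← he]
      exact (phi_mem_duG hφ hF).2 hvF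
    exact (((hφ F hF).2 w).1 ((phi_mem_duG hφ hF).1 h1)).2
  apply two h.poly hv hw (Ne.symm hne)
  rw [mem_ad]
  exact ⟨c, by rw [hc, sub_self]; exact Submodule.zero_mem _⟩

open Classical in
theorem exists_dual (h : Full N) : ∃ φ : Finset W → Module.Dual ℝ W,
    Set.InjOn φ (Fac N : Set (Finset W)) ∧ Full ((Fac N).image φ) ∧
      ∀ F ∈ Fac N, dg ((Fac N).image φ) (φ F) = F.card := by
  have h0 : ∀ F : Finset W, ∃ f : Module.Dual ℝ W, F ∈ Fac N → FunOf N F f := by
    intro F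
    by_cases hF : F ∈ Fac N
    · obtain ⟨⟨f, hf⟩, -⟩ := mem_fac.1 hF
      exact ⟨f, fun _ => hf⟩
    · exact ⟨0, fun h1 => absurd h1 hF⟩
  choose φ hφ' using h0
  have hφ : ∀ F ∈ Fac N, FunOf N F (φ F) := fun F hF => hφ' F hF
  have hD := du_full h hφ
  refine ⟨φ, fun F hF F' hF' he => du_inj hφ hF hF' he, hD, ?_⟩
  intro F hF
  rw [← deg_fac hD (Finset.mem_image_of_mem φ hF)]
  symm
  refine Finset.card_bij (fun v _ => duG N φ v) ?_ ?_ ?_
  · intro v hv
    rw [Finset.mem_filter]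
    exact ⟨du_fac h hφ (fac_sub hF hv), (phi_mem_duG hφ hF).2 hv⟩
  · intro v hv w hw he
    exact du_ginj h hφ (fac_sub hF hv) (fac_sub hF hw) he
  · intro G hG
    obtain ⟨hG1, hG2⟩ := Finset.mem_filter.1 hG
    obtain ⟨v, hv, rfl⟩ := du_surj h hφ hG1
    exact ⟨v, (phi_mem_duG hφ hF).1 hG2, rfl⟩

end Pool.Agent.P3F
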