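import Pool.Agent.P3F.FacV

/-!
# The theorem of Euler for 3-polytopes (MP_a5fcbe_co, module Euler)

`exists_generic`: `p` is the positive functional of `Poly N ⊥`.  For `u ≠ v` in `N` the vector
`x u v = p v • u - p u • v` is not zero (`li3`-like: `u, v` are independent: `LPG.two`), and a functional `g`
which does not vanish on finitely many given nonzero vectors exists (a finite union of proper
subspaces of the dual space is not everything: `Subspace.biUnion_ne_univ_of_top_notMem` or by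
induction; `W` is finite dimensional).  `g (x u v) = p v * g u - g v * p u`.

`hgt p g s` is the functional `p s • g - g s • p`: `hgt s s = 0`, `hgt s u = - hgt u s`; `0 < hgt s u` means
that `g u / p u > g s / p s` (as `p > 0` on `N`): `u` is higher than `s`.

`sum_card_fac`: double counting of the pairs `s ∈ F` and `deg_fac`.

`low`: `F` a facet.  There is exactly one `s ∈ F` with `0 < hgt s u` for all `u ∈ F`, `u ≠ s` (the minimum of
`g / p` on `F`, `Finset.exists_min_image`, and `hgt s u ≠ 0`); and for `s ∈ F` this condition is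
equivalent to: `0 < hgt s u` for all `u ∈ F` which are neighbours of `s` (`pair_of_fac`:
`u = α a + β b` modulo `ad ⊥ s`, so `hgt s u = α hgt s a + β hgt s b ≥ 0`, and it is not zero).  So
`(Fac N).card = ∑ s ∈ N, (number of F ∋ s with the second condition)`.

`low_count`: by `count_fac` twice this number is `prs (VAdj N ⊥ s) U`, `U = {u ∈ nb | 0 < hgt s u}`.  It is
`2 |U|` if `U = nb N ⊥ s` (`all_pairs`) or `U = ∅`, and `2 |U| - 2` otherwise (`sign_pairs` for the
polygon `(nb N ⊥ s, ad ⊥ s)` and the functional `hgt s`, which vanishes on `ad ⊥ s`).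
`U = nb N ⊥ s` only for the lowest vertex of `N`, and `U = ∅` only for the highest one: if some
`v ∈ N` is lower than `s` then some neighbour is (`pos_nb` for `- hgt s`), and the same for higher;
lowest and highest vertex are different (`2 ≤ N.card`).
So `2 * (Fac N).card = ∑ s, 2 |U s| - 2 (|N| - 2)`, and `2 * ∑ s, |U s| = ∑ s, dg N s` (the pairs `(s, u)` with `u` a
higher neighbour of `s` correspond to the pairs with `u` a lower neighbour; `Adj` is symmetric).

`edges_le`, `facs_le`: `3 * (Fac N).card ≤ ∑ F.card = ∑ dg` (`three_le_card`) and `euler` (`omega`/`linarith`).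
-/

set_option autoImplicit false

namespace Pool.Agent.P3F

open Pool.Agent.LPG

variable {W : Type*} [AddCommGroup W] [Module ℝ W] {N : Finset W}

/-- A functional which does not vanish at finitely many nonzero vectors. -/
theorem exists_nonvanishing [FiniteDimensional ℝ W] (X : Finset W) (hX : ∀ x ∈ X, x ≠ 0) :
    ∃ g : W →ₗ[ℝ] ℝ, ∀ x ∈ X, g x ≠ 0 := by
  obtain ⟨g, hg⟩ := Module.exists_dual_forall_apply_ne_zero (K := ℝ) (fun x : X => (x : W))
    (fun x => hX x.1 x.2)
  exact ⟨g, fun x hx => hg ⟨x, hx⟩⟩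

theorem exists_generic (h : Full N) : ∃ p g : W →ₗ[ℝ] ℝ, (∀ w ∈ N, 0 < p w) ∧
    ∀ u ∈ N, ∀ v ∈ N, u ≠ v → p v * g u - g v * p u ≠ 0 := by
  classical
  haveI : FiniteDimensional ℝ W := FiniteDimensional.of_finrank_pos (by rw [h.dim]; norm_num)
  obtain ⟨p, -, hp⟩ := h.poly.2
  obtain ⟨g, hg⟩ := exists_nonvanishing
    (((N ×ˢ N).filter fun q => q.1 ≠ q.2).image fun q => p q.2 • q.1 - p q.1 • q.2) (by
      intro x hx
      obtain ⟨⟨u, v⟩, hq, rfl⟩ := Finset.mem_image.1 hx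
      rw [Finset.mem_filter, Finset.mem_product] at hq
      obtain ⟨⟨hu, hv⟩, huv⟩ := hq
      simp only at hu hv huv ⊢
      intro h0
      refine two h.poly hv hu huv ?_
      rw [mem_ad]
      refine ⟨(p v)⁻¹ * p u, ?_⟩
      rw [Submodule.mem_bot]
      have h1 : (p v)⁻¹ • (p v • u - p u • v) = u - ((p v)⁻¹ * p u) • v := by
        rw [smul_sub, smul_smul, smul_smul, inv_mul_cancel₀ (hp v hv).ne', one_smul]
      rw [← h1, h0, smul_zero])
  refine ⟨p, g, hp, fun u hu v hv huv => ?_⟩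
  have h1 := hg (p v • u - p u • v) (Finset.mem_image.2 ⟨(u, v), by
    rw [Finset.mem_filter, Finset.mem_product]
    exact ⟨⟨hu, hv⟩, huv⟩, rfl⟩)
  rw [map_sub, map_smul, map_smul, smul_eq_mul, smul_eq_mul] at h1
  intro h2
  exact h1 (by linarith)

theorem sum_card_fac (h : Full N) : ∑ F ∈ Fac N, F.card = ∑ s ∈ N, dg N s := by
  classical
  have h1 : ∀ F ∈ Fac N, F.card = ∑ s ∈ N, if s ∈ F then 1 else 0 := by
    intro F hF
    rw [← Finset.card_filter]
    congr 1
    ext s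
    rw [Finset.mem_filter]
    exact ⟨fun hs => ⟨fac_sub hF hs, hs⟩, fun hs => hs.2⟩
  rw [Finset.sum_congr rfl h1, Finset.sum_comm]
  refine Finset.sum_congr rfl fun s hs => ?_
  rw [← Finset.card_filter]
  exact deg_fac h hs

/-- the height difference with respect to `g / p` -/
private noncomputable def Euler_hgt (p g : W →ₗ[ℝ] ℝ) (s : W) : W →ₗ[ℝ] ℝ := p s • g - g s • p

private theorem Euler_hgt_apply (p g : W →ₗ[ℝ] ℝ) (s u : W) :
    Euler_hgt p g s u = p s * g u - g s * p u := by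
  simp [Euler_hgt]

private theorem Euler_self (p g : W →ₗ[ℝ] ℝ) (s : W) : Euler_hgt p g s s = 0 := by
  rw [Euler_hgt_apply]
  ring

private theorem Euler_anti (p g : W →ₗ[ℝ] ℝ) (s u : W) :
    Euler_hgt p g u s = -Euler_hgt p g s u := by
  rw [Euler_hgt_apply, Euler_hgt_apply]
  ring

private theorem Euler_neg (p g : W →ₗ[ℝ] ℝ) (s u : W) :
    Euler_hgt p (-g) s u = -Euler_hgt p g s u := by
  rw [Euler_hgt_apply, Euler_hgt_apply, LinearMap.neg_apply, LinearMap.neg_apply]
  ring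

private theorem Euler_bot (p g : W →ₗ[ℝ] ℝ) (s : W) :
    ∀ z ∈ (⊥ : Submodule ℝ W), Euler_hgt p g s z = 0 := by
  intro z hz
  rw [Submodule.mem_bot] at hz
  rw [hz, map_zero]

private theorem Euler_ad (p g : W →ₗ[ℝ] ℝ) (s : W) :
    ∀ z ∈ ad (⊥ : Submodule ℝ W) s, Euler_hgt p g s z = 0 :=
  vanish_ad (Euler_bot p g s) (Euler_self p g s)

/-- the pair of functionals is generic -/
private def Euler_Gn (N : Finset W) (p g : W →ₗ[ℝ] ℝ) : Prop :=
  (∀ w ∈ N, 0 < p w) ∧ ∀ u ∈ N, ∀ v ∈ N, u ≠ v → Euler_hgt p g u v ≠ 0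

private theorem Euler_Gn_neg {p g : W →ₗ[ℝ] ℝ} (hG : Euler_Gn N p g) : Euler_Gn N p (-g) :=
  ⟨hG.1, fun u hu v hv huv h0 => by
    rw [Euler_neg, neg_eq_zero] at h0
    exact hG.2 u hu v hv huv h0⟩

/-- a nonempty set has a lowest vertex -/
private theorem Euler_min {p g : W →ₗ[ℝ] ℝ} (hG : Euler_Gn N p g) {F : Finset W} (hF : F ⊆ N)
    (hne : F.Nonempty) : ∃ s ∈ F, ∀ u ∈ F, u ≠ s → 0 < Euler_hgt p g s u := by
  obtain ⟨s, hs, hmin⟩ := Finset.exists_min_image F (fun w => g w / p w) hne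
  refine ⟨s, hs, fun u hu hus => ?_⟩
  have h1 := hmin u hu
  rw [div_le_div_iff₀ (hG.1 s (hF hs)) (hG.1 u (hF hu))] at h1
  have h2 : 0 ≤ Euler_hgt p g s u := by
    rw [Euler_hgt_apply]
    linarith
  exact lt_of_le_of_ne h2 (hG.2 s (hF hs) u (hF hu) hus.symm).symm

open Classical in
private theorem Euler_low (h : Full N) {p g : W →ₗ[ℝ] ℝ} (hG : Euler_Gn N p g) {F : Finset W}
    (hF : F ∈ Fac N) :
    (N.filter fun s => s ∈ F ∧ ∀ u ∈ F, u ∈ nb N ⊥ s → 0 < Euler_hgt p g s u).card = 1 := by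
  have hFN := fac_sub hF
  have hne : F.Nonempty := Finset.card_pos.1 (by
    have := three_le_card hF
    omega)
  obtain ⟨s, hs, hsm⟩ := Euler_min hG hFN hne
  rw [Finset.card_eq_one]
  refine ⟨s, ?_⟩
  ext t
  rw [Finset.mem_filter, Finset.mem_singleton]
  constructor
  · rintro ⟨htN, htF, ht⟩
    by_contra hts
    obtain ⟨a, b, hab, ha, hb, -, hgen⟩ := pair_of_fac h hF htF
    obtain ⟨α, β, hα, hβ, hm⟩ := hgen s hs (Ne.symm hts)
    have h1 := Euler_ad p g t _ hm
    rw [map_sub, map_add, map_smul, map_smul, smul_eq_mul, smul_eq_mul] at h1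
    have h2 := ht a ha hab.1
    have h3 := ht b hb hab.2.1
    have h4 := hsm t htF hts
    rw [Euler_anti] at h4
    have h5 : 0 ≤ α * Euler_hgt p g t a := mul_nonneg hα h2.le
    have h6 : 0 ≤ β * Euler_hgt p g t b := mul_nonneg hβ h3.le
    linarith
  · rintro rfl
    refine ⟨hFN hs, hs, fun u hu hun => hsm u hu ?_⟩
    rintro rfl
    exact (mem_nb.1 hun).2.2.1 rfl

open Classical in
private theorem Euler_fac_sum (h : Full N) {p g : W →ₗ[ℝ] ℝ} (hG : Euler_Gn N p g) :
    2 * (Fac N).card =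
      ∑ s ∈ N, prs (VAdj N ⊥ s) ((nb N ⊥ s).filter fun u => 0 < Euler_hgt p g s u) := by
  have h1 : (Fac N).card = ∑ F ∈ Fac N,
      (N.filter fun s => s ∈ F ∧ ∀ u ∈ F, u ∈ nb N ⊥ s → 0 < Euler_hgt p g s u).card := by
    rw [Finset.sum_congr rfl fun F hF => Euler_low h hG hF]
    simp
  rw [h1, Finset.mul_sum]
  have h2 : ∀ s ∈ N, prs (VAdj N ⊥ s) ((nb N ⊥ s).filter fun u => 0 < Euler_hgt p g s u) =
      2 * ((Fac N).filter fun F => s ∈ F ∧ ∀ u ∈ F, u ∈ nb N ⊥ s → 0 < Euler_hgt p g s u).card :=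
    fun s hs => count_fac h hs _
  rw [Finset.sum_congr rfl h2, ← Finset.mul_sum, ← Finset.mul_sum]
  congr 1
  simp only [Finset.card_filter]
  rw [Finset.sum_comm]

private theorem Euler_nb_nonempty (h : Full N) {s : W} (hs : s ∈ N) : ∃ u, u ∈ nb N ⊥ s := by
  obtain ⟨u, hu, -⟩ := vf_ge h hs ∅ (by simp)
  exact ⟨u, hu⟩

open Classical in
private theorem Euler_one (h : Full N) {p g : W →ₗ[ℝ] ℝ} (hG : Euler_Gn N p g) (hN : N.Nonempty) :
    (N.filter fun s => ∀ u ∈ nb N ⊥ s, 0 < Euler_hgt p g s u).card = 1 := by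
  obtain ⟨s, hs, hsm⟩ := Euler_min hG (Finset.Subset.refl N) hN
  rw [Finset.card_eq_one]
  refine ⟨s, ?_⟩
  ext t
  rw [Finset.mem_filter, Finset.mem_singleton]
  constructor
  · rintro ⟨htN, ht⟩
    by_contra hts
    have h4 := hsm t htN hts
    rw [Euler_anti] at h4
    obtain ⟨u, hu, hu2⟩ := pos_nb h.poly htN hs (-Euler_hgt p g t)
      (fun z hz => by rw [LinearMap.neg_apply, Euler_bot p g t z hz, neg_zero])
      (by rw [LinearMap.neg_apply, Euler_self, neg_zero]) (by rw [LinearMap.neg_apply]; exact h4)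
    rw [LinearMap.neg_apply] at hu2
    have := ht u hu
    linarith
  · rintro rfl
    refine ⟨hs, fun u hu => hsm u (mem_nb.1 hu).2.1 (mem_nb.1 hu).2.2.1.symm⟩

open Classical in
private theorem Euler_local (h : Full N) {p g : W →ₗ[ℝ] ℝ} (hG : Euler_Gn N p g) {s : W}
    (hs : s ∈ N) :
    prs (VAdj N ⊥ s) ((nb N ⊥ s).filter fun u => 0 < Euler_hgt p g s u) + 2 =
      2 * ((nb N ⊥ s).filter fun u => 0 < Euler_hgt p g s u).card +
      2 * ((if ∀ u ∈ nb N ⊥ s, 0 < Euler_hgt p g s u then 1 else 0) +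
        (if ∀ u ∈ nb N ⊥ s, 0 < Euler_hgt p (-g) s u then 1 else 0)) := by
  have hne : ∀ u ∈ nb N ⊥ s, Euler_hgt p g s u ≠ 0 := fun u hu =>
    hG.2 s hs u (mem_nb.1 hu).2.1 (mem_nb.1 hu).2.2.1
  obtain ⟨u0, hu0⟩ := Euler_nb_nonempty h hs
  by_cases h1 : ∀ u ∈ nb N ⊥ s, 0 < Euler_hgt p g s u
  · have h2 : ¬ ∀ u ∈ nb N ⊥ s, 0 < Euler_hgt p (-g) s u := by
      intro h3
      have h4 := h1 u0 hu0
      have h5 := h3 u0 hu0
      rw [Euler_neg] at h5
      linarith
    rw [if_pos h1, if_neg h2]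
    have h3 : (nb N ⊥ s).filter (fun u => 0 < Euler_hgt p g s u) = nb N ⊥ s :=
      Finset.filter_true_of_mem h1
    rw [h3]
    have h4 : prs (VAdj N ⊥ s) (nb N ⊥ s) = 2 * (nb N ⊥ s).card :=
      all_pairs (poly_nb h.poly hs) (vf_dim h hs) (vf_ge h hs)
    rw [h4]
  · by_cases h2 : ∀ u ∈ nb N ⊥ s, 0 < Euler_hgt p (-g) s u
    · rw [if_neg h1, if_pos h2]
      have h3 : (nb N ⊥ s).filter (fun u => 0 < Euler_hgt p g s u) = ∅ := by
        refine Finset.filter_false_of_mem fun u hu h4 => ?_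
        have h5 := h2 u hu
        rw [Euler_neg] at h5
        linarith
      rw [h3]
      unfold prs
      simp
    · rw [if_neg h1, if_neg h2]
      push Not at h1 h2
      obtain ⟨d, hd, hd2⟩ := h1
      obtain ⟨e, he, he2⟩ := h2
      rw [Euler_neg] at he2
      have h3 := sign_pairs (poly_nb h.poly hs) (vf_dim h hs) (vf_ge h hs) (Euler_hgt p g s)
        (Euler_ad p g s) hne ⟨e, he, lt_of_le_of_ne (by linarith) (hne e he).symm⟩
        ⟨d, hd, lt_of_le_of_ne hd2 (hne d hd)⟩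
      have h4 : prs (VAdj N ⊥ s) ((nb N ⊥ s).filter fun u => 0 < Euler_hgt p g s u) + 2 =
          2 * ((nb N ⊥ s).filter fun u => 0 < Euler_hgt p g s u).card := by
        convert h3
        rfl
      rw [h4]
      omega

open Classical in
private theorem Euler_dg (h : Full N) {p g : W →ₗ[ℝ] ℝ} (hG : Euler_Gn N p g) :
    2 * ∑ s ∈ N, ((nb N ⊥ s).filter fun u => 0 < Euler_hgt p g s u).card = ∑ s ∈ N, dg N s := by
  have hne : ∀ s ∈ N, ∀ u ∈ nb N ⊥ s, Euler_hgt p g s u ≠ 0 := fun s hs u hu =>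
    hG.2 s hs u (mem_nb.1 hu).2.1 (mem_nb.1 hu).2.2.1
  have h1 : ∀ s ∈ N, ((nb N ⊥ s).filter fun u => 0 < Euler_hgt p g s u).card =
      ∑ u ∈ N, if Adj N ⊥ s u ∧ 0 < Euler_hgt p g s u then 1 else 0 := by
    intro s hs
    rw [← Finset.card_filter]
    congr 1
    ext u
    rw [Finset.mem_filter, Finset.mem_filter, mem_nb]
    exact ⟨fun hu => ⟨hu.1.2.1, hu⟩, fun hu => hu.2⟩
  have h2 : ∀ s ∈ N, ((nb N ⊥ s).filter fun u => Euler_hgt p g s u < 0).card =
      ∑ u ∈ N, if Adj N ⊥ u s ∧ 0 < Euler_hgt p g u s then 1 else 0 := by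
    intro s hs
    rw [← Finset.card_filter]
    congr 1
    ext u
    rw [Finset.mem_filter, Finset.mem_filter, mem_nb, Euler_anti p g s u]
    exact ⟨fun hu => ⟨hu.1.2.1, adj_symm hu.1, by linarith [hu.2]⟩,
      fun hu => ⟨adj_symm hu.2.1, by linarith [hu.2.2]⟩⟩
  have h3 : ∑ s ∈ N, ((nb N ⊥ s).filter fun u => Euler_hgt p g s u < 0).card =
      ∑ s ∈ N, ((nb N ⊥ s).filter fun u => 0 < Euler_hgt p g s u).card := by
    rw [Finset.sum_congr rfl h2, Finset.sum_congr rfl h1, Finset.sum_comm]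
  have h4 : ∀ s ∈ N, dg N s = ((nb N ⊥ s).filter fun u => 0 < Euler_hgt p g s u).card +
      ((nb N ⊥ s).filter fun u => Euler_hgt p g s u < 0).card := by
    intro s hs
    unfold dg
    rw [← Finset.card_filter_add_card_filter_not (s := nb N ⊥ s)
      (fun u => 0 < Euler_hgt p g s u)]
    congr 2
    refine Finset.filter_congr fun u hu => ?_
    rw [not_lt]
    exact ⟨fun h5 => lt_of_le_of_ne h5 (hne s hs u hu), fun h5 => h5.le⟩
  rw [Finset.sum_congr rfl h4, Finset.sum_add_distrib, h3]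
  ring

theorem euler (h : Full N) : 2 * (Fac N).card + 2 * N.card = ∑ s ∈ N, dg N s + 4 := by
  classical
  obtain ⟨p, g, hp, hg⟩ := exists_generic h
  have hG : Euler_Gn N p g := by
    refine ⟨hp, fun u hu v hv huv => ?_⟩
    rw [Euler_hgt_apply]
    intro h0
    exact hg u hu v hv huv (by linarith)
  have hN : N.Nonempty := by
    rw [Finset.nonempty_iff_ne_empty]
    rintro rfl
    have h1 := h.span
    have h2 := h.dim
    rw [Finset.coe_empty, Submodule.span_empty] at h1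
    haveI : Subsingleton W := by
      refine ⟨fun x y => ?_⟩
      have hx : x ∈ (⊥ : Submodule ℝ W) := by
        rw [h1]
        exact Submodule.mem_top
      have hy : y ∈ (⊥ : Submodule ℝ W) := by
        rw [h1]
        exact Submodule.mem_top
      rw [Submodule.mem_bot] at hx hy
      rw [hx, hy]
    rw [Module.finrank_zero_of_subsingleton] at h2
    exact absurd h2 (by norm_num)
  have e1 := Euler_fac_sum h hG
  have e2 := Euler_dg h hG
  have e3 := Euler_one h hG hN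
  have e4 := Euler_one h (Euler_Gn_neg hG) hN
  have e5 : ∑ s ∈ N, (prs (VAdj N ⊥ s) ((nb N ⊥ s).filter fun u => 0 < Euler_hgt p g s u) + 2) =
      ∑ s ∈ N, (2 * ((nb N ⊥ s).filter fun u => 0 < Euler_hgt p g s u).card +
      2 * ((if ∀ u ∈ nb N ⊥ s, 0 < Euler_hgt p g s u then 1 else 0) +
        (if ∀ u ∈ nb N ⊥ s, 0 < Euler_hgt p (-g) s u then 1 else 0))) :=
    Finset.sum_congr rfl fun s hs => Euler_local h hG hs
  rw [Finset.sum_add_distrib, Finset.sum_add_distrib, ← Finset.mul_sum, ← Finset.mul_sum,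
    Finset.sum_add_distrib, ← Finset.card_filter, ← Finset.card_filter, e3, e4, ← e1, e2,
    Finset.sum_const, smul_eq_mul] at e5
  omega

theorem edges_le (h : Full N) : ∑ s ∈ N, dg N s + 12 ≤ 6 * N.card := by
  have e1 := euler h
  have e2 := sum_card_fac h
  have e3 : ∑ F ∈ Fac N, 3 ≤ ∑ F ∈ Fac N, F.card := Finset.sum_le_sum fun F hF => three_le_card hF
  rw [Finset.sum_const, smul_eq_mul] at e3
  omega

theorem facs_le (h : Full N) : (Fac N).card + 4 ≤ 2 * N.card := by
  have e1 := euler h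
  have e2 := sum_card_fac h
  have e3 : ∑ F ∈ Fac N, 3 ≤ ∑ F ∈ Fac N, F.card := Finset.sum_le_sum fun F hF => three_le_card hF
  rw [Finset.sum_const, smul_eq_mul] at e3
  omega

end Pool.Agent.P3F
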