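import Pool.Agent.P3F.DegIneq
import Pool.Agent.P3F.Dual

/-!
# The inequality for facets (MP_a5fcbe_co, module FacIneq)

`exists_dual` and `deg_ineq`, `even_deg` for the dual polytope (`Finset.sum_image`, `Finset.card_image_of_injOn`;
`(Fac N).image φ \ S.image φ = (Fac N \ S).image φ`).
-/

set_option autoImplicit false

namespace Pool.Agent.P3F

open Pool.Agent.LPG

variable {W : Type*} [AddCommGroup W] [Module ℝ W] {N : Finset W}

open Classical in
theorem fac_ineq (h : Full N) {S : Finset (Finset W)} (hS : S ⊆ Fac N) (h3 : 3 ≤ S.card) :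
    ∑ F ∈ S, ((F.card : ℤ) - 10) + ∑ F ∈ Fac N \ S, (2 - (F.card : ℤ)) ≤ -20 := by
  obtain ⟨φ, hinj, hfull, hdg⟩ := exists_dual h
  have hinjS : Set.InjOn φ (S : Set (Finset W)) :=
    hinj.mono (by intro x hx; exact hS hx)
  have hinjR : Set.InjOn φ ((Fac N \ S : Finset (Finset W)) : Set (Finset W)) :=
    hinj.mono (by intro x hx; exact (Finset.mem_sdiff.1 (Finset.mem_coe.1 hx)).1)
  have hsub : S.image φ ⊆ (Fac N).image φ := Finset.image_subset_image hS
  have hcard : 3 ≤ (S.image φ).card := by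
    rw [Finset.card_image_of_injOn hinjS]
    exact h3
  have key := deg_ineq hfull hsub hcard
  have hdiff : (Fac N).image φ \ S.image φ = (Fac N \ S).image φ := by
    ext d
    rw [Finset.mem_sdiff, Finset.mem_image, Finset.mem_image, Finset.mem_image]
    constructor
    · rintro ⟨⟨F, hF, rfl⟩, hn⟩
      exact ⟨F, Finset.mem_sdiff.2 ⟨hF, fun hFS => hn ⟨F, hFS, rfl⟩⟩, rfl⟩
    · rintro ⟨F, hF, rfl⟩
      obtain ⟨hF1, hF2⟩ := Finset.mem_sdiff.1 hF
      refine ⟨⟨F, hF1, rfl⟩, ?_⟩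
      rintro ⟨F', hF', he⟩
      exact hF2 (hinj (Finset.mem_coe.2 (hS hF')) (Finset.mem_coe.2 hF1) he ▸ hF')
  rw [hdiff, Finset.sum_image hinjS, Finset.sum_image hinjR] at key
  have e1 : ∑ F ∈ S, ((dg ((Fac N).image φ) (φ F) : ℤ) - 10) = ∑ F ∈ S, ((F.card : ℤ) - 10) :=
    Finset.sum_congr rfl fun F hF => by rw [hdg F (hS hF)]
  have e2 : ∑ F ∈ Fac N \ S, (2 - (dg ((Fac N).image φ) (φ F) : ℤ)) =
      ∑ F ∈ Fac N \ S, (2 - (F.card : ℤ)) :=
    Finset.sum_congr rfl fun F hF => by rw [hdg F (Finset.mem_sdiff.1 hF).1]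
  rw [e1, e2] at key
  exact key

theorem fac_even (h : Full N) : Even (∑ F ∈ Fac N, F.card) := by
  classical
  obtain ⟨φ, hinj, hfull, hdg⟩ := exists_dual h
  have key := even_deg ((Fac N).image φ)
  rw [Finset.sum_image hinj, Finset.sum_congr rfl fun F hF => hdg F hF] at key
  exact key

end Pool.Agent.P3F
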