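import Pool.Agent.P3F.Pgn

/-!
# The facets at a vertex (MP_a5fcbe_co, module FacV)

`Full N`, `s ∈ N`.  The vertex figure is the polygon `Poly (nb N ⊥ s) (ad ⊥ s)`.

`vf_dim`: `dim W / ad ⊥ s = 3` (`ad ⊥ s = span {s}`, `s ≠ 0` by `not_mem`; `Submodule.finrank_quotient_add_finrank`).
`vf_ge`: `DimGe N ⊥ 4` (fewer than 4 vectors do not span) and `dim_nb`.

`pair_of_fac`: let `F` be a facet with functional `f`, `s ∈ F`, `Z = {u ∈ nb N ⊥ s | f u = 0}`.  For `v ∈ F`,
`v ≠ s`, `gen` gives `v - ∑ c u • u ∈ ad ⊥ s` with `c u ≥ 0`; applying `f` (`vanish_ad`): `∑ c u * f u = 0`, so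
`c u = 0` for `u ∉ Z`.  So `span F ≤ span (insert s Z)`, hence `3 ≤ 1 + Z.card`.  Three different elements
`a, b, c` of `Z` would give four independent vectors `s, a, b, c` (`li4`) in `ker f`: contradiction to
`rank_le_of_ker` (`f ≠ 0` by `fun_ne_zero`).  So `Z = {a, b}`; `VAdj N ⊥ s a b` by the functional `f`
(it vanishes on `ad ⊥ s`, is `≥ 0` on `N` and not zero at the other neighbours).

`fac_of_pair`: `br_face` gives `f ≥ 0` on `N` with `f s = 0`, and `f a = f b = 0` (`br_left`, `br_right`); `s, a, b`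
are independent (`li3'`).  `f ≠ 0`: a neighbour or another element of `N` is not in the kernel: if
`f = 0` on `N` then `br_face` says that all `v ∈ N` are in the span of `s, a, b`, but `N` spans.
So `fac_of_fun` gives the facet; uniqueness by `fac_eq`.

`count_fac`: the map which sends an ordered pair `(a, b)` with `VAdj N ⊥ s a b`, `P a`, `P b` to the facet
of `fac_of_pair` has all fibres of two elements over the facets `F ∋ s` all of whose
neighbours `u` of `s` satisfy `P u` (`Finset.card_eq_sum_card_fiberwise`): by `pair_of_fac` the fibre over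
`F` is `{(a, b), (b, a)}`, `a ≠ b`.

`deg_fac`: `count_fac` for `P = True` and `all_pairs`: the number of the facets which contain `s` is the
number of the neighbours of `s`.
-/

set_option autoImplicit false

namespace Pool.Agent.P3F

open Pool.Agent.LPG

variable {W : Type*} [AddCommGroup W] [Module ℝ W] {N : Finset W}

private theorem fvFin (h : Full N) : Module.Finite ℝ W := by
  apply Module.finite_of_finrank_pos
  rw [h.dim]
  norm_num

private theorem fvNe (h : Full N) {s : W} (hs : s ∈ N) : s ≠ 0 := by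
  intro h0
  apply not_mem h.poly hs
  rw [h0]
  exact Submodule.zero_mem _

private theorem fvAd (s : W) : ad (⊥ : Submodule ℝ W) s = Submodule.span ℝ {s} := by
  unfold ad
  exact bot_sup_eq _

theorem vf_dim (h : Full N) {s : W} (hs : s ∈ N) :
    Module.finrank ℝ (W ⧸ ad (⊥ : Submodule ℝ W) s) = 3 := by
  have hfin := fvFin h
  have h1 := Submodule.finrank_quotient_add_finrank (ad (⊥ : Submodule ℝ W) s)
  have h2 : Module.finrank ℝ (ad (⊥ : Submodule ℝ W) s) = 1 := by
    rw [fvAd]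
    exact finrank_span_singleton (fvNe h hs)
  rw [h2, h.dim] at h1
  omega

private theorem fvSpan (h : Full N) {C : Finset W} (hC : C.card < 4) :
    ¬ ∀ v ∈ N, v ∈ Submodule.span ℝ (C : Set W) := by
  intro hcon
  have hfin := fvFin h
  have h1 : (⊤ : Submodule ℝ W) ≤ Submodule.span ℝ (C : Set W) := by
    rw [← h.span, Submodule.span_le]
    intro v hv
    exact hcon v hv
  have h2 : Submodule.span ℝ (C : Set W) = ⊤ := le_antisymm le_top h1
  have h3 := finrank_span_finset_le_card (R := ℝ) C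
  have h4 : Set.finrank ℝ (C : Set W) = 4 := by
    unfold Set.finrank
    rw [h2, finrank_top, h.dim]
  omega

theorem vf_ge (h : Full N) {s : W} (hs : s ∈ N) : DimGe (nb N ⊥ s) (ad ⊥ s) 3 := by
  apply dim_nb h.poly hs
  intro C hC
  by_contra hcon
  push Not at hcon
  apply fvSpan h hC
  intro v hv
  have := hcon v hv
  rwa [bot_sup_eq] at this

theorem pair_of_fac (h : Full N) {F : Finset W} (hF : F ∈ Fac N) {s : W} (hs : s ∈ F) :
    ∃ a b, VAdj N ⊥ s a b ∧ a ∈ F ∧ b ∈ F ∧ (∀ u ∈ nb N ⊥ s, u ∈ F → u = a ∨ u = b) ∧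
      ∀ v ∈ F, v ≠ s → ∃ α β : ℝ, 0 ≤ α ∧ 0 ≤ β ∧ v - (α • a + β • b) ∈ ad (⊥ : Submodule ℝ W) s := by
  classical
  have hfin := fvFin h
  obtain ⟨⟨f, hf⟩, hrk⟩ := mem_fac.1 hF
  have hsN : s ∈ N := ((hf.2 s).1 hs).1
  have hfs : f s = 0 := ((hf.2 s).1 hs).2
  have hKf : ∀ z ∈ (⊥ : Submodule ℝ W), f z = 0 := by
    intro z hz
    rw [(Submodule.mem_bot ℝ).1 hz, map_zero]
  have hadf := vanish_ad hKf hfs
  have hnbN : ∀ u ∈ nb N ⊥ s, u ∈ N := fun u hu => (mem_nb.1 hu).2.1
  set Z := (nb N ⊥ s).filter (fun u => f u = 0) with hZ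
  have hZm : ∀ u, u ∈ Z ↔ u ∈ nb N ⊥ s ∧ f u = 0 := by
    intro u
    rw [hZ, Finset.mem_filter]
  -- representation of the elements of `F`
  have key : ∀ v ∈ F, v ≠ s → ∃ c : W → ℝ, (∀ u ∈ nb N ⊥ s, 0 ≤ c u) ∧
      v - ∑ u ∈ Z, c u • u ∈ ad (⊥ : Submodule ℝ W) s := by
    intro v hv hvs
    obtain ⟨hvN, hfv⟩ := (hf.2 v).1 hv
    obtain ⟨c, hc, hcv⟩ := gen h.poly hsN hvN hvs
    refine ⟨c, hc, ?_⟩
    have h1 := hadf _ hcv
    rw [map_sub, map_sum, hfv, zero_sub, neg_eq_zero] at h1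
    simp only [map_smul, smul_eq_mul] at h1
    have h2 : ∀ u ∈ nb N ⊥ s, c u * f u = 0 :=
      (Finset.sum_eq_zero_iff_of_nonneg
        (fun u hu => mul_nonneg (hc u hu) (hf.1 u (hnbN u hu)))).1 h1
    have h3 : ∑ u ∈ Z, c u • u = ∑ u ∈ nb N ⊥ s, c u • u := by
      apply Finset.sum_subset
      · intro u hu
        exact ((hZm u).1 hu).1
      · intro u hu huZ
        have h4 : f u ≠ 0 := fun h5 => huZ ((hZm u).2 ⟨hu, h5⟩)
        rcases mul_eq_zero.1 (h2 u hu) with h5 | h5
        · rw [h5, zero_smul]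
        · exact absurd h5 h4
    rw [h3]
    exact hcv
  -- lower bound
  have hlow : 2 ≤ Z.card := by
    have h1 : Submodule.span ℝ (F : Set W) ≤ Submodule.span ℝ ((insert s Z : Finset W) : Set W) := by
      rw [Submodule.span_le]
      intro v hv
      have hv' : v ∈ F := hv
      by_cases hvs : v = s
      · rw [hvs]
        exact Submodule.subset_span (by simp)
      · obtain ⟨c, hc, hcv⟩ := key v hv' hvs
        rw [fvAd] at hcv
        have h2 : Submodule.span ℝ {s} ≤ Submodule.span ℝ ((insert s Z : Finset W) : Set W) :=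
          Submodule.span_mono (by simp)
        have h3 : ∑ u ∈ Z, c u • u ∈ Submodule.span ℝ ((insert s Z : Finset W) : Set W) := by
          apply Submodule.sum_mem
          intro u hu
          apply Submodule.smul_mem
          apply Submodule.subset_span
          simp [hu]
        have h4 := Submodule.add_mem _ (h2 hcv) h3
        rw [sub_add_cancel] at h4
        exact h4
    have h2 := Submodule.finrank_mono h1
    rw [hrk] at h2
    have h3 := finrank_span_finset_le_card (R := ℝ) (insert s Z)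
    unfold Set.finrank at h3
    have h4 := Finset.card_insert_le s Z
    omega
  -- upper bound
  have hup : Z.card ≤ 2 := by
    by_contra hcon
    push Not at hcon
    obtain ⟨a, ha, b, hb, c, hc, hab, hac, hbc⟩ := Finset.two_lt_card.1 hcon
    have hli := li4 h.poly hsN ((hZm a).1 ha).1 ((hZm b).1 hb).1 ((hZm c).1 hc).1 hab hac hbc
    have h1 := finrank_span_eq_card hli
    have h2 : ∀ u ∈ Submodule.span ℝ (Set.range ![s, a, b, c]), f u = 0 := by
      intro u hu
      have h3 : Submodule.span ℝ (Set.range ![s, a, b, c]) ≤ LinearMap.ker f := by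
        rw [Submodule.span_le]
        rintro x ⟨i, rfl⟩
        have ha' := ((hZm a).1 ha).2
        have hb' := ((hZm b).1 hb).2
        have hc' := ((hZm c).1 hc).2
        fin_cases i <;> simp [hfs, ha', hb', hc']
      exact LinearMap.mem_ker.1 (h3 hu)
    have h3 := rank_le_of_ker h.dim (fun_ne_zero h hF hf) h2
    rw [h1] at h3
    simp at h3
  obtain ⟨a, b, hab, hZab⟩ := Finset.card_eq_two.1 (le_antisymm hup hlow)
  have haZ : a ∈ Z := by rw [hZab]; simp
  have hbZ : b ∈ Z := by rw [hZab]; simp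
  have ha := (hZm a).1 haZ
  have hb := (hZm b).1 hbZ
  refine ⟨a, b, ⟨ha.1, hb.1, hab, f, hadf, ha.2, hb.2, fun w hw hwa hwb => ?_⟩,
    (hf.2 a).2 ⟨hnbN a ha.1, ha.2⟩, (hf.2 b).2 ⟨hnbN b hb.1, hb.2⟩, fun u hu huF => ?_,
    fun v hv hvs => ?_⟩
  · apply lt_of_le_of_ne (hf.1 w (hnbN w hw))
    intro h0
    have : w ∈ Z := (hZm w).2 ⟨hw, h0.symm⟩
    rw [hZab] at this
    simp only [Finset.mem_insert, Finset.mem_singleton] at this
    rcases this with h1 | h1
    · exact hwa h1
    · exact hwb h1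
  · have : u ∈ Z := (hZm u).2 ⟨hu, ((hf.2 u).1 huF).2⟩
    rw [hZab] at this
    simpa using this
  · obtain ⟨c, hc, hcv⟩ := key v hv hvs
    refine ⟨c a, c b, hc a ha.1, hc b hb.1, ?_⟩
    rw [hZab, Finset.sum_pair hab] at hcv
    exact hcv

theorem fac_of_pair (h : Full N) {s a b : W} (hs : s ∈ N) (hab : VAdj N ⊥ s a b) :
    ∃ F, (F ∈ Fac N ∧ s ∈ F ∧ a ∈ F ∧ b ∈ F) ∧
      ∀ F', F' ∈ Fac N → s ∈ F' → a ∈ F' → b ∈ F' → F' = F := by
  classical
  have hfin := fvFin h
  obtain ⟨f, hK, hfs, hnn, hiff⟩ := br_face h.poly hs hab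
  have ha := mem_nb.1 hab.1
  have hb := mem_nb.1 hab.2.1
  have hsa : s ≠ a := ha.2.2.1
  have hsb : s ≠ b := hb.2.2.1
  have hne : a ≠ b := hab.2.2.1
  have haN : a ∈ N := ha.2.1
  have hbN : b ∈ N := hb.2.1
  have hfa : f a = 0 := (hiff a haN hsa.symm).2 (br_left hab)
  have hfb : f b = 0 := (hiff b hbN hsb.symm).2 (br_right hab)
  have hli := li3' h.poly hs haN hbN hsa hsb hne
  have hf0 : f ≠ 0 := by
    intro h0
    have hcard : ({s, a, b} : Finset W).card < 4 := by
      have := Finset.card_le_three (a := s) (b := a) (c := b)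
      omega
    apply fvSpan h hcard
    intro v hv
    by_cases hvs : v = s
    · rw [hvs]
      exact Submodule.subset_span (by simp)
    · have h1 : f v = 0 := by rw [h0]; rfl
      obtain ⟨_, _, α, β, _, _, hm⟩ := (hiff v hv hvs).1 h1
      rw [fvAd] at hm
      have h2 : Submodule.span ℝ {s} ≤ Submodule.span ℝ (({s, a, b} : Finset W) : Set W) :=
        Submodule.span_mono (by simp)
      have h3 : α • a + β • b ∈ Submodule.span ℝ (({s, a, b} : Finset W) : Set W) :=
        Submodule.add_mem _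
          (Submodule.smul_mem _ _ (Submodule.subset_span (by simp)))
          (Submodule.smul_mem _ _ (Submodule.subset_span (by simp)))
      have h4 := Submodule.add_mem _ (h2 hm) h3
      rw [sub_add_cancel] at h4
      exact h4
  obtain ⟨F, hF, hFf⟩ := fac_of_fun h hnn hf0 hli hs haN hbN hfs hfa hfb
  have hsF := (hFf.2 s).2 ⟨hs, hfs⟩
  have haF := (hFf.2 a).2 ⟨haN, hfa⟩
  have hbF := (hFf.2 b).2 ⟨hbN, hfb⟩
  exact ⟨F, ⟨hF, hsF, haF, hbF⟩, fun F' hF' hs' ha' hb' =>
    fac_eq h hF' hF hli hs' ha' hb' hsF haF hbF⟩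

open Classical in
theorem count_fac (h : Full N) {s : W} (hs : s ∈ N) (P : W → Prop) :
    prs (VAdj N ⊥ s) ((nb N ⊥ s).filter P) =
      2 * ((Fac N).filter fun F => s ∈ F ∧ ∀ u ∈ F, u ∈ nb N ⊥ s → P u).card := by
  unfold prs
  have key := Finset.card_mul_eq_card_mul
    (s := ((((nb N ⊥ s).filter P) ×ˢ ((nb N ⊥ s).filter P)).filter
      fun p : W × W => VAdj N ⊥ s p.1 p.2))
    (t := (Fac N).filter fun F => s ∈ F ∧ ∀ u ∈ F, u ∈ nb N ⊥ s → P u)
    (m := 1) (n := 2) (fun (p : W × W) (F : Finset W) => p.1 ∈ F ∧ p.2 ∈ F) ?_ ?_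
  · rw [mul_one] at key
    rw [key, mul_comm]
  · rintro ⟨a, b⟩ hp
    simp only [Finset.mem_filter, Finset.mem_product] at hp
    obtain ⟨⟨⟨ha, hPa⟩, hb, hPb⟩, hab⟩ := hp
    obtain ⟨F, ⟨hF, hsF, haF, hbF⟩, huniq⟩ := fac_of_pair h hs hab
    rw [Finset.card_eq_one]
    refine ⟨F, ?_⟩
    ext F'
    simp only [Finset.bipartiteAbove, Finset.mem_filter, Finset.mem_singleton]
    constructor
    · rintro ⟨⟨hF', hs', _⟩, ha', hb'⟩
      exact huniq F' hF' hs' ha' hb'
    · rintro rfl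
      refine ⟨⟨hF, hsF, fun u huF hu => ?_⟩, haF, hbF⟩
      obtain ⟨a', b', _, _, _, hall, _⟩ := pair_of_fac h hF hsF
      have hne : a ≠ b := hab.2.2.1
      rcases hall a ha haF with h1 | h1 <;> rcases hall b hb hbF with h2 | h2 <;>
        rcases hall u hu huF with h3 | h3
      · exact absurd (h1.trans h2.symm) hne
      · exact absurd (h1.trans h2.symm) hne
      · rw [h3, ← h1]; exact hPa
      · rw [h3, ← h2]; exact hPb
      · rw [h3, ← h2]; exact hPb
      · rw [h3, ← h1]; exact hPa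
      · exact absurd (h1.trans h2.symm) hne
      · exact absurd (h1.trans h2.symm) hne
  · intro F hF
    simp only [Finset.mem_filter] at hF
    obtain ⟨hF, hsF, hP⟩ := hF
    obtain ⟨a, b, hab, haF, hbF, hall, _⟩ := pair_of_fac h hF hsF
    have hne : a ≠ b := hab.2.2.1
    rw [Finset.card_eq_two]
    refine ⟨(a, b), (b, a), ?_, ?_⟩
    · intro h1
      exact hne (Prod.ext_iff.1 h1).1
    · ext ⟨x, y⟩
      simp only [Finset.bipartiteBelow, Finset.mem_filter, Finset.mem_product, Finset.mem_insert,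
        Finset.mem_singleton, Prod.mk.injEq]
      constructor
      · rintro ⟨⟨⟨⟨hx, _⟩, hy, _⟩, hxy⟩, hxF, hyF⟩
        have hxy' : x ≠ y := hxy.2.2.1
        rcases hall x hx hxF with h1 | h1 <;> rcases hall y hy hyF with h2 | h2
        · exact absurd (h1.trans h2.symm) hxy'
        · exact Or.inl ⟨h1, h2⟩
        · exact Or.inr ⟨h1, h2⟩
        · exact absurd (h1.trans h2.symm) hxy'
      · rintro (⟨rfl, rfl⟩ | ⟨rfl, rfl⟩)
        · exact ⟨⟨⟨⟨hab.1, hP _ haF hab.1⟩, hab.2.1, hP _ hbF hab.2.1⟩, hab⟩, haF, hbF⟩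
        · exact ⟨⟨⟨⟨hab.2.1, hP _ hbF hab.2.1⟩, hab.1, hP _ haF hab.1⟩, adj_symm hab⟩, hbF, haF⟩

open Classical in
theorem deg_fac (h : Full N) {s : W} (hs : s ∈ N) :
    ((Fac N).filter fun F => s ∈ F).card = dg N s := by
  have h1 := count_fac h hs (fun _ => True)
  have h2 := all_pairs (poly_nb h.poly hs) (vf_dim h hs) (vf_ge h hs)
  have h3 : ∀ i : DecidablePred (fun _ : W => True),
      @Finset.filter W (fun _ => True) i (nb N ⊥ s) = nb N ⊥ s := by
    intro i
    ext
    simp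
  rw [h3] at h1
  have h4 : prs (VAdj N ⊥ s) (nb N ⊥ s) = prs (Adj (nb N ⊥ s) (ad ⊥ s)) (nb N ⊥ s) := rfl
  rw [h4, h2] at h1
  have h5 : ∀ i : DecidablePred (fun F : Finset W => s ∈ F ∧ ∀ u ∈ F, u ∈ nb N ⊥ s → True),
      @Finset.filter (Finset W) (fun F => s ∈ F ∧ ∀ u ∈ F, u ∈ nb N ⊥ s → True) i (Fac N) =
      ((Fac N).filter fun F => s ∈ F) := by
    intro i
    ext F
    simp
  rw [h5] at h1
  unfold dg
  omega

end Pool.Agent.P3F
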