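import Pool.Agent.P3F.Moves

/-!
# Inserting a facet in a corner (MP_a5fcbe_co, module Host)

`three_trunc`: let `t` be a triangle (`sz t = 3`) with the triples `{X, Y, t}`, `{Y, Z, t}`, `{X, Z, t}` in `Q`.  Truncate at `{X, Y, t}` (new label `u`),
`{Y, Z, t}` (`v`), `{X, Z, t}` (`w`).  Each truncation keeps all other triples.  At the end `t` has `6` vertices, `X, Y, Z` have two more,
`u, v, w` are triangles, and the nine triples of `u`, `v`, `w` with the pairs from `{X, Y, t}`, `{Y, Z, t}`, `{X, Z, t}` are in `Q'`, and so are all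
`c ∈ Q` with `t ∉ c`.

`host`: the triangle `t` becomes a facet with `m ≥ 4` vertices.  `m = 4`: truncate at `{X, Y, t}` only (`{Y, Z, t}` stays in `Q'`).  `m = 5`: truncate at
`{X, Y, t}` and `{Y, Z, t}`, new label `v` of the second one: `{Z, t, v}` is in `Q'`.  `m ≥ 6`: `three_trunc`, and then `raise_n (m - 6)` for `i := t`,
`j := X`, `k := u`, using `{t, X, u}`: only triples which contain `{X, u}` are lost (and `{X, u} ⊄ c` for `c ⊆ I`), so `{Z, t, v}` is kept.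
Balance: the total increase of `X, Y, Z` is `2` (`m = 4`), `4` (`m = 5`), `6` (`m ≥ 6`), the number of new triangles (`J.card`) is `1`, `2`, `m - 3`.
With `wt`: `J.card = increase + wt m + 1`.
-/

set_option autoImplicit false

namespace Pool.Agent.P3F

/-- The weight of a facet with `k` vertices. -/
def wt (k : ℕ) : ℤ := max ((k : ℤ) - 10) (2 - (k : ℤ))

theorem Chart.subset {I : Finset ℕ} {sz : ℕ → ℕ} {Q : Finset (Finset ℕ)} (h : Chart I sz Q)
    {c : Finset ℕ} (hc : c ∈ Q) : c ⊆ I := by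
  obtain ⟨N, φ, -, -, -, -, -, -, hq⟩ := h
  exact (hq c hc).1

theorem ne_of_mem_not {c d : Finset ℕ} {a : ℕ} (h1 : a ∈ c) (h2 : a ∉ d) : c ≠ d := by
  rintro rfl
  exact h2 h1

theorem three_trunc {I : Finset ℕ} {sz : ℕ → ℕ} {Q : Finset (Finset ℕ)} (h : Chart I sz Q)
    {X Y Z t : ℕ} (hXY : X ≠ Y) (hXZ : X ≠ Z) (hYZ : Y ≠ Z) (hXt : X ≠ t) (hYt : Y ≠ t)
    (hZt : Z ≠ t) (ht : sz t = 3) (h1 : ({X, Y, t} : Finset ℕ) ∈ Q)
    (h2 : ({Y, Z, t} : Finset ℕ) ∈ Q) (h3 : ({X, Z, t} : Finset ℕ) ∈ Q) :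
    ∃ (u v w : ℕ) (sz' : ℕ → ℕ) (Q' : Finset (Finset ℕ)), u ∉ I ∧ v ∉ I ∧ w ∉ I ∧ u ≠ v ∧
      u ≠ w ∧ v ≠ w ∧ Chart (I ∪ {u, v, w}) sz' Q' ∧ sz' u = 3 ∧ sz' v = 3 ∧ sz' w = 3 ∧
      sz' t = 6 ∧ sz' X = sz X + 2 ∧ sz' Y = sz Y + 2 ∧ sz' Z = sz Z + 2 ∧
      (∀ l ∈ I, l ≠ X → l ≠ Y → l ≠ Z → l ≠ t → sz' l = sz l) ∧
      (∀ c ∈ Q, t ∉ c → c ∈ Q') ∧
      ({X, Y, u} : Finset ℕ) ∈ Q' ∧ ({Y, t, u} : Finset ℕ) ∈ Q' ∧ ({X, t, u} : Finset ℕ) ∈ Q' ∧
      ({Y, Z, v} : Finset ℕ) ∈ Q' ∧ ({Y, t, v} : Finset ℕ) ∈ Q' ∧ ({Z, t, v} : Finset ℕ) ∈ Q' ∧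
      ({X, Z, w} : Finset ℕ) ∈ Q' ∧ ({X, t, w} : Finset ℕ) ∈ Q' ∧ ({Z, t, w} : Finset ℕ) ∈ Q' := by
  have hX : X ∈ I := h.subset h1 (by simp)
  have hY : Y ∈ I := h.subset h1 (by simp)
  have ht' : t ∈ I := h.subset h1 (by simp)
  have hZ : Z ∈ I := h.subset h2 (by simp)
  obtain ⟨u, sz1, Q1, hu, c1, su, sX1, sY1, st1, so1, a1, a2, a3, k1⟩ := trunc h hXY hXt hYt h1
  have h2' : ({Y, Z, t} : Finset ℕ) ∈ Q1 := by
    refine k1 _ h2 (ne_of_mem_not (a := Z) (by simp) ?_)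
    simp only [Finset.mem_insert, Finset.mem_singleton, not_or]
    exact ⟨hXZ.symm, hYZ.symm, hZt⟩
  have h3' : ({X, Z, t} : Finset ℕ) ∈ Q1 := by
    refine k1 _ h3 (ne_of_mem_not (a := Z) (by simp) ?_)
    simp only [Finset.mem_insert, Finset.mem_singleton, not_or]
    exact ⟨hXZ.symm, hYZ.symm, hZt⟩
  have uX : u ≠ X := fun e => hu (e ▸ hX)
  have uY : u ≠ Y := fun e => hu (e ▸ hY)
  have uZ : u ≠ Z := fun e => hu (e ▸ hZ)
  have ut : u ≠ t := fun e => hu (e ▸ ht')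
  obtain ⟨v, sz2, Q2, hv, c2, sv, sY2, sZ2, st2, so2, b1, b2, b3, k2⟩ := trunc c1 hYZ hYt hZt h2'
  have hv1 : v ∉ I := fun e => hv (Finset.mem_insert_of_mem e)
  have vu : v ≠ u := fun e => hv (e ▸ Finset.mem_insert_self _ _)
  have vX : v ≠ X := fun e => hv1 (e ▸ hX)
  have vY : v ≠ Y := fun e => hv1 (e ▸ hY)
  have vZ : v ≠ Z := fun e => hv1 (e ▸ hZ)
  have vt : v ≠ t := fun e => hv1 (e ▸ ht')
  have h3'' : ({X, Z, t} : Finset ℕ) ∈ Q2 := by
    refine k2 _ h3' (ne_of_mem_not (a := X) (by simp) ?_)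
    simp only [Finset.mem_insert, Finset.mem_singleton, not_or]
    exact ⟨hXY, hXZ, hXt⟩
  obtain ⟨w, sz3, Q3, hw, c3, sw, sX3, sZ3, st3, so3, d1, d2, d3, k3⟩ := trunc c2 hXZ hXt hZt h3''
  have hw1 : w ∉ I := fun e => hw (Finset.mem_insert_of_mem (Finset.mem_insert_of_mem e))
  have wv : w ≠ v := fun e => hw (e ▸ Finset.mem_insert_self _ _)
  have wu : w ≠ u := fun e => hw (Finset.mem_insert_of_mem (e ▸ Finset.mem_insert_self _ _))
  have mX2 : X ∈ insert u I := Finset.mem_insert_of_mem hX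
  have mu2 : u ∈ insert u I := Finset.mem_insert_self _ _
  have hs : insert w (insert v (insert u I)) = I ∪ {u, v, w} := by
    ext a
    simp only [Finset.mem_insert, Finset.mem_union, Finset.mem_singleton]
    tauto
  have hk : ∀ c ∈ Q1, c ≠ {Y, Z, t} → c ≠ {X, Z, t} → c ∈ Q3 :=
    fun c hc e1 e2 => k3 c (k2 c hc e1) e2
  refine ⟨u, v, w, sz3, Q3, hu, hv1, hw1, vu.symm, wu.symm, wv.symm, hs ▸ c3, ?_, ?_, sw, ?_, ?_,
    ?_, ?_, ?_, ?_, ?_, ?_, ?_, ?_, ?_, ?_, d1, d3, d2⟩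
  · rw [so3 u (Finset.mem_insert_of_mem mu2) uX uZ ut, so2 u mu2 uY uZ ut, su]
  · rw [so3 v (Finset.mem_insert_self _ _) vX vZ vt, sv]
  · rw [st3, st2, st1, ht]
  · rw [sX3, so2 X mX2 hXY hXZ hXt, sX1]
  · rw [so3 Y (Finset.mem_insert_of_mem (Finset.mem_insert_of_mem hY)) hXY.symm hYZ hYt, sY2, sY1]
  · rw [sZ3, sZ2, so1 Z hZ hXZ.symm hYZ.symm hZt]
  · intro l hl lX lY lZ lt
    rw [so3 l (Finset.mem_insert_of_mem (Finset.mem_insert_of_mem hl)) lX lZ lt,
      so2 l (Finset.mem_insert_of_mem hl) lY lZ lt, so1 l hl lX lY lt]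
  · intro c hc htc
    have e : ∀ p q : ℕ, c ≠ {p, q, t} := fun p q =>
      (ne_of_mem_not (a := t) (by simp) htc).symm
    exact hk c (k1 c hc (e X Y)) (e Y Z) (e X Z)
  · refine hk _ a1 (ne_of_mem_not (a := X) (by simp) ?_) (ne_of_mem_not (a := Y) (by simp) ?_)
    · simp only [Finset.mem_insert, Finset.mem_singleton, not_or]
      exact ⟨hXY, hXZ, hXt⟩
    · simp only [Finset.mem_insert, Finset.mem_singleton, not_or]
      exact ⟨hXY.symm, hYZ, hYt⟩
  · refine hk _ a2 (ne_of_mem_not (a := u) (by simp) ?_) (ne_of_mem_not (a := u) (by simp) ?_)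
    · simp only [Finset.mem_insert, Finset.mem_singleton, not_or]
      exact ⟨uY, uZ, ut⟩
    · simp only [Finset.mem_insert, Finset.mem_singleton, not_or]
      exact ⟨uX, uZ, ut⟩
  · refine hk _ a3 (ne_of_mem_not (a := u) (by simp) ?_) (ne_of_mem_not (a := u) (by simp) ?_)
    · simp only [Finset.mem_insert, Finset.mem_singleton, not_or]
      exact ⟨uY, uZ, ut⟩
    · simp only [Finset.mem_insert, Finset.mem_singleton, not_or]
      exact ⟨uX, uZ, ut⟩
  · refine k3 _ b1 (ne_of_mem_not (a := v) (by simp) ?_)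
    simp only [Finset.mem_insert, Finset.mem_singleton, not_or]
    exact ⟨vX, vZ, vt⟩
  · refine k3 _ b3 (ne_of_mem_not (a := v) (by simp) ?_)
    simp only [Finset.mem_insert, Finset.mem_singleton, not_or]
    exact ⟨vX, vZ, vt⟩
  · refine k3 _ b2 (ne_of_mem_not (a := v) (by simp) ?_)
    simp only [Finset.mem_insert, Finset.mem_singleton, not_or]
    exact ⟨vX, vZ, vt⟩

theorem host {I : Finset ℕ} {sz : ℕ → ℕ} {Q : Finset (Finset ℕ)} (h : Chart I sz Q)
    {X Y Z t m : ℕ} (hXY : X ≠ Y) (hXZ : X ≠ Z) (hYZ : Y ≠ Z) (hXt : X ≠ t) (hYt : Y ≠ t)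
    (hZt : Z ≠ t) (ht : sz t = 3) (h1 : ({X, Y, t} : Finset ℕ) ∈ Q)
    (h2 : ({Y, Z, t} : Finset ℕ) ∈ Q) (h3 : ({X, Z, t} : Finset ℕ) ∈ Q) (hm : 4 ≤ m) :
    ∃ (J : Finset ℕ) (sz' : ℕ → ℕ) (Q' : Finset (Finset ℕ)) (a b c : ℕ), Disjoint I J ∧
      Chart (I ∪ J) sz' Q' ∧ (∀ l ∈ J, sz' l = 3) ∧ sz' t = m ∧ sz' X = sz X + a ∧
      sz' Y = sz Y + b ∧ sz' Z = sz Z + c ∧ a ≤ 2 ∧ b ≤ 2 ∧ c ≤ 2 ∧
      (J.card : ℤ) = a + b + c + wt m + 1 ∧
      (∀ l ∈ I, l ≠ X → l ≠ Y → l ≠ Z → l ≠ t → sz' l = sz l) ∧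
      (∀ d ∈ Q, t ∉ d → d ∈ Q') ∧
      ∃ v, v ≠ Z ∧ v ≠ t ∧ ({Z, t, v} : Finset ℕ) ∈ Q' := by
  have hX : X ∈ I := h.subset h1 (by simp)
  have hY : Y ∈ I := h.subset h1 (by simp)
  have ht' : t ∈ I := h.subset h1 (by simp)
  have hZ : Z ∈ I := h.subset h2 (by simp)
  rcases Nat.lt_or_ge m 6 with hm6 | hm6
  · obtain ⟨u, sz1, Q1, hu, c1, su, sX1, sY1, st1, so1, a1, a2, a3, k1⟩ := trunc h hXY hXt hYt h1
    have h2' : ({Y, Z, t} : Finset ℕ) ∈ Q1 := by
      refine k1 _ h2 (ne_of_mem_not (a := Z) (by simp) ?_)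
      simp only [Finset.mem_insert, Finset.mem_singleton, not_or]
      exact ⟨hXZ.symm, hYZ.symm, hZt⟩
    have uX : u ≠ X := fun e => hu (e ▸ hX)
    have uY : u ≠ Y := fun e => hu (e ▸ hY)
    have uZ : u ≠ Z := fun e => hu (e ▸ hZ)
    have ut : u ≠ t := fun e => hu (e ▸ ht')
    have hcase : m = 4 ∨ m = 5 := by omega
    rcases hcase with rfl | rfl
    · refine ⟨{u}, sz1, Q1, 1, 1, 0, ?_, ?_, ?_, ?_, sX1, sY1, ?_, by norm_num, by norm_num,
        by norm_num, ?_, ?_, ?_, ?_⟩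
      · exact Finset.disjoint_singleton_right.mpr hu
      · have hs : insert u I = I ∪ {u} := by
          ext a
          simp only [Finset.mem_insert, Finset.mem_union, Finset.mem_singleton]
          tauto
        exact hs ▸ c1
      · intro l hl
        rw [Finset.mem_singleton] at hl
        rw [hl, su]
      · rw [st1, ht]
      · rw [so1 Z hZ hXZ.symm hYZ.symm hZt, Nat.add_zero]
      · rw [Finset.card_singleton]
        norm_num [wt]
      · intro l hl lX lY _ lt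
        exact so1 l hl lX lY lt
      · intro d hd htd
        exact k1 d hd (ne_of_mem_not (a := t) (by simp) htd).symm
      · refine ⟨Y, hYZ, hYt, ?_⟩
        have hs : ({Z, t, Y} : Finset ℕ) = {Y, Z, t} := by
          ext a
          simp only [Finset.mem_insert, Finset.mem_singleton]
          tauto
        rw [hs]
        exact h2'
    · obtain ⟨v, sz2, Q2, hv, c2, sv, sY2, sZ2, st2, so2, b1, b2, b3, k2⟩ :=
        trunc c1 hYZ hYt hZt h2'
      have hv1 : v ∉ I := fun e => hv (Finset.mem_insert_of_mem e)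
      have vu : v ≠ u := fun e => hv (e ▸ Finset.mem_insert_self _ _)
      have vZ : v ≠ Z := fun e => hv1 (e ▸ hZ)
      have vt : v ≠ t := fun e => hv1 (e ▸ ht')
      refine ⟨{u, v}, sz2, Q2, 1, 2, 1, ?_, ?_, ?_, ?_, ?_, ?_, ?_, by norm_num, by norm_num,
        by norm_num, ?_, ?_, ?_, ⟨v, vZ, vt, b2⟩⟩
      · rw [Finset.disjoint_right]
        intro a ha
        simp only [Finset.mem_insert, Finset.mem_singleton] at ha
        rcases ha with rfl | rfl
        · exact hu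
        · exact hv1
      · have hs : insert v (insert u I) = I ∪ {u, v} := by
          ext a
          simp only [Finset.mem_insert, Finset.mem_union, Finset.mem_singleton]
          tauto
        exact hs ▸ c2
      · intro l hl
        simp only [Finset.mem_insert, Finset.mem_singleton] at hl
        rcases hl with rfl | rfl
        · rw [so2 l (Finset.mem_insert_self _ _) uY uZ ut, su]
        · exact sv
      · rw [st2, st1, ht]
      · rw [so2 X (Finset.mem_insert_of_mem hX) hXY hXZ hXt, sX1]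
      · rw [sY2, sY1]
      · rw [sZ2, so1 Z hZ hXZ.symm hYZ.symm hZt]
      · rw [Finset.card_pair vu.symm]
        norm_num [wt]
      · intro l hl lX lY lZ lt
        rw [so2 l (Finset.mem_insert_of_mem hl) lY lZ lt, so1 l hl lX lY lt]
      · intro d hd htd
        have e : ∀ p q : ℕ, d ≠ {p, q, t} := fun p q =>
          (ne_of_mem_not (a := t) (by simp) htd).symm
        exact k2 d (k1 d hd (e X Y)) (e Y Z)
  · obtain ⟨u, v, w, sz3, Q3, hu, hv, hw, huv, huw, hvw, c3, su, sv, sw, st, sX, sY, sZ, so, hk,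
      -, -, q3, -, -, q6, -, -, -⟩ := three_trunc h hXY hXZ hYZ hXt hYt hZt ht h1 h2 h3
    have uX : u ≠ X := fun e => hu (e ▸ hX)
    have uZ : u ≠ Z := fun e => hu (e ▸ hZ)
    have ut : u ≠ t := fun e => hu (e ▸ ht')
    have vZ : v ≠ Z := fun e => hv (e ▸ hZ)
    have vt : v ≠ t := fun e => hv (e ▸ ht')
    have wt' : w ≠ t := fun e => hw (e ▸ ht')
    have q3' : ({t, X, u} : Finset ℕ) ∈ Q3 := by
      have hs : ({t, X, u} : Finset ℕ) = {X, t, u} := by
        ext a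
        simp only [Finset.mem_insert, Finset.mem_singleton]
        tauto
      rw [hs]
      exact q3
    obtain ⟨J, sz4, Q4, hd, hJ, c4, s4, st4, so4, -, k4⟩ :=
      raise_n (m - 6) c3 hXt.symm ut.symm uX.symm q3'
    have hIm : ∀ l ∈ I, l ∈ I ∪ {u, v, w} := fun l hl => Finset.mem_union_left _ hl
    refine ⟨{u, v, w} ∪ J, sz4, Q4, 2, 2, 2, ?_, ?_, ?_, ?_, ?_, ?_, ?_, le_rfl, le_rfl,
      le_rfl, ?_, ?_, ?_, ⟨v, vZ, vt, ?_⟩⟩
    · rw [Finset.disjoint_union_right]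
      constructor
      · rw [Finset.disjoint_right]
        intro a ha
        simp only [Finset.mem_insert, Finset.mem_singleton] at ha
        rcases ha with rfl | rfl | rfl
        · exact hu
        · exact hv
        · exact hw
      · exact Finset.disjoint_of_subset_left Finset.subset_union_left hd
    · rw [← Finset.union_assoc]
      exact c4
    · intro l hl
      rw [Finset.mem_union] at hl
      rcases hl with hl | hl
      · have hl2 : l ∈ I ∪ {u, v, w} := Finset.mem_union_right _ hl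
        simp only [Finset.mem_insert, Finset.mem_singleton] at hl
        rcases hl with rfl | rfl | rfl
        · rw [so4 l hl2 ut, su]
        · rw [so4 l hl2 vt, sv]
        · rw [so4 l hl2 wt', sw]
      · exact s4 l hl
    · rw [st4, st]
      omega
    · rw [so4 X (hIm X hX) hXt, sX]
    · rw [so4 Y (hIm Y hY) hYt, sY]
    · rw [so4 Z (hIm Z hZ) hZt, sZ]
    · have hd2 : Disjoint ({u, v, w} : Finset ℕ) J :=
        Finset.disjoint_of_subset_left Finset.subset_union_right hd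
      have h3c : ({u, v, w} : Finset ℕ).card = 3 := Finset.card_eq_three.mpr
        ⟨u, v, w, huv, huw, hvw, rfl⟩
      rw [Finset.card_union_of_disjoint hd2, h3c, hJ]
      have hw6 : wt m = (m : ℤ) - 10 := by
        unfold wt
        apply max_eq_left
        have : (6 : ℤ) ≤ (m : ℤ) := by exact_mod_cast hm6
        linarith
      rw [hw6]
      push_cast [Nat.cast_sub hm6]
      ring
    · intro l hl lX lY lZ lt
      rw [so4 l (hIm l hl) lt, so l hl lX lY lZ lt]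
    · intro d hd1 htd
      refine k4 d (hk d hd1 htd) ?_
      intro hsub
      exact hu (h.subset hd1 (hsub (by simp)))
    · refine k4 _ q6 ?_
      intro hsub
      have hmem : u ∈ ({Z, t, v} : Finset ℕ) := hsub (by simp)
      simp only [Finset.mem_insert, Finset.mem_singleton] at hmem
      rcases hmem with e | e | e
      · exact uZ e
      · exact ut e
      · exact huv e

end Pool.Agent.P3F
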