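import Pool.Agent.P3F.Defs

/-!
# Independence of vertices (MP_a5fcbe_co, module Ind)

`li2`, `li3`: two (three) different elements of a polytope `Poly N K` are independent modulo `K`
(`LPG.two`, `LPG.three`, `LPG.mem_ad`; `LinearIndependent` over `Fin 3`: if
`α u + β v + γ w ∈ K`: if `γ ≠ 0` divide by `γ` and use `three`; if `γ = 0`, `β ≠ 0` use `two`; if only `α ≠ 0` use
`not_mem`.  `LinearIndependent.pair_iff`, `Fintype.linearIndependent_iff`, `Fin.sum_univ_three`,
`Submodule.Quotient.mk_eq_zero`, ...).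

`li4`: `s ∈ N` and three different neighbours `a, b, c` of `s`: they are independent.  Apply `li3` to
the vertex figure `Poly (nb N ⊥ s) (ad ⊥ s)` (`poly_nb`): if `ξ s + α a + β b + γ c = 0`, then
`α a + β b + γ c ∈ ad ⊥ s` (`mem_ad`), so `α = β = γ = 0`, and `ξ s = 0`, `s ≠ 0` (`not_mem`).

`rank_le_of_ker`: a finite set in the kernel of a nonzero functional spans a space of dimension
at most `3` (`W` has dimension `4`): `Submodule.finrank_mono`, `finrank (ker f) = 3`
(`LinearMap.finrank_range_add_finrank_ker`, the range is `⊤`, dimension 1).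

`fun_mult`: two functionals which vanish on three independent vectors of the four-dimensional
space are proportional: the space of the functionals vanishing on the span `U` of the three
vectors is one-dimensional: `Subspace.finrank_add_finrank_dualAnnihilator_eq` or: take `x ∉ U`
with `f x ≠ 0` (exists as `f ≠ 0`); `U ⊔ span {x} = ⊤` by dimension, and
`g = (g x / f x) • f` on `U` and at `x`.

`fac_eq`: two facets with three common independent vectors are equal: their functionals are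
proportional, `g = c f` with `c ≠ 0` (they are not zero, because `N` spans), and `c > 0` is not even needed:
`f w = 0 ↔ g w = 0`.

`fac_ne_zero`: the functional of a facet of `Full N` is not zero (else `F = N`, and the rank is 4).

`fac_li`: a facet contains three independent vectors (`exists_linearIndependent`-like; the span
of `F` has dimension 3; e.g. `exists_linearIndependent'`, `Submodule.exists_finset_span_eq`,
`Basis`...; or take a subset `B ⊆ F` which is a basis of `span F`: `exists_linearIndepOn_span_eq`,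
and enumerate it).
-/

set_option autoImplicit false
set_option linter.all false

namespace Pool.Agent.P3F

open Pool.Agent.LPG

variable {W : Type*} [AddCommGroup W] [Module ℝ W] {N : Finset W} {K : Submodule ℝ W}

theorem li3 (h : Poly N K) {u v w : W} (hu : u ∈ N) (hv : v ∈ N) (hw : w ∈ N) (huv : u ≠ v)
    (huw : u ≠ w) (hvw : v ≠ w) {α β γ : ℝ} (hm : α • u + β • v + γ • w ∈ K) :
    α = 0 ∧ β = 0 ∧ γ = 0 := by
  have hγ : γ = 0 := by
    by_contra hne
    apply three h hu hv hw huv huw hvw (-(β / γ))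
    rw [mem_ad]
    refine ⟨-(α / γ), ?_⟩
    have h1 := K.smul_mem γ⁻¹ hm
    have h2 : w - (-(β / γ)) • v - (-(α / γ)) • u = γ⁻¹ • (α • u + β • v + γ • w) := by
      rw [smul_add, smul_add, smul_smul, smul_smul, smul_smul, inv_mul_cancel₀ hne, one_smul,
        neg_smul, neg_smul, sub_neg_eq_add, sub_neg_eq_add, div_eq_inv_mul, div_eq_inv_mul]
      abel
    rw [h2]
    exact h1
  subst hγ
  rw [zero_smul, add_zero] at hm
  have hβ : β = 0 := by
    by_contra hne
    apply two h hu hv (Ne.symm huv)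
    rw [mem_ad]
    refine ⟨-(α / β), ?_⟩
    have h1 := K.smul_mem β⁻¹ hm
    have h2 : v - (-(α / β)) • u = β⁻¹ • (α • u + β • v) := by
      rw [smul_add, smul_smul, smul_smul, inv_mul_cancel₀ hne, one_smul, neg_smul,
        sub_neg_eq_add, div_eq_inv_mul]
      abel
    rw [h2]
    exact h1
  subst hβ
  rw [zero_smul, add_zero] at hm
  refine ⟨?_, rfl, rfl⟩
  by_contra hne
  apply not_mem h hu
  exact (K.smul_mem_iff hne).1 hm

theorem li3' (h : Poly N ⊥) {u v w : W} (hu : u ∈ N) (hv : v ∈ N) (hw : w ∈ N) (huv : u ≠ v)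
    (huw : u ≠ w) (hvw : v ≠ w) : LinearIndependent ℝ ![u, v, w] := by
  rw [Fintype.linearIndependent_iff]
  intro g hg
  rw [Fin.sum_univ_three] at hg
  have hg' : g 0 • u + g 1 • v + g 2 • w ∈ (⊥ : Submodule ℝ W) := (Submodule.mem_bot ℝ).2 hg
  obtain ⟨h0, h1, h2⟩ := li3 h hu hv hw huv huw hvw hg'
  intro i
  fin_cases i
  · exact h0
  · exact h1
  · exact h2

theorem li4 (h : Poly N ⊥) {s a b c : W} (hs : s ∈ N) (ha : a ∈ nb N ⊥ s) (hb : b ∈ nb N ⊥ s)
    (hc : c ∈ nb N ⊥ s) (hab : a ≠ b) (hac : a ≠ c) (hbc : b ≠ c) :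
    LinearIndependent ℝ ![s, a, b, c] := by
  rw [Fintype.linearIndependent_iff]
  intro g hg
  rw [Fin.sum_univ_four] at hg
  have hg1 : g 0 • s + g 1 • a + g 2 • b + g 3 • c = 0 := hg
  have hm : g 1 • a + g 2 • b + g 3 • c ∈ ad (⊥ : Submodule ℝ W) s := by
    rw [mem_ad]
    refine ⟨-(g 0), ?_⟩
    rw [Submodule.mem_bot, neg_smul, sub_neg_eq_add, ← hg1]
    abel
  obtain ⟨h1, h2, h3⟩ := li3 (poly_nb h hs) ha hb hc hab hac hbc hm
  have h0 : g 0 = 0 := by
    rw [h1, h2, h3, zero_smul, zero_smul, zero_smul, add_zero, add_zero, add_zero] at hg1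
    rcases smul_eq_zero.1 hg1 with h4 | h4
    · exact h4
    · exfalso
      apply not_mem h hs
      rw [h4]
      exact Submodule.zero_mem _
  intro i
  fin_cases i
  · exact h0
  · exact h1
  · exact h2
  · exact h3

theorem finrank_ker_eq (hd : Module.finrank ℝ W = 4) {f : W →ₗ[ℝ] ℝ} (hf : f ≠ 0) :
    Module.finrank ℝ (LinearMap.ker f) = 3 := by
  have : FiniteDimensional ℝ W := Module.finite_of_finrank_pos (by omega)
  have h1 := LinearMap.finrank_range_add_finrank_ker f
  have h2 : Function.Surjective f := LinearMap.surjective hf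
  rw [LinearMap.range_eq_top.2 h2, finrank_top, Module.finrank_self, hd] at h1
  omega

theorem rank_le_of_ker (hd : Module.finrank ℝ W = 4) {f : W →ₗ[ℝ] ℝ} (hf : f ≠ 0)
    {U : Submodule ℝ W} (hU : ∀ u ∈ U, f u = 0) : Module.finrank ℝ U ≤ 3 := by
  have : FiniteDimensional ℝ W := Module.finite_of_finrank_pos (by omega)
  rw [← finrank_ker_eq hd hf]
  exact Submodule.finrank_mono fun u hu => LinearMap.mem_ker.2 (hU u hu)

theorem fun_mult (hd : Module.finrank ℝ W = 4) {u v w : W} (hli : LinearIndependent ℝ ![u, v, w])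
    {f g : W →ₗ[ℝ] ℝ} (hfu : f u = 0) (hfv : f v = 0) (hfw : f w = 0) (hgu : g u = 0)
    (hgv : g v = 0) (hgw : g w = 0) (hf : f ≠ 0) : ∃ c : ℝ, g = c • f := by
  have : FiniteDimensional ℝ W := Module.finite_of_finrank_pos (by omega)
  have hspan : Submodule.span ℝ (Set.range ![u, v, w]) = LinearMap.ker f := by
    apply Submodule.eq_of_le_of_finrank_eq
    · rw [Submodule.span_le]
      rintro _ ⟨i, rfl⟩
      fin_cases i
      · exact hfu
      · exact hfv
      · exact hfw
    · rw [finrank_ker_eq hd hf, finrank_span_eq_card hli, Fintype.card_fin]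
  have hle : LinearMap.ker f ≤ LinearMap.ker g := by
    rw [← hspan, Submodule.span_le]
    rintro _ ⟨i, rfl⟩
    fin_cases i
    · exact hgu
    · exact hgv
    · exact hgw
  obtain ⟨x, hx⟩ : ∃ x, f x ≠ 0 := by
    by_contra hno
    push Not at hno
    exact hf (LinearMap.ext fun y => by rw [hno y, LinearMap.zero_apply])
  refine ⟨g x / f x, ?_⟩
  apply LinearMap.ext
  intro y
  have h1 : y - (f y / f x) • x ∈ LinearMap.ker f := by
    rw [LinearMap.mem_ker, map_sub, map_smul, smul_eq_mul, div_mul_cancel₀ _ hx, sub_self]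
  have h2 := LinearMap.mem_ker.1 (hle h1)
  rw [map_sub, map_smul, smul_eq_mul, sub_eq_zero] at h2
  rw [LinearMap.smul_apply, smul_eq_mul, h2]
  ring

theorem fun_ne_zero (h : Full N) {F : Finset W} (hF : F ∈ Fac N) {f : W →ₗ[ℝ] ℝ}
    (hf : FunOf N F f) : f ≠ 0 := by
  intro h0
  have hFN : F = N := by
    ext w
    rw [hf.2 w]
    exact ⟨fun h1 => h1.1, fun h1 => ⟨h1, by rw [h0, LinearMap.zero_apply]⟩⟩
  have h1 := (mem_fac.1 hF).2
  rw [hFN, h.span, finrank_top, h.dim] at h1
  omega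

theorem fac_eq (h : Full N) {F F' : Finset W} (hF : F ∈ Fac N) (hF' : F' ∈ Fac N) {u v w : W}
    (hli : LinearIndependent ℝ ![u, v, w]) (hu : u ∈ F) (hv : v ∈ F) (hw : w ∈ F) (hu' : u ∈ F')
    (hv' : v ∈ F') (hw' : w ∈ F') : F = F' := by
  obtain ⟨⟨f, hf⟩, -⟩ := mem_fac.1 hF
  obtain ⟨⟨g, hg⟩, -⟩ := mem_fac.1 hF'
  have hf0 := fun_ne_zero h hF hf
  have hg0 := fun_ne_zero h hF' hg
  obtain ⟨c, hc⟩ := fun_mult h.dim hli ((hf.2 u).1 hu).2 ((hf.2 v).1 hv).2 ((hf.2 w).1 hw).2
    ((hg.2 u).1 hu').2 ((hg.2 v).1 hv').2 ((hg.2 w).1 hw').2 hf0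
  have hc0 : c ≠ 0 := by
    rintro rfl
    rw [zero_smul] at hc
    exact hg0 hc
  ext x
  rw [hf.2 x, hg.2 x, hc, LinearMap.smul_apply, smul_eq_mul, mul_eq_zero]
  constructor
  · rintro ⟨h1, h2⟩
    exact ⟨h1, Or.inr h2⟩
  · rintro ⟨h1, h2 | h2⟩
    · exact absurd h2 hc0
    · exact ⟨h1, h2⟩

theorem fac_li {F : Finset W} (hF : F ∈ Fac N) :
    ∃ u ∈ F, ∃ v ∈ F, ∃ w ∈ F, LinearIndependent ℝ ![u, v, w] := by
  obtain ⟨b, hbF, hspan, hli⟩ := exists_linearIndependent ℝ (F : Set W)
  have hfin : b.Finite := F.finite_toSet.subset hbF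
  have : Fintype b := hfin.fintype
  have h1 := (mem_fac.1 hF).2
  rw [← hspan] at h1
  have h2 : Module.finrank ℝ (Submodule.span ℝ b) = b.toFinset.card :=
    finrank_span_set_eq_card (s := b) hli
  rw [h1, ← Set.ncard_eq_toFinset_card'] at h2
  obtain ⟨x, y, z, hxy, hxz, hyz, hb⟩ := Set.ncard_eq_three.1 h2.symm
  have hx : x ∈ b := by rw [hb]; exact Set.mem_insert _ _
  have hy : y ∈ b := by rw [hb]; exact Set.mem_insert_of_mem _ (Set.mem_insert _ _)
  have hz : z ∈ b := by
    rw [hb]; exact Set.mem_insert_of_mem _ (Set.mem_insert_of_mem _ (Set.mem_singleton _))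
  refine ⟨x, hbF hx, y, hbF hy, z, hbF hz, ?_⟩
  have h3 := hli.comp (![⟨x, hx⟩, ⟨y, hy⟩, ⟨z, hz⟩] : Fin 3 → b) (by
    intro i j hij
    fin_cases i <;> fin_cases j <;> first | rfl | (exfalso; simp at hij; tauto))
  have h4 : Subtype.val ∘ (![⟨x, hx⟩, ⟨y, hy⟩, ⟨z, hz⟩] : Fin 3 → b) = ![x, y, z] := by
    funext i
    fin_cases i <;> rfl
  rw [h4] at h3
  exact h3

/-- Functionals of the same facet are positive multiples of each other. -/
theorem fun_pos_prop (h : Full N) {F : Finset W} (hF : F ∈ Fac N) {f g : W →ₗ[ℝ] ℝ}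
    (hf : FunOf N F f) (hg : FunOf N F g) : ∃ c : ℝ, 0 < c ∧ g = c • f := by
  have hf0 := fun_ne_zero h hF hf
  have hg0 := fun_ne_zero h hF hg
  obtain ⟨u, hu, v, hv, w, hw, hli⟩ := fac_li hF
  obtain ⟨c, hc⟩ := fun_mult h.dim hli ((hf.2 u).1 hu).2 ((hf.2 v).1 hv).2 ((hf.2 w).1 hw).2
    ((hg.2 u).1 hu).2 ((hg.2 v).1 hv).2 ((hg.2 w).1 hw).2 hf0
  refine ⟨c, ?_, hc⟩
  have hc0 : c ≠ 0 := by
    rintro rfl
    rw [zero_smul] at hc
    exact hg0 hc
  obtain ⟨x, hx, hfx⟩ : ∃ x ∈ N, f x ≠ 0 := by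
    by_contra hno
    push Not at hno
    apply hf0
    have h1 : Submodule.span ℝ (N : Set W) ≤ LinearMap.ker f := by
      rw [Submodule.span_le]
      intro x hx
      exact hno x hx
    rw [h.span, top_le_iff] at h1
    exact LinearMap.ker_eq_top.1 h1
  have h1 : 0 < f x := lt_of_le_of_ne (hf.1 x hx) (Ne.symm hfx)
  have h2 : 0 ≤ c * f x := by
    have h3 := hg.1 x hx
    rw [hc, LinearMap.smul_apply, smul_eq_mul] at h3
    exact h3
  exact lt_of_le_of_ne (nonneg_of_mul_nonneg_left h2 h1) (Ne.symm hc0)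

theorem three_le_card {F : Finset W} (hF : F ∈ Fac N) : 3 ≤ F.card := by
  have h1 := (mem_fac.1 hF).2
  rw [← h1]
  exact finrank_span_finset_le_card F

/-- A functional which is nonnegative on `N` and vanishes at three independent elements of `N`
is the functional of a facet, if it is not zero. -/
theorem fac_of_fun (h : Full N) {f : W →ₗ[ℝ] ℝ} (hf : ∀ w ∈ N, 0 ≤ f w) (hf0 : f ≠ 0) {u v w : W}
    (hli : LinearIndependent ℝ ![u, v, w]) (hu : u ∈ N) (hv : v ∈ N) (hw : w ∈ N)
    (hfu : f u = 0) (hfv : f v = 0) (hfw : f w = 0) :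
    ∃ F ∈ Fac N, FunOf N F f := by
  classical
  have : FiniteDimensional ℝ W := Module.finite_of_finrank_pos (by rw [h.dim]; omega)
  have hfun : FunOf N (N.filter fun w => f w = 0) f := by
    refine ⟨hf, fun x => ?_⟩
    rw [Finset.mem_filter]
  refine ⟨N.filter fun w => f w = 0, mem_fac.2 ⟨⟨f, hfun⟩, ?_⟩, hfun⟩
  apply le_antisymm
  · apply rank_le_of_ker h.dim hf0
    intro x hx
    have h1 : Submodule.span ℝ ((N.filter fun w => f w = 0 : Finset W) : Set W) ≤
        LinearMap.ker f := by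
      rw [Submodule.span_le]
      intro y hy
      exact (Finset.mem_filter.1 hy).2
    exact h1 hx
  · have h2 : Module.finrank ℝ (Submodule.span ℝ (Set.range ![u, v, w])) = 3 := by
      rw [finrank_span_eq_card hli, Fintype.card_fin]
    rw [← h2]
    apply Submodule.finrank_mono
    apply Submodule.span_mono
    rintro _ ⟨i, rfl⟩
    rw [Finset.mem_coe, Finset.mem_filter]
    fin_cases i
    · exact ⟨hu, hfu⟩
    · exact ⟨hv, hfv⟩
    · exact ⟨hw, hfw⟩

end Pool.Agent.P3F
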