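import Pool.Agent.P3F.Suf

/-!
# The main theorem (MP_a5fcbe_co, module Main)

`nec` and `suf`.  The sums over the sequence `p` are the sums over the multiset `Finsupp.toMultiset p`:
`(Finsupp.toMultiset p).sum = p.sum fun k m => m * k`, `((Finsupp.toMultiset p).map wt).sum = p.sum fun k m => m * wt k`,
`((Finsupp.toMultiset p).filter q).card = p.sum fun k m => if q k then m else 0` (for `q` decidable).
There are at least three `k ≥ 7` in the two cases (`12 ≤ k` or `24 ≤ k` implies `7 ≤ k`).
-/

set_option autoImplicit false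

namespace Pool.Agent.P3F

open Pool.Agent.LPG

/-- The number of the facets whose number of vertices has the property `q`. -/
def cnt (p : ℕ →₀ ℕ) (q : ℕ → Prop) [DecidablePred q] : ℕ := p.sum fun k m => if q k then m else 0

theorem cnt_eq (p : ℕ →₀ ℕ) (q : ℕ → Prop) [DecidablePred q] :
    ((Finsupp.toMultiset p).filter q).card = cnt p q := by
  unfold cnt
  rw [Finsupp.toMultiset_apply, Finsupp.sum, Finsupp.sum, ← Multiset.countP_eq_card_filter]
  induction p.support using Finset.induction_on with
  | empty => simp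
  | insert a s ha ih =>
    rw [Finset.sum_insert ha, Finset.sum_insert ha, Multiset.countP_add, ih,
      Multiset.countP_nsmul]
    congr 1
    rw [← Multiset.cons_zero, Multiset.countP_cons]
    split_ifs <;> simp

theorem sum_eq (p : ℕ →₀ ℕ) : (Finsupp.toMultiset p).sum = p.sum fun k m => m * k := by
  rw [Finsupp.toMultiset_apply, Finsupp.sum, Finsupp.sum]
  induction p.support using Finset.induction_on with
  | empty => simp
  | insert a s ha ih =>
    rw [Finset.sum_insert ha, Finset.sum_insert ha, Multiset.sum_add, ih, Multiset.sum_nsmul]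
    simp

theorem wsum_eq (p : ℕ →₀ ℕ) :
    ((Finsupp.toMultiset p).map wt).sum = p.sum fun k m => (m : ℤ) * wt k := by
  rw [Finsupp.toMultiset_apply, Finsupp.sum, Finsupp.sum]
  induction p.support using Finset.induction_on with
  | empty => simp
  | insert a s ha ih =>
    rw [Finset.sum_insert ha, Finset.sum_insert ha, Multiset.map_add, Multiset.sum_add, ih,
      Multiset.map_nsmul, Multiset.sum_nsmul]
    simp

theorem main (p : ℕ →₀ ℕ) (h3 : ∀ k, k < 3 → p k = 0)
    (hX : ((∀ k, 4 ≤ k → k ≤ 11 → p k = 0) ∧ 3 ≤ cnt p fun k => 12 ≤ k) ∨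
      cnt p (fun k => 4 ≤ k ∧ k ≤ 11) + 5 ≤ 2 * cnt p fun k => 24 ≤ k) :
    IsCensus p ↔ Even (p.sum fun k m => m * k) ∧
      (p.sum fun k m => (m : ℤ) * max ((k : ℤ) - 10) (2 - (k : ℤ))) ≤ -20 := by
  have hmem : ∀ k ∈ Finsupp.toMultiset p, p k ≠ 0 := fun k hk =>
    Finsupp.mem_support_iff.1 ((Finsupp.mem_toMultiset p k).1 hk)
  have hw : (p.sum fun k m => (m : ℤ) * max ((k : ℤ) - 10) (2 - (k : ℤ))) =
      ((Finsupp.toMultiset p).map wt).sum := (wsum_eq p).symm
  rw [hw, ← sum_eq]
  have h3' : ∀ k ∈ Finsupp.toMultiset p, 3 ≤ k := by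
    intro k hk
    by_contra hcon
    exact hmem k hk (h3 k (by omega))
  have hX' : ((∀ k ∈ Finsupp.toMultiset p, k = 3 ∨ 12 ≤ k) ∧
        3 ≤ ((Finsupp.toMultiset p).filter fun k => 12 ≤ k).card) ∨
      ((Finsupp.toMultiset p).filter fun k => 4 ≤ k ∧ k ≤ 11).card + 5 ≤
        2 * ((Finsupp.toMultiset p).filter fun k => 24 ≤ k).card := by
    rcases hX with ⟨h1, h2⟩ | h1
    · refine Or.inl ⟨fun k hk => ?_, by rw [cnt_eq]; exact h2⟩
      by_contra hcon
      have := h3' k hk
      exact hmem k hk (h1 k (by omega) (by omega))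
    · exact Or.inr (by rw [cnt_eq, cnt_eq]; exact h1)
  constructor
  · intro h
    obtain ⟨h1, -, h4⟩ := nec h
    refine ⟨h1, h4 ?_⟩
    rcases hX' with ⟨-, h5⟩ | h5
    · refine h5.trans (Multiset.card_le_card (Multiset.monotone_filter_right _ ?_))
      intro k hk
      omega
    · have h6 : ((Finsupp.toMultiset p).filter fun k => 24 ≤ k).card ≤
          ((Finsupp.toMultiset p).filter fun k => 7 ≤ k).card := by
        refine Multiset.card_le_card (Multiset.monotone_filter_right _ ?_)
        intro k hk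
        omega
      omega
  · rintro ⟨h1, h2⟩
    exact suf h3' hX' h1 h2

end Pool.Agent.P3F
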