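import Pool.Agent.P3F.FacIneq

/-!
# Few large facets: necessary conditions (MP_a5fcbe_co, module Small)

`conn2`: `R = N \ {A, B}` is connected (a case of the theorem of Balinski).  Let `x ∈ R`.  Choose a functional `π ≠ 0` which vanishes at `A, B, x`
(three vectors of a space of dimension 4).  As `N` spans, `π` is not zero on `N`; replacing `π` by `- π` there is `v ∈ N` with `π v > 0`.
Every `w ∈ N` with `π w = 0` has a neighbour `u` with `π u > 0` (`pos_nb` at `w`), and `u ∈ R`; all `u ∈ N` with `π u > 0` are joined in `{π > 0} ⊆ R` by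
`conn`.  So all `w ∈ R` with `π w ≥ 0` are joined with `x` in `R`.  If there is `v'` with `π v' < 0`, then the same for `- π` shows that all
`w ∈ R` with `π w ≤ 0` are joined with `x`.

`deg_two`: as `deg_ineq` for `S = {A, B}`: `dg A + dg B = prs (Adj N ⊥) {A, B} + m`, `prs (Adj N ⊥) {A, B} ≤ 2`, `∑ R dg = prs (Adj N ⊥) R + m`, and by `cnt_conn` and `conn2`,
`2 |R| ≤ prs R + 2`.
`fac_two`: `deg_two` for the dual polytope (`exists_dual`), as in `FacIneq`.
`fac_one`: in the dual polytope `D` with `D.card = (Fac N).card`: `dg D v + 1 ≤ D.card`, as `nb D ⊥ v ⊆ D.erase v`.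
`fac_four`: `D` spans a space of dimension 4 (`finrank_span_finset_le_card`).
-/

set_option autoImplicit false

namespace Pool.Agent.P3F

open Pool.Agent.LPG

variable {W : Type*} [AddCommGroup W] [Module ℝ W] {N : Finset W}

/-- A nonzero functional which vanishes at three given vectors. -/
private theorem small_fun (hd : Module.finrank ℝ W = 4) (A B x : W) :
    ∃ π : W →ₗ[ℝ] ℝ, π ≠ 0 ∧ π A = 0 ∧ π B = 0 ∧ π x = 0 := by
  classical
  have hfd : FiniteDimensional ℝ W := Module.finite_of_finrank_pos (by omega)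
  have hlt : Submodule.span ℝ (({A, B, x} : Finset W) : Set W) < ⊤ := by
    refine Submodule.lt_top_of_finrank_lt_finrank ?_
    rw [hd]
    have h1 : Module.finrank ℝ (Submodule.span ℝ (({A, B, x} : Finset W) : Set W)) ≤
        ({A, B, x} : Finset W).card := finrank_span_finset_le_card ({A, B, x} : Finset W)
    have h2 := Finset.card_le_three (a := A) (b := B) (c := x)
    omega
  obtain ⟨f, hf0, hf⟩ := Submodule.exists_le_ker_of_lt_top _ hlt
  refine ⟨f, hf0, ?_, ?_, ?_⟩
  · exact LinearMap.mem_ker.1 (hf (Submodule.subset_span (by simp)))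
  · exact LinearMap.mem_ker.1 (hf (Submodule.subset_span (by simp)))
  · exact LinearMap.mem_ker.1 (hf (Submodule.subset_span (by simp)))

open Classical in
private theorem small_pos (h : Full N) {A B x v : W} (π : W →ₗ[ℝ] ℝ) (hA : π A = 0) (hB : π B = 0)
    (hx0 : π x = 0) (hx : x ∈ N \ {A, B}) (hv : v ∈ N) (hpv : 0 < π v) {y : W}
    (hy : y ∈ N \ {A, B}) (hy0 : 0 ≤ π y) :
    Relation.ReflTransGen (fun p q => Adj N ⊥ p q ∧ p ∈ N \ {A, B} ∧ q ∈ N \ {A, B}) x y := by
  have hbot : ∀ z ∈ (⊥ : Submodule ℝ W), π z = 0 := by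
    intro z hz
    rw [Submodule.mem_bot] at hz
    rw [hz, map_zero]
  have hR : ∀ u ∈ N, 0 < π u → u ∈ N \ {A, B} := by
    intro u hu hpu
    rw [Finset.mem_sdiff, Finset.mem_insert, Finset.mem_singleton]
    refine ⟨hu, ?_⟩
    rintro (rfl | rfl)
    · rw [hA] at hpu; exact lt_irrefl _ hpu
    · rw [hB] at hpu; exact lt_irrefl _ hpu
  have hcon : ∀ a ∈ N, ∀ b ∈ N, 0 < π a → 0 < π b →
      Relation.ReflTransGen (fun p q => Adj N ⊥ p q ∧ p ∈ N \ {A, B} ∧ q ∈ N \ {A, B}) a b := by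
    intro a ha b hb hpa hpb
    refine Relation.ReflTransGen.mono ?_ _ _ (conn h.poly π hbot ha hb hpa hpb)
    rintro p q ⟨h1, h2, h3⟩
    exact ⟨h1, hR p h1.1 h2, hR q h1.2.1 h3⟩
  have hxN : x ∈ N := (Finset.mem_sdiff.1 hx).1
  have hyN : y ∈ N := (Finset.mem_sdiff.1 hy).1
  obtain ⟨u, hu, hpu⟩ := pos_nb h.poly hxN hv π hbot hx0 hpv
  have hxu := mem_nb.1 hu
  refine Relation.ReflTransGen.head ⟨hxu, hx, hR u hxu.2.1 hpu⟩ ?_
  rcases hy0.lt_or_eq with hlt | heq
  · exact hcon u hxu.2.1 y hyN hpu hlt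
  · obtain ⟨w, hw, hpw⟩ := pos_nb h.poly hyN hv π hbot heq.symm hpv
    have hyw := mem_nb.1 hw
    exact (hcon u hxu.2.1 w hyw.2.1 hpu hpw).tail
      ⟨adj_symm hyw, hR w hyw.2.1 hpw, hy⟩

open Classical in
theorem conn2 (h : Full N) {A B : W} (hA : A ∈ N) (hB : B ∈ N) :
    ∀ x ∈ N \ {A, B}, ∀ y ∈ N \ {A, B},
      Relation.ReflTransGen (fun p q => Adj N ⊥ p q ∧ p ∈ N \ {A, B} ∧ q ∈ N \ {A, B}) x y := by
  intro x hx y hy
  obtain ⟨π, hπ0, hπA, hπB, hπx⟩ := small_fun h.dim A B x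
  have hyN : y ∈ N := (Finset.mem_sdiff.1 hy).1
  have hneg : ∀ z : W, π z = 0 → (-π) z = 0 := by
    intro z hz
    rw [LinearMap.neg_apply, hz, neg_zero]
  rcases lt_trichotomy (π y) 0 with hlt | heq | hgt
  · have hpos : 0 < (-π) y := by rw [LinearMap.neg_apply]; linarith
    exact small_pos h (-π) (hneg A hπA) (hneg B hπB) (hneg x hπx) hx hyN hpos hy hpos.le
  · have hv : ∃ v ∈ N, π v ≠ 0 := by
      by_contra hno
      push Not at hno
      refine hπ0 ?_
      refine LinearMap.ext_on h.span ?_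
      intro v hv
      rw [LinearMap.zero_apply]
      exact hno v hv
    obtain ⟨v, hvN, hv0⟩ := hv
    rcases lt_or_gt_of_ne hv0 with h1 | h1
    · have hpos : 0 < (-π) v := by rw [LinearMap.neg_apply]; linarith
      exact small_pos h (-π) (hneg A hπA) (hneg B hπB) (hneg x hπx) hx hvN hpos hy
        (hneg y heq).ge
    · exact small_pos h π hπA hπB hπx hx hvN h1 hy heq.ge
  · exact small_pos h π hπA hπB hπx hx hyN hgt hy hgt.le

open Classical in
theorem deg_two (h : Full N) {A B : W} (hA : A ∈ N) (hB : B ∈ N) (hAB : A ≠ B) :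
    (dg N A : ℤ) + dg N B ≤ 4 + ∑ s ∈ N \ {A, B}, ((dg N s : ℤ) - 2) := by
  have hS : ({A, B} : Finset W) ⊆ N := by
    intro z hz
    rw [Finset.mem_insert, Finset.mem_singleton] at hz
    rcases hz with rfl | rfl
    · exact hA
    · exact hB
  have e1 := sum_split N hS
  have e2 := sum_split N (Finset.sdiff_subset (s := N) (t := {A, B}))
  rw [Finset.sdiff_sdiff_eq_self hS] at e2
  have e4 := sum_cross N {A, B} (N \ {A, B})
  have e5 : prs (Adj N ⊥) ({A, B} : Finset W) ≤ 2 := by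
    have h1 : ({A, B} : Finset W) = insert A {B} := rfl
    rw [h1, prs_insert (Adj N ⊥) (fun a b h => adj_symm h) (adj_irr N) A {B}
      (by rw [Finset.mem_singleton]; exact hAB)]
    have h2 : prs (Adj N ⊥) ({B} : Finset W) = 0 := by
      rw [prs_eq_sum]
      simp [Finset.filter_singleton, adj_irr N B]
    have h3 : (({B} : Finset W).filter fun y => Adj N ⊥ A y).card ≤ 1 :=
      (Finset.card_le_card (Finset.filter_subset _ _)).trans (by simp)
    omega
  have e6 := cnt_conn (Adj N ⊥) (fun a b h => adj_symm h) (adj_irr N) (N \ {A, B})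
    (conn2 h hA hB)
  rw [Finset.sum_pair hAB] at e1
  rw [Finset.sum_sub_distrib]
  simp only [Finset.sum_const, nsmul_eq_mul]
  have f2 : ((∑ s ∈ N \ {A, B}, dg N s : ℕ) : ℤ) = ∑ s ∈ N \ {A, B}, (dg N s : ℤ) := by
    push_cast; rfl
  rw [← f2]
  omega

open Classical in
theorem fac_two (h : Full N) {F F' : Finset W} (hF : F ∈ Fac N) (hF' : F' ∈ Fac N)
    (hne : F ≠ F') :
    (F.card : ℤ) + F'.card ≤ 4 + ∑ G ∈ Fac N \ {F, F'}, ((G.card : ℤ) - 2) := by
  obtain ⟨φ, hinj, hD, hdg⟩ := exists_dual h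
  have h1 := deg_two hD (Finset.mem_image_of_mem φ hF) (Finset.mem_image_of_mem φ hF')
    (fun h2 => hne (hinj hF hF' h2))
  have h3 : (Fac N).image φ \ {φ F, φ F'} = (Fac N \ {F, F'}).image φ := by
    ext z
    simp only [Finset.mem_sdiff, Finset.mem_image, Finset.mem_insert, Finset.mem_singleton]
    constructor
    · rintro ⟨⟨G, hG, rfl⟩, hz⟩
      refine ⟨G, ⟨hG, ?_⟩, rfl⟩
      rintro (rfl | rfl)
      · exact hz (Or.inl rfl)
      · exact hz (Or.inr rfl)
    · rintro ⟨G, ⟨hG, hz⟩, rfl⟩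
      refine ⟨⟨G, hG, rfl⟩, ?_⟩
      rintro (h4 | h4)
      · exact hz (Or.inl (hinj hG hF h4))
      · exact hz (Or.inr (hinj hG hF' h4))
  rw [hdg F hF, hdg F' hF', h3, Finset.sum_image (fun a ha b hb hab =>
    hinj (Finset.mem_sdiff.1 ha).1 (Finset.mem_sdiff.1 hb).1 hab)] at h1
  refine h1.trans (le_of_eq ?_)
  congr 1
  refine Finset.sum_congr rfl fun G hG => ?_
  rw [hdg G (Finset.mem_sdiff.1 hG).1]

theorem fac_one (h : Full N) {F : Finset W} (hF : F ∈ Fac N) : F.card + 1 ≤ (Fac N).card := by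
  classical
  obtain ⟨φ, hinj, hD, hdg⟩ := exists_dual h
  have hmem : φ F ∈ (Fac N).image φ := Finset.mem_image_of_mem φ hF
  have h1 : nb ((Fac N).image φ) ⊥ (φ F) ⊆ ((Fac N).image φ).erase (φ F) := by
    intro z hz
    have h2 := mem_nb.1 hz
    exact Finset.mem_erase.2 ⟨h2.2.2.1.symm, h2.2.1⟩
  have h3 := Finset.card_le_card h1
  rw [Finset.card_erase_of_mem hmem, Finset.card_image_of_injOn hinj] at h3
  have h4 : (nb ((Fac N).image φ) ⊥ (φ F)).card = F.card := hdg F hF
  have h5 : 0 < (Fac N).card := Finset.card_pos.2 ⟨F, hF⟩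
  omega

theorem fac_four (h : Full N) : 4 ≤ (Fac N).card := by
  classical
  obtain ⟨φ, hinj, hD, hdg⟩ := exists_dual h
  have h1 := finrank_span_finset_le_card (R := ℝ) ((Fac N).image φ)
  have h2 : Module.finrank ℝ (Submodule.span ℝ (((Fac N).image φ : Finset _) :
      Set (Module.Dual ℝ W))) = 4 := by
    rw [hD.span, finrank_top, hD.dim]
  rw [Finset.card_image_of_injOn hinj] at h1
  have h3 : Set.finrank ℝ (((Fac N).image φ : Finset _) : Set (Module.Dual ℝ W)) = 4 := h2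
  omega

end Pool.Agent.P3F
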