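import Pool.Agent.P3F.Base

/-!
# Few large facets: constructions (MP_a5fcbe_co, module SmallS)

`chart_add`: `add_two`, induction on `n` (all sizes stay `≥ 3`; the sizes of the old labels do not change).

`small0`: `chart_tetra`.
`small1`: `raise_n (k - 3)` of the facet `0` of the tetrahedron, at `{0, 1, 2}`: there are `3 + (k - 3) = k` triangles.
`small2`: `raise_n (k - 3)` of the facet `0` at `{0, 2, 3}` (`i := 0`, `j := 2`, `k := 3`: the triple `{0, 1, 2}` is kept); then `raise_n (l - 3)` of the facet `1` at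
`{0, 1, 2}` (`i := 1`, `j := 0`, `k := 2`).  There are `2 + (k - 3) + (l - 3) = k + l - 4` triangles.
`Q` is not empty: for `raise_n` with `n > 0` use the triple it gives, for `n = 0` nothing is to be done.
-/

set_option autoImplicit false

namespace Pool.Agent.P3F

theorem smallS_union {I J : Finset ℕ} (h : Disjoint I J) (f : ℕ → ℕ) :
    (I ∪ J).val.map f = I.val.map f + J.val.map f := by
  rw [← Finset.disjUnion_eq_union I J h]
  show (I.val + J.val).map f = _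
  rw [Multiset.map_add]

theorem smallS_const {J : Finset ℕ} {f : ℕ → ℕ} {n : ℕ} (hn : J.card = n)
    (h : ∀ l ∈ J, f l = 3) : J.val.map f = Multiset.replicate n 3 := by
  rw [Multiset.eq_replicate]
  refine ⟨by rw [Multiset.card_map]; exact hn, fun b hb => ?_⟩
  rw [Multiset.mem_map] at hb
  obtain ⟨l, hl, rfl⟩ := hb
  exact h l hl

theorem smallS_congr {I : Finset ℕ} {f g : ℕ → ℕ} (h : ∀ l ∈ I, f l = g l) :
    I.val.map f = I.val.map g :=
  Multiset.map_congr rfl h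

theorem smallS_four (f : ℕ → ℕ) : ({0, 1, 2, 3} : Finset ℕ).val.map f =
    f 0 ::ₘ f 1 ::ₘ f 2 ::ₘ f 3 ::ₘ 0 := rfl

theorem chart_add_aux {I : Finset ℕ} {sz : ℕ → ℕ} {Q : Finset (Finset ℕ)} (h : Chart I sz Q)
    (hQ : Q.Nonempty) (h3 : ∀ i ∈ I, 3 ≤ sz i) (n : ℕ) :
    ∃ (J : Finset ℕ) (sz' : ℕ → ℕ) (Q' : Finset (Finset ℕ)), Chart J sz' Q' ∧ Q'.Nonempty ∧
      (∀ i ∈ J, 3 ≤ sz' i) ∧
      J.val.map sz' = I.val.map sz + Multiset.replicate (2 * n) 3 := by
  induction n with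
  | zero => exact ⟨I, sz, Q, h, hQ, h3, by simp⟩
  | succ n ih =>
    obtain ⟨J, sz', Q', hc, hn, h3', hm⟩ := ih
    obtain ⟨J2, sz2, Q2, hd, hcard, hc2, hn2, ha, hb⟩ := add_two hc hn h3'
    refine ⟨J ∪ J2, sz2, Q2, hc2, hn2, ?_, ?_⟩
    · intro i hi
      rw [Finset.mem_union] at hi
      rcases hi with hi | hi
      · rw [hb i hi]
        exact h3' i hi
      · rw [ha i hi]
    · rw [smallS_union hd, smallS_const hcard ha, smallS_congr hb, hm, add_assoc,
        ← Multiset.replicate_add]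
      rfl

theorem chart_add {I : Finset ℕ} {sz : ℕ → ℕ} {Q : Finset (Finset ℕ)} (h : Chart I sz Q)
    (hQ : Q.Nonempty) (h3 : ∀ i ∈ I, 3 ≤ sz i) (n : ℕ) :
    ∃ (J : Finset ℕ) (sz' : ℕ → ℕ) (Q' : Finset (Finset ℕ)), Chart J sz' Q' ∧ Q'.Nonempty ∧
      J.val.map sz' = I.val.map sz + Multiset.replicate (2 * n) 3 := by
  obtain ⟨J, sz', Q', h1, h2, _, h4⟩ := chart_add_aux h hQ h3 n
  exact ⟨J, sz', Q', h1, h2, h4⟩

theorem small0 : ∃ (I : Finset ℕ) (sz : ℕ → ℕ) (Q : Finset (Finset ℕ)), Chart I sz Q ∧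
    Q.Nonempty ∧ I.val.map sz = Multiset.replicate 4 3 := by
  refine ⟨_, _, _, chart_tetra, ⟨{0, 1, 2}, by simp⟩, ?_⟩
  exact smallS_const (by decide) fun _ _ => rfl

theorem small1 {k : ℕ} (hk : 3 ≤ k) : ∃ (I : Finset ℕ) (sz : ℕ → ℕ) (Q : Finset (Finset ℕ)),
    Chart I sz Q ∧ Q.Nonempty ∧ I.val.map sz = k ::ₘ Multiset.replicate k 3 := by
  obtain ⟨J, sz', Q', hd, hcard, hc, h3, h0, hr, _, hk'⟩ := raise_n (k - 3) chart_tetra
    (i := 0) (j := 1) (k := 2) (by decide) (by decide) (by decide) (by simp)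
  refine ⟨_, sz', Q', hc, ⟨{0, 1, 3}, hk' _ (by simp) (by decide)⟩, ?_⟩
  rw [smallS_union hd, smallS_const hcard h3, smallS_four, h0, hr 1 (by decide) (by decide),
    hr 2 (by decide) (by decide), hr 3 (by decide) (by decide)]
  obtain ⟨m, rfl⟩ : ∃ m, k = m + 3 := ⟨k - 3, by omega⟩
  have e1 : m + 3 - 3 = m := by omega
  have e2 : 3 + m = m + 3 := by omega
  rw [e1, e2, Multiset.cons_add]
  congr 1

theorem small2 {k l : ℕ} (hk : 3 ≤ k) (hl : 3 ≤ l) :
    ∃ (I : Finset ℕ) (sz : ℕ → ℕ) (Q : Finset (Finset ℕ)), Chart I sz Q ∧ Q.Nonempty ∧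
      I.val.map sz = k ::ₘ l ::ₘ Multiset.replicate (k + l - 4) 3 := by
  obtain ⟨J, sz', Q', hd, hcard, hc, h3, h0, hr, _, hk'⟩ := raise_n (k - 3) chart_tetra
    (i := 0) (j := 2) (k := 3) (by decide) (by decide) (by decide) (by simp)
  have hQ1 : ({0, 1, 2} : Finset ℕ) ∈ Q' := hk' _ (by simp) (by decide)
  have hQ2 : ({0, 1, 3} : Finset ℕ) ∈ Q' := hk' _ (by simp) (by decide)
  have hQ3 : ({1, 0, 2} : Finset ℕ) ∈ Q' := by
    have : ({1, 0, 2} : Finset ℕ) = {0, 1, 2} := by decide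
    rw [this]
    exact hQ1
  obtain ⟨J2, sz2, Q2, hd2, hcard2, hc2, h32, h02, hr2, _, hk2⟩ := raise_n (l - 3) hc
    (i := 1) (j := 0) (k := 2) (by decide) (by decide) (by decide) hQ3
  have hI : ∀ x ∈ ({0, 1, 2, 3} : Finset ℕ), x ∈ ({0, 1, 2, 3} : Finset ℕ) ∪ J := fun x hx =>
    Finset.mem_union_left _ hx
  have hJ : ∀ x ∈ J, sz2 x = 3 := by
    intro x hx
    have hx1 : x ≠ 1 := by
      rintro rfl
      exact Finset.disjoint_left.mp hd (by decide) hx
    rw [hr2 x (Finset.mem_union_right _ hx) hx1, h3 x hx]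
  refine ⟨_, sz2, Q2, hc2, ⟨{0, 1, 3}, hk2 _ hQ2 (by decide)⟩, ?_⟩
  rw [smallS_union hd2, smallS_const hcard2 h32, smallS_union hd, smallS_const hcard hJ, smallS_four,
    h02, hr2 0 (hI _ (by decide)) (by decide), hr2 2 (hI _ (by decide)) (by decide),
    hr2 3 (hI _ (by decide)) (by decide), h0, hr 1 (by decide) (by decide),
    hr 2 (by decide) (by decide), hr 3 (by decide) (by decide)]
  obtain ⟨m, rfl⟩ : ∃ m, k = m + 3 := ⟨k - 3, by omega⟩
  obtain ⟨n, rfl⟩ : ∃ n, l = n + 3 := ⟨l - 3, by omega⟩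
  have e1 : m + 3 - 3 = m := by omega
  have e2 : 3 + m = m + 3 := by omega
  have e3 : n + 3 - 3 = n := by omega
  have e4 : 3 + n = n + 3 := by omega
  rw [e1, e2, e3, e4, Multiset.cons_add, Multiset.cons_add, Multiset.cons_add, Multiset.cons_add]
  congr 2
  rw [show m + 3 + (n + 3) - 4 = (2 + m) + n by omega, Multiset.replicate_add,
    Multiset.replicate_add]
  rfl

end Pool.Agent.P3F
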