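import Pool.Agent.P3F.Main
import Pool.Agent.P3F.Small
import Pool.Agent.P3F.SmallS

/-!
# At most two large facets (MP_a5fcbe_co, module MainB)

`p` has no `k`-gons for `k < 3` and `4 ≤ k ≤ 11`; `b = cnt p (12 ≤ ·)`, `K` = the sum of the `k ≥ 12`.  Let `Y = Finsupp.toMultiset p = X + replicate (p 3) 3`, `X` the elements `≥ 12`, `X.card = b`.

Necessary (`nec_small`): let `V` be as in `census_iff`, `N = V.map (homE 3)`, `Full N` (`full_hom`), and `Y` the multiset of the numbers of vertices of the facets of `N`.  `b = 0`: all facets are triangles, and `4 ≤ (Fac N).card` by `fac_four`.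
`b = 1`: `X = {k}`: there is `F ∈ Fac N` with `F.card = k`, `k + 1 ≤ (Fac N).card = 1 + p 3` (`fac_one`).  `b = 2`: two facets `F ≠ F'` with `k` and `l` vertices and `p 3` triangles: `fac_two`:
`k + l ≤ 4 + p 3`.  Parity: `fac_even` (`nec`).

Sufficient (`suf_small`): `small0`, `small1`, `small2` and `chart_add` with `n = (p 3 - m) / 2`, `m = 4`, `k`, `k + l - 4`; parity as `Y.sum` is even; `census_of_chart`.
-/

set_option autoImplicit false

namespace Pool.Agent.P3F

open Pool.Agent.LPG

private theorem MainB_split {p : ℕ →₀ ℕ} (h3 : ∀ k, k < 12 → k ≠ 3 → p k = 0) :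
    Finsupp.toMultiset p =
      ((Finsupp.toMultiset p).filter fun k => 12 ≤ k) + Multiset.replicate (p 3) 3 := by
  have e1 := Multiset.filter_add_not (fun k => 12 ≤ k) (Finsupp.toMultiset p)
  have e2 : ((Finsupp.toMultiset p).filter fun k => ¬ 12 ≤ k) = Multiset.replicate (p 3) 3 := by
    have e3 : ((Finsupp.toMultiset p).filter fun k => ¬ 12 ≤ k) =
        (Finsupp.toMultiset p).filter (Eq 3) := by
      refine Multiset.filter_congr fun k hk => ?_
      have hk2 : p k ≠ 0 := Finsupp.mem_support_iff.1 ((Finsupp.mem_toMultiset p k).1 hk)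
      constructor
      · intro h
        by_contra hne
        exact hk2 (h3 k (by omega) (fun h => hne h.symm))
      · intro h
        omega
    rw [e3, Multiset.filter_eq, Finsupp.count_toMultiset]
  rw [e2] at e1
  exact e1.symm

private theorem MainB_map (p : ℕ →₀ ℕ) (f : ℕ → ℕ) :
    ((Finsupp.toMultiset p).map f).sum = p.sum fun k m => m * f k := by
  rw [Finsupp.toMultiset_apply, Finsupp.sum, Finsupp.sum]
  induction p.support using Finset.induction_on with
  | empty => simp
  | insert a s ha ih =>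
    rw [Finset.sum_insert ha, Finset.sum_insert ha, Multiset.map_add, Multiset.sum_add, ih,
      Multiset.map_nsmul, Multiset.sum_nsmul]
    simp

private theorem MainB_filter (Y : Multiset ℕ) :
    (Y.filter fun k => 12 ≤ k).sum = (Y.map fun k => if 12 ≤ k then k else 0).sum := by
  induction Y using Multiset.induction_on with
  | empty => simp
  | cons a Y ih =>
    rw [Multiset.map_cons, Multiset.sum_cons, Multiset.filter_cons]
    split_ifs with h
    · rw [Multiset.sum_add, ih, Multiset.sum_singleton]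
    · rw [zero_add, zero_add, ih]

private theorem MainB_sum (p : ℕ →₀ ℕ) :
    (p.sum fun k m => if 12 ≤ k then m * k else 0) =
      ((Finsupp.toMultiset p).filter fun k => 12 ≤ k).sum := by
  rw [MainB_filter, MainB_map]
  refine Finsupp.sum_congr fun k _ => ?_
  split_ifs
  · rfl
  · rfl

theorem nec_small {p : ℕ →₀ ℕ} (h3 : ∀ k, k < 12 → k ≠ 3 → p k = 0) (h : IsCensus p) :
    ((cnt p fun k => 12 ≤ k) = 0 → 4 ≤ p 3) ∧
    ((cnt p fun k => 12 ≤ k) = 1 → (p.sum fun k m => if 12 ≤ k then m * k else 0) ≤ p 3) ∧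
    ((cnt p fun k => 12 ≤ k) = 2 → (p.sum fun k m => if 12 ≤ k then m * k else 0) ≤ p 3 + 4) := by
  classical
  obtain ⟨V, hV, hY⟩ := (census_iff p).1 h
  have hfull := full_hom hV
  set N := V.map (homE 3) with hN
  have hsplit := MainB_split h3
  have hcard : (Fac N).card = (cnt p fun k => 12 ≤ k) + p 3 := by
    have e1 : (Fac N).card = (Finsupp.toMultiset p).card := by
      rw [← hY, Multiset.card_map]
      rfl
    rw [e1, hsplit, Multiset.card_add, cnt_eq, Multiset.card_replicate]
  rw [MainB_sum]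
  rw [← cnt_eq] at hcard ⊢
  set X := (Finsupp.toMultiset p).filter fun k => 12 ≤ k with hX
  refine ⟨fun hb => ?_, fun hb => ?_, fun hb => ?_⟩
  · have h4 := fac_four hfull
    omega
  · obtain ⟨k, hk⟩ := Multiset.card_eq_one.1 hb
    have hkY : k ∈ (Fac N).val.map Finset.card := by
      rw [hY, hsplit, hk]
      simp
    obtain ⟨F, hF, hFk⟩ := Multiset.mem_map.1 hkY
    have h4 := fac_one hfull (F := F) hF
    rw [hk, Multiset.sum_singleton]
    omega
  · obtain ⟨k, l, hkl⟩ := Multiset.card_eq_two.1 hb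
    have hY2 : (Fac N).val.map Finset.card = k ::ₘ l ::ₘ Multiset.replicate (p 3) 3 := by
      rw [hY, hsplit, hkl]
      rfl
    have hkY : k ∈ (Fac N).val.map Finset.card := by
      rw [hY2]
      simp
    obtain ⟨F, hF, hFk⟩ := Multiset.mem_map.1 hkY
    have hE1 : ((Fac N).erase F).val.map Finset.card = l ::ₘ Multiset.replicate (p 3) 3 := by
      rw [Finset.erase_val, Multiset.map_erase_of_mem _ _ hF, hY2, hFk, Multiset.erase_cons_head]
    have hlY : l ∈ ((Fac N).erase F).val.map Finset.card := by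
      rw [hE1]
      simp
    obtain ⟨F', hF', hFl⟩ := Multiset.mem_map.1 hlY
    have hE2 : (((Fac N).erase F).erase F').val.map Finset.card = Multiset.replicate (p 3) 3 := by
      rw [Finset.erase_val, Multiset.map_erase_of_mem _ _ hF', hE1, hFl, Multiset.erase_cons_head]
    have hF'' : F' ∈ (Fac N).erase F := hF'
    rw [Finset.mem_erase] at hF''
    have h4 := fac_two hfull (F := F) (F' := F') hF hF''.2 hF''.1.symm
    have h5 : Fac N \ {F, F'} = ((Fac N).erase F).erase F' := by
      ext G
      simp only [Finset.mem_sdiff, Finset.mem_insert, Finset.mem_singleton, Finset.mem_erase]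
      tauto
    have h6 : ∑ G ∈ Fac N \ {F, F'}, ((G.card : ℤ) - 2) = p 3 := by
      rw [h5]
      have h7 : ∀ G ∈ ((Fac N).erase F).erase F', ((G.card : ℤ) - 2) = 1 := by
        intro G hG
        have h8 : G.card ∈ (((Fac N).erase F).erase F').val.map Finset.card :=
          Multiset.mem_map_of_mem _ hG
        rw [hE2] at h8
        rw [Multiset.eq_of_mem_replicate h8]
        norm_num
      rw [Finset.sum_congr rfl h7, Finset.sum_const, nsmul_eq_mul, mul_one]
      have h9 : (((Fac N).erase F).erase F').card = p 3 := by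
        have := congrArg Multiset.card hE2
        rw [Multiset.card_map, Multiset.card_replicate] at this
        exact this
      rw [h9]
    have h4' : (F.card : ℤ) + F'.card ≤ 4 + (p 3 : ℤ) := by
      refine h4.trans (le_of_eq ?_)
      rw [← h6]
      refine congrArg _ (Finset.sum_congr ?_ fun _ _ => rfl)
      ext G
      simp only [Finset.mem_sdiff, Finset.mem_insert, Finset.mem_singleton]
    rw [hkl]
    have h8 : ({k, l} : Multiset ℕ).sum = k + l := by
      simp [Multiset.insert_eq_cons]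
    rw [h8]
    omega

private theorem MainB_chart {p : ℕ →₀ ℕ} {I : Finset ℕ} {sz : ℕ → ℕ} {Q : Finset (Finset ℕ)}
    (h : Chart I sz Q) (hQ : Q.Nonempty) {X : Multiset ℕ} {m : ℕ} (hX : ∀ k ∈ X, 3 ≤ k)
    (hI : I.val.map sz = X + Multiset.replicate m 3)
    (hp : Finsupp.toMultiset p = X + Multiset.replicate (p 3) 3) (hm : m ≤ p 3)
    (hev : Even (p 3 - m)) : IsCensus p := by
  obtain ⟨n, hn⟩ := hev
  have h3 : ∀ i ∈ I, 3 ≤ sz i := by
    intro i hi
    have h1 : sz i ∈ I.val.map sz := Multiset.mem_map_of_mem sz hi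
    rw [hI, Multiset.mem_add] at h1
    rcases h1 with h1 | h1
    · exact hX _ h1
    · rw [Multiset.eq_of_mem_replicate h1]
  obtain ⟨J, sz', Q', hc, -, hJ⟩ := chart_add h hQ h3 n
  refine census_of_chart hc ?_
  rw [hJ, hI, hp, add_assoc, ← Multiset.replicate_add]
  congr 2
  omega

theorem suf_small {p : ℕ →₀ ℕ} (h3 : ∀ k, k < 12 → k ≠ 3 → p k = 0)
    (he : Even (p.sum fun k m => m * k)) (hb : (cnt p fun k => 12 ≤ k) ≤ 2)
    (h0 : (cnt p fun k => 12 ≤ k) = 0 → 4 ≤ p 3)
    (h1 : (cnt p fun k => 12 ≤ k) = 1 → (p.sum fun k m => if 12 ≤ k then m * k else 0) ≤ p 3)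
    (h2 : (cnt p fun k => 12 ≤ k) = 2 → (p.sum fun k m => if 12 ≤ k then m * k else 0) ≤ p 3 + 4) :
    IsCensus p := by
  have hsplit := MainB_split h3
  rw [MainB_sum] at h1 h2
  rw [← sum_eq, hsplit, Multiset.sum_add, Multiset.sum_replicate, smul_eq_mul] at he
  rw [← cnt_eq] at hb h0 h1 h2
  set X := (Finsupp.toMultiset p).filter fun k => 12 ≤ k with hX
  have hX12 : ∀ k ∈ X, 12 ≤ k := fun k hk => (Multiset.mem_filter.1 hk).2
  have hX3 : ∀ k ∈ X, 3 ≤ k := fun k hk => le_trans (by norm_num) (hX12 k hk)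
  have hb' : X.card = 0 ∨ X.card = 1 ∨ X.card = 2 := by omega
  rcases hb' with hb' | hb' | hb'
  · have h4 := h0 hb'
    rw [Multiset.card_eq_zero.1 hb'] at hsplit he
    obtain ⟨I, sz, Q, hc, hQ, hI⟩ := small0
    refine MainB_chart hc hQ (X := 0) (m := 4) (by simp) (by rw [hI, zero_add]) hsplit h4 ?_
    rw [Multiset.sum_zero, zero_add, Nat.even_mul] at he
    rcases he with he | he
    · obtain ⟨n, hn⟩ := he
      exact ⟨n - 2, by omega⟩
    · exact absurd he (by decide)
  · have h4 := h1 hb'
    obtain ⟨k, hk⟩ := Multiset.card_eq_one.1 hb'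
    have hk12 := hX12 k (by rw [hk]; simp)
    rw [hk] at hsplit he h4
    rw [Multiset.sum_singleton] at he h4
    obtain ⟨I, sz, Q, hc, hQ, hI⟩ := small1 (k := k) (by omega)
    refine MainB_chart hc hQ (X := {k}) (m := k) (by simp; omega) (by rw [hI]; rfl) hsplit h4 ?_
    obtain ⟨n, hn⟩ := he
    exact ⟨(p 3 - k) / 2, by omega⟩
  · have h4 := h2 hb'
    obtain ⟨k, l, hk⟩ := Multiset.card_eq_two.1 hb'
    have hk12 := hX12 k (by rw [hk]; simp)
    have hl12 := hX12 l (by rw [hk]; simp)
    have h8 : ({k, l} : Multiset ℕ).sum = k + l := by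
      simp [Multiset.insert_eq_cons]
    rw [hk] at hsplit he h4
    rw [h8] at he h4
    obtain ⟨I, sz, Q, hc, hQ, hI⟩ := small2 (k := k) (l := l) (by omega) (by omega)
    refine MainB_chart hc hQ (X := {k, l}) (m := k + l - 4) (fun x hx => ?_) (by rw [hI]; rfl)
      hsplit (by omega) ?_
    · rw [Multiset.insert_eq_cons, Multiset.mem_cons, Multiset.mem_singleton] at hx
      omega
    · obtain ⟨n, hn⟩ := he
      exact ⟨(p 3 - (k + l - 4)) / 2, by omega⟩

end Pool.Agent.P3F
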