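import Pool.Agent.P3F.Chart

/-!
# Moves of charts (MP_a5fcbe_co, module Moves)

`trunc`, `raise`, `lower` are `chart_cut` with `(e1, e2) = (true, true)`, `(false, true)`, `(false, false)`.
In `raise` the facet `i` gets one vertex more, and the triples which contain `{j, k}` are lost.  In `lower` the facet `k` gets one vertex less.
A label `t ∉ I` exists: `Infinite.exists_notMem_finset`.

`raise_n`: iterate `raise`: the first time with `(i, j, k)`, new label `t1`, the next times with `(i, k, t1)`, `(i, k, t2)`, ... where `tm` is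
the last new label: in step `m + 1` the triple is `{i, k, tm}` and the triples which contain `{k, tm}` are lost (formulation:
`raise i` with the roles `j := k`, `k := tm`; the new triples are `{i, k, t(m+1)}` and `{i, tm, t(m+1)}`).  So the triples in `Q` which do not contain
`{j, k}` are kept (the labels `tm` are not in `I`), and `{i, j, t1}` is kept.
Induction on `n` with this statement for triples: prove first the version for `n + 1` with the extra output: the triple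
`{i, k, u}` with a new label `u`.
-/

set_option autoImplicit false

namespace Pool.Agent.P3F

theorem trunc {I : Finset ℕ} {sz : ℕ → ℕ} {Q : Finset (Finset ℕ)} (h : Chart I sz Q)
    {i j k : ℕ} (hij : i ≠ j) (hik : i ≠ k) (hjk : j ≠ k) (hc : ({i, j, k} : Finset ℕ) ∈ Q) :
    ∃ (t : ℕ) (sz' : ℕ → ℕ) (Q' : Finset (Finset ℕ)), t ∉ I ∧ Chart (insert t I) sz' Q' ∧
      sz' t = 3 ∧ sz' i = sz i + 1 ∧ sz' j = sz j + 1 ∧ sz' k = sz k + 1 ∧
      (∀ l ∈ I, l ≠ i → l ≠ j → l ≠ k → sz' l = sz l) ∧ ({i, j, t} : Finset ℕ) ∈ Q' ∧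
      ({j, k, t} : Finset ℕ) ∈ Q' ∧ ({i, k, t} : Finset ℕ) ∈ Q' ∧
      ∀ c ∈ Q, c ≠ {i, j, k} → c ∈ Q' := by
  obtain ⟨t, ht⟩ := Infinite.exists_notMem_finset I
  obtain ⟨sz', Q', h1, h2, h3, h4, h5, h6, h7, h8, h9, h10⟩ :=
    chart_cut h hij hik hjk hc ht true true (Or.inl rfl)
  simp only [Bool.toNat_true] at h3 h4 h5
  refine ⟨t, sz', Q', ht, h1, h2, h3, h4, by omega, h6, h7, h8 rfl, h9 rfl, fun c hcQ hne => ?_⟩
  exact h10 c hcQ hne (fun h => absurd h (by decide)) (fun h => absurd h (by decide))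

theorem raise {I : Finset ℕ} {sz : ℕ → ℕ} {Q : Finset (Finset ℕ)} (h : Chart I sz Q)
    {i j k : ℕ} (hij : i ≠ j) (hik : i ≠ k) (hjk : j ≠ k) (hc : ({i, j, k} : Finset ℕ) ∈ Q) :
    ∃ (t : ℕ) (sz' : ℕ → ℕ) (Q' : Finset (Finset ℕ)), t ∉ I ∧ Chart (insert t I) sz' Q' ∧
      sz' t = 3 ∧ sz' i = sz i + 1 ∧ (∀ l ∈ I, l ≠ i → sz' l = sz l) ∧
      ({i, j, t} : Finset ℕ) ∈ Q' ∧ ({i, k, t} : Finset ℕ) ∈ Q' ∧
      ∀ c ∈ Q, ¬ ({j, k} : Finset ℕ) ⊆ c → c ∈ Q' := by
  obtain ⟨t, ht⟩ := Infinite.exists_notMem_finset I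
  obtain ⟨sz', Q', h1, h2, h3, h4, h5, h6, h7, h8, h9, h10⟩ :=
    chart_cut h hij hik hjk hc ht false true (Or.inr (Or.inl rfl))
  simp only [Bool.toNat_true, Bool.toNat_false, add_zero] at h3 h4 h5
  refine ⟨t, sz', Q', ht, h1, h2, h3, ?_, h7, h9 rfl, fun c hcQ hne => ?_⟩
  · intro l hl hli
    by_cases hlj : l = j
    · rw [hlj]; exact h4
    · by_cases hlk : l = k
      · rw [hlk]; omega
      · exact h6 l hl hli hlj hlk
  · refine h10 c hcQ ?_ (fun _ => hne) (fun h => absurd h (by decide))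
    rintro rfl
    apply hne
    intro x hx
    rw [Finset.mem_insert, Finset.mem_singleton] at hx
    rw [Finset.mem_insert, Finset.mem_insert, Finset.mem_singleton]
    exact Or.inr hx

theorem lower {I : Finset ℕ} {sz : ℕ → ℕ} {Q : Finset (Finset ℕ)} (h : Chart I sz Q)
    {i j k : ℕ} (hij : i ≠ j) (hik : i ≠ k) (hjk : j ≠ k) (hc : ({i, j, k} : Finset ℕ) ∈ Q)
    (hcard : 4 ≤ sz k) :
    ∃ (t : ℕ) (sz' : ℕ → ℕ) (Q' : Finset (Finset ℕ)), t ∉ I ∧ Chart (insert t I) sz' Q' ∧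
      sz' t = 3 ∧ sz' k + 1 = sz k ∧ (∀ l ∈ I, l ≠ k → sz' l = sz l) ∧
      ({i, j, t} : Finset ℕ) ∈ Q' := by
  obtain ⟨t, ht⟩ := Infinite.exists_notMem_finset I
  obtain ⟨sz', Q', h1, h2, h3, h4, h5, h6, h7, h8, h9, h10⟩ :=
    chart_cut h hij hik hjk hc ht false false (Or.inr (Or.inr hcard))
  simp only [Bool.toNat_false, add_zero] at h3 h4 h5
  refine ⟨t, sz', Q', ht, h1, h2, h5, ?_, h7⟩
  intro l hl hlk
  by_cases hli : l = i
  · rw [hli]; exact h3
  · by_cases hlj : l = j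
    · rw [hlj]; exact h4
    · exact h6 l hl hli hlj hlk

/-- Raising the facet `i` `n` times. -/
theorem raise_n (n : ℕ) {I : Finset ℕ} {sz : ℕ → ℕ} {Q : Finset (Finset ℕ)} (h : Chart I sz Q)
    {i j k : ℕ} (hij : i ≠ j) (hik : i ≠ k) (hjk : j ≠ k) (hc : ({i, j, k} : Finset ℕ) ∈ Q) :
    ∃ (J : Finset ℕ) (sz' : ℕ → ℕ) (Q' : Finset (Finset ℕ)), Disjoint I J ∧ J.card = n ∧
      Chart (I ∪ J) sz' Q' ∧ (∀ l ∈ J, sz' l = 3) ∧ sz' i = sz i + n ∧
      (∀ l ∈ I, l ≠ i → sz' l = sz l) ∧ (0 < n → ∃ t ∈ J, ({i, j, t} : Finset ℕ) ∈ Q') ∧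
      ∀ c ∈ Q, ¬ ({j, k} : Finset ℕ) ⊆ c → c ∈ Q' := by
  have hsub : ∀ {I : Finset ℕ} {sz : ℕ → ℕ} {Q : Finset (Finset ℕ)}, Chart I sz Q →
      ∀ c ∈ Q, c ⊆ I := by
    intro I sz Q h c hc
    obtain ⟨N, φ, _, _, _, _, _, _, h7⟩ := h
    exact (h7 c hc).1
  induction n generalizing I sz Q j k with
  | zero =>
    refine ⟨∅, sz, Q, Finset.disjoint_empty_right I, Finset.card_empty, ?_, ?_, by omega, ?_, ?_, ?_⟩
    · rw [Finset.union_empty]; exact h
    · intro l hl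
      exact absurd hl (Finset.notMem_empty l)
    · exact fun l _ _ => rfl
    · intro h0
      exact absurd h0 (lt_irrefl 0)
    · exact fun c hcQ _ => hcQ
  | succ n ih =>
    have hsubQ := hsub h _ hc
    have hiI : i ∈ I := hsubQ (by simp)
    have hjI : j ∈ I := hsubQ (by simp)
    have hkI : k ∈ I := hsubQ (by simp)
    obtain ⟨t, sz1, Q1, ht, c1, s1, s2, s3, q1, q2, q3⟩ := raise h hij hik hjk hc
    have hit : i ≠ t := fun e => ht (e ▸ hiI)
    have hjt : j ≠ t := fun e => ht (e ▸ hjI)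
    have hkt : k ≠ t := fun e => ht (e ▸ hkI)
    obtain ⟨J, sz2, Q2, d1, d2, d3, d4, d5, d6, _, d8⟩ := ih c1 hik hit hkt q2
    rw [Finset.disjoint_insert_left] at d1
    refine ⟨insert t J, sz2, Q2, ?_, ?_, ?_, ?_, ?_, ?_, ?_, ?_⟩
    · rw [Finset.disjoint_insert_right]
      exact ⟨ht, d1.2⟩
    · rw [Finset.card_insert_of_notMem d1.1, d2]
    · have e : I ∪ insert t J = insert t I ∪ J := by
        rw [Finset.union_insert, Finset.insert_union]
      rw [e]
      exact d3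
    · intro l hl
      rw [Finset.mem_insert] at hl
      rcases hl with rfl | hl
      · rw [d6 l (Finset.mem_insert_self l I) hit.symm]
        exact s1
      · exact d4 l hl
    · rw [d5, s2]
      omega
    · intro l hl hli
      rw [d6 l (Finset.mem_insert_of_mem hl) hli]
      exact s3 l hl hli
    · intro _
      refine ⟨t, Finset.mem_insert_self t J, d8 _ q1 ?_⟩
      intro hsub'
      have hk' : k ∈ ({i, j, t} : Finset ℕ) := hsub' (by simp)
      simp only [Finset.mem_insert, Finset.mem_singleton] at hk'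
      rcases hk' with h' | h' | h'
      · exact hik h'.symm
      · exact hjk h'.symm
      · exact hkt h'
    · intro c hcQ hne
      refine d8 c (q3 c hcQ hne) ?_
      intro hsub'
      have ht' : t ∈ c := hsub' (by simp)
      exact ht (hsub h c hcQ ht')

/-- Two more triangles. -/
theorem add_two {I : Finset ℕ} {sz : ℕ → ℕ} {Q : Finset (Finset ℕ)} (h : Chart I sz Q)
    (hQ : Q.Nonempty) (h3 : ∀ i ∈ I, 3 ≤ sz i) :
    ∃ (J : Finset ℕ) (sz' : ℕ → ℕ) (Q' : Finset (Finset ℕ)), Disjoint I J ∧ J.card = 2 ∧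
      Chart (I ∪ J) sz' Q' ∧ Q'.Nonempty ∧ (∀ l ∈ J, sz' l = 3) ∧ ∀ l ∈ I, sz' l = sz l := by
  obtain ⟨c, hc⟩ := hQ
  have h' := h
  obtain ⟨N, φ, _, _, _, _, _, _, h7⟩ := h'
  obtain ⟨hcI, i, j, k, rfl, hij, hik, hjk, _⟩ := h7 c hc
  have hiI : i ∈ I := hcI (by simp)
  have hjI : j ∈ I := hcI (by simp)
  obtain ⟨t, sz1, Q1, ht, c1, s1, s2, s3, q1, q2, q3⟩ := raise h hij hik hjk hc
  have hit : i ≠ t := fun e => ht (e ▸ hiI)
  have hjt : j ≠ t := fun e => ht (e ▸ hjI)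
  have hset : ({j, t, i} : Finset ℕ) = {i, j, t} := by
    ext x
    simp only [Finset.mem_insert, Finset.mem_singleton]
    tauto
  have h3i := h3 i hiI
  obtain ⟨u, sz2, Q2, hu, c2, r1, r2, r3, p1⟩ :=
    lower c1 hjt hij.symm hit.symm (hset ▸ q1) (by omega)
  rw [Finset.mem_insert, not_or] at hu
  refine ⟨{t, u}, sz2, Q2, ?_, ?_, ?_, ⟨_, p1⟩, ?_, ?_⟩
  · rw [Finset.disjoint_insert_right, Finset.disjoint_singleton_right]
    exact ⟨ht, hu.2⟩
  · rw [Finset.card_pair (Ne.symm hu.1)]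
  · have e : I ∪ {t, u} = insert u (insert t I) := by
      ext x
      simp only [Finset.mem_union, Finset.mem_insert, Finset.mem_singleton]
      tauto
    rw [e]
    exact c2
  · intro l hl
    rw [Finset.mem_insert, Finset.mem_singleton] at hl
    rcases hl with rfl | rfl
    · rw [r3 l (Finset.mem_insert_self l I) hit.symm]
      exact s1
    · exact r1
  · intro l hl
    by_cases hli : l = i
    · rw [hli]; omega
    · rw [r3 l (Finset.mem_insert_of_mem hl) hli]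
      exact s3 l hl hli

end Pool.Agent.P3F
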