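import Pool.Agent.P3F.Host

/-!
# The states of the construction (MP_a5fcbe_co, module Step)

`St R a b c`: a chart with three marked facets `A, B, C` with `a, b, c` vertices around a triangle `T`; all other facets are triangles (`s` of them,
including `T`) or have the sizes in `R`; the numbers satisfy the balance `- s + ∑ wt R + (a - 10) + (b - 10) + (c - 10) = -20`.

`step`: `three_trunc` at `T` with `(X, Y, Z) = (A, B, C)`: new labels `u` (at `A, B, T`), `v` (at `B, C, T`), `w` (at `A, C, T`).  `T` has `6` vertices,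
`A, B, C` have two more.  Then `H` (at most two further facets) is inserted: the first element by `host` at `v` with `(X, Y, Z) = (B, T, C)`, the second one at `w`
with `(X, Y, Z) = (A, T, C)` (`host` keeps the triples which do not contain `v`, then those which do not contain `w`).  If `H` is empty there is the triple
`{C, T, v}`; otherwise `host` gives a triple `{C, v, x}` (it does not contain `w` if the second `host` is applied... if it does, use the triple `{C, w, x}`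
given by the second `host`).  So in all cases there is a triple `{C, g, x}` with `g = v` or `g = w` in the present `Q`.  Raise `C` (`raise_n`, `i := C`, `j := x`, `k := g`) from at most
`c + 2 + 2 * H.card` up to `K` vertices; the triples `{A, B, u}`, `{B, T, u}`, `{A, T, u}` are kept, since they do not contain `g`.
The new state has `(A, B, C, T) := (T, A, B, u)`: sizes `x ≤ 10`, `y ≤ a + 4`, `z ≤ b + 4`.  The balance: every truncation, `host` and every raise keep it
(`wt 3 = -1`, `wt k = k - 10` for `k ≥ 6`; when `T` is truncated three times its weight goes from `-1` to `6 - 10`, `A, B, C` gain `6`, three new triangles).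
`C` goes to the list: `wt K = K - 10` as `K ≥ 12`.

`step0` is `step` with `H = 0` (better bounds: the sizes are exactly `6`, `a + 2`, `b + 2`).

`St_final`: raise `A` (`raise_n` with `i := A`, `j := B`, `k := T`: keeps `{A, C, T}`, gives `{A, B, t}` if the number of steps is positive), then `B` (with
`i := B`, `j := A`, `k := t`; keeps `{A, C, T}` since `t` is new), then `C` (`i := C`, `j := A`, `k := T`).
-/

set_option autoImplicit false

namespace Pool.Agent.P3F

/-- States: see the comment of the file. -/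
def St (R : Multiset ℕ) (a b c : ℕ) : Prop :=
  ∃ (I : Finset ℕ) (sz : ℕ → ℕ) (Q : Finset (Finset ℕ)) (A B C T s : ℕ), Chart I sz Q ∧
    A ∈ I ∧ B ∈ I ∧ C ∈ I ∧ T ∈ I ∧ A ≠ B ∧ A ≠ C ∧ B ≠ C ∧ A ≠ T ∧ B ≠ T ∧ C ≠ T ∧
    ({A, B, T} : Finset ℕ) ∈ Q ∧ ({B, C, T} : Finset ℕ) ∈ Q ∧ ({A, C, T} : Finset ℕ) ∈ Q ∧
    sz A = a ∧ sz B = b ∧ sz C = c ∧ sz T = 3 ∧
    (I \ {A, B, C}).val.map sz = R + Multiset.replicate s 3 ∧
    -(s : ℤ) + (R.map wt).sum + ((a : ℤ) - 10) + ((b : ℤ) - 10) + ((c : ℤ) - 10) = -20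

/-- Intermediate states: a chart with a set `M` of marked facets. -/
structure Mid (I : Finset ℕ) (sz : ℕ → ℕ) (Q : Finset (Finset ℕ)) (M : Finset ℕ)
    (R : Multiset ℕ) (s : ℕ) : Prop where
  ch : Chart I sz Q
  sub : M ⊆ I
  cen : (I \ M).val.map sz = R + Multiset.replicate s 3
  bal : -(s : ℤ) + (R.map wt).sum + ∑ x ∈ M, ((sz x : ℤ) - 10) = -20

theorem map_congr_on {J : Finset ℕ} {f g : ℕ → ℕ} (h : ∀ l ∈ J, f l = g l) :
    J.val.map f = J.val.map g :=
  Multiset.map_congr rfl fun l hl => h l hl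

theorem map_three {J : Finset ℕ} {f : ℕ → ℕ} (h : ∀ l ∈ J, f l = 3) :
    J.val.map f = Multiset.replicate J.card 3 := by
  rw [map_congr_on (g := fun _ => 3) h, Multiset.map_const']
  rfl

/-- New triangles outside of `I`. -/
theorem cen_union {I J M : Finset ℕ} {sz : ℕ → ℕ} (hIJ : Disjoint I J) (hM : M ⊆ I)
    (h3 : ∀ l ∈ J, sz l = 3) :
    ((I ∪ J) \ M).val.map sz = (I \ M).val.map sz + Multiset.replicate J.card 3 := by
  have h1 : (I ∪ J) \ M = (I \ M) ∪ J := by
    rw [Finset.union_sdiff_distrib, Finset.sdiff_eq_self_of_disjoint (s := J)]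
    exact (hIJ.mono_left hM).symm
  have h2 : Disjoint (I \ M) J := hIJ.mono_left Finset.sdiff_subset
  rw [h1, ← Finset.disjUnion_eq_union _ _ h2, Finset.disjUnion_val, Multiset.map_add, map_three h3]

theorem cen_erase {S : Finset ℕ} {t : ℕ} {sz : ℕ → ℕ} (ht : t ∈ S) :
    S.val.map sz = sz t ::ₘ (S.erase t).val.map sz := by
  rw [← Multiset.map_cons, Finset.erase_val, Multiset.cons_erase ht]

theorem wt_big {K : ℕ} (hK : 12 ≤ K) : wt K = (K : ℤ) - 10 := by
  unfold wt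
  rw [max_eq_left]
  omega

theorem nodup6 {A B C T u g : ℕ} (h : [A, B, C, T, u, g].Nodup) :
    (A ≠ B ∧ A ≠ C ∧ A ≠ T ∧ A ≠ u ∧ A ≠ g) ∧ (B ≠ C ∧ B ≠ T ∧ B ≠ u ∧ B ≠ g) ∧
      (C ≠ T ∧ C ≠ u ∧ C ≠ g) ∧ (T ≠ u ∧ T ≠ g) ∧ u ≠ g := by
  simp only [List.nodup_cons, List.mem_cons, List.not_mem_nil, or_false, not_or, List.nodup_nil,
    and_true, not_false_eq_true] at h
  exact h

theorem nodup7 {A B C T u v w : ℕ} (h : [A, B, C, T, u, v, w].Nodup) :
    (A ≠ B ∧ A ≠ C ∧ A ≠ T ∧ A ≠ u ∧ A ≠ v ∧ A ≠ w) ∧ (B ≠ C ∧ B ≠ T ∧ B ≠ u ∧ B ≠ v ∧ B ≠ w) ∧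
      (C ≠ T ∧ C ≠ u ∧ C ≠ v ∧ C ≠ w) ∧ (T ≠ u ∧ T ≠ v ∧ T ≠ w) ∧ (u ≠ v ∧ u ≠ w) ∧ v ≠ w := by
  simp only [List.nodup_cons, List.mem_cons, List.not_mem_nil, or_false, not_or, List.nodup_nil,
    and_true, not_false_eq_true] at h
  exact h

/-- A marked facet with at least `12` vertices goes to the list. -/
theorem Mid.move {I : Finset ℕ} {sz : ℕ → ℕ} {Q : Finset (Finset ℕ)} {M : Finset ℕ}
    {R : Multiset ℕ} {s : ℕ} (h : Mid I sz Q M R s) {C : ℕ} (hC : C ∈ M) (hK : 12 ≤ sz C) :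
    Mid I sz Q (M.erase C) (sz C ::ₘ R) s := by
  refine ⟨h.ch, (Finset.erase_subset _ _).trans h.sub, ?_, ?_⟩
  · have h1 : C ∈ I \ M.erase C := by
      rw [Finset.mem_sdiff]
      exact ⟨h.sub hC, Finset.notMem_erase _ _⟩
    have h2 : (I \ M.erase C).erase C = I \ M := by
      ext l
      simp only [Finset.mem_erase, Finset.mem_sdiff]
      constructor
      · rintro ⟨h1, h2, h3⟩
        exact ⟨h2, fun h4 => h3 ⟨h1, h4⟩⟩
      · rintro ⟨h1, h2⟩
        exact ⟨fun h3 => h2 (h3 ▸ hC), h1, fun h3 => h2 h3.2⟩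
    rw [cen_erase h1, h2, h.cen, Multiset.cons_add]
  · have h1 := h.bal
    rw [← Finset.add_sum_erase _ _ hC] at h1
    rw [Multiset.map_cons, Multiset.sum_cons, wt_big hK]
    linarith

/-- Raise a marked facet. -/
theorem Mid.raise {I : Finset ℕ} {sz : ℕ → ℕ} {Q : Finset (Finset ℕ)} {M : Finset ℕ}
    {R : Multiset ℕ} {s : ℕ} (h : Mid I sz Q M R s) (n : ℕ) {i j k : ℕ} (hi : i ∈ M)
    (hij : i ≠ j) (hik : i ≠ k) (hjk : j ≠ k) (hc : ({i, j, k} : Finset ℕ) ∈ Q) :
    ∃ (J : Finset ℕ) (sz' : ℕ → ℕ) (Q' : Finset (Finset ℕ)), Disjoint I J ∧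
      Mid (I ∪ J) sz' Q' M R (s + n) ∧ sz' i = sz i + n ∧
      (∀ l ∈ I, l ≠ i → sz' l = sz l) ∧ (0 < n → ∃ t ∈ J, ({i, j, t} : Finset ℕ) ∈ Q') ∧
      ∀ c ∈ Q, ¬ ({j, k} : Finset ℕ) ⊆ c → c ∈ Q' := by
  obtain ⟨J, sz', Q', h1, h2, h3, h4, h5, h6, h7, h8⟩ := raise_n n h.ch hij hik hjk hc
  refine ⟨J, sz', Q', h1, ⟨h3, h.sub.trans Finset.subset_union_left, ?_, ?_⟩, h5, h6, h7, h8⟩
  · rw [cen_union h1 h.sub h4, map_congr_on (f := sz') (g := sz), h.cen, h2, add_assoc,
      ← Multiset.replicate_add]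
    intro l hl
    rw [Finset.mem_sdiff] at hl
    exact h6 l hl.1 fun h9 => hl.2 (h9 ▸ hi)
  · have h9 := h.bal
    rw [← Finset.add_sum_erase _ _ hi] at h9 ⊢
    have h10 : ∑ x ∈ M.erase i, ((sz' x : ℤ) - 10) = ∑ x ∈ M.erase i, ((sz x : ℤ) - 10) := by
      refine Finset.sum_congr rfl fun x hx => ?_
      rw [Finset.mem_erase] at hx
      rw [h6 x (h.sub hx.2) hx.1]
    rw [h10, h5]
    push_cast
    linarith

/-- Insert a facet in a triangle which is not marked, at three marked facets. -/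
theorem Mid.host {I : Finset ℕ} {sz : ℕ → ℕ} {Q : Finset (Finset ℕ)} {M : Finset ℕ}
    {R : Multiset ℕ} {s : ℕ} (h : Mid I sz Q M R s) (hs : 1 ≤ s) {X Y Z t m : ℕ} (hX : X ∈ M)
    (hY : Y ∈ M) (hZ : Z ∈ M) (htI : t ∈ I) (htM : t ∉ M)
    (hXY : X ≠ Y) (hXZ : X ≠ Z) (hYZ : Y ≠ Z) (ht : sz t = 3) (h1 : ({X, Y, t} : Finset ℕ) ∈ Q)
    (h2 : ({Y, Z, t} : Finset ℕ) ∈ Q) (h3 : ({X, Z, t} : Finset ℕ) ∈ Q) (hm : 4 ≤ m) :
    ∃ (J : Finset ℕ) (sz' : ℕ → ℕ) (Q' : Finset (Finset ℕ)) (s' : ℕ), Disjoint I J ∧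
      s ≤ s' + 1 ∧
      Mid (I ∪ J) sz' Q' M (m ::ₘ R) s' ∧ sz' X ≤ sz X + 2 ∧
      sz' Y ≤ sz Y + 2 ∧ sz' Z ≤ sz Z + 2 ∧
      (∀ l ∈ I, l ≠ X → l ≠ Y → l ≠ Z → l ≠ t → sz' l = sz l) ∧
      (∀ d ∈ Q, t ∉ d → d ∈ Q') ∧
      ∃ v, v ≠ Z ∧ v ≠ t ∧ ({Z, t, v} : Finset ℕ) ∈ Q' := by
  have hXt : X ≠ t := fun h => htM (h ▸ hX)
  have hYt : Y ≠ t := fun h => htM (h ▸ hY)
  have hZt : Z ≠ t := fun h => htM (h ▸ hZ)
  obtain ⟨J, sz', Q', a, b, c, g1, g2, g3, g4, gX, gY, gZ, ga, gb, gc, gJ, g5, g6, g7⟩ :=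
    Pool.Agent.P3F.host h.ch hXY hXZ hYZ hXt hYt hZt ht h1 h2 h3 hm
  refine ⟨J, sz', Q', s - 1 + J.card, g1, by omega,
    ⟨g2, h.sub.trans Finset.subset_union_left, ?_, ?_⟩, by omega, by omega, by omega,
    g5, g6, g7⟩
  · have htS : t ∈ I \ M := Finset.mem_sdiff.2 ⟨htI, htM⟩
    have e1 := h.cen
    rw [cen_erase htS, ht] at e1
    have e2 : ((I \ M).erase t).val.map sz' = ((I \ M).erase t).val.map sz := by
      refine map_congr_on fun l hl => ?_
      rw [Finset.mem_erase, Finset.mem_sdiff] at hl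
      exact g5 l hl.2.1 (fun h9 => hl.2.2 (h9 ▸ hX)) (fun h9 => hl.2.2 (h9 ▸ hY))
        (fun h9 => hl.2.2 (h9 ▸ hZ)) hl.1
    rw [cen_union g1 h.sub g3, cen_erase htS, g4, e2]
    have e3 : ((I \ M).erase t).val.map sz = R + Multiset.replicate (s - 1) 3 := by
      have e4 : R + Multiset.replicate s 3 = 3 ::ₘ (R + Multiset.replicate (s - 1) 3) := by
        have e5 : s = (s - 1) + 1 := by omega
        conv_lhs => rw [e5]
        rw [Multiset.replicate_succ, Multiset.add_cons]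
      rw [e4] at e1
      exact (Multiset.cons_inj_right 3).1 e1
    rw [e3, Multiset.cons_add, Multiset.cons_add, add_assoc, ← Multiset.replicate_add]
  · have e9 := h.bal
    have hYe : Y ∈ M.erase X := Finset.mem_erase.2 ⟨hXY.symm, hY⟩
    have hZe : Z ∈ (M.erase X).erase Y :=
      Finset.mem_erase.2 ⟨hYZ.symm, Finset.mem_erase.2 ⟨hXZ.symm, hZ⟩⟩
    rw [← Finset.add_sum_erase _ _ hX, ← Finset.add_sum_erase _ _ hYe,
      ← Finset.add_sum_erase _ _ hZe] at e9 ⊢
    have e10 : ∑ x ∈ ((M.erase X).erase Y).erase Z, ((sz' x : ℤ) - 10) =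
        ∑ x ∈ ((M.erase X).erase Y).erase Z, ((sz x : ℤ) - 10) := by
      refine Finset.sum_congr rfl fun x hx => ?_
      simp only [Finset.mem_erase] at hx
      rw [g5 x (h.sub hx.2.2.2) hx.2.2.1 hx.2.1 hx.1 fun h9 => htM (h9 ▸ hx.2.2.2)]
    rw [e10, gX, gY, gZ, Multiset.map_cons, Multiset.sum_cons]
    have e11 : ((s - 1 + J.card : ℕ) : ℤ) = (s : ℤ) - 1 + (a + b + c + wt m + 1) := by
      rw [← gJ]
      push_cast [Nat.cast_sub hs]
      ring
    rw [e11]
    push_cast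
    linarith

/-- The first three truncations. -/
theorem St.trunc3 {R : Multiset ℕ} {a b c : ℕ} (h : St R a b c) :
    ∃ (I : Finset ℕ) (sz : ℕ → ℕ) (Q : Finset (Finset ℕ)) (A B C T u v w s : ℕ),
      Mid I sz Q {A, B, C, T} R (s + 2) ∧ [A, B, C, T, u, v, w].Nodup ∧
      u ∈ I ∧ v ∈ I ∧ w ∈ I ∧ sz u = 3 ∧ sz v = 3 ∧ sz w = 3 ∧
      sz T = 6 ∧ sz A = a + 2 ∧ sz B = b + 2 ∧ sz C = c + 2 ∧
      ({A, B, u} : Finset ℕ) ∈ Q ∧ ({B, T, u} : Finset ℕ) ∈ Q ∧ ({A, T, u} : Finset ℕ) ∈ Q ∧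
      ({B, C, v} : Finset ℕ) ∈ Q ∧ ({B, T, v} : Finset ℕ) ∈ Q ∧ ({C, T, v} : Finset ℕ) ∈ Q ∧
      ({A, C, w} : Finset ℕ) ∈ Q ∧ ({A, T, w} : Finset ℕ) ∈ Q ∧ ({C, T, w} : Finset ℕ) ∈ Q := by
  obtain ⟨I, sz, Q, A, B, C, T, s, hch, hA, hB, hC, hT, hAB, hAC, hBC, hAT, hBT, hCT, q1, q2, q3,
    sA, sB, sC, sT, hcen, hbal⟩ := h
  obtain ⟨u, v, w, sz', Q', hu, hv, hw, huv, huw, hvw, hch', su, sv, sw, sT', sA', sB', sC', hold,
    hkeep, r1, r2, r3, r4, r5, r6, r7, r8, r9⟩ :=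
    three_trunc hch hAB hAC hBC hAT hBT hCT sT q1 q2 q3
  have hAu : A ≠ u := fun h => hu (h ▸ hA)
  have hAv : A ≠ v := fun h => hv (h ▸ hA)
  have hAw : A ≠ w := fun h => hw (h ▸ hA)
  have hBu : B ≠ u := fun h => hu (h ▸ hB)
  have hBv : B ≠ v := fun h => hv (h ▸ hB)
  have hBw : B ≠ w := fun h => hw (h ▸ hB)
  have hCu : C ≠ u := fun h => hu (h ▸ hC)
  have hCv : C ≠ v := fun h => hv (h ▸ hC)
  have hCw : C ≠ w := fun h => hw (h ▸ hC)
  have hTu : T ≠ u := fun h => hu (h ▸ hT)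
  have hTv : T ≠ v := fun h => hv (h ▸ hT)
  have hTw : T ≠ w := fun h => hw (h ▸ hT)
  have hdis : Disjoint I {u, v, w} := by
    rw [Finset.disjoint_left]
    intro l hl hl'
    simp only [Finset.mem_insert, Finset.mem_singleton] at hl'
    rcases hl' with rfl | rfl | rfl
    · exact hu hl
    · exact hv hl
    · exact hw hl
  have hMI : ({A, B, C, T} : Finset ℕ) ⊆ I := by
    intro l hl
    simp only [Finset.mem_insert, Finset.mem_singleton] at hl
    rcases hl with rfl | rfl | rfl | rfl <;> assumption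
  have h3 : ∀ l ∈ ({u, v, w} : Finset ℕ), sz' l = 3 := by
    intro l hl
    simp only [Finset.mem_insert, Finset.mem_singleton] at hl
    rcases hl with rfl | rfl | rfl <;> assumption
  have hcard : ({u, v, w} : Finset ℕ).card = 3 := by
    rw [Finset.card_insert_of_notMem, Finset.card_insert_of_notMem, Finset.card_singleton]
    · simpa using hvw
    · simp only [Finset.mem_insert, Finset.mem_singleton, not_or]
      exact ⟨huv, huw⟩
  refine ⟨I ∪ {u, v, w}, sz', Q', A, B, C, T, u, v, w, s,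
    ⟨hch', hMI.trans Finset.subset_union_left, ?_, ?_⟩, ?_, ?_, ?_, ?_, su, sv, sw, sT',
    by rw [sA', sA], by rw [sB', sB], by rw [sC', sC], r1, r2, r3, r4, r5, r6, r7, r8, r9⟩
  · rw [cen_union hdis hMI h3, hcard]
    have hTS : T ∈ I \ {A, B, C} := by
      rw [Finset.mem_sdiff]
      refine ⟨hT, ?_⟩
      simp only [Finset.mem_insert, Finset.mem_singleton, not_or]
      exact ⟨hAT.symm, hBT.symm, hCT.symm⟩
    have e0 : (I \ {A, B, C}).erase T = I \ {A, B, C, T} := by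
      ext l
      simp only [Finset.mem_erase, Finset.mem_sdiff, Finset.mem_insert, Finset.mem_singleton]
      tauto
    have e1 := hcen
    rw [cen_erase hTS, sT, e0] at e1
    have e2 : (I \ {A, B, C, T}).val.map sz' = (I \ {A, B, C, T}).val.map sz := by
      refine map_congr_on fun l hl => ?_
      simp only [Finset.mem_sdiff, Finset.mem_insert, Finset.mem_singleton, not_or] at hl
      exact hold l hl.1 hl.2.1 hl.2.2.1 hl.2.2.2.1 hl.2.2.2.2
    rw [e2]
    have e3 : (I \ {A, B, C, T}).val.map sz + Multiset.replicate 3 3 =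
        (3 ::ₘ (I \ {A, B, C, T}).val.map sz) + Multiset.replicate 2 3 := by
      rw [Multiset.replicate_succ, Multiset.add_cons, Multiset.cons_add]
    rw [e3, e1, add_assoc, ← Multiset.replicate_add]
  · rw [Finset.sum_insert, Finset.sum_insert, Finset.sum_insert, Finset.sum_singleton, sA', sB',
      sC', sT', sA, sB, sC]
    · push_cast
      linarith
    · simpa using hCT
    · simp only [Finset.mem_insert, Finset.mem_singleton, not_or]
      exact ⟨hBC, hBT⟩
    · simp only [Finset.mem_insert, Finset.mem_singleton, not_or]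
      exact ⟨hAB, hAC, hAT⟩
  · simp only [List.nodup_cons, List.mem_cons, List.not_mem_nil, or_false, not_or, List.nodup_nil,
      and_true, not_false_eq_true]
    refine ⟨⟨hAB, hAC, hAT, hAu, hAv, hAw⟩, ⟨hBC, hBT, hBu, hBv, hBw⟩, ⟨hCT, hCu, hCv, hCw⟩,
      ⟨hTu, hTv, hTw⟩, ⟨huv, huw⟩, hvw⟩
  · simp
  · simp
  · simp

/-- The last part of a step: raise `C` and move it to the list. -/
theorem Mid.close {I : Finset ℕ} {sz : ℕ → ℕ} {Q : Finset (Finset ℕ)} {A B C T u g x : ℕ}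
    {R : Multiset ℕ} {s K : ℕ} (h : Mid I sz Q {A, B, C, T} R s) (hnd : [A, B, C, T, u, g].Nodup)
    (hu : u ∈ I) (su : sz u = 3)
    (q1 : ({A, B, u} : Finset ℕ) ∈ Q) (q2 : ({B, T, u} : Finset ℕ) ∈ Q)
    (q3 : ({A, T, u} : Finset ℕ) ∈ Q) (hx1 : x ≠ C) (hx2 : x ≠ g)
    (q4 : ({C, g, x} : Finset ℕ) ∈ Q) (hK : 12 ≤ K) (hC : sz C ≤ K) :
    St (K ::ₘ R) (sz T) (sz A) (sz B) := by
  obtain ⟨⟨hAB, hAC, hAT, hAu, hAg⟩, ⟨hBC, hBT, hBu, hBg⟩, ⟨hCT, hCu, hCg⟩, ⟨hTu, hTg⟩, hug⟩ :=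
    nodup6 hnd
  have hCM : C ∈ ({A, B, C, T} : Finset ℕ) := by simp
  have hsub := h.sub
  have hA : A ∈ I := hsub (by simp)
  have hB : B ∈ I := hsub (by simp)
  have hT : T ∈ I := hsub (by simp)
  have q4' : ({C, x, g} : Finset ℕ) ∈ Q := by
    rw [Finset.pair_comm x g]
    exact q4
  obtain ⟨J, sz', Q', h1, h2, h3, h4, h5, h6⟩ :=
    h.raise (K - sz C) hCM hx1.symm hCg hx2 q4'
  have hszC : sz' C = K := by omega
  have h7 := h2.move hCM (by omega)
  rw [hszC] at h7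
  have hM : ({A, B, C, T} : Finset ℕ).erase C = {T, A, B} := by
    ext l
    simp only [Finset.mem_erase, Finset.mem_insert, Finset.mem_singleton]
    constructor
    · rintro ⟨h1, h2⟩
      tauto
    · rintro (rfl | rfl | rfl)
      · exact ⟨hCT.symm, by simp⟩
      · exact ⟨hAC, by simp⟩
      · exact ⟨hBC, by simp⟩
  rw [hM] at h7
  have sT : sz' T = sz T := h4 T hT hCT.symm
  have sA : sz' A = sz A := h4 A hA hAC
  have sB : sz' B = sz B := h4 B hB hBC
  have su' : sz' u = sz u := h4 u hu hCu.symm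
  refine ⟨I ∪ J, sz', Q', T, A, B, u, s + (K - sz C), h7.ch, Finset.mem_union_left _ hT,
    Finset.mem_union_left _ hA, Finset.mem_union_left _ hB, Finset.mem_union_left _ hu,
    hAT.symm, hBT.symm, hAB, hTu, hAu, hBu, ?_, ?_, ?_, sT, sA, sB, by rw [su', su], h7.cen, ?_⟩
  · rw [show ({T, A, u} : Finset ℕ) = {A, T, u} by ext l; simp only [Finset.mem_insert, Finset.mem_singleton]; tauto]
    refine h6 _ q3 fun h => ?_
    have := h (Finset.mem_insert_of_mem (Finset.mem_singleton_self g))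
    simp only [Finset.mem_insert, Finset.mem_singleton] at this
    rcases this with h | h | h
    · exact hAg h.symm
    · exact hTg h.symm
    · exact hug h.symm
  · refine h6 _ q1 fun h => ?_
    have := h (Finset.mem_insert_of_mem (Finset.mem_singleton_self g))
    simp only [Finset.mem_insert, Finset.mem_singleton] at this
    rcases this with h | h | h
    · exact hAg h.symm
    · exact hBg h.symm
    · exact hug h.symm
  · rw [show ({T, B, u} : Finset ℕ) = {B, T, u} by ext l; simp only [Finset.mem_insert, Finset.mem_singleton]; tauto]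
    refine h6 _ q2 fun h => ?_
    have := h (Finset.mem_insert_of_mem (Finset.mem_singleton_self g))
    simp only [Finset.mem_insert, Finset.mem_singleton] at this
    rcases this with h | h | h
    · exact hBg h.symm
    · exact hTg h.symm
    · exact hug h.symm
  · have e := h7.bal
    rw [Finset.sum_insert, Finset.sum_insert, Finset.sum_singleton, sT, sA, sB] at e
    · linarith
    · simpa using hAB
    · simp only [Finset.mem_insert, Finset.mem_singleton, not_or]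
      exact ⟨hAT.symm, hBT.symm⟩

theorem step0 {R : Multiset ℕ} {a b c K : ℕ} (h : St R a b c) (hK : 12 ≤ K) (hc : c + 2 ≤ K) :
    St (K ::ₘ R) 6 (a + 2) (b + 2) := by
  obtain ⟨I, sz, Q, A, B, C, T, u, v, w, s, hM, hnd, hu, hv, hw, su, sv, sw, sT, sA, sB, sC,
    r1, r2, r3, r4, r5, r6, r7, r8, r9⟩ := h.trunc3
  have hnd' : [A, B, C, T, u, v].Nodup := by
    simp only [List.nodup_cons, List.mem_cons, List.not_mem_nil, or_false, not_or, List.nodup_nil,
      and_true, not_false_eq_true] at hnd ⊢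
    tauto
  have hnd2 := nodup6 hnd'
  have hTC : T ≠ C := fun h => hnd2.2.2.1.1 h.symm
  have hTv : T ≠ v := hnd2.2.2.2.1.2
  have := hM.close hnd' hu su r1 r2 r3 hTC hTv (x := T) (g := v)
    (by rw [Finset.pair_comm v T]; exact r6) hK (by rw [sC]; exact hc)
  rwa [sT, sA, sB] at this

theorem step {R : Multiset ℕ} {a b c K : ℕ} (h : St R a b c) (hK : 12 ≤ K) (hc : c + 6 ≤ K)
    (H : Multiset ℕ) (hH : H.card ≤ 2) (hH4 : ∀ m ∈ H, 4 ≤ m) :
    ∃ x y z, x ≤ 10 ∧ y ≤ a + 4 ∧ z ≤ b + 4 ∧ St (K ::ₘ (H + R)) x y z := by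
  obtain h0 | h0 : H.card = 0 ∨ 1 ≤ H.card := by omega
  · rw [Multiset.card_eq_zero] at h0
    subst h0
    rw [zero_add]
    exact ⟨6, a + 2, b + 2, by omega, by omega, by omega, step0 h hK (by omega)⟩
  obtain ⟨I, sz, Q, A, B, C, T, u, v, w, s, hM, hnd, hu, hv, hw, su, sv, sw, sT, sA, sB, sC,
    r1, r2, r3, r4, r5, r6, r7, r8, r9⟩ := h.trunc3
  obtain ⟨m, hm⟩ := Multiset.card_pos_iff_exists_mem.1 h0
  obtain ⟨H', rfl⟩ := Multiset.exists_cons_of_mem hm
  have hndu : [A, B, C, T, u, v].Nodup := by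
    simp only [List.nodup_cons, List.mem_cons, List.not_mem_nil, or_false, not_or, List.nodup_nil,
      and_true, not_false_eq_true] at hnd ⊢
    tauto
  have hndw : [A, B, C, T, u, w].Nodup := by
    simp only [List.nodup_cons, List.mem_cons, List.not_mem_nil, or_false, not_or, List.nodup_nil,
      and_true, not_false_eq_true] at hnd ⊢
    tauto
  obtain ⟨⟨hAB, hAC, hAT, hAu, hAv, hAw⟩, ⟨hBC, hBT, hBu, hBv, hBw⟩, ⟨hCT, hCu, hCv, hCw⟩,
      ⟨hTu, hTv, hTw⟩, ⟨huv, huw⟩, hvw⟩ := nodup7 hnd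
  have hvM : v ∉ ({A, B, C, T} : Finset ℕ) := by
    simp only [Finset.mem_insert, Finset.mem_singleton, not_or]
    exact ⟨hAv.symm, hBv.symm, hCv.symm, hTv.symm⟩
  have hwM : w ∉ ({A, B, C, T} : Finset ℕ) := by
    simp only [Finset.mem_insert, Finset.mem_singleton, not_or]
    exact ⟨hAw.symm, hBw.symm, hCw.symm, hTw.symm⟩
  have hA : A ∈ I := hM.sub (by simp)
  obtain ⟨J, sz1, Q1, s1, g1, gs, gM, gB, gT, gC, gold, gkeep, x, gx1, gx2, gx3⟩ :=
    hM.host (by omega) (X := B) (Y := T) (Z := C) (t := v) (m := m) (by simp) (by simp) (by simp)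
      hv hvM hBT hBC hCT.symm sv r5
      (by rw [show ({T, C, v} : Finset ℕ) = {C, T, v} by
            ext l; simp only [Finset.mem_insert, Finset.mem_singleton]; tauto]; exact r6)
      r4 (hH4 m (Multiset.mem_cons_self _ _))
  have s1A : sz1 A = sz A := gold A hA hAB hAT hAC hAv
  have s1u : sz1 u = 3 := by rw [gold u hu hBu.symm hTu.symm hCu.symm huv, su]
  have s1w : sz1 w = 3 := by rw [gold w hw hBw.symm hTw.symm hCw.symm hvw.symm, sw]
  have k1 : ({A, B, u} : Finset ℕ) ∈ Q1 := by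
    refine gkeep _ r1 ?_
    simp only [Finset.mem_insert, Finset.mem_singleton, not_or]
    exact ⟨hAv.symm, hBv.symm, huv.symm⟩
  have k2 : ({B, T, u} : Finset ℕ) ∈ Q1 := by
    refine gkeep _ r2 ?_
    simp only [Finset.mem_insert, Finset.mem_singleton, not_or]
    exact ⟨hBv.symm, hTv.symm, huv.symm⟩
  have k3 : ({A, T, u} : Finset ℕ) ∈ Q1 := by
    refine gkeep _ r3 ?_
    simp only [Finset.mem_insert, Finset.mem_singleton, not_or]
    exact ⟨hAv.symm, hTv.symm, huv.symm⟩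
  obtain h0 | h0 : H'.card = 0 ∨ 1 ≤ H'.card := by omega
  · rw [Multiset.card_eq_zero] at h0
    subst h0
    have := gM.close (g := v) hndu (Finset.mem_union_left _ hu) s1u k1 k2 k3 gx1 gx2 gx3 hK
      (by omega)
    refine ⟨sz1 T, sz1 A, sz1 B, by omega, by omega, by omega, ?_⟩
    rw [Multiset.cons_add, zero_add]
    exact this
  · obtain ⟨m', hm'⟩ := Multiset.card_pos_iff_exists_mem.1 h0
    obtain ⟨H'', rfl⟩ := Multiset.exists_cons_of_mem hm'
    have hH0 : H'' = 0 := by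
      rw [← Multiset.card_eq_zero]
      simp only [Multiset.card_cons] at hH
      omega
    subst hH0
    have k4 : ({A, T, w} : Finset ℕ) ∈ Q1 := by
      refine gkeep _ r8 ?_
      simp only [Finset.mem_insert, Finset.mem_singleton, not_or]
      exact ⟨hAv.symm, hTv.symm, hvw⟩
    have k5 : ({T, C, w} : Finset ℕ) ∈ Q1 := by
      rw [show ({T, C, w} : Finset ℕ) = {C, T, w} by
            ext l; simp only [Finset.mem_insert, Finset.mem_singleton]; tauto]
      refine gkeep _ r9 ?_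
      simp only [Finset.mem_insert, Finset.mem_singleton, not_or]
      exact ⟨hCv.symm, hTv.symm, hvw⟩
    have k6 : ({A, C, w} : Finset ℕ) ∈ Q1 := by
      refine gkeep _ r7 ?_
      simp only [Finset.mem_insert, Finset.mem_singleton, not_or]
      exact ⟨hAv.symm, hCv.symm, hvw⟩
    obtain ⟨J2, sz2, Q2, s2, f1, fs, fM, fA, fT, fC, fold, fkeep, x2, fx1, fx2, fx3⟩ :=
      gM.host (by omega) (X := A) (Y := T) (Z := C) (t := w) (m := m') (by simp) (by simp)
        (by simp) (Finset.mem_union_left _ hw) hwM hAT hAC hCT.symm s1w k4 k5 k6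
        (hH4 m' (by simp))
    have s2B : sz2 B = sz1 B :=
      fold B (Finset.mem_union_left _ (hM.sub (by simp))) hAB.symm hBT hBC hBw
    have s2u : sz2 u = 3 := by
      rw [fold u (Finset.mem_union_left _ hu) hAu.symm hTu.symm hCu.symm huw, s1u]
    have l1 : ({A, B, u} : Finset ℕ) ∈ Q2 := by
      refine fkeep _ k1 ?_
      simp only [Finset.mem_insert, Finset.mem_singleton, not_or]
      exact ⟨hAw.symm, hBw.symm, huw.symm⟩
    have l2 : ({B, T, u} : Finset ℕ) ∈ Q2 := by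
      refine fkeep _ k2 ?_
      simp only [Finset.mem_insert, Finset.mem_singleton, not_or]
      exact ⟨hBw.symm, hTw.symm, huw.symm⟩
    have l3 : ({A, T, u} : Finset ℕ) ∈ Q2 := by
      refine fkeep _ k3 ?_
      simp only [Finset.mem_insert, Finset.mem_singleton, not_or]
      exact ⟨hAw.symm, hTw.symm, huw.symm⟩
    have := fM.close (g := w) hndw (Finset.mem_union_left _ (Finset.mem_union_left _ hu)) s2u
      l1 l2 l3 fx1 fx2 fx3 hK (by omega)
    refine ⟨sz2 T, sz2 A, sz2 B, by omega, by omega, by omega, ?_⟩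
    rw [show m ::ₘ m' ::ₘ (0 : Multiset ℕ) + R = m' ::ₘ m ::ₘ R by
      rw [Multiset.cons_add, Multiset.cons_add, zero_add, Multiset.cons_swap]]
    exact this

/-- The final result: a chart with the given facets and `s` triangles. -/
def Fin3 (X : Multiset ℕ) : Prop :=
  ∃ (I : Finset ℕ) (sz : ℕ → ℕ) (Q : Finset (Finset ℕ)) (s : ℕ), Chart I sz Q ∧ Q.Nonempty ∧
    I.val.map sz = X + Multiset.replicate s 3 ∧ -(s : ℤ) + (X.map wt).sum = -20

theorem St_final {R : Multiset ℕ} {a b c Ka Kb Kc : ℕ} (h : St R a b c) (ha : a < Ka)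
    (hb : b < Kb) (hc : c < Kc) (h1 : 12 ≤ Ka) (h2 : 12 ≤ Kb) (h3 : 12 ≤ Kc) :
    Fin3 (Ka ::ₘ Kb ::ₘ Kc ::ₘ R) := by
  obtain ⟨I, sz, Q, A, B, C, T, s, hch, hA, hB, hC, hT, hAB, hAC, hBC, hAT, hBT, hCT, q1, q2, q3,
    sA, sB, sC, sT, hcen, hbal⟩ := h
  have hMI : ({A, B, C} : Finset ℕ) ⊆ I := by
    intro l hl
    simp only [Finset.mem_insert, Finset.mem_singleton] at hl
    rcases hl with rfl | rfl | rfl <;> assumption
  have hM : Mid I sz Q {A, B, C} R s := by
    refine ⟨hch, hMI, hcen, ?_⟩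
    rw [Finset.sum_insert, Finset.sum_insert, Finset.sum_singleton, sA, sB, sC]
    · linarith
    · simpa using hBC
    · simp only [Finset.mem_insert, Finset.mem_singleton, not_or]
      exact ⟨hAB, hAC⟩
  obtain ⟨J1, sz1, Q1, d1, M1, e1, o1, n1, k1⟩ :=
    hM.raise (Ka - a) (i := A) (j := B) (k := T) (by simp) hAB hAT hBT q1
  obtain ⟨t, ht, hq⟩ := n1 (by omega)
  have htI : t ∉ I := fun h => Finset.disjoint_left.1 d1 h ht
  have hAt : A ≠ t := fun h => htI (h ▸ hA)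
  have hBt : B ≠ t := fun h => htI (h ▸ hB)
  have hCt : C ≠ t := fun h => htI (h ▸ hC)
  have hTt : T ≠ t := fun h => htI (h ▸ hT)
  have p1 : ({A, C, T} : Finset ℕ) ∈ Q1 := by
    refine k1 _ q3 fun h => ?_
    have := h (Finset.mem_insert_self B _)
    simp only [Finset.mem_insert, Finset.mem_singleton] at this
    rcases this with h | h | h
    · exact hAB h.symm
    · exact hBC h
    · exact hBT h
  obtain ⟨J2, sz2, Q2, d2, M2, e2, o2, n2, k2⟩ :=
    M1.raise (Kb - b) (i := B) (j := A) (k := t) (by simp) hAB.symm hBt hAt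
      (by rw [show ({B, A, t} : Finset ℕ) = {A, B, t} by
            ext l; simp only [Finset.mem_insert, Finset.mem_singleton]; tauto]; exact hq)
  have p2 : ({A, C, T} : Finset ℕ) ∈ Q2 := by
    refine k2 _ p1 fun h => ?_
    have := h (Finset.mem_insert_of_mem (Finset.mem_singleton_self t))
    simp only [Finset.mem_insert, Finset.mem_singleton] at this
    rcases this with h | h | h
    · exact hAt h.symm
    · exact hCt h.symm
    · exact hTt h.symm
  obtain ⟨J3, sz3, Q3, d3, M3, e3, o3, n3, k3⟩ :=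
    M2.raise (Kc - c) (i := C) (j := A) (k := T) (by simp) hAC.symm hCT hAT
      (by rw [show ({C, A, T} : Finset ℕ) = {A, C, T} by
            ext l; simp only [Finset.mem_insert, Finset.mem_singleton]; tauto]; exact p2)
  obtain ⟨t3, -, hq3⟩ := n3 (by omega)
  have hA1 : A ∈ I ∪ J1 := Finset.mem_union_left _ hA
  have hB1 : B ∈ I ∪ J1 := Finset.mem_union_left _ hB
  have hC1 : C ∈ I ∪ J1 := Finset.mem_union_left _ hC
  have zA : sz3 A = Ka := by
    rw [o3 A (Finset.mem_union_left _ hA1) hAC, o2 A hA1 hAB, e1, sA]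
    omega
  have zB : sz3 B = Kb := by
    rw [o3 B (Finset.mem_union_left _ hB1) hBC, e2, o1 B hB hAB.symm, sB]
    omega
  have zC : sz3 C = Kc := by
    rw [e3, o2 C hC1 hBC.symm, o1 C hC hAC.symm, sC]
    omega
  have m1 := M3.move (C := C) (by simp) (by omega)
  have m2 := m1.move (C := B) (by simp [hBC]) (by omega)
  have m3 := m2.move (C := A) (by simp [hAB, hAC]) (by omega)
  have hempty : ((({A, B, C} : Finset ℕ).erase C).erase B).erase A = ∅ := by
    ext l
    simp only [Finset.mem_erase, Finset.mem_insert, Finset.mem_singleton, Finset.notMem_empty]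
    tauto
  rw [hempty, zA, zB, zC] at m3
  refine ⟨_, sz3, Q3, s + (Ka - a) + (Kb - b) + (Kc - c), m3.ch, ⟨_, hq3⟩, ?_, ?_⟩
  · have := m3.cen
    rwa [Finset.sdiff_empty] at this
  · have := m3.bal
    rw [Finset.sum_empty, add_zero] at this
    exact this

end Pool.Agent.P3F
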