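import Pool.Agent.P3F.Aff
import Pool.Agent.P3F.FacIneq
import Pool.Agent.P3F.Step

/-!
# Necessary conditions (MP_a5fcbe_co, module Nec)

`full_census`: the multiset of the numbers of vertices of the facets of `N` is `M = (Fac N).val.map card`.
(1) `M.sum` is even (`fac_even`).  (2) All elements are `≥ 3` (`three_le_card`).  (3) If at least three elements are `≥ 7` then `(M.map wt).sum ≤ -20`:
`fac_ineq` for `S = (Fac N).filter (7 ≤ card)`; `wt k = k - 10` for `k ≥ 7` and `wt k = 2 - k` for `k ≤ 6`.

`nec`: a census `p` is the multiset `Finsupp.toMultiset p` of the numbers of vertices: `pk_eq`, `full_hom`; `M.count k = p k`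
(`Finsupp.count_toMultiset`, `Multiset.count_map`...), so `M = Finsupp.toMultiset p` (`Multiset.ext`).  Then
`M.sum = p.sum fun k m => m * k`, etc.: `Finsupp.toMultiset_sum`-like lemmas, or `Finsupp.toMultiset_map`; or by `Finset.sum_multiset_count`.
-/

set_option autoImplicit false

namespace Pool.Agent.P3F

open Pool.Agent.LPG

variable {W : Type*} [AddCommGroup W] [Module ℝ W] {N : Finset W}

theorem nec_full (h : Full N) : Even ((Fac N).val.map Finset.card).sum ∧
    (∀ k ∈ (Fac N).val.map Finset.card, 3 ≤ k) ∧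
    (3 ≤ (((Fac N).val.map Finset.card).filter fun k => 7 ≤ k).card →
      (((Fac N).val.map Finset.card).map wt).sum ≤ -20) := by
  classical
  refine ⟨fac_even h, ?_, ?_⟩
  · intro k hk
    obtain ⟨F, hF, rfl⟩ := Multiset.mem_map.1 hk
    exact three_le_card hF
  · intro h3
    set S : Finset (Finset W) := (Fac N).filter fun F => 7 ≤ F.card with hS
    have hSs : S ⊆ Fac N := Finset.filter_subset _ _
    have hc : 3 ≤ S.card := by
      have e : (((Fac N).val.map Finset.card).filter fun k => 7 ≤ k).card = S.card := by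
        rw [Multiset.filter_map, Multiset.card_map]
        rfl
      rw [← e]
      exact h3
    have hi := fac_ineq h hSs hc
    have e1 : (((Fac N).val.map Finset.card).map wt).sum = ∑ F ∈ Fac N, wt F.card := by
      rw [Multiset.map_map]
      rfl
    have e2 : ∑ F ∈ Fac N, wt F.card =
        ∑ F ∈ Fac N \ S, wt F.card + ∑ F ∈ S, wt F.card := (Finset.sum_sdiff hSs).symm
    have e3 : ∑ F ∈ S, wt F.card = ∑ F ∈ S, ((F.card : ℤ) - 10) := by
      refine Finset.sum_congr rfl fun F hF => ?_
      have h7 := (Finset.mem_filter.1 hF).2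
      unfold wt
      omega
    have e4 : ∑ F ∈ Fac N \ S, wt F.card = ∑ F ∈ Fac N \ S, (2 - (F.card : ℤ)) := by
      refine Finset.sum_congr rfl fun F hF => ?_
      have hF' := Finset.mem_sdiff.1 hF
      have h7 : ¬ 7 ≤ F.card := fun hh => hF'.2 (Finset.mem_filter.2 ⟨hF'.1, hh⟩)
      unfold wt
      omega
    rw [e1, e2, e3, e4]
    linarith

theorem census_aux (V : Finset (Eu 3)) (k : ℕ) :
    ((Fac (V.map (homE 3))).val.map Finset.card).count k = pk V k := by
  classical
  rw [pk_eq, Multiset.count_map]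
  rw [Finset.card_def, Finset.filter_val]
  congr 1
  refine Multiset.filter_congr fun F _ => ?_
  exact eq_comm

/-- The census of a polytope as a multiset. -/
theorem census_iff (p : ℕ →₀ ℕ) : IsCensus p ↔
    ∃ V : Finset (Eu 3), IsPoly3 V ∧
      (Fac (V.map (homE 3))).val.map Finset.card = Finsupp.toMultiset p := by
  classical
  constructor
  · rintro ⟨V, hV, hp⟩
    refine ⟨V, hV, Multiset.ext.2 fun k => ?_⟩
    rw [census_aux, Finsupp.count_toMultiset, hp k]
  · rintro ⟨V, hV, hp⟩
    refine ⟨V, hV, fun k => ?_⟩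
    rw [← census_aux, hp, Finsupp.count_toMultiset]

theorem nec {p : ℕ →₀ ℕ} (h : IsCensus p) : Even (Finsupp.toMultiset p).sum ∧
    (∀ k ∈ Finsupp.toMultiset p, 3 ≤ k) ∧
    (3 ≤ ((Finsupp.toMultiset p).filter fun k => 7 ≤ k).card →
      ((Finsupp.toMultiset p).map wt).sum ≤ -20) := by
  obtain ⟨V, hV, hp⟩ := (census_iff p).1 h
  rw [← hp]
  exact nec_full (full_hom hV)

end Pool.Agent.P3F
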