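import Pool.Agent.P3F.Cnt
import Pool.Agent.P3F.Ind

/-!
# Polygons (MP_a5fcbe_co, module Pgn)

`Poly N K` with `dim W / K = 3` and `DimGe N K 3` (`N` spans `W` modulo `K`): a polygon.

`nb_two`: every vertex `s` has exactly two neighbours.  At least two: `dim_nb` gives
`DimGe (nb N K s) (ad K s) 2`; applied to `C = nb N K s` this gives `2 ≤ card`.  At most two: the vertex
figure is `Poly (nb N K s) (ad K s)` (`poly_nb`) and `dim W / ad K s = 2` (`s ∉ K` by `not_mem`); three
different elements of `nb N K s` would be independent modulo `ad K s` (`li3`), a contradiction.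

`all_pairs`: `prs_eq_sum` and `nb_two`.

`sign_pairs`: let `f` be a functional which vanishes on `K` and not at any element of `N`, with both
signs on `N`; `U = {f > 0}`, `D = {f < 0}` (a partition of `N`).  By `conn` (for `f` and `- f`) and
`cnt_conn`, `2 |U| ≤ prs U + 2`, `2 |D| ≤ prs D + 2`.  By `prs_union`, with `m` the number of the pairs in
`U × D`, `2 |N| = prs N = prs U + prs D + 2 m`, and by `nb_two`, `2 |U| = prs U + m` (sum over `U` of the number
of neighbours, which are in `U` or in `D`).  So `m ≤ 2`, and `m` is even (`even_pairs`).  `m ≠ 0`: take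
`u ∈ U`, `d ∈ D` and the positive functional `p` of `Poly`; by `conn` for `p` there is a walk from
`u` to `d` in `N`; it has a step from `U` to `D`.  So `m = 2`, `prs U + 2 = 2 |U|`.
-/

set_option autoImplicit false

namespace Pool.Agent.P3F

open Pool.Agent.LPG

variable {W : Type*} [AddCommGroup W] [Module ℝ W] {N : Finset W} {K : Submodule ℝ W}

theorem nb_two (h : Poly N K) (hd : Module.finrank ℝ (W ⧸ K) = 3) (hge : DimGe N K 3) {s : W}
    (hs : s ∈ N) : (nb N K s).card = 2 := by
  classical
  have hP := poly_nb h hs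
  apply le_antisymm
  · by_contra hcon
    push Not at hcon
    obtain ⟨a, ha, b, hb, c, hc, hab, hac, hbc⟩ := Finset.two_lt_card.1 hcon
    have : Module.Finite ℝ (W ⧸ K) := Module.finite_of_finrank_pos (by omega)
    have hli : LinearIndependent ℝ ![K.mkQ s, K.mkQ a, K.mkQ b, K.mkQ c] := by
      rw [Fintype.linearIndependent_iff]
      intro g hg
      have hm : g 0 • s + g 1 • a + g 2 • b + g 3 • c ∈ K := by
        rw [← Submodule.Quotient.mk_eq_zero K]
        simpa [Fin.sum_univ_four] using hg
      have hm' : g 1 • a + g 2 • b + g 3 • c ∈ ad K s := by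
        rw [mem_ad]
        refine ⟨-g 0, ?_⟩
        have he : g 1 • a + g 2 • b + g 3 • c - (-g 0) • s
            = g 0 • s + g 1 • a + g 2 • b + g 3 • c := by
          rw [neg_smul]; abel
        rw [he]; exact hm
      obtain ⟨h1, h2, h3⟩ := li3 hP ha hb hc hab hac hbc hm'
      rw [h1, h2, h3, zero_smul, zero_smul, zero_smul, add_zero, add_zero, add_zero] at hm
      have h0 : g 0 = 0 := by
        by_contra hne
        apply not_mem h hs
        have := K.smul_mem (g 0)⁻¹ hm
        rwa [smul_smul, inv_mul_cancel₀ hne, one_smul] at this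
      intro i
      fin_cases i
      · exact h0
      · exact h1
      · exact h2
      · exact h3
    have hcard := hli.fintype_card_le_finrank
    rw [hd, Fintype.card_fin] at hcard
    omega
  · by_contra hcon
    push Not at hcon
    obtain ⟨v, hv, hvn⟩ := dim_nb h hs hge (nb N K s) hcon
    exact hvn ((le_sup_right : _ ≤ ad K s ⊔ _) (Submodule.subset_span hv))

theorem all_pairs (h : Poly N K) (hd : Module.finrank ℝ (W ⧸ K) = 3) (hge : DimGe N K 3) :
    prs (Adj N K) N = 2 * N.card := by
  classical
  rw [prs_eq_sum]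
  have h1 : ∀ x ∈ N, (N.filter fun y => Adj N K x y).card = 2 := by
    intro x hx
    have h2 := nb_two h hd hge hx
    unfold nb at h2
    convert h2
  rw [Finset.sum_congr rfl h1, Finset.sum_const, smul_eq_mul, mul_comm]

open Classical in
theorem sign_pairs (h : Poly N K) (hd : Module.finrank ℝ (W ⧸ K) = 3) (hge : DimGe N K 3)
    (f : W →ₗ[ℝ] ℝ) (hf : ∀ z ∈ K, f z = 0) (hne : ∀ a ∈ N, f a ≠ 0) (hpos : ∃ a ∈ N, 0 < f a)
    (hneg : ∃ a ∈ N, f a < 0) :
    prs (Adj N K) (N.filter fun a => 0 < f a) + 2 = 2 * (N.filter fun a => 0 < f a).card := by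
  have hsym : ∀ a b, Adj N K a b → Adj N K b a := fun a b => adj_symm
  have hirr : ∀ a, ¬ Adj N K a a := fun a ha => ha.2.2.1 rfl
  set U := N.filter fun a => 0 < f a with hU
  set D := N.filter fun a => f a < 0 with hD
  have hUN : ∀ x ∈ U, x ∈ N := fun x hx => (Finset.mem_filter.1 hx).1
  have hDN : ∀ x ∈ D, x ∈ N := fun x hx => (Finset.mem_filter.1 hx).1
  have hUD : Disjoint U D := by
    rw [Finset.disjoint_left]
    intro x hx hx'
    exact lt_asymm (Finset.mem_filter.1 hx).2 (Finset.mem_filter.1 hx').2
  -- connectivity of U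
  have hcU : 2 * U.card ≤ prs (Adj N K) U + 2 := by
    apply cnt_conn _ hsym hirr
    intro x hx y hy
    have hx' := Finset.mem_filter.1 hx
    have hy' := Finset.mem_filter.1 hy
    refine Relation.ReflTransGen.mono ?_ _ _ (conn h f hf hx'.1 hy'.1 hx'.2 hy'.2)
    rintro p q ⟨h1, h2, h3⟩
    exact ⟨h1, Finset.mem_filter.2 ⟨h1.1, h2⟩, Finset.mem_filter.2 ⟨h1.2.1, h3⟩⟩
  -- number of the pairs between U and D
  set m := ((U ×ˢ D).filter fun p => Adj N K p.1 p.2).card with hm
  have hmsum : m = ∑ x ∈ U, (D.filter fun y => Adj N K x y).card := by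
    rw [hm, Finset.card_filter, Finset.sum_product]
    refine Finset.sum_congr rfl fun x _ => ?_
    rw [Finset.card_filter]
  have hUsum : 2 * U.card = prs (Adj N K) U + m := by
    rw [hmsum, prs_eq_sum, ← Finset.sum_add_distrib]
    have h1 : ∀ x ∈ U, (U.filter fun y => Adj N K x y).card + (D.filter fun y => Adj N K x y).card
        = 2 := by
      intro x hx
      have h2 := nb_two h hd hge (hUN x hx)
      have hdis : Disjoint (U.filter fun y => Adj N K x y) (D.filter fun y => Adj N K x y) :=
        Finset.disjoint_filter_filter hUD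
      rw [← Finset.card_union_of_disjoint hdis, ← h2]
      congr 1
      ext y
      rw [Finset.mem_union, mem_nb]
      constructor
      · rintro (h3 | h3)
        · exact (Finset.mem_filter.1 h3).2
        · exact (Finset.mem_filter.1 h3).2
      · intro h3
        rcases lt_or_gt_of_ne (hne y h3.2.1) with h4 | h4
        · exact Or.inr (Finset.mem_filter.2 ⟨Finset.mem_filter.2 ⟨h3.2.1, h4⟩, h3⟩)
        · exact Or.inl (Finset.mem_filter.2 ⟨Finset.mem_filter.2 ⟨h3.2.1, h4⟩, h3⟩)
    rw [Finset.sum_congr rfl h1, Finset.sum_const, smul_eq_mul, mul_comm]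
  have heven : Even (prs (Adj N K) U) := even_pairs _ hsym hirr U
  have hm0 : m ≠ 0 := by
    intro h0
    have hemp := Finset.card_eq_zero.1 (hm ▸ h0)
    obtain ⟨u, hu, hfu⟩ := hpos
    obtain ⟨d, hd', hfd⟩ := hneg
    obtain ⟨p, hpK, hppos⟩ := h.2
    have hw := conn h p hpK hu hd' (hppos u hu) (hppos d hd')
    have hclosed : ∀ x, Relation.ReflTransGen
        (fun a b => Adj N K a b ∧ 0 < p a ∧ 0 < p b) u x → 0 < f x := by
      intro x hx
      induction hx with
      | refl => exact hfu
      | tail _ hab ih =>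
        rename_i a b _
        by_contra hcon
        push Not at hcon
        have hlt : f b < 0 := lt_of_le_of_ne hcon (hne b hab.1.2.1)
        have hmem : (a, b) ∈ (U ×ˢ D).filter fun p => Adj N K p.1 p.2 := by
          rw [Finset.mem_filter, Finset.mem_product]
          exact ⟨⟨Finset.mem_filter.2 ⟨hab.1.1, ih⟩, Finset.mem_filter.2 ⟨hab.1.2.1, hlt⟩⟩,
            hab.1⟩
        rw [hemp] at hmem
        exact absurd hmem (Finset.notMem_empty _)
    exact lt_asymm hfd (hclosed d hw)
  obtain ⟨t, ht⟩ := heven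
  omega

end Pool.Agent.P3F
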