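import Pool.Agent.P3F.Base

/-!
# The construction (MP_a5fcbe_co, module Run)

`G0 X`: there is a state `St R a b c` and targets `Ka, Kb, Kc` with `R + {Ka, Kb, Kc} = X`, `a + 6 ≤ Ka`, `b + 4 ≤ Kb`, `c + 2 ≤ Kc`, all targets `≥ 12`.
`G1 X`: the same with `a + 14 ≤ Ka`, `b + 10 ≤ Kb`, `c + 6 ≤ Kc` (then the targets are `≥ 12` as well).

`G0_step`: `step0` with `K := Kc`; new targets `(K, Ka, Kb)` for the sizes `(6, a + 2, b + 2)`.
`G1_step`: `step` with `K := Kc`; new targets `(K, Ka, Kb)`, `K ≥ 24`.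
`G0_run`, `G1_run`: induction.  `G1_G0`: weaker inequalities.  `G0_final`: `St_final`.

`exists_fin3`: let `X` be the multiset of the sizes `≥ 4`.  Case 1: all elements are `≥ 12`, `3 ≤ X.card`: `base0`, `G0_run`.
Case 2: `X = M + B + H`, with `H` the elements in `4..11`, `B` the elements in `12..23`, `M` the elements `≥ 24`, `1 ≤ H.card`, `H.card + 5 ≤ 2 * M.card`: so `3 ≤ M.card`.
Take three elements of `M` as the first targets, `base1` with one element of `H` (sizes `≤ 6`, `6 + 14 ≤ 24`), `G1_step` for the other `M.card - 3` elements of `M`,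
each with at most two of the remaining `H.card - 1 ≤ 2 * (M.card - 3)` elements of `H`; then `G0_step` for the elements of `B`.
-/

set_option autoImplicit false

namespace Pool.Agent.P3F

def G0 (X : Multiset ℕ) : Prop :=
  ∃ (R : Multiset ℕ) (a b c Ka Kb Kc : ℕ), St R a b c ∧ Ka ::ₘ Kb ::ₘ Kc ::ₘ R = X ∧
    a + 6 ≤ Ka ∧ b + 4 ≤ Kb ∧ c + 2 ≤ Kc ∧ 12 ≤ Ka ∧ 12 ≤ Kb ∧ 12 ≤ Kc

def G1 (X : Multiset ℕ) : Prop :=
  ∃ (R : Multiset ℕ) (a b c Ka Kb Kc : ℕ), St R a b c ∧ Ka ::ₘ Kb ::ₘ Kc ::ₘ R = X ∧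
    a + 14 ≤ Ka ∧ b + 10 ≤ Kb ∧ c + 6 ≤ Kc ∧ 12 ≤ Ka ∧ 12 ≤ Kb ∧ 12 ≤ Kc

theorem G1_G0 {X : Multiset ℕ} (h : G1 X) : G0 X := by
  obtain ⟨R, a, b, c, Ka, Kb, Kc, h1, h2, h3, h4, h5, h6, h7, h8⟩ := h
  exact ⟨R, a, b, c, Ka, Kb, Kc, h1, h2, by omega, by omega, by omega, h6, h7, h8⟩

theorem G0_step {X : Multiset ℕ} (h : G0 X) {K : ℕ} (hK : 12 ≤ K) : G0 (K ::ₘ X) := by
  obtain ⟨R, a, b, c, Ka, Kb, Kc, h1, rfl, h3, h4, h5, h6, h7, h8⟩ := h
  refine ⟨Kc ::ₘ R, 6, a + 2, b + 2, K, Ka, Kb, step0 h1 h8 h5, rfl, by omega, by omega,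
    by omega, hK, h6, h7⟩

theorem G1_step {X : Multiset ℕ} (h : G1 X) {K : ℕ} (hK : 24 ≤ K) (H : Multiset ℕ)
    (hH : H.card ≤ 2) (hH4 : ∀ m ∈ H, 4 ≤ m) : G1 (K ::ₘ (H + X)) := by
  obtain ⟨R, a, b, c, Ka, Kb, Kc, h1, rfl, h3, h4, h5, h6, h7, h8⟩ := h
  obtain ⟨x, y, z, hx, hy, hz, hst⟩ := step h1 h8 h5 H hH hH4
  refine ⟨Kc ::ₘ (H + R), x, y, z, K, Ka, Kb, hst, ?_, by omega, by omega, by omega, by omega,
    h6, h7⟩
  simp only [← Multiset.singleton_add]
  abel

theorem G0_run {X : Multiset ℕ} (h : G0 X) (B : Multiset ℕ) (hB : ∀ k ∈ B, 12 ≤ k) :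
    G0 (B + X) := by
  induction B using Multiset.induction_on with
  | empty => rwa [zero_add]
  | cons k B ih =>
    rw [Multiset.cons_add]
    exact G0_step (ih fun m hm => hB m (Multiset.mem_cons_of_mem hm))
      (hB k (Multiset.mem_cons_self k B))

/-- A submultiset with `n` elements. -/
theorem run_sub (X : Multiset ℕ) (n : ℕ) (h : n ≤ X.card) : ∃ T, T ≤ X ∧ T.card = n := by
  have h1 : 0 < (Multiset.powersetCard n X).card := by
    rw [Multiset.card_powersetCard]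
    exact Nat.choose_pos h
  obtain ⟨T, hT⟩ := Multiset.card_pos_iff_exists_mem.1 h1
  exact ⟨T, Multiset.mem_powersetCard.1 hT⟩

/-- A multiset of at most `2 (n + 1)` elements splits in parts with at most `2` and `2 n` elements. -/
theorem run_split (H : Multiset ℕ) (n : ℕ) (h : H.card ≤ 2 * (n + 1)) :
    ∃ H1 H2 : Multiset ℕ, H = H1 + H2 ∧ H1.card ≤ 2 ∧ H2.card ≤ 2 * n := by
  by_cases h2 : H.card ≤ 2
  · exact ⟨H, 0, by simp, h2, by simp⟩
  · obtain ⟨H1, hH1, hc⟩ := run_sub H 2 (by omega)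
    obtain ⟨H2, rfl⟩ := Multiset.le_iff_exists_add.1 hH1
    refine ⟨H1, H2, rfl, hc.le, ?_⟩
    rw [Multiset.card_add] at h
    omega

theorem G1_run {X : Multiset ℕ} (h : G1 X) (M H : Multiset ℕ) (hM : ∀ k ∈ M, 24 ≤ k)
    (hH : ∀ k ∈ H, 4 ≤ k) (hc : H.card ≤ 2 * M.card) : G1 (M + H + X) := by
  induction M using Multiset.induction_on generalizing H with
  | empty =>
    have h0 : H = 0 := Multiset.card_eq_zero.1 (by simpa using hc)
    rw [h0, zero_add, zero_add]
    exact h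
  | cons k M ih =>
    rw [Multiset.card_cons] at hc
    obtain ⟨H1, H2, rfl, h1, h2⟩ := run_split H M.card hc
    have h3 := ih H2 (fun m hm => hM m (Multiset.mem_cons_of_mem hm))
      (fun m hm => hH m (Multiset.mem_add.2 (Or.inr hm))) h2
    have h4 := G1_step h3 (hM k (Multiset.mem_cons_self k M)) H1 h1
      (fun m hm => hH m (Multiset.mem_add.2 (Or.inl hm)))
    have e : k ::ₘ M + (H1 + H2) + X = k ::ₘ (H1 + (M + H2 + X)) := by
      simp only [← Multiset.singleton_add]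
      abel
    rw [e]
    exact h4

theorem G0_final {X : Multiset ℕ} (h : G0 X) : Fin3 X := by
  obtain ⟨R, a, b, c, Ka, Kb, Kc, h1, rfl, h3, h4, h5, h6, h7, h8⟩ := h
  exact St_final h1 (by omega) (by omega) (by omega) h6 h7 h8

/-- Three elements of a multiset. -/
theorem run_three (X : Multiset ℕ) (h : 3 ≤ X.card) :
    ∃ (a b c : ℕ) (Y : Multiset ℕ), X = a ::ₘ b ::ₘ c ::ₘ Y := by
  obtain ⟨T, hT, hc⟩ := run_sub X 3 h
  obtain ⟨Y, rfl⟩ := Multiset.le_iff_exists_add.1 hT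
  obtain ⟨a, b, c, rfl⟩ := Multiset.card_eq_three.1 hc
  exact ⟨a, b, c, Y, by simp [← Multiset.singleton_add, add_assoc]⟩

theorem exists_fin3 (X : Multiset ℕ) (h4 : ∀ k ∈ X, 4 ≤ k)
    (hX : ((∀ k ∈ X, 12 ≤ k) ∧ 3 ≤ X.card) ∨
      (X.filter fun k => k ≤ 11).card + 5 ≤ 2 * (X.filter fun k => 24 ≤ k).card) : Fin3 X := by
  have key1 : (∀ k ∈ X, 12 ≤ k) → 3 ≤ X.card → Fin3 X := by
    intro h12 h3
    obtain ⟨a, b, c, Y, rfl⟩ := run_three X h3
    have ha := h12 a (by simp)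
    have hb := h12 b (by simp)
    have hc := h12 c (by simp)
    have h0 : G0 (a ::ₘ b ::ₘ c ::ₘ 0) :=
      ⟨0, 4, 4, 4, a, b, c, base0, rfl, by omega, by omega, by omega, ha, hb, hc⟩
    have h1 := G0_run h0 Y (fun k hk => h12 k (by simp [hk]))
    have e : Y + a ::ₘ b ::ₘ c ::ₘ 0 = a ::ₘ b ::ₘ c ::ₘ Y := by
      simp only [← Multiset.singleton_add]
      abel
    rw [e] at h1
    exact G0_final h1
  rcases hX with ⟨h12, h3⟩ | hX
  · exact key1 h12 h3
  · by_cases hH0 : (X.filter fun k => k ≤ 11).card = 0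
    · have h12 : ∀ k ∈ X, 12 ≤ k := by
        intro k hk
        by_contra hcon
        have h5 : k ∈ X.filter fun k => k ≤ 11 := Multiset.mem_filter.2 ⟨hk, by omega⟩
        rw [Multiset.card_eq_zero.1 hH0] at h5
        exact Multiset.notMem_zero k h5
      refine key1 h12 ?_
      have h6 := Multiset.card_le_card (Multiset.filter_le (fun k => 24 ≤ k) X)
      omega
    · set H := X.filter fun k => k ≤ 11 with hH
      set M := X.filter fun k => 24 ≤ k with hM
      set B := X.filter fun k => 12 ≤ k ∧ k ≤ 23 with hB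
      have hXs : X = M + B + H := by
        have e1 := Multiset.filter_add_not (fun k => k ≤ 11) X
        have e2 := Multiset.filter_add_not (fun k => 24 ≤ k) (X.filter fun k => ¬ k ≤ 11)
        rw [Multiset.filter_filter, Multiset.filter_filter] at e2
        have e3 : (X.filter fun k => 24 ≤ k ∧ ¬ k ≤ 11) = M := by
          rw [hM]
          refine Multiset.filter_congr fun k _ => ?_
          omega
        have e4 : (X.filter fun k => ¬ 24 ≤ k ∧ ¬ k ≤ 11) = B := by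
          rw [hB]
          refine Multiset.filter_congr fun k _ => ?_
          omega
        rw [e3, e4] at e2
        rw [← e2, ← hH] at e1
        rw [← e1]
        abel
      have hM24 : ∀ k ∈ M, 24 ≤ k := fun k hk => (Multiset.mem_filter.1 hk).2
      have hB12 : ∀ k ∈ B, 12 ≤ k := fun k hk => (Multiset.mem_filter.1 hk).2.1
      have hH4 : ∀ k ∈ H, 4 ≤ k := fun k hk => h4 k (Multiset.mem_filter.1 hk).1
      obtain ⟨a, b, c, M', hM'⟩ := run_three M (by omega)
      obtain ⟨m, hm⟩ : ∃ m, m ∈ H := Multiset.card_pos_iff_exists_mem.1 (by omega)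
      obtain ⟨H', hH'⟩ := Multiset.exists_cons_of_mem hm
      have hMc : M.card = M'.card + 3 := by rw [hM']; simp
      have hHc : H.card = H'.card + 1 := by rw [hH']; simp
      obtain ⟨x, y, z, hx, hy, hz, hst⟩ := base1 (hH4 m hm)
      have ha := hM24 a (by rw [hM']; simp)
      have hb := hM24 b (by rw [hM']; simp)
      have hc := hM24 c (by rw [hM']; simp)
      have h0 : G1 (a ::ₘ b ::ₘ c ::ₘ {m}) :=
        ⟨{m}, x, y, z, a, b, c, hst, rfl, by omega, by omega, by omega, by omega, by omega,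
          by omega⟩
      have h1 := G1_run h0 M' H' (fun k hk => hM24 k (by rw [hM']; simp [hk]))
        (fun k hk => hH4 k (by rw [hH']; simp [hk])) (by omega)
      have h2 := G0_run (G1_G0 h1) B hB12
      have e : B + (M' + H' + a ::ₘ b ::ₘ c ::ₘ {m}) = X := by
        rw [hXs, hM', hH']
        simp only [← Multiset.singleton_add]
        abel
      rw [e] at h2
      exact G0_final h2

end Pool.Agent.P3F
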