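import Pool.Agent.P3F.Nec
import Pool.Agent.P3F.Run

/-!
# Sufficient conditions (MP_a5fcbe_co, module Suf)

`fin3_add`: adding `2 n` triangles (`add_two`, induction on `n`): all elements of `X` are `≥ 3`.

`census_of_chart`: if `Chart I sz Q` and `I.val.map sz = Finsupp.toMultiset p` then `IsCensus p`: let `N`, `φ` be as in `Chart`, and `V = N.image Prod.fst`; all `w ∈ N` have `w.2 = 1`,
so `V.map (homE 3) = N`, `Full N`, `of_full_hom`.  `φ` is a bijection of `I` with `Fac N`, so `(Fac N).val.map card = I.val.map sz`; `census_iff`.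

`suf`: let `Y = Finsupp.toMultiset p`, `X = Y.filter (4 ≤ ·)`, `Y = X + replicate m 3` (`m = p 3`; all elements are `≥ 3`).  `exists_fin3 X` gives a chart with
`X + replicate s 3`, `s = 20 + ∑ wt X`.  `∑ wt Y = ∑ wt X - m ≤ -20` gives `s ≤ m`.  Parity: `Y.sum = X.sum + 3 m` is even, and `X.sum + 3 s` is even
(`wt k ≡ k` modulo 2), so `m - s` is even; `fin3_add`.
-/

set_option autoImplicit false

namespace Pool.Agent.P3F

open Pool.Agent.LPG

theorem suf_union_map {I J : Finset ℕ} (hd : Disjoint I J) (sz : ℕ → ℕ) :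
    (I ∪ J).val.map sz = I.val.map sz + J.val.map sz := by
  rw [← Finset.disjUnion_eq_union I J hd, ← Multiset.map_add]
  rfl

theorem suf_const_map {J : Finset ℕ} {sz : ℕ → ℕ} {c : ℕ} (h : ∀ l ∈ J, sz l = c) :
    J.val.map sz = Multiset.replicate J.card c := by
  rw [Multiset.eq_replicate]
  refine ⟨by simp, fun b hb => ?_⟩
  obtain ⟨l, hl, rfl⟩ := Multiset.mem_map.1 hb
  exact h l hl

theorem fin3_add_aux {X : Multiset ℕ} (h : Fin3 X) (h3 : ∀ k ∈ X, 3 ≤ k) (n : ℕ) :
    ∃ (I : Finset ℕ) (sz : ℕ → ℕ) (Q : Finset (Finset ℕ)) (s : ℕ), Chart I sz Q ∧ Q.Nonempty ∧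
      I.val.map sz = X + Multiset.replicate (s + 2 * n) 3 ∧
      -(s : ℤ) + (X.map wt).sum = -20 := by
  induction n with
  | zero =>
    obtain ⟨I, sz, Q, s, h1, h2, h4, h5⟩ := h
    exact ⟨I, sz, Q, s, h1, h2, by simpa using h4, h5⟩
  | succ n ih =>
    obtain ⟨I, sz, Q, s, h1, h2, h4, h5⟩ := ih
    have hsz : ∀ i ∈ I, 3 ≤ sz i := by
      intro i hi
      have : sz i ∈ I.val.map sz := Multiset.mem_map_of_mem sz hi
      rw [h4, Multiset.mem_add] at this
      rcases this with h | h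
      · exact h3 _ h
      · rw [Multiset.eq_of_mem_replicate h]
    obtain ⟨J, sz', Q', hd, hJ, hc, hne, hJ3, hI⟩ := add_two h1 h2 hsz
    refine ⟨I ∪ J, sz', Q', s, hc, hne, ?_, h5⟩
    rw [suf_union_map hd, suf_const_map hJ3, hJ]
    have : I.val.map sz' = I.val.map sz := Multiset.map_congr rfl fun x hx => hI x hx
    rw [this, h4, add_assoc, ← Multiset.replicate_add]
    congr 2

theorem fin3_add {X : Multiset ℕ} (h : Fin3 X) (h3 : ∀ k ∈ X, 3 ≤ k) (n : ℕ) :
    ∃ (I : Finset ℕ) (sz : ℕ → ℕ) (Q : Finset (Finset ℕ)) (s : ℕ), Chart I sz Q ∧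
      I.val.map sz = X + Multiset.replicate (s + 2 * n) 3 ∧ -(s : ℤ) + (X.map wt).sum = -20 := by
  obtain ⟨I, sz, Q, s, h1, -, h4, h5⟩ := fin3_add_aux h h3 n
  exact ⟨I, sz, Q, s, h1, h4, h5⟩

theorem census_of_chart {I : Finset ℕ} {sz : ℕ → ℕ} {Q : Finset (Finset ℕ)} (h : Chart I sz Q)
    {p : ℕ →₀ ℕ} (hp : I.val.map sz = Finsupp.toMultiset p) : IsCensus p := by
  classical
  obtain ⟨N, φ, hfull, hone, hmem, hinj, hsurj, hcard, -⟩ := h
  have hV : (N.image Prod.fst).map (homE 3) = N := by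
    ext w
    simp only [Finset.mem_map, Finset.mem_image]
    constructor
    · rintro ⟨v, ⟨w', hw', rfl⟩, rfl⟩
      have : (homE 3) w'.1 = w' := by
        show (w'.1, (1:ℝ)) = w'
        rw [← hone w' hw']
      rw [this]
      exact hw'
    · intro hw
      refine ⟨w.1, ⟨w, hw, rfl⟩, ?_⟩
      show (w.1, (1:ℝ)) = w
      rw [← hone w hw]
  have hP : IsPoly3 (N.image Prod.fst) := of_full_hom (by rw [hV]; exact hfull)
  refine (census_iff p).2 ⟨N.image Prod.fst, hP, ?_⟩
  rw [hV, ← hp]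
  have hF : Fac N = I.image φ := by
    ext F
    rw [Finset.mem_image]
    exact ⟨fun hF => hsurj F hF, fun ⟨i, hi, he⟩ => he ▸ hmem i hi⟩
  have hF' : (Fac N).val = I.val.map φ := by
    rw [hF]
    exact Finset.image_val_of_injOn fun i hi j hj hij => hinj i hi j hj hij
  rw [hF', Multiset.map_map]
  exact Multiset.map_congr rfl fun i hi => hcard i hi

theorem suf_wt_parity (X : Multiset ℕ) : (2 : ℤ) ∣ (X.map wt).sum - (X.sum : ℤ) := by
  induction X using Multiset.induction_on with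
  | empty => simp
  | cons a X ih =>
    rw [Multiset.map_cons, Multiset.sum_cons, Multiset.sum_cons]
    have ha : (2 : ℤ) ∣ wt a - (a : ℤ) := by
      unfold wt
      rcases max_choice ((a : ℤ) - 10) (2 - (a : ℤ)) with h | h <;> rw [h] <;> omega
    rw [Nat.cast_add]
    omega

theorem suf {p : ℕ →₀ ℕ} (h3 : ∀ k ∈ Finsupp.toMultiset p, 3 ≤ k)
    (hX : ((∀ k ∈ Finsupp.toMultiset p, k = 3 ∨ 12 ≤ k) ∧
        3 ≤ ((Finsupp.toMultiset p).filter fun k => 12 ≤ k).card) ∨
      ((Finsupp.toMultiset p).filter fun k => 4 ≤ k ∧ k ≤ 11).card + 5 ≤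
        2 * ((Finsupp.toMultiset p).filter fun k => 24 ≤ k).card)
    (he : Even (Finsupp.toMultiset p).sum) (hw : ((Finsupp.toMultiset p).map wt).sum ≤ -20) :
    IsCensus p := by
  set Y := Finsupp.toMultiset p with hY
  set X := Y.filter fun k => 4 ≤ k with hXdef
  set m := (Y.filter fun k => ¬ 4 ≤ k).card with hm
  have hrep : (Y.filter fun k => ¬ 4 ≤ k) = Multiset.replicate m 3 := by
    rw [Multiset.eq_replicate]
    refine ⟨rfl, fun b hb => ?_⟩
    rw [Multiset.mem_filter] at hb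
    have := h3 b hb.1
    have := hb.2
    omega
  have hYX : Y = X + Multiset.replicate m 3 := by
    rw [← hrep]
    exact (Multiset.filter_add_not _ _).symm
  have hX4 : ∀ k ∈ X, 4 ≤ k := fun k hk => (Multiset.mem_filter.1 hk).2
  have hfin : Fin3 X := by
    refine exists_fin3 X hX4 ?_
    rcases hX with ⟨h1, h2⟩ | h
    · left
      refine ⟨fun k hk => ?_, h2.trans (Multiset.card_le_card
        (Multiset.monotone_filter_right Y fun b hb => ?_))⟩
      · have := h1 k (Multiset.mem_filter.1 hk).1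
        have := hX4 k hk
        omega
      · have hb' : 12 ≤ b := hb
        show 4 ≤ b
        omega
    · right
      have e1 : (X.filter fun k => k ≤ 11) = Y.filter fun k => 4 ≤ k ∧ k ≤ 11 := by
        rw [hXdef, Multiset.filter_filter]
        exact Multiset.filter_congr fun x _ => and_comm
      have e2 : (X.filter fun k => 24 ≤ k) = Y.filter fun k => 24 ≤ k := by
        rw [hXdef, Multiset.filter_filter]
        exact Multiset.filter_congr fun x _ => ⟨fun h => h.1, fun h => ⟨h, by omega⟩⟩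
      rw [e1, e2]
      exact h
  have hX3 : ∀ k ∈ X, 3 ≤ k := fun k hk => by have := hX4 k hk; omega
  obtain ⟨-, -, -, s0, -, -, -, hs0⟩ := id hfin
  have hpar := suf_wt_parity X
  have hsum : Y.sum = X.sum + m * 3 := by
    rw [hYX, Multiset.sum_add, Multiset.sum_replicate, smul_eq_mul]
  have hwsum : (Y.map wt).sum = (X.map wt).sum - m := by
    rw [hYX, Multiset.map_add, Multiset.sum_add, Multiset.map_replicate, Multiset.sum_replicate]
    have : wt 3 = -1 := by unfold wt; norm_num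
    rw [this]
    simp
    ring
  rw [hsum] at he
  rw [hwsum] at hw
  obtain ⟨r, hr⟩ := he
  obtain ⟨q, hq⟩ := hpar
  have hle : s0 ≤ m := by omega
  have hev : ∃ n, m = s0 + 2 * n := ⟨(m - s0) / 2, by omega⟩
  obtain ⟨n, hn⟩ := hev
  obtain ⟨I, sz, Q, s, hc, hmap, hs⟩ := fin3_add hfin hX3 n
  have hss : s = s0 := by omega
  refine census_of_chart hc ?_
  rw [hmap, hss, ← hn, ← hYX]

end Pool.Agent.P3F
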